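import Pool.Agent.Helper61.HO.Growth
import Pool.Agent.Helper61.HP.SkewConj

/-!
# HO-07  The operator `adL H`

PROOFS. * `ex_adL`: `adL D = (left mult. by D) - (right mult. by D)`, these commute: `exp` of the sum is the product
(`ex_add_op`-like, `NormedSpace.exp_add_of_commute`), `exp (t left_D) K = ex t D * K` (series; or: both sides solve the
same linear differential equation: `t ↦ ex (-t) (adL D) (ex t D * K * ex (-t) D)` has derivative `0`).
* `skew_adL`: `‖ex t D * K * ex (-t) D‖ ≤ ‖K‖` (`Skew.norm_conj_le`), `skew_of_norm_ex`. `herm_adL`: `i adL H = adL (i H)`.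
* `SpIn.mul`: put `s = (α + β) / 2`, `r = (β - α) / 2`, the same with primes. By `SpIn.growth` the norms of
  `(ad - s)^k x`, `(ad - s')^l y` are `≤ C ρ^k`, `C' ρ'^l` for `ρ > r`, `ρ' > r'`. `adL H` is a derivation, so
  `(ad - (s + s'))^n (x y) = ∑_k C(n,k) (ad - s)^k x * (ad - s')^(n-k) y` (induction), norm `≤ C C' (ρ + ρ')^n`;
  `SpIn.of_growth` for `s + s'`, `r + r'`.
* `SpIn.lie`: from `mul`.
-/

set_option autoImplicit false

open Filter Topology MeasureTheory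

namespace Pool.Agent.Helper61.HP

universe u

variable {E : Type u} [NormedAddCommGroup E] [NormedSpace ℂ E] {H D x y : E →L[ℂ] E}

theorem adL_apply (H K : E →L[ℂ] E) : adL H K = lie H K := by
  rfl

theorem adL_smul (c : ℂ) (H : E →L[ℂ] E) : adL (c • H) = c • adL H := by
  ext K : 1
  change (c • H) * K - K * (c • H) = c • (H * K - K * H)
  rw [smul_mul_assoc, mul_smul_comm, smul_sub]

theorem adL_add (H K : E →L[ℂ] E) : adL (H + K) = adL H + adL K := by
  ext M : 1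
  change (H + K) * M - M * (H + K) = (H * M - M * H) + (K * M - M * K)
  noncomm_ring

theorem norm_adL_le (H : E →L[ℂ] E) : ‖adL H‖ ≤ 2 * ‖H‖ := by
  refine ContinuousLinearMap.opNorm_le_bound _ (by positivity) fun K => ?_
  change ‖H * K - K * H‖ ≤ 2 * ‖H‖ * ‖K‖
  have h1 : ‖H * K‖ ≤ ‖H‖ * ‖K‖ := norm_mul_le H K
  have h2 : ‖K * H‖ ≤ ‖K‖ * ‖H‖ := norm_mul_le K H
  have h3 := norm_sub_le (H * K) (K * H)
  linarith [mul_comm ‖K‖ ‖H‖]

theorem adL_mul (H x y : E →L[ℂ] E) : adL H (x * y) = adL H x * y + x * adL H y := by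
  change H * (x * y) - (x * y) * H = (H * x - x * H) * y + x * (H * y - y * H)
  noncomm_ring

theorem adL_lie (H x y : E →L[ℂ] E) : adL H (lie x y) = lie (adL H x) y + lie x (adL H y) := by
  change H * (x * y - y * x) - (x * y - y * x) * H =
    ((H * x - x * H) * y - y * (H * x - x * H)) + (x * (H * y - y * H) - (H * y - y * H) * x)
  noncomm_ring

/-- commuting operators have commuting `adL` -/
theorem adL_comm {H K : E →L[ℂ] E} (h : H * K = K * H) : adL H * adL K = adL K * adL H := by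
  ext M : 1
  change H * (K * M - M * K) - (K * M - M * K) * H = K * (H * M - M * H) - (H * M - M * H) * K
  have e : H * (K * M - M * K) - (K * M - M * K) * H -
      (K * (H * M - M * H) - (H * M - M * H) * K) =
      (H * K - K * H) * M - M * (H * K - K * H) := by noncomm_ring
  rw [h, sub_self, zero_mul, mul_zero, sub_self] at e
  exact sub_eq_zero.1 e

variable [CompleteSpace E]

private theorem ex_mulLeft (D K : E →L[ℂ] E) (t : ℝ) :
    ex t (ContinuousLinearMap.mul ℂ (E →L[ℂ] E) D) K = ex t D * K := by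
  have h1 := (ContinuousLinearMap.apply ℂ (E →L[ℂ] E) K).hasSum
    (ex_hasSum t (ContinuousLinearMap.mul ℂ (E →L[ℂ] E) D))
  have h2 := (ex_hasSum t D).mul_right K
  have h3 : ∀ n : ℕ, (((t : ℂ) • ContinuousLinearMap.mul ℂ (E →L[ℂ] E) D) ^ n) K =
      ((t : ℂ) • D) ^ n * K := by
    intro n
    induction n with
    | zero => simp
    | succ n ih =>
      rw [pow_succ', pow_succ', mul_assoc, ← ih]
      change (t : ℂ) • (D * _) = ((t : ℂ) • D) * _
      rw [smul_mul_assoc]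
      rfl
  have h4 : (⇑(ContinuousLinearMap.apply ℂ (E →L[ℂ] E) K) ∘ fun n : ℕ =>
      ((n.factorial : ℂ)⁻¹) • ((t : ℂ) • ContinuousLinearMap.mul ℂ (E →L[ℂ] E) D) ^ n) =
      fun n : ℕ => ((n.factorial : ℂ)⁻¹) • ((t : ℂ) • D) ^ n * K := by
    funext n
    change ((n.factorial : ℂ)⁻¹) • ((((t : ℂ) • ContinuousLinearMap.mul ℂ (E →L[ℂ] E) D) ^ n) K) = _
    rw [h3, smul_mul_assoc]
  have h5 : HasSum (fun n : ℕ => ((n.factorial : ℂ)⁻¹) • ((t : ℂ) • D) ^ n * K)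
      (ContinuousLinearMap.apply ℂ (E →L[ℂ] E) K
        (ex t (ContinuousLinearMap.mul ℂ (E →L[ℂ] E) D))) := by
    rw [← h4]
    exact h1
  exact h5.unique h2

private theorem ex_mulRight (D K : E →L[ℂ] E) (t : ℝ) :
    ex t ((ContinuousLinearMap.mul ℂ (E →L[ℂ] E)).flip D) K = K * ex t D := by
  have h1 := (ContinuousLinearMap.apply ℂ (E →L[ℂ] E) K).hasSum
    (ex_hasSum t ((ContinuousLinearMap.mul ℂ (E →L[ℂ] E)).flip D))
  have h2 := (ex_hasSum t D).mul_left K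
  have h3 : ∀ n : ℕ, (((t : ℂ) • (ContinuousLinearMap.mul ℂ (E →L[ℂ] E)).flip D) ^ n) K =
      K * ((t : ℂ) • D) ^ n := by
    intro n
    induction n with
    | zero => simp
    | succ n ih =>
      rw [pow_succ', pow_succ, ← mul_assoc, ← ih]
      change (t : ℂ) • (_ * D) = _ * ((t : ℂ) • D)
      rw [mul_smul_comm]
      rfl
  have h4 : (⇑(ContinuousLinearMap.apply ℂ (E →L[ℂ] E) K) ∘ fun n : ℕ =>
      ((n.factorial : ℂ)⁻¹) • ((t : ℂ) • (ContinuousLinearMap.mul ℂ (E →L[ℂ] E)).flip D) ^ n) =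
      fun n : ℕ => K * (((n.factorial : ℂ)⁻¹) • ((t : ℂ) • D) ^ n) := by
    funext n
    change ((n.factorial : ℂ)⁻¹) •
      ((((t : ℂ) • (ContinuousLinearMap.mul ℂ (E →L[ℂ] E)).flip D) ^ n) K) = _
    rw [h3, mul_smul_comm]
  have h5 : HasSum (fun n : ℕ => K * (((n.factorial : ℂ)⁻¹) • ((t : ℂ) • D) ^ n))
      (ContinuousLinearMap.apply ℂ (E →L[ℂ] E) K
        (ex t ((ContinuousLinearMap.mul ℂ (E →L[ℂ] E)).flip D))) := by
    rw [← h4]
    exact h1
  exact h5.unique h2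

theorem ex_adL (D K : E →L[ℂ] E) (t : ℝ) : ex t (adL D) K = ex t D * K * ex (-t) D := by
  have e : adL D = ContinuousLinearMap.mul ℂ (E →L[ℂ] E) D +
      -((ContinuousLinearMap.mul ℂ (E →L[ℂ] E)).flip D) := by
    rw [← sub_eq_add_neg]
    rfl
  have hc : ContinuousLinearMap.mul ℂ (E →L[ℂ] E) D *
      -((ContinuousLinearMap.mul ℂ (E →L[ℂ] E)).flip D) =
      -((ContinuousLinearMap.mul ℂ (E →L[ℂ] E)).flip D) *
        ContinuousLinearMap.mul ℂ (E →L[ℂ] E) D := by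
    ext M : 1
    change D * (-(M * D)) = -((D * M) * D)
    noncomm_ring
  rw [e, ex_add_op hc, ex_neg_op]
  change ex t (ContinuousLinearMap.mul ℂ (E →L[ℂ] E) D)
    (ex (-t) ((ContinuousLinearMap.mul ℂ (E →L[ℂ] E)).flip D) K) = _
  rw [ex_mulRight, ex_mulLeft, mul_assoc]

theorem skew_adL (hD : Skew D) : Skew (adL D) := by
  refine skew_of_norm_ex fun t K => ?_
  rw [ex_adL]
  exact hD.norm_conj_le t K

theorem herm_adL (hH : Herm H) : Herm (adL H) := by
  unfold Herm at *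
  rw [← adL_smul]
  exact skew_adL hH

private theorem mul_growth (a b c : (E →L[ℂ] E) →L[ℂ] (E →L[ℂ] E))
    (hstep : ∀ u v : E →L[ℂ] E, c (u * v) = a u * v + u * b v) (n : ℕ) :
    ∀ (x y : E →L[ℂ] E) (C C' ρ ρ' : ℝ), 0 ≤ ρ → 0 ≤ ρ' →
      (∀ k : ℕ, ‖(a ^ k) x‖ ≤ C * ρ ^ k) → (∀ k : ℕ, ‖(b ^ k) y‖ ≤ C' * ρ' ^ k) →
      ‖(c ^ n) (x * y)‖ ≤ C * C' * (ρ + ρ') ^ n := by
  induction n with
  | zero =>
    intro x y C C' ρ ρ' _ _ hx hy
    have h1 := hx 0
    have h2 := hy 0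
    simp only [pow_zero, one_apply_eq_self, mul_one] at h1 h2 ⊢
    exact (norm_mul_le x y).trans (mul_le_mul h1 h2 (norm_nonneg _) ((norm_nonneg _).trans h1))
  | succ n ih =>
    intro x y C C' ρ ρ' hρ hρ' hx hy
    have e : (c ^ (n + 1)) (x * y) = (c ^ n) (a x * y) + (c ^ n) (x * b y) := by
      rw [pow_succ, ← map_add, ← hstep]
      rfl
    have h1 := ih (a x) y (C * ρ) C' ρ ρ' hρ hρ' (fun k => by
      have h := hx (k + 1)
      rw [pow_succ, pow_succ'] at h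
      calc ‖(a ^ k) (a x)‖ ≤ C * (ρ * ρ ^ k) := h
        _ = C * ρ * ρ ^ k := by ring) hy
    have h2 := ih x (b y) C (C' * ρ') ρ ρ' hρ hρ' hx (fun k => by
      have h := hy (k + 1)
      rw [pow_succ, pow_succ'] at h
      calc ‖(b ^ k) (b y)‖ ≤ C' * (ρ' * ρ' ^ k) := h
        _ = C' * ρ' * ρ' ^ k := by ring)
    rw [e]
    refine (norm_add_le _ _).trans ?_
    calc ‖(c ^ n) (a x * y)‖ + ‖(c ^ n) (x * b y)‖
        ≤ C * ρ * C' * (ρ + ρ') ^ n + C * (C' * ρ') * (ρ + ρ') ^ n := add_le_add h1 h2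
      _ = C * C' * (ρ + ρ') ^ (n + 1) := by ring

theorem SpIn.mul (hH : Herm H) {α β α' β' : ℝ} (h : α ≤ β) (h' : α' ≤ β')
    (hx : SpIn (adL H) α β x) (hy : SpIn (adL H) α' β' y) :
    SpIn (adL H) (α + α') (β + β') (x * y) := by
  have hA : Herm (adL H) := herm_adL hH
  obtain ⟨s, hs⟩ : ∃ s : ℝ, s = (α + β) / 2 := ⟨_, rfl⟩
  obtain ⟨s', hs'⟩ : ∃ s' : ℝ, s' = (α' + β') / 2 := ⟨_, rfl⟩
  obtain ⟨r, hr1⟩ : ∃ r : ℝ, r = (β - α) / 2 := ⟨_, rfl⟩
  obtain ⟨r', hr1'⟩ : ∃ r' : ℝ, r' = (β' - α') / 2 := ⟨_, rfl⟩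
  have hr : 0 ≤ r := by linarith
  have hr' : 0 ≤ r' := by linarith
  have e1 : α = s - r := by rw [hs, hr1]; ring
  have e2 : β = s + r := by rw [hs, hr1]; ring
  have e3 : α' = s' - r' := by rw [hs', hr1']; ring
  have e4 : β' = s' + r' := by rw [hs', hr1']; ring
  clear hs hs' hr1 hr1'
  subst e1 e2 e3 e4
  have e5 : s - r + (s' - r') = (s + s') - (r + r') := by ring
  have e6 : s + r + (s' + r') = (s + s') + (r + r') := by ring
  rw [e5, e6]
  refine SpIn.of_growth hA (by linarith) fun r'' hr'' => ?_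
  obtain ⟨C, hC⟩ := SpIn.growth hA hr hx (r' := r + (r'' - (r + r')) / 2) (by linarith)
  obtain ⟨C', hC'⟩ := SpIn.growth hA hr' hy (r' := r' + (r'' - (r + r')) / 2) (by linarith)
  refine ⟨C * C', fun n => ?_⟩
  have h0 : (((s + s' : ℝ) : ℂ)) = (s : ℂ) + (s' : ℂ) := by push_cast; rfl
  have hstep : ∀ u v : E →L[ℂ] E,
      (adL H - (((s + s' : ℝ) : ℂ)) • (1 : (E →L[ℂ] E) →L[ℂ] (E →L[ℂ] E))) (u * v) =
      ((adL H - (s : ℂ) • (1 : (E →L[ℂ] E) →L[ℂ] (E →L[ℂ] E))) u) * v +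
        u * ((adL H - (s' : ℂ) • (1 : (E →L[ℂ] E) →L[ℂ] (E →L[ℂ] E))) v) := by
    intro u v
    rw [h0]
    change adL H (u * v) - ((s : ℂ) + (s' : ℂ)) • (u * v) =
      (adL H u - (s : ℂ) • u) * v + u * (adL H v - (s' : ℂ) • v)
    rw [adL_mul, sub_mul, mul_sub, smul_mul_assoc, mul_smul_comm, add_smul]
    abel
  have h1 := mul_growth _ _ _ hstep n x y C C' (r + (r'' - (r + r')) / 2)
    (r' + (r'' - (r + r')) / 2) (by linarith) (by linarith) hC hC'
  have h2 : r + (r'' - (r + r')) / 2 + (r' + (r'' - (r + r')) / 2) = r'' := by ring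
  rw [h2] at h1
  exact h1

theorem SpIn.lie (hH : Herm H) {α β α' β' : ℝ} (h : α ≤ β) (h' : α' ≤ β')
    (hx : SpIn (adL H) α β x) (hy : SpIn (adL H) α' β' y) :
    SpIn (adL H) (α + α') (β + β') (lie x y) := by
  have h1 := SpIn.mul hH h h' hx hy
  have h2 := SpIn.mul hH h' h hy hx
  rw [add_comm α' α, add_comm β' β] at h2
  exact h1.sub h2

end Pool.Agent.Helper61.HP
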