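import Pool.Agent.Helper61.HO.SineBound

/-!
# HO-17  Anisotropy

PROOF. Suppose `K ≠ 0`. Let `s > 0` be real. (a) `sine_bound` for `x 0 = s K`, `x' 0 = s K'`, `x n = x' n = 0` for `n ≥ 1`:
`lie (lie K K') K = 0` gives `h1` for `n = 0`; `lie (lie K K') K' = 0` (`h2`): the star of `lie (lie K K') K` is
`lie K' (lie K K')` (`Pr.lie`: the star of `lie K K'` is `lie K K'`), so `lie K' (lie K K') = 0` by `Pr.unique` and
`Pr.zero`. `G = s K`, `G' = s K'`. So `s ‖K + K'‖ ≤ ‖h‖ + s ‖r + r'‖`, `r = lie h K - K`, `r' = lie K' h - K'`, `Pr 𝔥 r r'`,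
`‖r'‖ ≤ 6 ‖r‖` (`Pr.norm_le`), `‖r + r'‖ ≤ 7 ε ‖K‖`.
(b) the same for `i K`, with the star `- i K'`: `s ‖i K - i K'‖ ≤ ‖h‖ + 7 s ε ‖K‖`.
Hence `2 s ‖K‖ ≤ 2 ‖h‖ + 14 s ε ‖K‖` for all `s > 0`, so `‖K‖ ≤ 7 ε ‖K‖ < ‖K‖`: contradiction.
-/

set_option autoImplicit false

open Filter Topology

namespace Pool.Agent.Helper61.HP

universe u

variable {E : Type u} [NormedAddCommGroup E] [NormedSpace ℂ E]

namespace Aniso

theorem lie_smul_smul (a b : ℂ) (X Y : E →L[ℂ] E) : lie (a • X) (b • Y) = (a * b) • lie X Y := by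
  unfold lie
  rw [smul_mul_smul_comm, smul_mul_smul_comm, smul_sub, mul_comm b a]

theorem lie_smul_left (a : ℂ) (X Y : E →L[ℂ] E) : lie (a • X) Y = a • lie X Y := by
  unfold lie
  rw [smul_mul_assoc, mul_smul_comm, smul_sub]

theorem lie_smul_right (a : ℂ) (X Y : E →L[ℂ] E) : lie X (a • Y) = a • lie X Y := by
  unfold lie
  rw [smul_mul_assoc, mul_smul_comm, smul_sub]

theorem lie_zero_left (Y : E →L[ℂ] E) : lie 0 Y = 0 := by
  unfold lie
  simp

theorem lie_zero_right (X : E →L[ℂ] E) : lie X 0 = 0 := by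
  unfold lie
  simp

theorem lie_self (X : E →L[ℂ] E) : lie X X = 0 := by
  unfold lie
  simp

theorem lie_antisymm (X Y : E →L[ℂ] E) : lie X Y = -lie Y X := by
  unfold lie
  rw [neg_sub]

variable [CompleteSpace E] {𝔥 : Set (E →L[ℂ] E)}

theorem key (hh : HLie 𝔥) {h K K' : E →L[ℂ] E} (hm : h ∈ 𝔥) (hK : Pr 𝔥 K K') {ε : ℝ}
    (hn : ‖lie h K - K‖ ≤ ε * ‖K‖) (h0 : lie (lie K K') K = 0) (s : ℝ) (hs : 0 < s) :
    s * ‖K + K'‖ ≤ ‖h‖ + 7 * s * ε * ‖K‖ := by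
  have h0' : lie (lie K K') K' = 0 := by
    have h1 : Pr 𝔥 (lie K K') (lie K K') := Pr.lie hh hK (Pr.symm hh hK)
    have h2 : Pr 𝔥 (lie (lie K K') K) (lie K' (lie K K')) := Pr.lie hh h1 hK
    rw [h0] at h2
    have h3 := Pr.unique hh h2 (Pr.zero hh)
    rw [lie_antisymm, h3, neg_zero]
  have hsc : (starRingEnd ℂ) (s : ℂ) = (s : ℂ) := Complex.conj_ofReal s
  have hsk : Skew ((s : ℂ) • K - (s : ℂ) • K') := by
    have h1 := Pr.smul hh hK (s : ℂ)
    rw [hsc] at h1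
    exact Pr.skew hh h1
  have hr : Pr 𝔥 (lie h K - K) (lie K' h - K') := Pr.sub hh (Pr.lie hh (Pr.of_mem hh hm) hK) hK
  have hr' := Pr.norm_le hh hr
  obtain ⟨x, hx⟩ : ∃ x : ℕ → E →L[ℂ] E, x = fun n => if n = 0 then (s : ℂ) • K else 0 := ⟨_, rfl⟩
  obtain ⟨x', hx'⟩ : ∃ x : ℕ → E →L[ℂ] E, x = fun n => if n = 0 then (s : ℂ) • K' else 0 := ⟨_, rfl⟩
  have x0 : x 0 = (s : ℂ) • K := by rw [hx]; simp
  have x0' : x' 0 = (s : ℂ) • K' := by rw [hx']; simp
  have xn : ∀ n, x (n + 1) = 0 := by intro n; rw [hx]; simp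
  have xn' : ∀ n, x' (n + 1) = 0 := by intro n; rw [hx']; simp
  have hb := sine_bound (x := x) (x' := x') (by rw [x0, x0']; exact hsk) ?_ ?_ ?_ ?_ ?_ h
    (G := (s : ℂ) • K) (G' := (s : ℂ) • K') ?_ ?_
  · rw [x0, x0', ← smul_add, norm_smul, lie_smul_right, lie_smul_left, ← smul_sub, ← smul_sub,
      ← smul_add, norm_smul, Complex.norm_real, Real.norm_of_nonneg hs.le] at hb
    have h1 : ‖(lie h K - K) + (lie K' h - K')‖ ≤ 7 * (ε * ‖K‖) := by
      calc ‖(lie h K - K) + (lie K' h - K')‖ ≤ ‖lie h K - K‖ + ‖lie K' h - K'‖ := norm_add_le _ _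
        _ ≤ ‖lie h K - K‖ + 6 * ‖lie h K - K‖ := by linarith
        _ ≤ 7 * (ε * ‖K‖) := by linarith
    nlinarith [mul_le_mul_of_nonneg_left h1 hs.le]
  · intro n
    rcases n with _ | n
    · exact lie_self _
    · rw [xn, lie_zero_right]
  · intro n
    rcases n with _ | n
    · exact lie_self _
    · rw [xn', lie_zero_right]
  · intro n
    rcases n with _ | n
    · rfl
    · rw [xn, xn', lie_zero_left, lie_zero_right]
  · intro n
    rcases n with _ | n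
    · rw [xn, x0, x0', lie_smul_smul, lie_smul_smul, h0, smul_zero, smul_zero]
    · rw [xn, xn, lie_zero_left, lie_zero_left, smul_zero]
  · intro n
    rcases n with _ | n
    · rw [xn', x0, x0', lie_smul_smul, lie_smul_smul, h0', smul_zero, smul_zero, neg_zero]
    · rw [xn, xn', lie_zero_left, lie_zero_left, smul_zero, neg_zero]
  · have h1 := hasSum_single (f := fun n : ℕ => ((-4 : ℂ) ^ n * ((2 * n + 1).factorial : ℂ)⁻¹) • x n) 0
      (by
        intro n hn0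
        obtain ⟨m, rfl⟩ := Nat.exists_eq_succ_of_ne_zero hn0
        simp only [Nat.succ_eq_add_one, xn, smul_zero])
    simpa [x0] using h1
  · have h1 := hasSum_single (f := fun n : ℕ => ((-4 : ℂ) ^ n * ((2 * n + 1).factorial : ℂ)⁻¹) • x' n) 0
      (by
        intro n hn0
        obtain ⟨m, rfl⟩ := Nat.exists_eq_succ_of_ne_zero hn0
        simp only [Nat.succ_eq_add_one, xn', smul_zero])
    simpa [x0'] using h1

end Aniso

variable [CompleteSpace E] {𝔥 : Set (E →L[ℂ] E)}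

theorem aniso (hh : HLie 𝔥) {h K K' : E →L[ℂ] E} (hm : h ∈ 𝔥) (hK : Pr 𝔥 K K') {ε : ℝ}
    (hε : 0 ≤ ε) (hε7 : 7 * ε < 1) (hn : ‖lie h K - K‖ ≤ ε * ‖K‖)
    (h0 : lie (lie K K') K = 0) : K = 0 := by
  by_contra hne
  have hK0 : 0 < ‖K‖ := norm_pos_iff.2 hne
  have hI : ‖Complex.I‖ = 1 := Complex.norm_I
  have hp : 0 < ‖K‖ * (1 - 7 * ε) := mul_pos hK0 (by linarith)
  obtain ⟨s, hs⟩ : ∃ s : ℝ, s = (‖h‖ + 1) / (‖K‖ * (1 - 7 * ε)) := ⟨_, rfl⟩
  have hs0 : 0 < s := by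
    rw [hs]
    exact div_pos (by positivity) hp
  have hse : s * (‖K‖ * (1 - 7 * ε)) = ‖h‖ + 1 := by
    rw [hs]
    exact div_mul_cancel₀ _ hp.ne'
  have ha := Aniso.key hh hm hK hn h0 s hs0
  have hK2 : Pr 𝔥 (Complex.I • K) ((-Complex.I) • K') := by
    have h1 := Pr.smul hh hK Complex.I
    rw [Complex.conj_I] at h1
    exact h1
  have hnI : ‖Complex.I • K‖ = ‖K‖ := by rw [norm_smul, hI, one_mul]
  have hb := Aniso.key hh hm hK2 (ε := ε)
    (by
      rw [Aniso.lie_smul_right, ← smul_sub, norm_smul, hI, one_mul, hnI]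
      exact hn)
    (by rw [Aniso.lie_smul_smul, Aniso.lie_smul_smul, h0, smul_zero]) s hs0
  rw [hnI] at hb
  have he : ‖Complex.I • K + (-Complex.I) • K'‖ = ‖K - K'‖ := by
    have e : Complex.I • K + (-Complex.I) • K' = Complex.I • (K - K') := by
      rw [smul_sub, neg_smul, sub_eq_add_neg]
    rw [e, norm_smul, hI, one_mul]
  rw [he] at hb
  have h2 : 2 * ‖K‖ ≤ ‖K + K'‖ + ‖K - K'‖ := by
    have e : (2 : ℂ) • K = (K + K') + (K - K') := by
      rw [two_smul]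
      abel
    have h3 : ‖(2 : ℂ) • K‖ = 2 * ‖K‖ := by
      rw [norm_smul]
      norm_num
    rw [← h3, e]
    exact norm_add_le _ _
  nlinarith [mul_le_mul_of_nonneg_left h2 hs0.le]

end Pool.Agent.Helper61.HP
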