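import Pool.Agent.Helper61.HO.CubApi

/-!
# HO-39  The annihilator of a Cub of finite rank is not abelian

`S` a Cub with finite-dimensional range `Fix (S * S)`, `E` infinite-dimensional; `p j = pc S j`, grading `cub_grad`.

PROOF. Suppose `A B = B A` for all `A, B ∈ Ann S`.
(1) If `Z ∈ Ann S` and `H` is hermitian and commutes with `S`, then `H Z = Z H`. Indeed `Z' = i [H, Z] ∈ Ann S` (`Herm.lie`-like:
`hherm`, and `S H = H S`), so `[Z, Z'] = 0`: `adL Z (adL Z H) = 0` and `adL Z` is hermitian (`herm_adL`), so `adL Z H = 0` by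
`herm_sq_ker`.
(2) Let `x ≠ 0`, `S x = x`, and `u ≠ 0`, `S u = 0` (exists: `E` is infinite-dimensional and `1 - S S` has finite-dimensional
kernel; both of norm `1`), `T` an isometry with `T x = u`, `S₁ = T S T⁻¹` (hermitian, of finite rank, `S₁ u = u`),
`A = wt 1 p 0 S₁ = ∑ p j S₁ p j`: hermitian (`Pr.wt`, `Pr.self`), commutes with `S`, of finite rank, `A u = p 0 S₁ u = u`.
(3) The real vector space `M` of the hermitian operators commuting with `S`; `K ↦ K S S` is an `ℝ`-linear map from `M` to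
the space of the operators `X` with `X = S S X S S`, which is finite-dimensional (`≅` linear maps of `Fix (S * S)`; or: such `X` is
determined by the values on a finite basis, in a finite-dimensional space). If `K S S = 0`, then `K S = K S S S = 0`, `S K = 0`,
so `K ∈ Ann S` and `A K = K A` by (1) (`A ∈ M`). So `K ↦ A K - K A` factors over a finite-dimensional space and
`{A K - K A | K ∈ M}` is finite-dimensional over `ℝ`; so is `V = {(A K - K A) u | K ∈ M}`, which is therefore closed.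
(4) Let `v` with `S v = 0`. `1 - A` is hermitian and kills `u`; `dense_herm`: for `ε > 0` there is `K` hermitian with
`‖K u - (1 - A) v‖ < ε`. `K₀ = wt 1 p 0 K ∈ M`, `K₀ u = p 0 K u`, `p 0 (1 - A) v = (1 - A) v`; so `‖K₀ u - (1 - A) v‖ ≤ ‖p 0‖ ε`, and
`(A K₀ - K₀ A) u = A K₀ u - K₀ u = - (1 - A) K₀ u` is within `‖1 - A‖ ‖p 0‖ ε` of `- (1 - A) (1 - A) v`. As `V` is closed,
`(1 - A)(1 - A) v ∈ V`, `v ∈ V + range A`. So `{v | S v = 0}` is contained in the finite-dimensional (real) space `V + range A`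
and `E = {S v = 0} + Fix (S * S)` is finite-dimensional over `ℝ`, hence over `ℂ`. Contradiction.
-/

set_option autoImplicit false

open Filter Topology

namespace Pool.Agent.Helper61.HP

universe u

variable {E : Type u} [NormedAddCommGroup E] [NormedSpace ℂ E] [CompleteSpace E]
  {S : E →L[ℂ] E}

/-- part (1) -/
theorem ann_central (hab : ∀ A ∈ Ann S, ∀ B ∈ Ann S, A * B = B * A) {Z H : E →L[ℂ] E}
    (hZ : Z ∈ Ann S) (hH : Herm H) (hHS : H * S = S * H) : H * Z = Z * H := by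
  obtain ⟨hZ1, hZ2, hZ3⟩ := hZ
  have hZ' : Complex.I • (H * Z - Z * H) ∈ Ann S := by
    refine ⟨(hherm (E := E)).lie H hH Z hZ1, ?_, ?_⟩
    · rw [smul_mul_assoc, sub_mul, mul_assoc, hZ2, mul_zero, mul_assoc, hHS, ← mul_assoc, hZ2,
        zero_mul, sub_self, smul_zero]
    · rw [mul_smul_comm, mul_sub, ← mul_assoc, ← mul_assoc, hZ3, zero_mul, ← hHS, mul_assoc, hZ3,
        mul_zero, sub_self, smul_zero]
  have h1 := hab Z ⟨hZ1, hZ2, hZ3⟩ _ hZ'
  rw [mul_smul_comm, smul_mul_assoc] at h1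
  have h2 : Z * (H * Z - Z * H) = (H * Z - Z * H) * Z := by
    have h3 := congrArg (fun X => (-Complex.I) • X) h1
    simp only [smul_smul, neg_mul, Complex.I_mul_I, neg_neg, one_smul] at h3
    exact h3
  have h3 : adL Z (adL Z H) = 0 := by
    rw [adL_apply, adL_apply]
    unfold lie
    have e : Z * (Z * H - H * Z) - (Z * H - H * Z) * Z =
        -(Z * (H * Z - Z * H) - (H * Z - Z * H) * Z) := by
      noncomm_ring
    rw [e, h2, sub_self, neg_zero]
  have h4 := herm_sq_ker (herm_adL hZ1) h3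
  rw [adL_apply] at h4
  unfold lie at h4
  exact (sub_eq_zero.1 h4).symm

/-- part (3): the commutators with `A` form a finite-dimensional space -/
theorem ann_finite (hS : Cub S) (hfin : FiniteDimensional ℂ (Fix (S * S)))
    (hab : ∀ A ∈ Ann S, ∀ B ∈ Ann S, A * B = B * A) {A : E →L[ℂ] E} (hA : Herm A)
    (hAS : A * S = S * A) (u : E) :
    ∃ V : Submodule ℝ E, FiniteDimensional ℝ V ∧
      ∀ K : E →L[ℂ] E, Herm K → K * S = S * K → (A * K - K * A) u ∈ V := by
  let M : Submodule ℝ (E →L[ℂ] E) :=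
    { carrier := {K | Herm K ∧ K * S = S * K}
      add_mem' := by
        rintro K L ⟨h1, h2⟩ ⟨h3, h4⟩
        exact ⟨h1.add h3, by rw [add_mul, mul_add, h2, h4]⟩
      zero_mem' := ⟨Herm.zero, by rw [zero_mul, mul_zero]⟩
      smul_mem' := by
        rintro c K ⟨h1, h2⟩
        refine ⟨h1.smul c, ?_⟩
        rw [smul_mul_assoc, mul_smul_comm, h2] }
  have hMF : ∀ K ∈ M, ∀ x ∈ Fix (S * S), K x ∈ Fix (S * S) := by
    rintro K ⟨-, hK⟩ x hx
    have e : S * S * K = K * (S * S) := by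
      rw [mul_assoc, ← hK, ← mul_assoc, ← hK, mul_assoc]
    have e1 := congrArg (fun B : E →L[ℂ] E => B x) e
    change (S * S) (K x) = K x
    have hx' : (S * S) x = x := hx
    have e2 : (S * S) (K x) = K ((S * S) x) := e1
    rw [e2, hx']
  let Φ : M →ₗ[ℝ] (Fix (S * S) →ₗ[ℂ] Fix (S * S)) :=
    { toFun := fun K => (K.1 : E →ₗ[ℂ] E).restrict (hMF K.1 K.2)
      map_add' := by
        intro K L
        ext x
        rfl
      map_smul' := by
        intro c K
        ext x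
        rfl }
  let Ψ : M →ₗ[ℝ] E :=
    { toFun := fun K => (A * K.1 - K.1 * A) u
      map_add' := by
        intro K L
        change (A * (K.1 + L.1) - (K.1 + L.1) * A) u = (A * K.1 - K.1 * A) u + (A * L.1 - L.1 * A) u
        rw [mul_add, add_mul, add_sub_add_comm]
        rfl
      map_smul' := by
        intro c K
        change (A * (c • K.1) - (c • K.1) * A) u = c • ((A * K.1 - K.1 * A) u)
        rw [mul_smul_comm, smul_mul_assoc, ← smul_sub]
        rfl }
  have hker : LinearMap.ker Φ ≤ LinearMap.ker Ψ := by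
    rintro ⟨K, hK1, hK2⟩ hK
    have hK0 : Φ ⟨K, hK1, hK2⟩ = 0 := hK
    have h1 : ∀ x : E, K (S x) = 0 := by
      intro x
      have hx : S x ∈ Fix (S * S) := hS.apply x
      have h2 := congrArg (fun B : Fix (S * S) →ₗ[ℂ] Fix (S * S) => ((B ⟨S x, hx⟩ : Fix (S * S)) : E))
        hK0
      exact h2
    have h2 : K * S = 0 := by
      ext x
      exact h1 x
    have h3 : K ∈ Ann S := ⟨hK1, h2, by rw [← hK2, h2]⟩
    have h4 := ann_central hab h3 hA hAS
    change (A * K - K * A) u = 0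
    rw [h4, sub_self]
    rfl
  refine ⟨LinearMap.range Ψ, ?_, fun K hK hKS => ⟨⟨K, hK, hKS⟩, rfl⟩⟩
  have hfin1 : FiniteDimensional ℂ (Fix (S * S) →ₗ[ℂ] Fix (S * S)) := inferInstance
  have hfin2 : FiniteDimensional ℝ (Fix (S * S) →ₗ[ℂ] Fix (S * S)) :=
    FiniteDimensional.complexToReal _
  have hfin3 : Module.Finite ℝ (LinearMap.range Φ) := inferInstance
  have hfin4 : Module.Finite ℝ (M ⧸ LinearMap.ker Φ) :=
    Module.Finite.equiv (Φ.quotKerEquivRange).symm
  have hr : LinearMap.range Ψ = LinearMap.range ((LinearMap.ker Φ).liftQ Ψ hker) :=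
    ((LinearMap.ker Φ).range_liftQ Ψ hker).symm
  rw [hr]
  infer_instance

private theorem pc_icc : Finset.Icc (-((1 : ℕ) : ℤ)) ((1 : ℕ) : ℤ) = {-1, 0, 1} := by
  decide

private theorem wt_zero_apply (S M : E →L[ℂ] E) (x : E) :
    wt 1 (pc S) 0 M x = pc S (-1) (M (pc S (-1) x)) + pc S 0 (M (pc S 0 x)) +
      pc S 1 (M (pc S 1 x)) := by
  unfold wt
  rw [pc_icc, Finset.sum_insert (by decide), Finset.sum_insert (by decide),
    Finset.sum_singleton, ← add_assoc]
  rfl

private theorem wt_comm (hS : Cub S) (K : E →L[ℂ] E) :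
    wt 1 (pc S) 0 K * S = S * wt 1 (pc S) 0 K := by
  have h := (cub_grad hS).wt_lie 0 K
  rw [Int.cast_zero, zero_smul] at h
  exact (sub_eq_zero.1 h).symm

private theorem wt_herm (hS : Cub S) {K : E →L[ℂ] E} (hK : Herm K) :
    Herm (wt 1 (pc S) 0 K) := by
  have h := Pr.wt (hherm (E := E)) (cub_grad hS) hS.herm (Pr.of_mem hherm (A := K) hK) 0
  rw [neg_zero] at h
  exact Pr.self hherm h

theorem ann_noncomm [TopologicalSpace.SeparableSpace E] (htr : Transitive E) (hS : Cub S)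
    (hp : ∃ x, x ≠ 0 ∧ S x = x) (hfin : FiniteDimensional ℂ (Fix (S * S)))
    (hinf : ¬ FiniteDimensional ℂ E) : ∃ A ∈ Ann S, ∃ B ∈ Ann S, A * B ≠ B * A := by
  by_contra hcon
  push Not at hcon
  have hG := cub_grad hS
  -- the vectors
  obtain ⟨x0, hx0, hSx0⟩ := hp
  obtain ⟨u0, hu0, hSu0⟩ : ∃ u, u ≠ 0 ∧ S u = 0 := by
    by_contra hno
    push Not at hno
    have h1 : ∀ z : E, S (S z) = z := by
      intro z
      have : z - S (S z) = 0 := by
        by_contra hne
        refine hno _ hne ?_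
        rw [map_sub, hS.apply, sub_self]
      exact (sub_eq_zero.1 this).symm
    have h2 : Fix (S * S) = ⊤ := by
      rw [eq_top_iff]
      intro z _
      exact h1 z
    rw [h2] at hfin
    exact hinf (Module.Finite.equiv (Submodule.topEquiv (R := ℂ) (M := E)))
  have hxn : ‖x0‖ ≠ 0 := norm_ne_zero_iff.2 hx0
  have hun : ‖u0‖ ≠ 0 := norm_ne_zero_iff.2 hu0
  obtain ⟨x, hx1, hSx⟩ : ∃ x : E, ‖x‖ = 1 ∧ S x = x := by
    refine ⟨((‖x0‖⁻¹ : ℝ) : ℂ) • x0, ?_, by rw [map_smul, hSx0]⟩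
    rw [norm_smul, Complex.norm_real, norm_inv, norm_norm, inv_mul_cancel₀ hxn]
  obtain ⟨u, hu1, hSu⟩ : ∃ u : E, ‖u‖ = 1 ∧ S u = 0 := by
    refine ⟨((‖u0‖⁻¹ : ℝ) : ℂ) • u0, ?_, by rw [map_smul, hSu0, smul_zero]⟩
    rw [norm_smul, Complex.norm_real, norm_inv, norm_norm, inv_mul_cancel₀ hun]
  have hune : u ≠ 0 := by
    intro h0
    rw [h0, norm_zero] at hu1
    exact zero_ne_one hu1
  obtain ⟨T, hT⟩ := htr x u hx1 hu1
  -- the operator S₁
  set Tc : E →L[ℂ] E := (T.toContinuousLinearEquiv : E →L[ℂ] E) with hTc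
  set Ts : E →L[ℂ] E := (T.symm.toContinuousLinearEquiv : E →L[ℂ] E) with hTs
  have hTT : Ts * Tc = 1 := by
    ext z
    exact T.symm_apply_apply z
  have hTT' : Tc * Ts = 1 := by
    ext z
    exact T.apply_symm_apply z
  have hS1 : Herm (Tc * S * Ts) := hS.herm.conj hTT hTT' (fun z => T.norm_map z)
  set A : E →L[ℂ] E := wt 1 (pc S) 0 (Tc * S * Ts) with hAdef
  have hA : Herm A := wt_herm hS hS1
  have hAS : A * S = S * A := wt_comm hS _
  have hfix0 : ∀ v, S v = 0 → pc S 0 v = v := by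
    intro v hv
    refine (hG.fix_iff 0 v).2 ?_
    rw [hv, Int.cast_zero, zero_smul]
  have hpu : pc S 0 u = u := hfix0 u hSu
  have hAu : A u = u := by
    have h1 : A u = pc S (0 + 0) ((Tc * S * Ts) u) := hG.wt_apply 0 _ hpu
    have h2 : (Tc * S * Ts) u = T (S (T.symm u)) := rfl
    have h3 : T.symm u = x := by rw [← hT, T.symm_apply_apply]
    rw [h1, h2, h3, hSx, hT, add_zero, hpu]
  -- the range of A
  obtain ⟨G, hGdef⟩ : ∃ G : Submodule ℂ E, G = (Fix (S * S)).map (Tc : E →ₗ[ℂ] E) := ⟨_, rfl⟩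
  have hGfin : Module.Finite ℂ G := by
    rw [hGdef]
    exact Module.Finite.map _ _
  have hG1 : ∀ z, (Tc * S * Ts) z ∈ G := by
    intro z
    rw [hGdef]
    exact ⟨S (Ts z), hS.apply _, rfl⟩
  obtain ⟨R, hRdef⟩ : ∃ R : Submodule ℂ E, R = (G.map (pc S (-1) : E →ₗ[ℂ] E)) ⊔
      (G.map (pc S 0 : E →ₗ[ℂ] E)) ⊔ (G.map (pc S 1 : E →ₗ[ℂ] E)) := ⟨_, rfl⟩
  have hRfin : Module.Finite ℂ R := by
    rw [hRdef]
    infer_instance
  have hAR : ∀ z, A z ∈ R := by
    intro z
    have e : A z = pc S (-1) ((Tc * S * Ts) (pc S (-1) z)) + pc S 0 ((Tc * S * Ts) (pc S 0 z)) +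
      pc S 1 ((Tc * S * Ts) (pc S 1 z)) := wt_zero_apply S _ z
    rw [e, hRdef]
    refine Submodule.add_mem _ (Submodule.add_mem _ ?_ ?_) ?_
    · exact Submodule.mem_sup_left (Submodule.mem_sup_left ⟨_, hG1 _, rfl⟩)
    · exact Submodule.mem_sup_left (Submodule.mem_sup_right ⟨_, hG1 _, rfl⟩)
    · exact Submodule.mem_sup_right ⟨_, hG1 _, rfl⟩
  obtain ⟨V, hVfin, hV⟩ := ann_finite hS hfin hcon hA hAS u
  have hVcl : IsClosed (V : Set E) := V.closed_of_finiteDimensional
  -- the kernel of S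
  have hker : ∀ v, S v = 0 → v ∈ V ⊔ R.restrictScalars ℝ := by
    intro v hv
    have hkey : (1 - A) ((1 - A) v) ∈ V := by
      rw [← SetLike.mem_coe, ← hVcl.closure_eq, Metric.mem_closure_iff]
      intro ε hε
      have hpos : 0 < ‖(1 : E →L[ℂ] E) - A‖ * ‖pc S 0‖ + 1 := by positivity
      have h1A : Herm (1 - A) := Herm.one.sub hA
      have h1Au : (1 - A) u = 0 := by
        change u - A u = 0
        rw [hAu, sub_self]
      obtain ⟨K, hK, hKn⟩ := dense_herm htr h1A h1Au hune v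
        (ε := ε / (‖(1 : E →L[ℂ] E) - A‖ * ‖pc S 0‖ + 1)) (div_pos hε hpos)
      have hK0 := wt_herm hS hK
      have hK0S := wt_comm hS K
      have hK0u : wt 1 (pc S) 0 K u = pc S 0 (K u) := by
        have h1 := hG.wt_apply 0 K hpu
        rwa [add_zero] at h1
      have hmem := hV _ hK0 hK0S
      have e1 : (A * wt 1 (pc S) 0 K - wt 1 (pc S) 0 K * A) u = -((1 - A) (pc S 0 (K u))) := by
        change A (wt 1 (pc S) 0 K u) - wt 1 (pc S) 0 K (A u) = -(pc S 0 (K u) - A (pc S 0 (K u)))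
        rw [hAu, hK0u]
        abel
      rw [e1] at hmem
      have hmem2 := V.neg_mem hmem
      rw [neg_neg] at hmem2
      refine ⟨_, hmem2, ?_⟩
      have hSAv : S (A v) = 0 := by
        have h1 := congrArg (fun B : E →L[ℂ] E => B v) hAS
        have h2 : A (S v) = S (A v) := h1
        rw [← h2, hv, map_zero]
      have e2 : pc S 0 ((1 - A) v) = (1 - A) v := by
        refine hfix0 _ ?_
        change S (v - A v) = 0
        rw [map_sub, hv, hSAv, sub_zero]
      have e3 : (1 - A) ((1 - A) v) - (1 - A) (pc S 0 (K u)) =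
          (1 - A) (pc S 0 ((1 - A) v - K u)) := by
        rw [map_sub (pc S 0), e2, map_sub (1 - A)]
      rw [dist_eq_norm, e3]
      have h3 : ‖(1 - A) v - K u‖ < ε / (‖(1 : E →L[ℂ] E) - A‖ * ‖pc S 0‖ + 1) := by
        rw [norm_sub_rev]
        exact hKn
      calc ‖(1 - A) (pc S 0 ((1 - A) v - K u))‖
          ≤ ‖(1 : E →L[ℂ] E) - A‖ * ‖pc S 0 ((1 - A) v - K u)‖ := (1 - A).le_opNorm _
        _ ≤ ‖(1 : E →L[ℂ] E) - A‖ * (‖pc S 0‖ * ‖(1 - A) v - K u‖) :=
          mul_le_mul_of_nonneg_left ((pc S 0).le_opNorm _) (norm_nonneg _)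
        _ = (‖(1 : E →L[ℂ] E) - A‖ * ‖pc S 0‖) * ‖(1 - A) v - K u‖ := by ring
        _ ≤ (‖(1 : E →L[ℂ] E) - A‖ * ‖pc S 0‖ + 1) * ‖(1 - A) v - K u‖ :=
          mul_le_mul_of_nonneg_right (by linarith) (norm_nonneg _)
        _ < (‖(1 : E →L[ℂ] E) - A‖ * ‖pc S 0‖ + 1) *
            (ε / (‖(1 : E →L[ℂ] E) - A‖ * ‖pc S 0‖ + 1)) := mul_lt_mul_of_pos_left h3 hpos
        _ = ε := mul_div_cancel₀ _ hpos.ne'
    have e4 : v = (1 - A) ((1 - A) v) + (A v + A v - A (A v)) := by
      change v = (v - A v) - A (v - A v) + (A v + A v - A (A v))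
      rw [map_sub]
      abel
    rw [e4]
    refine Submodule.add_mem_sup hkey ?_
    exact R.sub_mem (R.add_mem (hAR _) (hAR _)) (hAR _)
  -- E is finite-dimensional
  have hRr : Module.Finite ℝ (R.restrictScalars ℝ) := by
    have : FiniteDimensional ℝ R := FiniteDimensional.complexToReal R
    exact this
  have hFr : Module.Finite ℝ ((Fix (S * S)).restrictScalars ℝ) := by
    have : FiniteDimensional ℝ (Fix (S * S)) := FiniteDimensional.complexToReal (Fix (S * S))
    exact this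
  have htop : (V ⊔ R.restrictScalars ℝ) ⊔ (Fix (S * S)).restrictScalars ℝ = ⊤ := by
    rw [eq_top_iff]
    intro z _
    have e : z = (z - S (S z)) + S (S z) := by abel
    rw [e]
    refine Submodule.add_mem_sup (hker _ ?_) ?_
    · rw [map_sub, hS.apply, sub_self]
    · change S (S (S (S z))) = S (S z)
      rw [hS.apply]
  have hVR : Module.Finite ℝ ((V ⊔ R.restrictScalars ℝ) ⊔ (Fix (S * S)).restrictScalars ℝ :
      Submodule ℝ E) := inferInstance
  rw [htop] at hVR
  have hE : Module.Finite ℝ E := Module.Finite.equiv (Submodule.topEquiv (R := ℝ) (M := E))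
  exact hinf (Module.Finite.of_restrictScalars_finite ℝ ℂ E)

end Pool.Agent.Helper61.HP
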