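import Pool.Agent.Helper61.HO.LinkGrad
import Pool.Agent.Helper61.HP.ProjBasic

/-!
# HO-35  Cubs: hermitian operators with `S ^ 3 = S ≠ 0`

PROOFS. `cub_grad`: the nonzero `pc S j` are `(S² + S)/2`, `(S² - S)/2`, `1 - S²`; all identities follow from `S³ = S`.
`Cub.link_eq`: `Ug S 1 (-1) = S`, `pc S 1 + pc S (-1) = S²`. `Cub.link`: `LS_wlink`, `link_maps`, `link_dense`.
`Cub.ex_pi`: `ex π (i S) = ∑ exp(i π j) pc S j = (1 - S²) - S² ` (`Grad.ex_eq`, or the exponential series).
`Cub.norm_refl`: `Skew.norm_ex`. `Cub.add`: `(S + T)³ = S³ + T³ = S + T`; `S + T ≠ 0` because `S (S + T) = S² ≠ 0`.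
`Cub.of_sub`: if `S` is a Cub and `S'` is a Cub with `S S' = S' S' = S' S`, then `S - S'` is hermitian with cube `S - S'` and
`S' (S - S') = 0`.
`NP.signs`: if there is no `x ≠ 0` with `S x = x`, then `pc S 1 = 0` (its values are such vectors), `S² = - S`, so `- S` is a
hermitian projection (`HProj`): `- S = 0` or `- S = 1`, both excluded. The same for `-1` (with `S`). If there is no `x ≠ 0` with
`S x = 0`, then `S² = 1` and `(1 + S)/2` is a hermitian projection, so `S = -1` or `S = 1`, excluded.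
`Cub.exists_sign`: `S ≠ 0`, so `pc S 1 ≠ 0` or `pc S (-1) ≠ 0`.
-/

set_option autoImplicit false

open Filter Topology

namespace Pool.Agent.Helper61.HP

universe u

variable {E : Type u} [NormedAddCommGroup E] [NormedSpace ℂ E] {S S' T X : E →L[ℂ] E}

theorem Cub.apply (hS : Cub S) (x : E) : S (S (S x)) = S x := by
  have h := congrArg (fun A : E →L[ℂ] E => A x) hS.cube
  simpa using h

private theorem cub3 (hS : Cub S) : S * (S * S) = S := by
  rw [← mul_assoc]
  exact hS.cube

private theorem cub3x (hS : Cub S) (X : E →L[ℂ] E) : S * (S * (S * X)) = S * X := by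
  rw [← mul_assoc S S (S * X), ← mul_assoc (S * S) S X, hS.cube]

private theorem pc_one (S : E →L[ℂ] E) : pc S 1 = (1 / 2 : ℂ) • (S * S + S) := by
  simp [pc]

private theorem pc_neg (S : E →L[ℂ] E) : pc S (-1) = (1 / 2 : ℂ) • (S * S - S) := by
  simp [pc]

private theorem pc_zero (S : E →L[ℂ] E) : pc S 0 = 1 - S * S := by
  simp [pc]

private theorem pc_else (S : E →L[ℂ] E) {j : ℤ} (h1 : j ≠ 1) (h2 : j ≠ -1) (h3 : j ≠ 0) :
    pc S j = 0 := by
  simp [pc, h1, h2, h3]

private theorem icc_three : Finset.Icc (-((1 : ℕ) : ℤ)) ((1 : ℕ) : ℤ) = {-1, 0, 1} := by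
  decide

private theorem pc_cases (S : E →L[ℂ] E) (j : ℤ) : j = 1 ∨ j = -1 ∨ j = 0 ∨ pc S j = 0 := by
  by_cases h1 : j = 1
  · exact Or.inl h1
  · by_cases h2 : j = -1
    · exact Or.inr (Or.inl h2)
    · by_cases h3 : j = 0
      · exact Or.inr (Or.inr (Or.inl h3))
      · exact Or.inr (Or.inr (Or.inr (pc_else S h1 h2 h3)))

theorem cub_grad (hS : Cub S) : Grad S 1 (pc S) := by
  have c3 := cub3 hS
  have c3x := cub3x hS
  refine ⟨hS.herm, ?_, ?_, ?_, ?_, ?_, ?_⟩
  · intro j hj
    have hj' : 1 < |j| := by exact_mod_cast hj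
    refine pc_else S ?_ ?_ ?_
    · rintro rfl
      norm_num at hj'
    · rintro rfl
      norm_num at hj'
    · rintro rfl
      norm_num at hj'
  · intro j k hjk
    rcases pc_cases S j with rfl | rfl | rfl | hj
    · rcases pc_cases S k with rfl | rfl | rfl | hk
      · exact absurd rfl hjk
      · rw [pc_one, pc_neg]
        simp only [mul_sub, add_mul, mul_assoc, smul_mul_assoc, mul_smul_comm, c3, c3x]
        module
      · rw [pc_one, pc_zero]
        simp only [mul_sub, add_mul, mul_assoc, smul_mul_assoc, c3, c3x, mul_one]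
        module
      · rw [hk, mul_zero]
    · rcases pc_cases S k with rfl | rfl | rfl | hk
      · rw [pc_one, pc_neg]
        simp only [mul_add, sub_mul, mul_assoc, smul_mul_assoc, mul_smul_comm, c3, c3x]
        module
      · exact absurd rfl hjk
      · rw [pc_neg, pc_zero]
        simp only [mul_sub, sub_mul, mul_assoc, smul_mul_assoc, c3, c3x, mul_one]
        module
      · rw [hk, mul_zero]
    · rcases pc_cases S k with rfl | rfl | rfl | hk
      · rw [pc_one, pc_zero]
        simp only [mul_add, sub_mul, mul_assoc, mul_smul_comm, c3, c3x, one_mul]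
        module
      · rw [pc_neg, pc_zero]
        simp only [mul_sub, sub_mul, mul_assoc, mul_smul_comm, c3, c3x, one_mul]
        module
      · exact absurd rfl hjk
      · rw [hk, mul_zero]
    · rw [hj, zero_mul]
  · intro j
    rcases pc_cases S j with rfl | rfl | rfl | hj
    · rw [pc_one]
      simp only [mul_add, add_mul, mul_assoc, smul_mul_assoc, mul_smul_comm, c3, c3x]
      module
    · rw [pc_neg]
      simp only [mul_sub, sub_mul, mul_assoc, smul_mul_assoc, mul_smul_comm, c3, c3x]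
      module
    · rw [pc_zero]
      simp only [mul_sub, sub_mul, mul_assoc, c3x, mul_one, one_mul]
      module
    · rw [hj, mul_zero]
  · rw [icc_three, Finset.sum_insert (by decide), Finset.sum_insert (by decide),
      Finset.sum_singleton, pc_one, pc_neg, pc_zero]
    module
  · intro j
    rcases pc_cases S j with rfl | rfl | rfl | hj
    · rw [pc_one, Int.cast_one]
      simp only [mul_add, mul_smul_comm, c3]
      module
    · rw [pc_neg, Int.cast_neg, Int.cast_one]
      simp only [mul_sub, mul_smul_comm, c3]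
      module
    · rw [pc_zero, Int.cast_zero]
      simp only [mul_sub, mul_one, c3]
      module
    · rw [hj, mul_zero, smul_zero]
  · intro j
    rcases pc_cases S j with rfl | rfl | rfl | hj
    · rw [pc_one, Int.cast_one]
      simp only [add_mul, smul_mul_assoc, mul_assoc, c3]
      module
    · rw [pc_neg, Int.cast_neg, Int.cast_one]
      simp only [sub_mul, smul_mul_assoc, mul_assoc, c3]
      module
    · rw [pc_zero, Int.cast_zero]
      simp only [sub_mul, one_mul, mul_assoc, c3]
      module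
    · rw [hj, zero_mul, smul_zero]

theorem Cub.neg (hS : Cub S) : Cub (-S) := by
  refine ⟨hS.herm.neg, ?_, neg_ne_zero.2 hS.ne⟩
  rw [neg_mul_neg, mul_neg, hS.cube]

theorem Cub.add (hS : Cub S) (hT : Cub T) (h : S * T = 0) (h' : T * S = 0) : Cub (S + T) := by
  have hx : ∀ X : E →L[ℂ] E, S * (T * X) = 0 := fun X => by rw [← mul_assoc, h, zero_mul]
  have hx' : ∀ X : E →L[ℂ] E, T * (S * X) = 0 := fun X => by rw [← mul_assoc, h', zero_mul]
  refine ⟨hS.herm.add hT.herm, ?_, ?_⟩
  · simp only [mul_add, add_mul, mul_assoc, h, h', hx, hx', mul_zero, add_zero, zero_add,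
      cub3 hS, cub3 hT]
  · intro h0
    apply hS.ne
    have h1 : S * (S * (S + T)) = 0 := by rw [h0, mul_zero, mul_zero]
    rw [mul_add, mul_add, h, mul_zero, add_zero, cub3 hS] at h1
    exact h1

theorem Cub.of_sub (hS : Cub S) (hS' : Cub S') (h : S * S' = S' * S') (h' : S' * S = S' * S')
    (hne : S ≠ S') :
    Cub (S - S') ∧ S' * (S - S') = 0 ∧ (S - S') * S' = 0 := by
  have e1 : S * (S * S') = S' := by rw [h, ← mul_assoc, h, mul_assoc, cub3 hS']
  have e2 : S' * (S' * S) = S' := by rw [h', cub3 hS']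
  have e3 : S * (S' * S') = S' := by rw [← mul_assoc, h, mul_assoc, cub3 hS']
  have e4 : S' * (S' * S') = S' := cub3 hS'
  have e5 : S * (S' * S) = S' := by rw [h', e3]
  have e6 : S' * (S * S) = S' := by rw [← mul_assoc, h', mul_assoc, e2]
  have e7 : S' * (S * S') = S' := by rw [h, e4]
  refine ⟨⟨hS.herm.sub hS'.herm, ?_, sub_ne_zero.2 hne⟩, ?_, ?_⟩
  · simp only [mul_sub, sub_mul, mul_assoc, cub3 hS, e1, e2, e3, e4, e5, e6, e7]
    abel
  · rw [mul_sub, h', sub_self]
  · rw [sub_mul, h, sub_self]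

/-- parts of a Cub are annihilated by what annihilates the Cub -/
theorem Cub.part (hS : Cub S) (hS' : Cub S') (h : S * S' = S' * S') (h' : S' * S = S' * S') :
    (X * S = 0 → X * S' = 0) ∧ (S * X = 0 → S' * X = 0) := by
  constructor
  · intro h0
    rw [← cub3 hS', ← mul_assoc S' S' S', ← h, mul_assoc S S' S', ← mul_assoc X S, h0, zero_mul]
  · intro h0
    have e : S' = S' * (S' * S) := by rw [h', cub3 hS']
    rw [e, mul_assoc, mul_assoc, h0, mul_zero, mul_zero]

private theorem plus_fix (hS : Cub S) (z : E) : S (S (S z) + S z) = S (S z) + S z := by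
  rw [map_add, hS.apply, add_comm]

private theorem minus_fix (hS : Cub S) (z : E) : S (S (S z) - S z) = -(S (S z) - S z) := by
  rw [map_sub, hS.apply, neg_sub]

theorem Cub.exists_sign (hS : Cub S) : (∃ x, x ≠ 0 ∧ S x = x) ∨ (∃ x, x ≠ 0 ∧ S x = -x) := by
  by_contra hcon
  push Not at hcon
  obtain ⟨h1, h2⟩ := hcon
  apply hS.ne
  ext z
  have e1 : S (S z) + S z = 0 := by
    by_contra hne
    exact h1 _ hne (plus_fix hS z)
  have e2 : S (S z) - S z = 0 := by
    by_contra hne
    exact h2 _ hne (minus_fix hS z)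
  have e3 : (2 : ℂ) • S z = 0 := by
    have : (2 : ℂ) • S z = (S (S z) + S z) - (S (S z) - S z) := by module
    rw [this, e1, e2, sub_zero]
  rcases smul_eq_zero.1 e3 with h | h
  · norm_num at h
  · exact h

theorem NP.signs (hNP : NP E) (hS : Cub S) (h1 : S ≠ 1) (h2 : S ≠ -1) :
    (∃ x, x ≠ 0 ∧ S x = x) ∧ (∃ x, x ≠ 0 ∧ S x = -x) ∧ (∃ x, x ≠ 0 ∧ S x = 0) := by
  refine ⟨?_, ?_, ?_⟩
  · by_contra hcon
    push Not at hcon
    have e1 : S * S = -S := by
      ext z
      have : S (S z) + S z = 0 := by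
        by_contra hne
        exact hcon _ hne (plus_fix hS z)
      exact eq_neg_of_add_eq_zero_left this
    have hP : HProj (-S) := ⟨by rw [neg_mul_neg, e1], hS.herm.neg⟩
    rcases hNP _ hP with h | h
    · exact hS.ne (neg_eq_zero.1 h)
    · exact h2 (by rw [← h, neg_neg])
  · by_contra hcon
    push Not at hcon
    have e1 : S * S = S := by
      ext z
      have : S (S z) - S z = 0 := by
        by_contra hne
        exact hcon _ hne (minus_fix hS z)
      exact sub_eq_zero.1 this
    have hP : HProj S := ⟨e1, hS.herm⟩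
    rcases hNP _ hP with h | h
    · exact hS.ne h
    · exact h1 h
  · by_contra hcon
    push Not at hcon
    have e1 : S * S = 1 := by
      ext z
      have : z - S (S z) = 0 := by
        by_contra hne
        refine hcon _ hne ?_
        rw [map_sub, hS.apply, sub_self]
      exact (sub_eq_zero.1 this).symm
    have hP : HProj (((1 / 2 : ℝ) : ℂ) • (1 + S)) := by
      refine ⟨?_, (Herm.one.add hS.herm).smul _⟩
      rw [smul_mul_smul_comm, add_mul, mul_add, mul_add, e1, one_mul, one_mul, mul_one]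
      push_cast
      module
    have hhalf : ((1 / 2 : ℝ) : ℂ) ≠ 0 := by
      rw [Complex.ofReal_ne_zero]
      norm_num
    rcases hNP _ hP with h | h
    · rcases smul_eq_zero.1 h with h | h
      · exact hhalf h
      · exact h2 (eq_neg_of_add_eq_zero_right h)
    · apply h1
      have e2 : S = (2 : ℂ) • (((1 / 2 : ℝ) : ℂ) • (1 + S)) - 1 := by
        push_cast
        module
      rw [e2, h]
      module

theorem Cub.link_eq (hS : Cub S) : Ug S 1 (-1) = S ∧ pc S 1 + pc S (-1) = S * S := by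
  constructor
  · unfold Ug
    push_cast
    norm_num
  · rw [pc_one, pc_neg]
    module

variable [CompleteSpace E]

theorem Cub.ex_pi (hS : Cub S) : ex Real.pi (Complex.I • S) = 1 - (2 : ℂ) • (S * S) := by
  rw [(cub_grad hS).ex_eq, icc_three, Finset.sum_insert (by decide), Finset.sum_insert (by decide),
    Finset.sum_singleton, pc_one, pc_neg, pc_zero]
  have e1 : Complex.exp (Complex.I * (Real.pi * ((-1 : ℤ) : ℂ))) = -1 := by
    have : Complex.I * (Real.pi * ((-1 : ℤ) : ℂ)) = -(Real.pi * Complex.I) := by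
      push_cast
      ring
    rw [this, Complex.exp_neg, Complex.exp_pi_mul_I]
    norm_num
  have e2 : Complex.exp (Complex.I * (Real.pi * ((0 : ℤ) : ℂ))) = 1 := by
    rw [Int.cast_zero, mul_zero, mul_zero, Complex.exp_zero]
  have e3 : Complex.exp (Complex.I * (Real.pi * ((1 : ℤ) : ℂ))) = -1 := by
    rw [Int.cast_one, mul_one, mul_comm, Complex.exp_pi_mul_I]
  rw [e1, e2, e3]
  module

theorem Cub.norm_refl (hS : Cub S) (x : E) : ‖x - (2 : ℂ) • S (S x)‖ = ‖x‖ := by
  have h := Skew.norm_ex (D := Complex.I • S) hS.herm Real.pi x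
  rw [hS.ex_pi] at h
  exact h

theorem Cub.norm_sq_le (hS : Cub S) (x : E) : ‖S (S x)‖ ≤ ‖x‖ ∧ ‖x - S (S x)‖ ≤ ‖x‖ := by
  have h := hS.norm_refl x
  constructor
  · have e : S (S x) = (1 / 2 : ℂ) • (x - (x - (2 : ℂ) • S (S x))) := by module
    have h1 := norm_sub_le x (x - (2 : ℂ) • S (S x))
    have h2 : ‖(1 / 2 : ℂ)‖ = 1 / 2 := by norm_num
    rw [e, norm_smul, h2]
    linarith
  · have e : x - S (S x) = (1 / 2 : ℂ) • (x + (x - (2 : ℂ) • S (S x))) := by module
    have h1 := norm_add_le x (x - (2 : ℂ) • S (S x))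
    have h2 : ‖(1 / 2 : ℂ)‖ = 1 / 2 := by norm_num
    rw [e, norm_smul, h2]
    linarith

theorem Cub.wlink (hS : Cub S) : WLink (LS S ∅ ∅ (S * S)) :=
  LS_wlink hS.herm (cub3x hS S) ∅ ∅

private theorem fix_eq_eig (hS : Cub S) : Fix (pc S (-1)) = Eig S (-1) ∧ Fix (pc S 1) = Eig S 1 := by
  constructor
  · ext x
    have h := (cub_grad hS).fix_iff (-1) x
    have e : ((-1 : ℤ) : ℂ) = -1 := by norm_num
    rw [e] at h
    refine (show x ∈ Fix (pc S (-1)) ↔ pc S (-1) x = x from Iff.rfl).trans (h.trans ?_)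
    rw [← sub_eq_zero]
    exact Iff.rfl
  · ext x
    have h := (cub_grad hS).fix_iff 1 x
    rw [Int.cast_one] at h
    refine (show x ∈ Fix (pc S 1) ↔ pc S 1 x = x from Iff.rfl).trans (h.trans ?_)
    rw [← sub_eq_zero]
    exact Iff.rfl

theorem Cub.maps (hS : Cub S) : Maps (LS S ∅ ∅ (S * S)) (Eig S (-1)) (Eig S 1) := by
  have h := link_maps (cub_grad hS) (a := 1) (b := -1) (by norm_num)
  rw [hS.link_eq.1, hS.link_eq.2, (fix_eq_eig hS).1, (fix_eq_eig hS).2] at h
  exact h

theorem Cub.dense [TopologicalSpace.SeparableSpace E] (htr : Transitive E) (hS : Cub S) :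
    DenseOn (LS S ∅ ∅ (S * S)) (Eig S (-1)) (Eig S 1) ∧
      DenseOn (LS S ∅ ∅ (S * S)) (Eig S 1) (Eig S (-1)) := by
  have h := link_dense htr (cub_grad hS) (a := 1) (b := -1) (by norm_num)
    (fun j hj => pc_else S (by omega) (by omega) (by omega))
    (fun j hj => pc_else S (by omega) (by omega) (by omega))
  rw [hS.link_eq.1, hS.link_eq.2, (fix_eq_eig hS).1, (fix_eq_eig hS).2] at h
  exact h

end Pool.Agent.Helper61.HP
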