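import Pool.Agent.Helper61.HP.LinkApi

/-!
# Weak links (project HO, MP_cc72b1_an)

Real spaces of skew operators closed under ultralimits, `A B A` and rotations; no hermitian involution is required.
All the results up to the existence of tripotents are the ones of the links of project HP, with the same proofs.
-/

set_option autoImplicit false

open Filter Topology

namespace Pool.Agent.Helper61.HP

universe u

variable {E : Type u} [NormedAddCommGroup E] [NormedSpace ℂ E]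

/-- weak links: real spaces of skew operators, closed under ultralimits, triple products and the
rotations generated by the commutators -/
structure WLink (𝓛 : Set (E →L[ℂ] E)) : Prop where
  skew : ∀ D ∈ 𝓛, Skew D
  zero : (0 : E →L[ℂ] E) ∈ 𝓛
  add : ∀ D ∈ 𝓛, ∀ D' ∈ 𝓛, D + D' ∈ 𝓛
  smul : ∀ t : ℝ, ∀ D ∈ 𝓛, (t : ℂ) • D ∈ 𝓛
  ulim : ∀ (D : ℕ → E →L[ℂ] E) (L : E →L[ℂ] E), (∀ n, D n ∈ 𝓛) → IsULim D L → L ∈ 𝓛
  tri : ∀ A ∈ 𝓛, ∀ B ∈ 𝓛, A * B * A ∈ 𝓛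
  ad : ∀ A ∈ 𝓛, ∀ B ∈ 𝓛, ∀ Z ∈ 𝓛, ∀ s : ℝ,
    ex s (A * B - B * A) * Z * ex (-s) (A * B - B * A) ∈ 𝓛

theorem WLink.neg {𝓛 : Set (E →L[ℂ] E)} (hL : WLink 𝓛) {D : E →L[ℂ] E}
    (hD : D ∈ 𝓛) : -D ∈ 𝓛 := by
  have h := hL.smul (-1) D hD
  have e : (((-1 : ℝ) : ℂ)) • D = -D := by simp
  rwa [e] at h

theorem WLink.sub {𝓛 : Set (E →L[ℂ] E)} (hL : WLink 𝓛) {D D' : E →L[ℂ] E}
    (hD : D ∈ 𝓛) (hD' : D' ∈ 𝓛) : D - D' ∈ 𝓛 := by
  rw [sub_eq_add_neg]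
  exact hL.add _ hD _ (hL.neg hD')

theorem WLink.pol {𝓛 : Set (E →L[ℂ] E)} (hL : WLink 𝓛) {A B C : E →L[ℂ] E}
    (hA : A ∈ 𝓛) (hB : B ∈ 𝓛) (hC : C ∈ 𝓛) : A * B * C + C * B * A ∈ 𝓛 := by
  have e : A * B * C + C * B * A = (A + C) * B * (A + C) - A * B * A - C * B * C := by
    noncomm_ring
  rw [e]
  exact hL.sub (hL.sub (hL.tri _ (hL.add _ hA _ hC) _ hB) (hL.tri _ hA _ hB)) (hL.tri _ hC _ hB)

theorem WLink.pow_odd {𝓛 : Set (E →L[ℂ] E)} (hL : WLink 𝓛) {D : E →L[ℂ] E}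
    (hD : D ∈ 𝓛) (k : ℕ) : D ^ (2 * k + 1) ∈ 𝓛 := by
  induction k with
  | zero => simpa using hD
  | succ k ih =>
    have e : D ^ (2 * (k + 1) + 1) = D * D ^ (2 * k + 1) * D := by
      rw [← pow_succ', ← pow_succ]
      congr 1
    rw [e]
    exact hL.tri _ hD _ ih

theorem WLink.sq_mul_mem {𝓛 : Set (E →L[ℂ] E)} (hL : WLink 𝓛)
    {D X : E →L[ℂ] E} (hD : D ∈ 𝓛) (hX : X ∈ 𝓛) (h : D * X = X * D) : D * D * X ∈ 𝓛 := by
  have e : D * D * X = D * X * D := by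
    calc D * D * X = D * (D * X) := mul_assoc _ _ _
      _ = D * (X * D) := by rw [h]
      _ = D * X * D := (mul_assoc _ _ _).symm
  rw [e]
  exact hL.tri _ hD _ hX

theorem WLink.isClosed {𝓛 : Set (E →L[ℂ] E)} (hL : WLink 𝓛) : IsClosed 𝓛 := by
  apply IsSeqClosed.isClosed
  intro D L hD h
  exact hL.ulim D L hD (isULim_of_tendsto h)

theorem WLink.tsum_mem {𝓛 : Set (E →L[ℂ] E)} (hL : WLink 𝓛)
    {a : ℕ → E →L[ℂ] E} (ha : ∀ n, a n ∈ 𝓛) {L : E →L[ℂ] E} (h : HasSum a L) : L ∈ 𝓛 := by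
  have hp : ∀ n, ∑ i ∈ Finset.range n, a i ∈ 𝓛 := by
    intro n
    induction n with
    | zero => simpa using hL.zero
    | succ n ih =>
      rw [Finset.sum_range_succ]
      exact hL.add _ ih _ (ha n)
  exact hL.ulim _ L hp (isULim_of_tendsto h.tendsto_sum_nat)

end Pool.Agent.Helper61.HP
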