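import Pool.Agent.Helper61.HP.MaxExists
import Pool.Agent.Helper61.HO.WOptim

/-!
# Maximal tripotents of weak links (project HO)

Same proof as in HP.MaxExists.
-/

set_option autoImplicit false

open Filter Topology

namespace Pool.Agent.Helper61.HP

universe u

variable {E : Type u} [NormedAddCommGroup E] [NormedSpace ℂ E] [CompleteSpace E]

theorem WLink.exists_maxTrip (hN : Nice E) {𝓛 : Set (E →L[ℂ] E)}
    (hL : WLink 𝓛) (ρ : StrongDual ℂ E) (x : E) : ∃ W : E →L[ℂ] E, MaxTrip 𝓛 ρ x W := by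
  set A : Set ℝ := {r | ∃ D ∈ 𝓛, ‖D‖ ≤ 1 ∧ (ρ (D x)).re = r} with hA
  have hne : A.Nonempty := ⟨_, 0, hL.zero, by simp, rfl⟩
  have hbd : BddAbove A := by
    refine ⟨‖ρ‖ * ‖x‖, ?_⟩
    rintro r ⟨D, _, hD1, rfl⟩
    calc (ρ (D x)).re ≤ ‖ρ (D x)‖ := Complex.re_le_norm _
      _ ≤ ‖ρ‖ * ‖D x‖ := ρ.le_opNorm _
      _ ≤ ‖ρ‖ * ‖x‖ := by
          apply mul_le_mul_of_nonneg_left _ (norm_nonneg _)
          calc ‖D x‖ ≤ ‖D‖ * ‖x‖ := D.le_opNorm _
            _ ≤ 1 * ‖x‖ := mul_le_mul_of_nonneg_right hD1 (norm_nonneg _)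
            _ = ‖x‖ := one_mul _
  obtain ⟨u, -, hu, huA⟩ := exists_seq_tendsto_sSup hne hbd
  choose Dn hDn hDn1 hDnu using huA
  obtain ⟨D, hD1, hDlim⟩ := exists_ulim hN Dn 1 hDn1
  have hD : D ∈ 𝓛 := hL.ulim Dn D hDn hDlim
  have hval : (ρ (D x)).re = sSup A := by
    apply hDlim.re_eq_of_tendsto ρ x
    have : (fun n => (ρ (Dn n x)).re) = u := by
      funext n
      exact hDnu n
    rw [this]
    exact hu
  have hmax : ∀ D' ∈ 𝓛, ‖D'‖ ≤ 1 → (ρ (D' x)).re ≤ (ρ (D x)).re := by
    intro D' hD' hD'1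
    rw [hval]
    exact le_csSup hbd ⟨D', hD', hD'1, rfl⟩
  set T : E →L[ℂ] E := -(D * D) with hT
  have hT1 : ‖T‖ ≤ 1 := by
    rw [hT, norm_neg]
    calc ‖D * D‖ ≤ ‖D‖ * ‖D‖ := norm_mul_le _ _
      _ ≤ 1 * 1 := mul_le_mul hD1 hD1 (norm_nonneg _) zero_le_one
      _ = 1 := one_mul _
  have hTn : ∀ j : ℕ, ‖T ^ j‖ ≤ 1 := by
    intro j
    induction j with
    | zero =>
      rw [pow_zero]
      exact ContinuousLinearMap.norm_id_le
    | succ j ih =>
      rw [pow_succ]
      calc ‖T ^ j * T‖ ≤ ‖T ^ j‖ * ‖T‖ := norm_mul_le _ _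
        _ ≤ 1 * 1 := mul_le_mul ih hT1 (norm_nonneg _) zero_le_one
        _ = 1 := one_mul _
  have hcomm : Commute D T := by
    change D * T = T * D
    rw [hT]
    simp only [mul_neg, neg_mul, mul_assoc]
  have hcj : ∀ j : ℕ, D * T ^ j = T ^ j * D := fun j => hcomm.pow_right j
  have hmem : ∀ j : ℕ, D * T ^ j ∈ 𝓛 := by
    intro j
    induction j with
    | zero => rw [pow_zero, mul_one]; exact hD
    | succ j ih =>
      have h1 : D * (D * T ^ j) = D * T ^ j * D := by
        rw [mul_assoc D (T ^ j) D, ← hcj j]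
      have h2 := hL.neg (hL.sq_mul_mem hD ih h1)
      have h3 : D * T ^ (j + 1) = -(D * D * (D * T ^ j)) := by
        rw [pow_succ', ← mul_assoc D T, hcomm.eq, mul_assoc T D, hT]
        simp only [neg_mul]
      rw [h3]
      exact h2
  have hnorm : ∀ j : ℕ, ‖D * T ^ j‖ ≤ 1 := by
    intro j
    calc ‖D * T ^ j‖ ≤ ‖D‖ * ‖T ^ j‖ := norm_mul_le _ _
      _ ≤ 1 * 1 := mul_le_mul hD1 (hTn j) (norm_nonneg _) zero_le_one
      _ = 1 := one_mul _
  have hconst : ∀ j : ℕ, (ρ ((D * T ^ j) x)).re = sSup A := by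
    intro j
    induction j with
    | zero => rw [pow_zero, mul_one]; exact hval
    | succ j ih =>
      have h1 := hL.optim hD hD1 ρ x hmax j
      rw [← hT] at h1
      have h2 : D * T ^ j * (1 + D * D) = D * T ^ j - D * T ^ (j + 1) := by
        rw [pow_succ, mul_add, mul_one, hT]
        simp only [mul_neg, sub_neg_eq_add, mul_assoc]
      rw [h2, ContinuousLinearMap.sub_apply, map_sub, Complex.sub_re, ih] at h1
      linarith
  obtain ⟨e, he1, he⟩ := exists_ulim hN (fun j => T ^ j) 1 hTn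
  have hdiff : Tendsto (fun n : ℕ => ‖T ^ (n + 1) - T ^ n‖) atTop (𝓝 0) := by
    obtain ⟨R, hR, hS⟩ := hL.tendsto_pow hD hD1 hT
    have h1 := tendsto_pow_mul_one_sub R T hR hS
    refine h1.congr (fun n => ?_)
    rw [mul_sub, mul_one, ← pow_succ, norm_sub_rev]
  have hshift : IsULim (fun n => T ^ (n + 1)) e := he.congr_tendsto hdiff
  have hTe : T * e = e := by
    have h1 := he.mul_left T
    have h2 : (fun n => T * T ^ n) = fun n => T ^ (n + 1) := by
      funext n
      rw [pow_succ']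
    rw [h2] at h1
    exact h1.unique hshift
  have hTje : ∀ j : ℕ, T ^ j * e = e := by
    intro j
    induction j with
    | zero => rw [pow_zero, one_mul]
    | succ j ih => rw [pow_succ, mul_assoc, hTe, ih]
  have hee : e * e = e := by
    have h1 := he.mul_right e
    have h2 : (fun n => T ^ n * e) = fun _ => e := funext hTje
    rw [h2] at h1
    exact h1.unique (isULim_const e)
  have hWlim : IsULim (fun j => D * T ^ j) (D * e) := he.mul_left D
  have hDe : D * e = e * D := by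
    have h1 := he.mul_right D
    have h2 : (fun n => T ^ n * D) = fun n => D * T ^ n := by
      funext n
      exact (hcj n).symm
    rw [h2] at h1
    exact hWlim.unique h1
  have hWW : D * e * (D * e) = -e := by
    have h1 : D * e * (D * e) = D * D * e := by
      calc D * e * (D * e) = D * (e * D) * e := by simp only [mul_assoc]
        _ = D * (D * e) * e := by rw [← hDe]
        _ = D * D * (e * e) := by simp only [mul_assoc]
        _ = D * D * e := by rw [hee]
    rw [h1, ← neg_neg (D * D), ← hT, neg_mul, hTe]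
  refine ⟨D * e, ⟨⟨hL.ulim _ _ hmem hWlim, hWlim.norm_le hnorm, ?_⟩, ?_⟩⟩
  · rw [hWW]
    calc -e * (D * e) = -(e * D * e) := by simp only [neg_mul, mul_assoc]
      _ = -(D * e * e) := by rw [← hDe]
      _ = -(D * (e * e)) := by rw [mul_assoc]
      _ = -(D * e) := by rw [hee]
  · intro D' hD' hD'1
    have h1 : (ρ ((D * e) x)).re = sSup A := by
      apply hWlim.re_eq_of_tendsto ρ x
      have h2 : (fun n => (ρ ((D * T ^ n) x)).re) = fun _ => sSup A := funext hconst
      rw [h2]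
      exact tendsto_const_nhds
    rw [h1]
    exact le_csSup hbd ⟨D', hD', hD'1, rfl⟩

end Pool.Agent.Helper61.HP
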