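import Pool.Agent.Helper61.HP.Rot
import Pool.Agent.Helper61.HO.WSinh

/-!
# Peirce decomposition in weak links (project HO)

Same proofs as in HP.Peirce, HP.Rot.
-/

set_option autoImplicit false

open Filter Topology

namespace Pool.Agent.Helper61.HP

universe u

variable {E : Type u} [NormedAddCommGroup E] [NormedSpace ℂ E]
  {𝓛 : Set (E →L[ℂ] E)} {W : E →L[ℂ] E}

theorem Trip.w_neg (hL : WLink 𝓛) (hW : Trip 𝓛 W) : Trip 𝓛 (-W) := by
  refine ⟨hL.neg hW.mem, ?_, ?_⟩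
  · rw [norm_neg]
    exact hW.norm_le
  · rw [neg_mul_neg, mul_neg, hW.cube]

theorem WLink.peirce_two (hL : WLink 𝓛) (hW : Trip 𝓛 W) {D : E →L[ℂ] E} (hD : D ∈ 𝓛) :
    supp W * D * supp W ∈ 𝓛 := by
  have h := hL.tri W hW.mem _ (hL.tri W hW.mem D hD)
  have e : supp W * D * supp W = W * (W * D * W) * W := by
    rw [supp]
    noncomm_ring
  rw [e]
  exact h

theorem WLink.peirce_sum (hL : WLink 𝓛) (hW : Trip 𝓛 W) {D : E →L[ℂ] E} (hD : D ∈ 𝓛) :
    supp W * D + D * supp W ∈ 𝓛 := by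
  have h := hL.neg (hL.pol hW.mem hW.mem hD)
  have e : supp W * D + D * supp W = -(W * W * D + D * W * W) := by
    rw [supp]
    noncomm_ring
  rw [e]
  exact h

theorem WLink.peirce_zero (hL : WLink 𝓛) (hW : Trip 𝓛 W) {D : E →L[ℂ] E} (hD : D ∈ 𝓛) :
    (1 - supp W) * D * (1 - supp W) ∈ 𝓛 := by
  have h := hL.add _ (hL.sub hD (hL.peirce_sum hW hD)) _ (hL.peirce_two hW hD)
  have e : (1 - supp W) * D * (1 - supp W) =
      D - (supp W * D + D * supp W) + supp W * D * supp W := by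
    noncomm_ring
  rw [e]
  exact h

theorem WLink.peirce_one (hL : WLink 𝓛) (hW : Trip 𝓛 W) {D : E →L[ℂ] E} (hD : D ∈ 𝓛) :
    supp W * D * (1 - supp W) + (1 - supp W) * D * supp W ∈ 𝓛 := by
  have h := hL.sub (hL.sub (hL.peirce_sum hW hD) (hL.peirce_two hW hD)) (hL.peirce_two hW hD)
  have e : supp W * D * (1 - supp W) + (1 - supp W) * D * supp W =
      supp W * D + D * supp W - supp W * D * supp W - supp W * D * supp W := by
    noncomm_ring
  rw [e]
  exact h

theorem Trip.w_norm_add_le_one [CompleteSpace E] (hL : WLink 𝓛) (hW : Trip 𝓛 W) {D : E →L[ℂ] E} (hD : D ∈ 𝓛)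
    (hD1 : ‖D‖ ≤ 1) (hWD : W * D = 0) (hDW : D * W = 0) : ‖W + D‖ ≤ 1 := by
  obtain ⟨B, hB, hsh, -, hB1, hB2⟩ := hL.exists_arsinh_mem hD hD1
  have hWB : W * B = 0 := hB1 W hWD
  have hBW : B * W = 0 := hB2 W hDW
  have heB : supp W * B = 0 := by rw [supp, neg_mul, mul_assoc, hWB, mul_zero, neg_zero]
  set A : E →L[ℂ] E := ((Real.pi / 2 : ℝ) : ℂ) • W with hA
  have hAm : A ∈ 𝓛 := hL.smul _ W hW.mem
  have hAB : A * B = B * A := by
    rw [hA, smul_mul_assoc, mul_smul_comm, hWB, hBW]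
  have hex : ∀ s : ℝ, ex s A = ex (s * (Real.pi / 2)) W := by
    intro s
    rw [ex, ex, hA, smul_smul, ← Complex.ofReal_mul]
  have h1 : ex 1 (A + B) = ex 1 B - supp W + W := by
    rw [ex_add_op hAB, hex, one_mul, hW.ex_pi_div_two, add_mul, sub_mul, one_mul,
      mul_ex_of_zero heB, mul_ex_of_zero hWB]
  have h2 : ex (-1) (A + B) = ex (-1) B - supp W - W := by
    have h3 : ex (-1 * (Real.pi / 2)) W = 1 - supp W - W := by
      rw [hW.ex_eq, neg_one_mul, Real.cos_neg, Real.sin_neg, Real.cos_pi_div_two,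
        Real.sin_pi_div_two, Complex.ofReal_zero, Complex.ofReal_neg, Complex.ofReal_one,
        zero_smul, add_zero, neg_one_smul, ← sub_eq_add_neg]
    rw [ex_add_op hAB, hex, h3, sub_mul, sub_mul, one_mul, mul_ex_of_zero heB,
      mul_ex_of_zero hWB]
  have h3 : sh (A + B) = W + D := by
    rw [← hsh, sh, sh, h1, h2]
    have h4 : ex 1 B - supp W + W - (ex (-1) B - supp W - W) =
        (ex 1 B - ex (-1) B) + (2 : ℂ) • W := by
      rw [two_smul]
      abel
    rw [h4, smul_add, smul_smul]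
    norm_num
    rw [add_comm]
  rw [← h3]
  exact norm_sh_le (hL.skew _ (hL.add _ hAm _ hB))

end Pool.Agent.Helper61.HP
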