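import Pool.Agent.Helper61.HP.Support
import Pool.Agent.Helper61.HO.WPeirce
import Pool.Agent.Helper61.HO.WMax

/-!
# The support theorem in weak links (project HO)

Same proofs as in HP.Support.
-/

set_option autoImplicit false

open Filter Topology

namespace Pool.Agent.Helper61.HP

universe u

variable {E : Type u} [NormedAddCommGroup E] [NormedSpace ℂ E] [CompleteSpace E]
  {𝓛 : Set (E →L[ℂ] E)} {W : E →L[ℂ] E}

omit [CompleteSpace E] in
/-- the two products of a tripotent with the Peirce-zero part -/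
private lemma mul_zero_part (hW : Trip 𝓛 W) (D : E →L[ℂ] E) :
    W * ((1 - supp W) * D * (1 - supp W)) = 0 ∧ ((1 - supp W) * D * (1 - supp W)) * W = 0 := by
  have h1 : W * (1 - supp W) = 0 := by rw [mul_sub, mul_one, hW.mul_supp, sub_self]
  have h2 : (1 - supp W) * W = 0 := by rw [sub_mul, one_mul, hW.supp_mul, sub_self]
  constructor
  · rw [← mul_assoc, ← mul_assoc, h1, zero_mul, zero_mul]
  · rw [mul_assoc, h2, mul_zero]

theorem MaxTrip.w_zero (hL : WLink 𝓛) {ρ : StrongDual ℂ E} {x : E} (hW : MaxTrip 𝓛 ρ x W)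
    {D : E →L[ℂ] E} (hD : D ∈ 𝓛) : (ρ (((1 - supp W) * D * (1 - supp W)) x)).re = 0 := by
  obtain ⟨h1, h2⟩ := mul_zero_part hW.toTrip D
  have hD0 := hL.peirce_zero hW.toTrip hD
  generalize (1 - supp W) * D * (1 - supp W) = D₀ at h1 h2 hD0 ⊢
  have key : ∀ t : ℝ, |t| * ‖D₀‖ ≤ 1 → t * (ρ (D₀ x)).re ≤ 0 := by
    intro t ht
    have h3 : (t : ℂ) • D₀ ∈ 𝓛 := hL.smul t D₀ hD0
    have h4 : ‖(t : ℂ) • D₀‖ ≤ 1 := by
      rw [norm_smul, Complex.norm_real, Real.norm_eq_abs]
      exact ht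
    have h5 := hW.toTrip.w_norm_add_le_one hL h3 h4 (by rw [mul_smul_comm, h1, smul_zero])
      (by rw [smul_mul_assoc, h2, smul_zero])
    have h6 := hW.max _ (hL.add _ hW.mem _ h3) h5
    rw [add_apply, smul_apply, map_add, map_smul, Complex.add_re,
      smul_eq_mul, Complex.re_ofReal_mul] at h6
    linarith
  have hn : (0 : ℝ) < 1 + ‖D₀‖ := by positivity
  have hb : |(1 + ‖D₀‖)⁻¹| * ‖D₀‖ ≤ 1 := by
    rw [abs_of_pos (inv_pos.2 hn), inv_mul_le_iff₀ hn]
    linarith
  have k1 := key (1 + ‖D₀‖)⁻¹ hb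
  have k2 := key (-(1 + ‖D₀‖)⁻¹) (by rw [abs_neg]; exact hb)
  have hp : 0 < (1 + ‖D₀‖)⁻¹ := inv_pos.2 hn
  have k3 : (ρ (D₀ x)).re ≤ 0 := by
    by_contra hc
    push Not at hc
    have := mul_pos hp hc
    linarith
  have k4 : 0 ≤ (ρ (D₀ x)).re := by
    by_contra hc
    push Not at hc
    have := mul_neg_of_pos_of_neg hp hc
    linarith
  exact le_antisymm k3 k4

omit [CompleteSpace E] in
/-- algebra of the Peirce-one part -/
private lemma one_part (hW : Trip 𝓛 W) (D : E →L[ℂ] E) :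
    (W * (supp W * D * (1 - supp W) + (1 - supp W) * D * supp W) -
      (supp W * D * (1 - supp W) + (1 - supp W) * D * supp W) * W) * W -
    W * (W * (supp W * D * (1 - supp W) + (1 - supp W) * D * supp W) -
      (supp W * D * (1 - supp W) + (1 - supp W) * D * supp W) * W) =
    supp W * D * (1 - supp W) + (1 - supp W) * D * supp W := by
  have h1 := hW.supp_mul
  have h2 := hW.mul_supp
  have h3 := hW.supp_idem
  have hWW : W * W = -supp W := by rw [supp, neg_neg]
  generalize supp W = e at h1 h2 h3 hWW ⊢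
  obtain ⟨D₁, hD₁⟩ : ∃ D₁, D₁ = e * D * (1 - e) + (1 - e) * D * e := ⟨_, rfl⟩
  rw [← hD₁]
  have k1 : e * D₁ * e = 0 := by
    calc e * D₁ * e = (e * e) * D * (e - e * e) + (e - e * e) * D * (e * e) := by
          rw [hD₁]; noncomm_ring
      _ = 0 := by rw [h3, sub_self, mul_zero, zero_mul, zero_mul, add_zero]
  have k2 : W * D₁ * W = 0 := by
    calc W * D₁ * W = (W * e) * D₁ * (e * W) := by rw [h1, h2]
      _ = W * (e * D₁ * e) * W := by noncomm_ring
      _ = 0 := by rw [k1, mul_zero, zero_mul]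
  have k3 : e * D₁ + D₁ * e = D₁ := by
    calc e * D₁ + D₁ * e = (e * e) * D * (1 - e) + (e - e * e) * D * e +
          e * D * (e - e * e) + (1 - e) * D * (e * e) := by rw [hD₁]; noncomm_ring
      _ = e * D * (1 - e) + (1 - e) * D * e := by
          rw [h3, sub_self, mul_zero, zero_mul, zero_mul, add_zero, add_zero]
      _ = D₁ := hD₁.symm
  calc (W * D₁ - D₁ * W) * W - W * (W * D₁ - D₁ * W)
      = W * D₁ * W + W * D₁ * W - D₁ * (W * W) - (W * W) * D₁ := by noncomm_ring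
    _ = e * D₁ + D₁ * e := by rw [k2, hWW]; noncomm_ring
    _ = D₁ := k3

theorem MaxTrip.w_one (hL : WLink 𝓛) {ρ : StrongDual ℂ E} {x : E} (hW : MaxTrip 𝓛 ρ x W)
    {D : E →L[ℂ] E} (hD : D ∈ 𝓛) :
    (ρ ((supp W * D * (1 - supp W) + (1 - supp W) * D * supp W) x)).re = 0 := by
  have hD1 := hL.peirce_one hW.toTrip hD
  have halg := one_part hW.toTrip D
  generalize supp W * D * (1 - supp W) + (1 - supp W) * D * supp W = D₁ at hD1 halg ⊢
  obtain ⟨K, hK⟩ : ∃ K, K = W * D₁ - D₁ * W := ⟨_, rfl⟩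
  have hKs : Skew K := by rw [hK]; exact (hL.skew _ hW.mem).lie (hL.skew _ hD1)
  have hmem : ∀ s : ℝ, ex s K * W * ex (-s) K ∈ 𝓛 := by
    intro s
    rw [hK]
    exact hL.ad _ hW.mem _ hD1 _ hW.mem s
  have hle : ∀ s : ℝ, (ρ ((ex s K * W * ex (-s) K) x)).re ≤ (ρ (W x)).re := fun s =>
    hW.max _ (hmem s) ((hKs.norm_conj_le s W).trans hW.norm_le)
  have h1 : HasDerivAt (fun s : ℝ => ex s K) K 0 := by
    have h := ex_hasDerivAt K 0
    rwa [ex_zero, mul_one] at h
  have h2 : HasDerivAt (fun s : ℝ => ex (-s) K) (-K) 0 := by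
    have h3 : HasDerivAt (fun s : ℝ => ex s K) K (-0) := by rwa [neg_zero]
    have h4 := HasDerivAt.scomp (0 : ℝ) h3 (hasDerivAt_neg (0 : ℝ))
    rw [neg_smul, one_smul] at h4
    exact h4
  have h5 : HasDerivAt (fun s : ℝ => ex s K * W * ex (-s) K) (K * W - W * K) 0 := by
    have h6 := (h1.mul_const W).mul h2
    have h7 : K * W * ex (-0) K + ex 0 K * W * -K = K * W - W * K := by
      rw [neg_zero, ex_zero, mul_one, one_mul, mul_neg, ← sub_eq_add_neg]
    rw [h7] at h6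
    exact h6
  let L : (E →L[ℂ] E) →L[ℝ] ℝ := Complex.reCLM.comp
    ((ρ.restrictScalars ℝ).comp ((ContinuousLinearMap.apply ℂ E x).restrictScalars ℝ))
  have hLe : ∀ T : E →L[ℂ] E, L T = (ρ (T x)).re := fun T => rfl
  have h8 := L.hasFDerivAt.comp_hasDerivAt (0 : ℝ) h5
  have h9 : IsLocalMax (L ∘ fun s : ℝ => ex s K * W * ex (-s) K) 0 := by
    refine Filter.Eventually.of_forall fun s => ?_
    change L (ex s K * W * ex (-s) K) ≤ L (ex 0 K * W * ex (-0) K)
    rw [hLe, hLe, neg_zero, ex_zero, one_mul, mul_one]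
    exact hle s
  have h10 := h9.hasDerivAt_eq_zero h8
  rw [hLe] at h10
  have h11 : K * W - W * K = D₁ := by rw [hK]; exact halg
  rwa [h11] at h10

theorem MaxTrip.w_support (hL : WLink 𝓛) {A B : Submodule ℂ E} (hM : Maps 𝓛 A B)
    (hd : DenseOn 𝓛 A B) {ρ : StrongDual ℂ E} {x : E} (hW : MaxTrip 𝓛 ρ x W) (hx : x ∈ A)
    (hx0 : x ≠ 0) (hρ : ∃ b ∈ B, ρ b ≠ 0) :
    supp W x = x ∧ ∀ b ∈ B, ρ (supp W b) = ρ b := by
  have hex : supp W x ∈ A := by
    have h1 : supp W x = -(W (W x)) := rfl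
    rw [h1]
    exact A.neg_mem (hM.2 _ hW.mem _ (hM.1 _ hW.mem _ hx))
  have hfix : supp W x = x := by
    by_contra hne
    have hz : x - supp W x ∈ A := A.sub_mem hx hex
    have hz0 : x - supp W x ≠ 0 := by
      intro h
      exact hne (sub_eq_zero.1 h).symm
    have h0 : ∀ b ∈ B, ρ (b - supp W b) = 0 := by
      have h1 := eq_zero_of_dense hd (f := ρ.comp (1 - supp W)) hz hz0 (fun D hD => ?_)
      · intro b hb
        exact h1 b hb
      · exact hW.w_zero hL hD
    have h1 : ∀ b ∈ B, ρ (supp W b) = 0 := by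
      have h2 := eq_zero_of_dense hd (f := ρ.comp (supp W)) hz hz0 (fun D hD => ?_)
      · intro b hb
        exact h2 b hb
      · have h3 := hW.w_one hL hD
        have h4 : (supp W * D * (1 - supp W) + (1 - supp W) * D * supp W) x =
            supp W (D (x - supp W x)) + (D (supp W x) - supp W (D (supp W x))) := rfl
        rw [h4, map_add, h0 _ (hM.1 D hD _ hex), add_zero] at h3
        exact h3
    obtain ⟨b, hb, hb0⟩ := hρ
    apply hb0
    have h2 := h0 b hb
    rw [map_sub, h1 b hb, sub_zero] at h2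
    exact h2
  refine ⟨hfix, ?_⟩
  have h0 : ∀ b ∈ B, ρ (b - supp W b) = 0 := by
    have h1 := eq_zero_of_dense hd (f := ρ.comp (1 - supp W)) hx hx0 (fun D hD => ?_)
    · intro b hb
      exact h1 b hb
    · have h3 := hW.w_one hL hD
      have h4 : (supp W * D * (1 - supp W) + (1 - supp W) * D * supp W) x =
          supp W (D (x - supp W x)) + (D (supp W x) - supp W (D (supp W x))) := rfl
      rw [h4, hfix, sub_self, map_zero, map_zero, zero_add] at h3
      exact h3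
  intro b hb
  have h1 := h0 b hb
  rw [map_sub, sub_eq_zero] at h1
  exact h1.symm

/-- tripotents whose support fixes a given vector -/
theorem WLink.exists_trip_fix (hN : Nice E) (hL : WLink 𝓛) {A B : Submodule ℂ E}
    (hM : Maps 𝓛 A B) (hd : DenseOn 𝓛 A B) (hB : ∃ b ∈ B, b ≠ 0) {x : E} (hx : x ∈ A)
    (hx0 : x ≠ 0) : ∃ W : E →L[ℂ] E, Trip 𝓛 W ∧ supp W x = x := by
  obtain ⟨b, hb, hb0⟩ := hB
  obtain ⟨ρ, hρ⟩ := exists_norming b
  obtain ⟨W, hW⟩ := hL.exists_maxTrip hN ρ x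
  refine ⟨W, hW.toTrip, (hW.w_support hL hM hd hx hx0 ⟨b, hb, ?_⟩).1⟩
  rw [hρ.2, Complex.ofReal_ne_zero]
  exact (norm_pos_iff.2 hb0).ne'

end Pool.Agent.Helper61.HP
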