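import Pool.Agent.Helper61.HO.CubApi
import Pool.Agent.Helper61.HO.WSupport
import Pool.Agent.Helper61.HP.MinDim

/-!
# HO-36  A Cub all of whose tripotents have full support has one-dimensional eigenspaces

This is a port of `HP/Minimal.lean` and `HP/MinDim.lean` (copy these proofs; `Off P` becomes `𝓛 = LS S ∅ ∅ (S * S)`, the
involution `2 P - 1` becomes `S`, `Link` becomes `WLink`, `supp W` is `S * S`).

PROOF. `e = S S`. Every nonzero tripotent `V` of `𝓛` has `supp V = e` (hypothesis). Let `x₀` with `S x₀ = - x₀ ≠ 0`;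
`WLink.exists_trip_fix` (`Cub.maps`, `Cub.dense`) gives a tripotent `W ∈ 𝓛`, `supp W x₀ = x₀`, so `W ≠ 0`, `supp W = e`.
`min_trip`: if `V ≠ 0` is a tripotent of `𝓛` with `V W = W V`, then `V = W` or `V = - W`: `A = (W + V)/2` is in `𝓛`, norm `≤ 1`,
`A A = (- e + W V)/2`, `A A A = - A`; if `A = 0`, `V = - W`; otherwise `supp A = e`, so `W V = - e` and `V = W`.
`min_bound`: `𝓡 = LS S {W} ∅ e` is a weak link (`LS_wlink`), contained in `𝓛`; for `D ∈ 𝓡`, `ρ`, `x`:
`|Re ρ(D x)| ≤ ‖D‖ |Re ρ(W x)|` (maximal tripotents of `𝓡`, `WLink.exists_maxTrip`, are `0`, `W` or `- W`).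
`min_comm`: `D ∈ 𝓡` is a real multiple of `W`.
`min_corner`: for `D ∈ 𝓛` and `S x = - x` there is `c` with `D x = c W x`: `D₊ = (D - W D W)/2 ∈ 𝓡`, `D₋ = (D + W D W)/2`
anticommutes with `W`, and `i S D₋` is in `𝓡` (`skew_phase`: it is skew; it commutes with `W`), so both are multiples of `W` on
`x` (`S D₋ x = D₋ x`, because `D₋ x` is in the `1`-eigenspace).
`min_ran`: if `S x = - x ≠ 0` and `S u = u`, then `u ∈ ℂ W x` (density: `D x → u`, `D x ∈ ℂ W x`, a closed line).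
So `Eig S 1 ⊆ ℂ W x₀` is finite-dimensional.
-/

set_option autoImplicit false

open Filter Topology

namespace Pool.Agent.Helper61.HP

universe u

variable {E : Type u} [NormedAddCommGroup E] [NormedSpace ℂ E] [CompleteSpace E]
  [TopologicalSpace.SeparableSpace E] {S : E →L[ℂ] E}

section cmaux

variable {E : Type u} [NormedAddCommGroup E] [NormedSpace ℂ E] {S W V D : E →L[ℂ] E}

private lemma cm_zero_of_re {z : E} (h : ∀ ρ : StrongDual ℂ E, (ρ z).re = 0) : z = 0 := by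
  obtain ⟨φ, hφ⟩ := exists_norming z
  have h1 := h φ
  rw [hφ.2, Complex.ofReal_re] at h1
  exact norm_eq_zero.1 h1

private lemma cm_eig (S : E →L[ℂ] E) (c : ℂ) (x : E) : x ∈ Eig S c ↔ S x = c • x := by
  have h1 : x ∈ Eig S c ↔ S x - c • x = 0 := Iff.rfl
  rw [h1, sub_eq_zero]

private lemma cm_ff (hS : Cub S) : S * (S * (S * S)) = S * S := by
  have h := hS.cube
  rw [mul_assoc] at h
  rw [h]

private lemma cm_ee (hS : Cub S) : S * S * (S * S) = S * S := by
  rw [← mul_assoc, hS.cube]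

private lemma cm_eS (hS : Cub S) : S * S * S = S := hS.cube

variable [CompleteSpace E]

private theorem cm_trip (hS : Cub S) (hmin : ∀ V, Trip (LS S ∅ ∅ (S * S)) V → V ≠ 0 → supp V = S * S)
    (hW : Trip (LS S ∅ ∅ (S * S)) W) (hW0 : W ≠ 0) (hV : Trip (LS S ∅ ∅ (S * S)) V) (hV0 : V ≠ 0)
    (hc : V * W = W * V) : V = W ∨ V = -W := by
  have hsW : supp W = S * S := hmin W hW hW0
  have hs : supp V = supp W := by rw [hmin V hV hV0, hsW]
  have hVV : V * V = W * W := by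
    have h3 : -(V * V) = -(W * W) := hs
    exact neg_injective h3
  have hW3 : W * W * W = -W := hW.cube
  have hV3 : V * V * V = -V := hV.cube
  have hWWV : W * W * V = -V := by rw [← hVV, hV3]
  have hL := hS.wlink
  obtain ⟨Q, hQ⟩ : ∃ Q : E →L[ℂ] E, Q = W + V := ⟨_, rfl⟩
  have hQm : Q ∈ LS S ∅ ∅ (S * S) := by rw [hQ]; exact hL.add _ hW.mem _ hV.mem
  have hSS : Q * Q = (2 : ℂ) • (W * W + W * V) := by
    rw [hQ, two_smul]
    have h3 : (W + V) * (W + V) = W * W + W * V + V * W + V * V := by noncomm_ring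
    rw [h3, hc, hVV]
    abel
  have hSSS : Q * Q * Q = (-4 : ℂ) • Q := by
    have h3 : (W * W + W * V) * (W + V) = W * W * W + W * W * V + W * (V * W) + W * (V * V) := by
      noncomm_ring
    have h4 : W * (V * W) = -V := by rw [hc, ← mul_assoc, hWWV]
    have h5 : W * (V * V) = -W := by rw [hVV, ← mul_assoc, hW3]
    rw [hSS, hQ, smul_mul_assoc, h3, hW3, hWWV, h4, h5]
    module
  obtain ⟨A, hA⟩ : ∃ A : E →L[ℂ] E, A = (((1 / 2 : ℝ)) : ℂ) • Q := ⟨_, rfl⟩
  have hAm : A ∈ LS S ∅ ∅ (S * S) := by rw [hA]; exact hL.smul _ _ hQm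
  have hhalf : (((1 / 2 : ℝ)) : ℂ) = 1 / 2 := by push_cast; rfl
  have hA1 : ‖A‖ ≤ 1 := by
    rw [hA, norm_smul, Complex.norm_real, hQ]
    have h3 : ‖W + V‖ ≤ 2 := (norm_add_le _ _).trans (by linarith [hW.norm_le, hV.norm_le])
    have h4 : ‖(1 / 2 : ℝ)‖ = 1 / 2 := by norm_num
    rw [h4]
    linarith
  have hAA : A * A = (1 / 2 : ℂ) • (W * W + W * V) := by
    rw [hA, hhalf, smul_mul_smul_comm, hSS, smul_smul]
    norm_num
  have hAAA : A * A * A = -A := by
    have h3 : A * A * A = ((1 / 2 : ℂ) * (1 / 2) * (1 / 2)) • (Q * Q * Q) := by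
      rw [hA, hhalf, smul_mul_smul_comm, smul_mul_smul_comm]
    rw [h3, hSSS, hA, hhalf, smul_smul, ← neg_smul]
    norm_num
  have hAt : Trip (LS S ∅ ∅ (S * S)) A := ⟨hAm, hA1, hAAA⟩
  by_cases hA0 : A = 0
  · right
    rw [hA, hhalf, smul_eq_zero] at hA0
    rcases hA0 with h3 | h3
    · norm_num at h3
    · rw [hQ] at h3
      rw [add_comm] at h3
      exact eq_neg_of_add_eq_zero_left h3
  · left
    have h5 : -(A * A) = -(W * W) := by
      have h6 : supp A = supp W := by rw [hmin A hAt hA0, hsW]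
      exact h6
    have h6 := neg_injective h5
    rw [hAA] at h6
    have h7 : W * W + W * V = (2 : ℂ) • (W * W) := by
      calc W * W + W * V = (2 : ℂ) • ((1 / 2 : ℂ) • (W * W + W * V)) := by
            rw [smul_smul]
            norm_num
        _ = (2 : ℂ) • (W * W) := by rw [h6]
    rw [two_smul, add_right_inj] at h7
    have h8 : W * (W * V) = W * (W * W) := by rw [h7]
    rw [← mul_assoc, ← mul_assoc, hWWV, hW3] at h8
    exact neg_injective h8

private theorem cm_bound (hN : Nice E) (hS : Cub S)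
    (hmin : ∀ V, Trip (LS S ∅ ∅ (S * S)) V → V ≠ 0 → supp V = S * S)
    (hW : Trip (LS S ∅ ∅ (S * S)) W) (hW0 : W ≠ 0) (hD : D ∈ LS S ∅ ∅ (S * S))
    (hc : D * W = W * D) (ρ : StrongDual ℂ E) (x : E) :
    |(ρ (D x)).re| ≤ ‖D‖ * |(ρ (W x)).re| := by
  have hL : WLink (LS S {W} ∅ (S * S)) := LS_wlink hS.herm (cm_ff hS) _ _
  have hDm : D ∈ LS S {W} ∅ (S * S) := by
    obtain ⟨d1, d2, -, -, d5, d6⟩ := hD
    refine ⟨d1, d2, ?_, ?_, d5, d6⟩
    · intro T hT
      rw [Set.mem_singleton_iff] at hT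
      rw [hT, hc]
    · intro T hT
      exact absurd hT (Set.notMem_empty T)
  obtain ⟨V, hV⟩ := hL.exists_maxTrip hN ρ x
  have hVb : (ρ (V x)).re ≤ |(ρ (W x)).re| := by
    by_cases hV0 : V = 0
    · rw [hV0, zero_apply, map_zero, Complex.zero_re]
      exact abs_nonneg _
    · obtain ⟨v1, v2, v3, v4, v5, v6⟩ := hV.mem
      have hVt : Trip (LS S ∅ ∅ (S * S)) V :=
        ⟨⟨v1, v2, fun T hT => absurd hT (Set.notMem_empty T),
          fun T hT => absurd hT (Set.notMem_empty T), v5, v6⟩, hV.norm_le, hV.cube⟩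
      rcases cm_trip hS hmin hW hW0 hVt hV0 (v3 W (Set.mem_singleton W)).symm with h3 | h3
      · rw [h3]
        exact le_abs_self _
      · rw [h3, neg_apply, map_neg, Complex.neg_re]
        exact neg_le_abs _
  have hmain : ∀ D' ∈ LS S {W} ∅ (S * S), (ρ (D' x)).re ≤ ‖D'‖ * |(ρ (W x)).re| := by
    intro D' hD'
    by_cases h0 : D' = 0
    · rw [h0, zero_apply, map_zero, Complex.zero_re, norm_zero, zero_mul]
    · have hn : 0 < ‖D'‖ := norm_pos_iff.2 h0
      have h3 := hV.max _ (hL.smul (‖D'‖⁻¹) D' hD') (by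
        rw [norm_smul, Complex.norm_real, norm_inv, norm_norm, inv_mul_cancel₀ hn.ne'])
      rw [smul_apply, map_smul, smul_eq_mul, Complex.re_ofReal_mul] at h3
      have h4 := h3.trans hVb
      rwa [inv_mul_le_iff₀ hn] at h4
  rw [abs_le]
  constructor
  · have h3 := hmain (-D) (hL.neg hDm)
    rw [neg_apply, map_neg, Complex.neg_re, norm_neg] at h3
    linarith
  · exact hmain D hDm

private theorem cm_comm (hN : Nice E) (hS : Cub S)
    (hmin : ∀ V, Trip (LS S ∅ ∅ (S * S)) V → V ≠ 0 → supp V = S * S)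
    (hW : Trip (LS S ∅ ∅ (S * S)) W) (hW0 : W ≠ 0) (hD : D ∈ LS S ∅ ∅ (S * S))
    (hc : D * W = W * D) : ∃ t : ℝ, D = (t : ℂ) • W := by
  have hb := cm_bound hN hS hmin hW hW0 hD hc
  have hker : ∀ x, W x = 0 → D x = 0 := by
    intro x hx
    apply cm_zero_of_re
    intro ρ
    have h3 := hb ρ x
    rw [hx, map_zero, Complex.zero_re, abs_zero, mul_zero] at h3
    exact abs_nonpos_iff.1 h3
  have hrel : ∀ (ρ : StrongDual ℂ E) (x : E), (ρ (W x)).re = 0 → (ρ (D x)).re = 0 := by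
    intro ρ x h0
    have h3 := hb ρ x
    rw [h0, abs_zero, mul_zero] at h3
    exact abs_nonpos_iff.1 h3
  have hloc : ∀ x, ∃ l : ℝ, D x = (l : ℂ) • W x := by
    intro x
    by_cases hx : W x = 0
    · exact ⟨0, by rw [hker x hx, hx, smul_zero]⟩
    · obtain ⟨ψ, hψ⟩ := exists_norming (W x)
      have hn : ψ (W x) ≠ 0 := by
        rw [hψ.2]
        exact_mod_cast norm_ne_zero_iff.2 hx
      obtain ⟨c, hcd⟩ : ∃ c : ℂ, c = ψ (D x) / ψ (W x) := ⟨_, rfl⟩
      have hcψ : ψ (D x) = c * ψ (W x) := by rw [hcd, div_mul_cancel₀ _ hn]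
      have hDx : D x = c • W x := by
        rw [← sub_eq_zero]
        apply cm_zero_of_re
        intro φ
        have h3 := hrel (φ - (φ (W x) / ψ (W x)) • ψ) x (by
          rw [sub_apply, smul_apply, smul_eq_mul, div_mul_cancel₀ _ hn, sub_self,
            Complex.zero_re])
        have h4 : (φ - (φ (W x) / ψ (W x)) • ψ) (D x) = φ (D x - c • W x) := by
          rw [sub_apply, smul_apply, smul_eq_mul, map_sub, map_smul, smul_eq_mul, hcψ]
          field_simp
        rw [← h4]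
        exact h3
      have h5 := hrel ((Complex.I / ψ (W x)) • ψ) x (by
        rw [smul_apply, smul_eq_mul, div_mul_cancel₀ _ hn, Complex.I_re])
      rw [smul_apply, smul_eq_mul, hcψ] at h5
      have h6 : Complex.I / ψ (W x) * (c * ψ (W x)) = Complex.I * c := by
        field_simp
      rw [h6, Complex.I_mul_re] at h5
      refine ⟨c.re, ?_⟩
      have h7 : ((c.re : ℝ) : ℂ) = c := by
        apply Complex.ext
        · rfl
        · rw [Complex.ofReal_im]
          linarith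
      rw [h7]
      exact hDx
  obtain ⟨x₀, hx₀⟩ : ∃ x₀, W x₀ ≠ 0 := by
    by_contra h3
    push Not at h3
    apply hW0
    ext x
    rw [h3 x, zero_apply]
  obtain ⟨l, hl⟩ := hloc x₀
  refine ⟨l, ?_⟩
  ext x
  rw [smul_apply]
  obtain ⟨a, ha⟩ := hloc x
  obtain ⟨m, hm⟩ := hloc (x + x₀)
  rw [map_add, map_add, ha, hl, smul_add] at hm
  by_cases hml : m = l
  · rw [hml, add_left_inj] at hm
    rw [ha, hm]
  · have hne : ((m - l : ℝ) : ℂ) ≠ 0 := by exact_mod_cast sub_ne_zero.2 hml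
    have h3 : ((m - l : ℝ) : ℂ) • W x₀ = ((a - m : ℝ) : ℂ) • W x := by
      rw [Complex.ofReal_sub, Complex.ofReal_sub, sub_smul, sub_smul]
      have h4 := hm
      rw [← sub_eq_zero] at h4 ⊢
      rw [← neg_eq_zero, ← h4]
      abel
    have h5 : W x₀ = ((((m - l : ℝ) : ℂ))⁻¹ * ((a - m : ℝ) : ℂ)) • W x := by
      rw [mul_smul, ← h3, smul_smul, inv_mul_cancel₀ hne, one_smul]
    obtain ⟨k, hk⟩ : ∃ k : ℂ, k = (((m - l : ℝ) : ℂ))⁻¹ * ((a - m : ℝ) : ℂ) := ⟨_, rfl⟩
    rw [← hk] at h5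
    have hk0 : k ≠ 0 := by
      intro h6
      apply hx₀
      rw [h5, h6, zero_smul]
    have h6 : D (x₀ - k • x) = 0 := by
      apply hker
      rw [map_sub, map_smul, ← h5, sub_self]
    rw [map_sub, map_smul, sub_eq_zero, hl, h5] at h6
    have h7 : D x = k⁻¹ • ((l : ℂ) • k • W x) := by
      rw [h6, smul_smul, inv_mul_cancel₀ hk0, one_smul]
    rw [h7, smul_comm (l : ℂ) k, smul_smul k⁻¹ k, inv_mul_cancel₀ hk0, one_smul]

private theorem cm_corner (hN : Nice E) (hS : Cub S)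
    (hmin : ∀ V, Trip (LS S ∅ ∅ (S * S)) V → V ≠ 0 → supp V = S * S)
    (hW : Trip (LS S ∅ ∅ (S * S)) W) (hW0 : W ≠ 0) (hD : D ∈ LS S ∅ ∅ (S * S)) {x : E}
    (hx : S x = -x) : ∃ c : ℂ, D x = c • W x := by
  have hL := hS.wlink
  have hWm := hW.mem
  have hWDW : W * D * W ∈ LS S ∅ ∅ (S * S) := hL.tri W hWm D hD
  have hWW : W * W = -(S * S) := by
    have h1 : -(W * W) = S * S := hmin W hW hW0
    rw [← h1, neg_neg]
  have eW : S * S * W = W := hWm.2.2.2.2.1
  have We : W * (S * S) = W := hWm.2.2.2.2.2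
  have h1 : S * S * D = D := hD.2.2.2.2.1
  have h2 : D * (S * S) = D := hD.2.2.2.2.2
  have SW : S * W = -(W * S) := hWm.2.1
  obtain ⟨A, hA⟩ : ∃ A : E →L[ℂ] E, A = D - W * D * W := ⟨_, rfl⟩
  obtain ⟨B, hB⟩ : ∃ B : E →L[ℂ] E, B = D + W * D * W := ⟨_, rfl⟩
  have hAm : (((1 / 2 : ℝ) : ℝ) : ℂ) • A ∈ LS S ∅ ∅ (S * S) := by
    rw [hA]
    exact hL.smul _ _ (hL.sub hD hWDW)
  have hBm : (((1 / 2 : ℝ) : ℝ) : ℂ) • B ∈ LS S ∅ ∅ (S * S) := by
    rw [hB]
    exact hL.smul _ _ (hL.add _ hD _ hWDW)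
  have f1 : W * (W * D * W) = -(D * W) := by
    rw [← mul_assoc, ← mul_assoc, hWW, neg_mul, neg_mul, h1]
  have f2 : W * D * W * W = -(W * D) := by
    rw [mul_assoc (W * D) W W, hWW, mul_neg, mul_assoc W D (S * S), h2]
  have WA : W * A = A * W := by
    rw [hA, mul_sub, sub_mul, f1, f2]
    abel
  have WB : W * B = -(B * W) := by
    rw [hB, mul_add, add_mul, f1, f2]
    abel
  obtain ⟨s, hs⟩ := cm_comm hN hS hmin hW hW0 hAm
    (by rw [smul_mul_assoc, mul_smul_comm, WA])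
  obtain ⟨B', hB'⟩ : ∃ B' : E →L[ℂ] E, B' = (((1 / 2 : ℝ) : ℝ) : ℂ) • B := ⟨_, rfl⟩
  have WB' : W * B' = -(B' * W) := by
    rw [hB', mul_smul_comm, WB, smul_mul_assoc, smul_neg]
  rw [← hB'] at hBm
  obtain ⟨b1, b2, -, -, b5, b6⟩ := hBm
  have hK : Complex.I • (S * B') ∈ LS S ∅ ∅ (S * S) := by
    refine ⟨skew_phase hS.herm b1 b2, ?_, fun T hT => absurd hT (Set.notMem_empty T),
      fun T hT => absurd hT (Set.notMem_empty T), ?_, ?_⟩
    · rw [mul_smul_comm, smul_mul_assoc, mul_assoc S B' S]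
      have h3 : B' * S = -(S * B') := by rw [b2, neg_neg]
      rw [h3, mul_neg, smul_neg, neg_neg]
    · rw [mul_smul_comm, ← mul_assoc, hS.cube]
    · rw [smul_mul_assoc, mul_assoc, b6]
  have hUB : W * (S * B') = S * B' * W := by
    have h3 : W * S = -(S * W) := by rw [SW, neg_neg]
    rw [← mul_assoc, h3, neg_mul, mul_assoc, WB', mul_neg, neg_neg, mul_assoc]
  obtain ⟨t, ht⟩ := cm_comm hN hS hmin hW hW0 hK (by
    rw [smul_mul_assoc, mul_smul_comm, hUB])
  refine ⟨(s : ℂ) - Complex.I * t, ?_⟩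
  have g1 : (((1 / 2 : ℝ) : ℝ) : ℂ) • A x = (s : ℂ) • W x := by
    have := congrArg (fun T : E →L[ℂ] E => T x) hs
    exact this
  have g2 : S (B' x) = B' x := by
    have h3 := congrArg (fun T : E →L[ℂ] E => T x) b2
    have h4 : S (B' x) = -(B' (S x)) := h3
    rw [h4, hx, map_neg, neg_neg]
  have g3 : Complex.I • (B' x) = (t : ℂ) • W x := by
    have h3 := congrArg (fun T : E →L[ℂ] E => T x) ht
    have h4 : Complex.I • (S (B' x)) = (t : ℂ) • W x := h3
    rw [g2] at h4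
    exact h4
  have g4 : B' x = -((Complex.I * t) • W x) := by
    have h3 : (-Complex.I) • (Complex.I • (B' x)) = (-Complex.I) • ((t : ℂ) • W x) := by rw [g3]
    rw [smul_smul (-Complex.I) Complex.I, neg_mul, Complex.I_mul_I, neg_neg, one_smul,
      smul_smul, neg_mul, neg_smul] at h3
    exact h3
  have g5 : D x = (((1 / 2 : ℝ) : ℝ) : ℂ) • A x + B' x := by
    have h4 : A + B = (2 : ℂ) • D := by
      rw [hA, hB, two_smul]
      abel
    have h5 : A x + B x = (2 : ℂ) • D x := by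
      have h6 := congrArg (fun T : E →L[ℂ] E => T x) h4
      exact h6
    have h7 : B' x = (((1 / 2 : ℝ) : ℝ) : ℂ) • B x := by rw [hB']; rfl
    rw [h7, ← smul_add, h5, smul_smul]
    norm_num
  rw [g5, g1, g4, sub_smul, sub_eq_add_neg]

private theorem cm_ran [TopologicalSpace.SeparableSpace E] (hN : Nice E) (htr : Transitive E)
    (hS : Cub S) (hmin : ∀ V, Trip (LS S ∅ ∅ (S * S)) V → V ≠ 0 → supp V = S * S)
    (hW : Trip (LS S ∅ ∅ (S * S)) W) (hW0 : W ≠ 0) {x u : E} (hx : S x = -x) (hx0 : x ≠ 0)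
    (hu : S u = u) : u ∈ (Submodule.span ℂ {W x} : Submodule ℂ E) := by
  have hmem : u ∈ closure ((Submodule.span ℂ {W x} : Submodule ℂ E) : Set E) := by
    rw [Metric.mem_closure_iff]
    intro ε hε
    have hxm : x ∈ Eig S (-1) := (cm_eig S (-1) x).2 (by rw [hx, neg_smul, one_smul])
    have hum : u ∈ Eig S 1 := (cm_eig S 1 u).2 (by rw [hu, one_smul])
    obtain ⟨X, hX, hXu⟩ := (hS.dense htr).1 x hxm hx0 u hum ε hε
    obtain ⟨c, hc⟩ := cm_corner hN hS hmin hW hW0 hX hx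
    refine ⟨c • W x, Submodule.smul_mem _ _ (Submodule.mem_span_singleton_self _), ?_⟩
    rw [← hc, dist_eq_norm, norm_sub_rev]
    exact hXu
  have hcl : IsClosed ((Submodule.span ℂ {W x} : Submodule ℂ E) : Set E) :=
    Submodule.closed_of_finiteDimensional _
  rw [hcl.closure_eq] at hmem
  exact hmem

end cmaux

theorem cub_min_finite (hN : Nice E) (htr : Transitive E) (hS : Cub S)
    (hp : ∃ x, x ≠ 0 ∧ S x = x) (hm : ∃ x, x ≠ 0 ∧ S x = -x)
    (hmin : ∀ V, Trip (LS S ∅ ∅ (S * S)) V → V ≠ 0 → supp V = S * S) :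
    FiniteDimensional ℂ (Eig S 1) := by
  obtain ⟨b, hb0, hb⟩ := hp
  obtain ⟨x, hx0, hx⟩ := hm
  obtain ⟨W, hW, hWx⟩ := hS.wlink.exists_trip_fix hN hS.maps (hS.dense htr).1
    ⟨b, (cm_eig S 1 b).2 (by rw [hb, one_smul]), hb0⟩
    ((cm_eig S (-1) x).2 (by rw [hx, neg_smul, one_smul])) hx0
  have hW0 : W ≠ 0 := by
    intro h0
    apply hx0
    rw [← hWx, h0]
    simp [supp]
  have hsub : Eig S 1 ≤ Submodule.span ℂ {W x} := by
    intro u hu
    exact cm_ran hN htr hS hmin hW hW0 hx hx0 (by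
      have h1 := (cm_eig S 1 u).1 hu
      rwa [one_smul] at h1)
  have hfin : FiniteDimensional ℂ (Submodule.span ℂ {W x} : Submodule ℂ E) :=
    FiniteDimensional.span_of_finite ℂ (by simp)
  exact Submodule.finiteDimensional_of_le hsub

end Pool.Agent.Helper61.HP
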