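import Pool.Agent.Helper61.HO.CubMin

/-!
# HO-37  Splitting a Cub with infinite-dimensional eigenspace

PROOF. By `cub_min_finite` there is a nonzero tripotent `W` of `LS S ∅ ∅ (S * S)` with `supp W ≠ S S`. `S' = S * supp W`:
hermitian (`skew_square`, `supp W = - W W`), `S` commutes with `supp W` (`S W = - W S`), `S S supp W = supp W`
(`S S W = W`), so `S' S' = S S supp W = supp W`, `S' S' S' = S'`, `S' ≠ 0` (`S' S' = supp W`, `supp W W = W ≠ 0`),
`S S' = S S supp W = supp W = S' S'`, the same for `S' S`. `S ≠ S'` because `S S ≠ supp W = S' S'`. `Cub.of_sub` with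
`S'' = S - S'`.
-/

set_option autoImplicit false

open Filter Topology

namespace Pool.Agent.Helper61.HP

universe u

variable {E : Type u} [NormedAddCommGroup E] [NormedSpace ℂ E] [CompleteSpace E]
  [TopologicalSpace.SeparableSpace E] {S : E →L[ℂ] E}

theorem cub_split (hN : Nice E) (htr : Transitive E) (hS : Cub S)
    (hp : ∃ x, x ≠ 0 ∧ S x = x) (hm : ∃ x, x ≠ 0 ∧ S x = -x)
    (hinf : ¬ FiniteDimensional ℂ (Eig S 1)) :
    ∃ S' S'' : E →L[ℂ] E, Cub S' ∧ Cub S'' ∧ S = S' + S'' ∧ S' * S'' = 0 ∧ S'' * S' = 0 := by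
  have hex : ∃ W, Trip (LS S ∅ ∅ (S * S)) W ∧ W ≠ 0 ∧ supp W ≠ S * S := by
    by_contra hcon
    push Not at hcon
    exact hinf (cub_min_finite hN htr hS hp hm hcon)
  obtain ⟨W, hW, hW0, hWs⟩ := hex
  obtain ⟨hWsk, hSW, -, -, hSSW, -⟩ := hW.mem
  have hW3 : W * (W * W) = -W := by rw [← mul_assoc]; exact hW.cube
  have hSSW' : S * (S * W) = W := by rw [← mul_assoc]; exact hSSW
  obtain ⟨Q, hQ⟩ : ∃ Q : E →L[ℂ] E, Q = supp W := ⟨_, rfl⟩
  have hQW : Q = -(W * W) := hQ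
  have hQc : S * Q = Q * S := by
    rw [hQW, mul_neg, ← mul_assoc, hSW, neg_mul, mul_assoc, hSW, mul_neg, neg_mul, mul_assoc, neg_neg]
  have hSSQ : S * (S * Q) = Q := by
    rw [hQW, mul_neg, mul_neg, ← mul_assoc S W W, ← mul_assoc S (S * W) W, hSSW']
  have hQQ : Q * Q = Q := by
    rw [hQW, neg_mul_neg, mul_assoc, hW3, mul_neg]
  have hQW0 : Q * W = W := by
    rw [hQW, neg_mul, mul_assoc, hW3, neg_neg]
  have h11 : (S * Q) * (S * Q) = Q := by
    rw [mul_assoc, ← mul_assoc Q S Q, ← hQc, mul_assoc, hQQ, hSSQ]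
  have hS' : Cub (S * Q) := by
    refine ⟨?_, ?_, fun h0 => hW0 ?_⟩
    · have h := (skew_square hS.herm hWsk hSW).neg
      rwa [← mul_neg, ← hQW] at h
    · rw [h11, ← mul_assoc, ← hQc, mul_assoc, hQQ]
    · rw [h0, zero_mul] at h11
      rw [← hQW0, ← h11, zero_mul]
  have h1 : S * (S * Q) = (S * Q) * (S * Q) := by rw [h11, hSSQ]
  have h2 : (S * Q) * S = (S * Q) * (S * Q) := by rw [h11, mul_assoc, ← hQc, hSSQ]
  have hne : S ≠ S * Q := by
    intro h0
    apply hWs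
    rw [← hQ, ← h11, ← h0]
  obtain ⟨h3, h4, h5⟩ := hS.of_sub hS' h1 h2 hne
  exact ⟨S * Q, S - S * Q, hS', h3, by abel, h4, h5⟩

end Pool.Agent.Helper61.HP
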