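import Pool.Agent.Helper61.HP.Defs

/-!
# Hermitian operators in transitive Banach spaces: definitions (project HO, MP_cc72b1_an)

THEOREM HO. A separable complex Banach space without a copy of `ℓ¹` whose complex-linear isometries act transitively
on the unit sphere and which has a hermitian operator that is not a scalar multiple of the identity is a Hilbert
space.

Notation (`E` a complex Banach space, operators = elements of `E →L[ℂ] E`):
* `ex t D = exp (t D)`, `Herm`, `Skew`, `Nice`, `Transitive`, `Link`, `Trip`, ... are the definitions of project HP;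
* `Phi A f` is the smooth functional calculus of a hermitian operator `A` (`f` a test function);
* `SpIn A α β y`: the vector `y` is in the spectral subspace of `A` for `[α, β]`;
* `adL H` is the operator `K ↦ H K - K H` on `E →L[ℂ] E`;
* `HLie 𝔥`: `𝔥` is a real Lie algebra of hermitian operators closed under ultralimits;
* `Pr 𝔥 K L`: `K = A + i B`, `L = A - i B` with `A`, `B ∈ 𝔥` (so `L` is the star of `K`);
* `Grad S N p`: `S` has integer eigenvalues in `[-N, N]`, with the spectral projections `p j`;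
* `Cub S`: `S` is hermitian, `S ^ 3 = S ≠ 0`.
-/

set_option autoImplicit false

open Filter Topology
open scoped FourierTransform

namespace Pool.Agent.Helper61.HP

universe u

variable {E : Type u} [NormedAddCommGroup E] [NormedSpace ℂ E]

/-- test functions: smooth with compact support -/
def Test (f : ℝ → ℂ) : Prop := ContDiff ℝ (⊤ : ℕ∞) f ∧ HasCompactSupport f

/-- `f` vanishes in a neighbourhood of every point of `s` -/
def VanNear (f : ℝ → ℂ) (s : Set ℝ) : Prop := ∀ x ∈ s, ∀ᶠ y in 𝓝 x, f y = 0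

/-- the smooth functional calculus of a hermitian operator: `f(A) = ∫ (𝓕 f) ξ exp (2 π i ξ A) dξ` -/
noncomputable def Phi (A : E →L[ℂ] E) (f : ℝ → ℂ) : E →L[ℂ] E :=
  ∫ ξ : ℝ, (𝓕 f ξ) • ex (2 * Real.pi * ξ) (Complex.I • A)

/-- `y` is in the spectral subspace of `A` for the interval `[α, β]` -/
def SpIn (A : E →L[ℂ] E) (α β : ℝ) (y : E) : Prop :=
  ∀ f : ℝ → ℂ, Test f → VanNear f (Set.Icc α β) → Phi A f y = 0

/-- the operator `K ↦ H K - K H` -/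
noncomputable def adL (H : E →L[ℂ] E) : (E →L[ℂ] E) →L[ℂ] (E →L[ℂ] E) :=
  ContinuousLinearMap.mul ℂ (E →L[ℂ] E) H - (ContinuousLinearMap.mul ℂ (E →L[ℂ] E)).flip H

/-- the commutator -/
def lie (A B : E →L[ℂ] E) : E →L[ℂ] E := A * B - B * A

/-- real Lie algebras of hermitian operators, closed under ultralimits -/
structure HLie (𝔥 : Set (E →L[ℂ] E)) : Prop where
  herm : ∀ A ∈ 𝔥, Herm A
  zero : (0 : E →L[ℂ] E) ∈ 𝔥
  add : ∀ A ∈ 𝔥, ∀ B ∈ 𝔥, A + B ∈ 𝔥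
  smul : ∀ t : ℝ, ∀ A ∈ 𝔥, (t : ℂ) • A ∈ 𝔥
  lie : ∀ A ∈ 𝔥, ∀ B ∈ 𝔥, Complex.I • (A * B - B * A) ∈ 𝔥
  ulim : ∀ (A : ℕ → E →L[ℂ] E) (L : E →L[ℂ] E), (∀ n, A n ∈ 𝔥) → IsULim A L → L ∈ 𝔥

/-- `K = A + i B` and `L = A - i B` with `A`, `B ∈ 𝔥`: `L` is the star of `K` -/
def Pr (𝔥 : Set (E →L[ℂ] E)) (K L : E →L[ℂ] E) : Prop :=
  ∃ A ∈ 𝔥, ∃ B ∈ 𝔥, K = A + Complex.I • B ∧ L = A - Complex.I • B

/-- the hermitian operators which annihilate `S` from both sides -/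
def Ann (S : E →L[ℂ] E) : Set (E →L[ℂ] E) := {H | Herm H ∧ H * S = 0 ∧ S * H = 0}

/-- `S` has integer eigenvalues in `[-N, N]`, with the spectral projections `p j` -/
structure Grad (S : E →L[ℂ] E) (N : ℕ) (p : ℤ → E →L[ℂ] E) : Prop where
  herm : Herm S
  supp : ∀ j : ℤ, (N : ℤ) < |j| → p j = 0
  orth : ∀ j k : ℤ, j ≠ k → p j * p k = 0
  idem : ∀ j : ℤ, p j * p j = p j
  sum : ∑ j ∈ Finset.Icc (-(N : ℤ)) (N : ℤ), p j = 1
  eig : ∀ j : ℤ, S * p j = (j : ℂ) • p j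
  eig' : ∀ j : ℤ, p j * S = (j : ℂ) • p j

/-- the component of weight `d` of `K` -/
noncomputable def wt (N : ℕ) (p : ℤ → E →L[ℂ] E) (d : ℤ) (K : E →L[ℂ] E) : E →L[ℂ] E :=
  ∑ j ∈ Finset.Icc (-(N : ℤ)) (N : ℤ), p (j + d) * K * p j

/-- hermitian operators with `S ^ 3 = S ≠ 0` -/
structure Cub (S : E →L[ℂ] E) : Prop where
  herm : Herm S
  cube : S * S * S = S
  ne : S ≠ 0

/-- the spectral projections of `S` with `S ^ 3 = S` -/
noncomputable def pc (S : E →L[ℂ] E) (j : ℤ) : E →L[ℂ] E :=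
  if j = 1 then (1 / 2 : ℂ) • (S * S + S) else if j = -1 then (1 / 2 : ℂ) • (S * S - S)
  else if j = 0 then 1 - S * S else 0

/-- the eigenspace -/
def Eig (S : E →L[ℂ] E) (c : ℂ) : Submodule ℂ E :=
  LinearMap.ker ((S - c • (1 : E →L[ℂ] E) : E →L[ℂ] E) : E →ₗ[ℂ] E)

/-- there are no hermitian projections besides `0` and `1` -/
def NP (E : Type u) [NormedAddCommGroup E] [NormedSpace ℂ E] : Prop :=
  ∀ P : E →L[ℂ] E, HProj P → P = 0 ∨ P = 1

/-- abelian triple systems on which `ad h` is nearly the identity -/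
structure IsAb (𝔥 : Set (E →L[ℂ] E)) (h : E →L[ℂ] E) (ε : ℝ) (𝔅 : Submodule ℂ (E →L[ℂ] E)) :
    Prop where
  mem : h ∈ 𝔥
  closed : IsClosed (𝔅 : Set (E →L[ℂ] E))
  pr : ∀ K ∈ 𝔅, ∃ L, Pr 𝔥 K L
  comm : ∀ K ∈ 𝔅, ∀ K' ∈ 𝔅, K * K' = K' * K
  tri : ∀ x ∈ 𝔅, ∀ y y' : E →L[ℂ] E, Pr 𝔥 y y' → ∀ z ∈ 𝔅, lie (lie x y') z ∈ 𝔅
  near : ∀ K ∈ 𝔅, ‖lie h K - K‖ ≤ ε * ‖K‖

/-- the operator `(1/2) ad [b, b']` -/
noncomputable def Lop (b b' : E →L[ℂ] E) : (E →L[ℂ] E) →L[ℂ] (E →L[ℂ] E) :=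
  (1 / 2 : ℂ) • adL (lie b b')

/-- smooth real functions with compact support in `(0, ∞)` -/
def PT (F : ℝ → ℝ) : Prop :=
  ContDiff ℝ (⊤ : ℕ∞) F ∧ HasCompactSupport F ∧ ∃ δ : ℝ, 0 < δ ∧ ∀ t, t ≤ δ → F t = 0

/-- the odd functional calculus of `b` (in the variable `λ = t²`) -/
noncomputable def YF (b b' : E →L[ℂ] E) (F : ℝ → ℝ) : E →L[ℂ] E :=
  Phi (Lop b b') (fun t => ((F t / Real.sqrt t : ℝ) : ℂ)) b

/-- the star of `YF b b' F` -/
noncomputable def YF' (b b' : E →L[ℂ] E) (F : ℝ → ℝ) : E →L[ℂ] E :=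
  Phi (Lop b b') (fun t => ((F (-t) / Real.sqrt (-t) : ℝ) : ℂ)) b'

end Pool.Agent.Helper61.HP
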