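import Pool.Agent.Helper61.HP.Micro
import Pool.Agent.Helper61.HP.SkewConj

/-!
# HO-32  Density of the hermitian operators

PROOF. WLOG `‖x‖ = 1` (apply the statement to `x / ‖x‖` and divide `K` by `‖x‖`). Let `η = ε / 4` and `δ` from `micro` for `x`, the
vector `A u` and `η`. For small `t > 0` put `n = ‖x + t u‖`, `y = (x + t u) / n`; `n → 1`, `y → x` for `t → 0`. Take `T` from
`micro` with `‖T x - y‖ < t η / (‖A‖ + 1)`, `‖T (A u) - A u‖ < η`, and `K = t⁻¹ T⁻¹ A T` (hermitian, `Herm.conj`, `Herm.smul`).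
`K x = t⁻¹ T⁻¹ A (y + e)`, `‖e‖ < t η / (‖A‖ + 1)`, `A y = t A u / n`: so `‖K x - T⁻¹ (A u) / n‖ ≤ η`,
`‖T⁻¹ (A u) - A u‖ = ‖A u - T (A u)‖ < η`, and `A u / n → A u`. So `‖K x - A u‖ ≤ η + η / n + |1/n - 1| ‖A u‖ < ε` for small `t`.
See `dense_off_unit` in HP.Density for the same argument.
-/

set_option autoImplicit false

open Filter Topology

namespace Pool.Agent.Helper61.HP

universe u

variable {E : Type u} [NormedAddCommGroup E] [NormedSpace ℂ E] [CompleteSpace E]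
  [TopologicalSpace.SeparableSpace E]

private theorem dense_herm_unit (htr : Transitive E) {A : E →L[ℂ] E} (hA : Herm A) {x : E}
    (hx : A x = 0) (hx1 : ‖x‖ = 1) (u : E) {ε : ℝ} (hε : 0 < ε) :
    ∃ K : E →L[ℂ] E, Herm K ∧ ‖K x - A u‖ < ε := by
  obtain ⟨v, hv⟩ : ∃ v : E, v = A u := ⟨_, rfl⟩
  rw [← hv]
  obtain ⟨δ, hδ, hmic⟩ := micro htr hx1 v (η := ε / 4) (by linarith)
  have hc : Continuous (fun t : ℝ => ‖x + (t : ℂ) • u‖) := by fun_prop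
  have h0 : Tendsto (fun t : ℝ => ‖x + (t : ℂ) • u‖) (𝓝 0) (𝓝 1) := by
    have h1 := hc.tendsto 0
    simpa only [Complex.ofReal_zero, zero_smul, add_zero, hx1] using h1
  have hci : Tendsto (fun t : ℝ => ‖x + (t : ℂ) • u‖⁻¹) (𝓝 0) (𝓝 1) := by
    have h1 := h0.inv₀ one_ne_zero
    simpa only [inv_one] using h1
  have hci' : Tendsto (fun t : ℝ => (((‖x + (t : ℂ) • u‖⁻¹ : ℝ)) : ℂ)) (𝓝 0) (𝓝 1) := by
    have h1 := (Complex.continuous_ofReal.tendsto 1).comp hci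
    rw [Complex.ofReal_one] at h1
    exact h1
  have hxu : Tendsto (fun t : ℝ => x + (t : ℂ) • u) (𝓝 0) (𝓝 x) := by
    have h2 : Continuous (fun t : ℝ => x + (t : ℂ) • u) := by fun_prop
    have h1 := h2.tendsto 0
    simpa only [Complex.ofReal_zero, zero_smul, add_zero] using h1
  have hy : Tendsto (fun t : ℝ => (((‖x + (t : ℂ) • u‖⁻¹ : ℝ)) : ℂ) • (x + (t : ℂ) • u))
      (𝓝 0) (𝓝 x) := by
    have h1 := hci'.smul hxu
    simpa only [one_smul] using h1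
  have hvt : Tendsto (fun t : ℝ => (((‖x + (t : ℂ) • u‖⁻¹ : ℝ)) : ℂ) • v) (𝓝 0) (𝓝 v) := by
    have h1 := hci'.smul_const v
    simpa only [one_smul] using h1
  have hev : ∀ᶠ t : ℝ in 𝓝 0,
      ‖(((‖x + (t : ℂ) • u‖⁻¹ : ℝ)) : ℂ) • (x + (t : ℂ) • u) - x‖ < δ ∧
      ‖(((‖x + (t : ℂ) • u‖⁻¹ : ℝ)) : ℂ) • v - v‖ < ε / 4 ∧
      ‖x + (t : ℂ) • u‖⁻¹ < 3 / 2 ∧ 1 / 2 < ‖x + (t : ℂ) • u‖ := by
    refine Filter.Eventually.and ?_ (Filter.Eventually.and ?_ (Filter.Eventually.and ?_ ?_))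
    · have h2 := Metric.tendsto_nhds.1 hy δ hδ
      simpa only [dist_eq_norm] using h2
    · have h2 := Metric.tendsto_nhds.1 hvt (ε / 4) (by linarith)
      simpa only [dist_eq_norm] using h2
    · exact hci.eventually_lt_const (by norm_num)
    · exact h0.eventually_const_lt (by norm_num)
  have hev2 : ∀ᶠ t : ℝ in 𝓝[>] 0,
      (‖(((‖x + (t : ℂ) • u‖⁻¹ : ℝ)) : ℂ) • (x + (t : ℂ) • u) - x‖ < δ ∧
      ‖(((‖x + (t : ℂ) • u‖⁻¹ : ℝ)) : ℂ) • v - v‖ < ε / 4 ∧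
      ‖x + (t : ℂ) • u‖⁻¹ < 3 / 2 ∧ 1 / 2 < ‖x + (t : ℂ) • u‖) ∧ 0 < t :=
    (hev.filter_mono nhdsWithin_le_nhds).and self_mem_nhdsWithin
  obtain ⟨t, ⟨ht1, ht2, ht3, ht4⟩, ht0⟩ := hev2.exists
  obtain ⟨c, hc⟩ : ∃ c : ℝ, c = ‖x + (t : ℂ) • u‖⁻¹ := ⟨_, rfl⟩
  rw [← hc] at ht1 ht2 ht3
  have hn0 : 0 < ‖x + (t : ℂ) • u‖ := by linarith
  have hc0 : 0 < c := by
    rw [hc]
    exact inv_pos.2 hn0
  obtain ⟨y, hyd⟩ : ∃ y : E, y = (c : ℂ) • (x + (t : ℂ) • u) := ⟨_, rfl⟩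
  rw [← hyd] at ht1
  have hy1 : ‖y‖ = 1 := by
    rw [hyd, norm_smul, Complex.norm_real, Real.norm_of_nonneg hc0.le, hc]
    exact inv_mul_cancel₀ hn0.ne'
  have hA1 : 0 < ‖A‖ + 1 := by positivity
  obtain ⟨T, hT1, hT2⟩ := hmic y hy1 ht1 (t * (ε / 4) / (‖A‖ + 1)) (by positivity)
  obtain ⟨S, hS⟩ : ∃ S : E →L[ℂ] E, ∀ z, S z = T z :=
    ⟨(T.toContinuousLinearEquiv : E →L[ℂ] E), fun z => rfl⟩
  obtain ⟨S', hS'⟩ : ∃ S' : E →L[ℂ] E, ∀ z, S' z = T.symm z :=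
    ⟨(T.symm.toContinuousLinearEquiv : E →L[ℂ] E), fun z => rfl⟩
  have h1 : S * S' = 1 := by
    ext z
    show S (S' z) = z
    rw [hS', hS, T.apply_symm_apply]
  have h2 : S' * S = 1 := by
    ext z
    show S' (S z) = z
    rw [hS, hS', T.symm_apply_apply]
  have hK0 : Herm (S' * A * S) := hA.conj h1 h2 (fun z => by rw [hS', T.symm.norm_map])
  have hK : Herm (((t⁻¹ : ℝ) : ℂ) • (S' * A * S)) := hK0.smul t⁻¹
  refine ⟨_, hK, ?_⟩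
  have hKx : (((t⁻¹ : ℝ) : ℂ) • (S' * A * S)) x = ((t⁻¹ : ℝ) : ℂ) • T.symm (A (T x)) := by
    show ((t⁻¹ : ℝ) : ℂ) • S' (A (S x)) = _
    rw [hS, hS']
  rw [hKx]
  have hAy : A y = (t : ℂ) • ((c : ℂ) • v) := by
    rw [hyd, map_smul, map_add, map_smul, hx, ← hv, zero_add, smul_comm]
  have htne : (t : ℂ) ≠ 0 := by exact_mod_cast ht0.ne'
  have hcu : (c : ℂ) • v = ((t⁻¹ : ℝ) : ℂ) • A y := by
    rw [hAy, smul_smul, Complex.ofReal_inv, inv_mul_cancel₀ htne, one_smul]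
  have e1 : ‖((t⁻¹ : ℝ) : ℂ) • T.symm (A (T x)) - T.symm ((c : ℂ) • v)‖ ≤ ε / 4 := by
    rw [hcu, map_smul, ← smul_sub, ← map_sub, ← map_sub, norm_smul, T.symm.norm_map,
      Complex.norm_real, Real.norm_of_nonneg (inv_nonneg.2 ht0.le), inv_mul_le_iff₀ ht0]
    calc ‖A (T x - y)‖ ≤ ‖A‖ * ‖T x - y‖ := A.le_opNorm _
      _ ≤ (‖A‖ + 1) * (t * (ε / 4) / (‖A‖ + 1)) :=
          mul_le_mul (by linarith) hT1.le (norm_nonneg _) hA1.le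
      _ = t * (ε / 4) := by
          field_simp
  have e2 : ‖T.symm ((c : ℂ) • v) - (c : ℂ) • v‖ ≤ 3 / 2 * (ε / 4) := by
    rw [map_smul, ← smul_sub, norm_smul, Complex.norm_real, Real.norm_of_nonneg hc0.le]
    have h3 : ‖T.symm v - v‖ = ‖T v - v‖ := by
      have h4 : T.symm v - v = T.symm (v - T v) := by rw [map_sub, T.symm_apply_apply]
      rw [h4, T.symm.norm_map, ← norm_neg, neg_sub]
    rw [h3]
    exact mul_le_mul ht3.le hT2.le (norm_nonneg _) (by norm_num)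
  have h5 : ((t⁻¹ : ℝ) : ℂ) • T.symm (A (T x)) - v =
      (((t⁻¹ : ℝ) : ℂ) • T.symm (A (T x)) - T.symm ((c : ℂ) • v)) +
        (T.symm ((c : ℂ) • v) - (c : ℂ) • v) + ((c : ℂ) • v - v) := by abel
  rw [h5]
  refine (norm_add_le _ _).trans_lt ?_
  have h6 := norm_add_le (((t⁻¹ : ℝ) : ℂ) • T.symm (A (T x)) - T.symm ((c : ℂ) • v))
    (T.symm ((c : ℂ) • v) - (c : ℂ) • v)
  linarith

theorem dense_herm (htr : Transitive E) {A : E →L[ℂ] E} (hA : Herm A) {x : E} (hx : A x = 0)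
    (hx0 : x ≠ 0) (u : E) {ε : ℝ} (hε : 0 < ε) :
    ∃ K : E →L[ℂ] E, Herm K ∧ ‖K x - A u‖ < ε := by
  have hn : ‖x‖ ≠ 0 := norm_ne_zero_iff.2 hx0
  have h1 : ‖((‖x‖⁻¹ : ℝ) : ℂ) • x‖ = 1 := by
    rw [norm_smul, Complex.norm_real, norm_inv, norm_norm]
    exact inv_mul_cancel₀ hn
  obtain ⟨K, hK, hK2⟩ := dense_herm_unit htr hA (x := ((‖x‖⁻¹ : ℝ) : ℂ) • x)
    (by rw [map_smul, hx, smul_zero]) h1 u hε
  refine ⟨((‖x‖⁻¹ : ℝ) : ℂ) • K, hK.smul _, ?_⟩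
  rw [ContinuousLinearMap.smul_apply]
  rwa [map_smul] at hK2

end Pool.Agent.Helper61.HP
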