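import Pool.Agent.Helper61.HO.TriplePhi

/-!
# HO-22  The odd calculus `YF`

`YF b b' F = Phi L (F t / √t) b`, `YF' b b' F = Phi L (F(-t) / √(-t)) b'`, `L = Lop b b'`.

PROOFS. `YF_mem`: `phi_mem_ab`. `pr_YF`: `pr_phi_L`; the function is real, so `conj (f (-x)) = F(-x) / √(-x)`.
`lie_YF`: `lie_phi` with `f t = F t / √t`, `g t = G(-t) / √(-t)`, `g(-t) = G t / √t`: it is `lie (Phi L (F G / t) b) b'`, where
`F t / √t * (G t / √t) = F t G t / t` for `t > 0` and both sides are `0` for `t ≤ 0`. This depends only on `F G`.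
`triple_YF`: `lie (YF F) (YF' G) = lie (Phi L f₁ b) b'` with `f₁ = (F t / √t) (G t / √t)`; `triple_phi`:
`2 Phi L (t f₁ t (K t / √t)) b`, and `t (F/√t)(G/√t)(K/√t) = F G K / √t`.
`triple_YF'`: take stars in `triple_YF` (with `F`, `G` exchanged): the star of `lie (lie x y') z` is
`lie z' (lie y x') = - lie (lie y x') z'` (`Pr.lie`, the star of `lie x y'` is `lie y x'`), and the star is unique.
`YF_smul`, `YF'_smul`: `Phi_smul` (linear in `F`).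
-/

set_option autoImplicit false

open Filter Topology MeasureTheory

namespace Pool.Agent.Helper61.HP

universe u

variable {E : Type u} [NormedAddCommGroup E] [NormedSpace ℂ E] [CompleteSpace E]
  {𝔥 : Set (E →L[ℂ] E)} {h b b' : E →L[ℂ] E} {ε : ℝ} {𝔅 : Submodule ℂ (E →L[ℂ] E)}
  {F G F₁ G₁ K : ℝ → ℝ}

private lemma PT.zero_of_nonpos (hF : PT F) {t : ℝ} (ht : t ≤ 0) : F t = 0 := by
  obtain ⟨-, -, δ, hδ, h0⟩ := hF
  exact h0 t (by linarith)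

theorem YF_mem (hh : HLie 𝔥) (hB : IsAb 𝔥 h ε 𝔅) (hb : b ∈ 𝔅) (hbb : Pr 𝔥 b b') (hF : PT F) :
    YF b b' F ∈ 𝔅 :=
  phi_mem_ab hh hB hb hbb hF.test hb

theorem pr_YF (hh : HLie 𝔥) (hbb : Pr 𝔥 b b') (hF : PT F) :
    Pr 𝔥 (YF b b' F) (YF' b b' F) := by
  have h1 := pr_phi_L hh hbb hF.test
  have h2 : (fun x : ℝ => (starRingEnd ℂ) ((F (-x) / Real.sqrt (-x) : ℝ) : ℂ)) =
      fun t : ℝ => ((F (-t) / Real.sqrt (-t) : ℝ) : ℂ) := by
    funext x
    exact Complex.conj_ofReal _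
  rw [h2] at h1
  exact h1

theorem YF_smul (hh : HLie 𝔥) (hbb : Pr 𝔥 b b') (hF : PT F) (c : ℝ) :
    YF b b' (fun t => c * F t) = (c : ℂ) • YF b b' F := by
  have h1 := Phi_smul (herm_Lop hh hbb) hF.test (c : ℂ)
  have h2 : (fun t : ℝ => ((c * F t / Real.sqrt t : ℝ) : ℂ)) =
      fun t : ℝ => (c : ℂ) * ((F t / Real.sqrt t : ℝ) : ℂ) := by
    funext t
    rw [mul_div_assoc, Complex.ofReal_mul]
  unfold YF
  rw [h2, h1]
  rfl

theorem YF'_smul (hh : HLie 𝔥) (hbb : Pr 𝔥 b b') (hF : PT F) (c : ℝ) :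
    YF' b b' (fun t => c * F t) = (c : ℂ) • YF' b b' F := by
  have h1 := Phi_smul (herm_Lop hh hbb) hF.test' (c : ℂ)
  have h2 : (fun t : ℝ => ((c * F (-t) / Real.sqrt (-t) : ℝ) : ℂ)) =
      fun t : ℝ => (c : ℂ) * ((F (-t) / Real.sqrt (-t) : ℝ) : ℂ) := by
    funext t
    rw [mul_div_assoc, Complex.ofReal_mul]
  unfold YF'
  rw [h2, h1]
  rfl

private lemma lie_YF_aux (hh : HLie 𝔥) (hB : IsAb 𝔥 h ε 𝔅) (hb : b ∈ 𝔅) (hbb : Pr 𝔥 b b')
    (hF : PT F) (hG : PT G) :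
    lie (YF b b' F) (YF' b b' G) =
      lie (Phi (Lop b b') (fun t : ℝ => ((F t / Real.sqrt t : ℝ) : ℂ) *
        ((G t / Real.sqrt t : ℝ) : ℂ)) b) b' := by
  have h1 := lie_phi hh hB hb hbb hF.test hG.test'
  have h2 : (fun t : ℝ => ((F t / Real.sqrt t : ℝ) : ℂ) *
      ((G (- -t) / Real.sqrt (- -t) : ℝ) : ℂ)) = fun t : ℝ => ((F t / Real.sqrt t : ℝ) : ℂ) *
      ((G t / Real.sqrt t : ℝ) : ℂ) := by
    funext t
    rw [neg_neg]
  rw [h2] at h1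
  exact h1

theorem lie_YF_congr (hh : HLie 𝔥) (hB : IsAb 𝔥 h ε 𝔅) (hb : b ∈ 𝔅) (hbb : Pr 𝔥 b b')
    (hF : PT F) (hG : PT G) (hF₁ : PT F₁) (hG₁ : PT G₁) (h : ∀ t, F t * G t = F₁ t * G₁ t) :
    lie (YF b b' F) (YF' b b' G) = lie (YF b b' F₁) (YF' b b' G₁) := by
  rw [lie_YF_aux hh hB hb hbb hF hG, lie_YF_aux hh hB hb hbb hF₁ hG₁]
  have h2 : (fun t : ℝ => ((F t / Real.sqrt t : ℝ) : ℂ) * ((G t / Real.sqrt t : ℝ) : ℂ)) =
      fun t : ℝ => ((F₁ t / Real.sqrt t : ℝ) : ℂ) * ((G₁ t / Real.sqrt t : ℝ) : ℂ) := by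
    funext t
    rw [← Complex.ofReal_mul, ← Complex.ofReal_mul, div_mul_div_comm, div_mul_div_comm, h t]
  rw [h2]

theorem triple_YF (hh : HLie 𝔥) (hB : IsAb 𝔥 h ε 𝔅) (hb : b ∈ 𝔅) (hbb : Pr 𝔥 b b')
    (hF : PT F) (hG : PT G) (hK : PT K) :
    lie (lie (YF b b' F) (YF' b b' G)) (YF b b' K) =
      (2 : ℂ) • YF b b' (fun t => F t * G t * K t) := by
  rw [lie_YF_aux hh hB hb hbb hF hG]
  have h1 := triple_phi hh hB hb hbb (hF.test.mul hG.test) hK.test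
  have h2 : (fun t : ℝ => (t : ℂ) * (((F t / Real.sqrt t : ℝ) : ℂ) *
      ((G t / Real.sqrt t : ℝ) : ℂ) * ((K t / Real.sqrt t : ℝ) : ℂ))) =
      fun t : ℝ => ((F t * G t * K t / Real.sqrt t : ℝ) : ℂ) := by
    funext t
    rw [← Complex.ofReal_mul, ← Complex.ofReal_mul, ← Complex.ofReal_mul]
    congr 1
    by_cases ht : t ≤ 0
    · rw [hF.zero_of_nonpos ht]
      simp
    · push Not at ht
      have h3 : Real.sqrt t * Real.sqrt t = t := Real.mul_self_sqrt ht.le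
      have h4 : Real.sqrt t ≠ 0 := (Real.sqrt_pos.mpr ht).ne'
      have h5 : t * (F t / Real.sqrt t * (G t / Real.sqrt t) * (K t / Real.sqrt t)) =
          (t / (Real.sqrt t * Real.sqrt t)) * (F t * G t * K t / Real.sqrt t) := by
        field_simp
      rw [h5, h3, div_self ht.ne', one_mul]
  rw [h2] at h1
  exact h1

theorem triple_YF' (hh : HLie 𝔥) (hB : IsAb 𝔥 h ε 𝔅) (hb : b ∈ 𝔅) (hbb : Pr 𝔥 b b')
    (hF : PT F) (hG : PT G) (hK : PT K) :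
    lie (lie (YF b b' F) (YF' b b' G)) (YF' b b' K) =
      -((2 : ℂ) • YF' b b' (fun t => F t * G t * K t)) := by
  have h1 : Pr 𝔥 (lie (lie (YF b b' F) (YF' b b' G)) (YF' b b' K))
      (lie (YF b b' K) (lie (YF b b' G) (YF' b b' F))) :=
    Pr.lie hh (Pr.lie hh (pr_YF hh hbb hF) (Pr.symm hh (pr_YF hh hbb hG)))
      (Pr.symm hh (pr_YF hh hbb hK))
  have h2 : lie (YF b b' K) (lie (YF b b' G) (YF' b b' F)) =
      (-2 : ℂ) • YF b b' (fun t => F t * G t * K t) := by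
    have h3 : lie (YF b b' K) (lie (YF b b' G) (YF' b b' F)) =
        -lie (lie (YF b b' G) (YF' b b' F)) (YF b b' K) := by
      unfold lie
      abel
    rw [h3, triple_YF hh hB hb hbb hG hF hK, neg_smul]
    have h4 : (fun t => G t * F t * K t) = fun t => F t * G t * K t := by
      funext t
      ring
    rw [h4]
  rw [h2] at h1
  have h5 : PT (fun t => F t * G t * K t) := (hF.mul hG).mul hK
  have h6 := Pr.smul hh (pr_YF hh hbb h5) (-2 : ℂ)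
  have h7 := Pr.unique hh (Pr.symm hh h1) h6
  have h8 : (starRingEnd ℂ) (-2 : ℂ) = -2 := by
    rw [map_neg, Complex.conj_ofNat]
  rw [h7, h8, neg_smul]

end Pool.Agent.Helper61.HP
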