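import Pool.Agent.Helper61.HO.Positive
import Pool.Agent.Helper61.HO.YFApi
import Pool.Agent.Helper61.HO.Aniso

/-!
# HO-25  The odd calculus is not trivial

PROOF. Suppose `YF b b' F = 0` for all `F` with `PT F`. `L = Lop b b'`. Let `f` be a test function vanishing near `0`.
`Test.split` (`α = β = 0`): `f = f₁ + f₂`, `f₁ x = 0` for `x ≥ -δ`, `f₂ x = 0` for `x ≤ δ`. `Phi L f₁ b = 0` by
`phi_neg_zero`. `F t = √t Re f₂ t` and `F t = √t Im f₂ t` are `PT`, and `F t / √t = Re f₂ t`: so `Phi L (Re f₂) b = 0`, the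
same for `Im f₂`, and `Phi L f₂ b = 0` (`Phi_add`, `Phi_smul`). So `Phi L f b = 0`: `SpIn L 0 0 b`, `L b = 0`
(`eq_zero_of_SpIn_zero`), i.e. `lie (lie b b') b = 0`, and `b = 0` by `aniso` (`IsAb.near`). Contradiction.
-/

set_option autoImplicit false

open Filter Topology MeasureTheory

namespace Pool.Agent.Helper61.HP

universe u

variable {E : Type u} [NormedAddCommGroup E] [NormedSpace ℂ E] [CompleteSpace E]
  {𝔥 : Set (E →L[ℂ] E)} {h b b' : E →L[ℂ] E} {ε : ℝ} {𝔅 : Submodule ℂ (E →L[ℂ] E)}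

theorem exists_YF_ne (hh : HLie 𝔥) (hB : IsAb 𝔥 h ε 𝔅) (hε0 : 0 ≤ ε) (hε : 7 * ε < 1)
    (hb : b ∈ 𝔅) (hbb : Pr 𝔥 b b') (hb0 : b ≠ 0) : ∃ F : ℝ → ℝ, PT F ∧ YF b b' F ≠ 0 := by
  by_contra hcon
  push Not at hcon
  have hL := herm_Lop hh hbb
  apply hb0
  refine aniso hh hB.mem hbb hε0 hε (hB.near b hb) ?_
  -- a real test function vanishing on `(-∞, δ]`
  have key : ∀ (r : ℝ → ℝ), ContDiff ℝ (⊤ : ℕ∞) r → HasCompactSupport r → ∀ δ : ℝ, 0 < δ →
      (∀ x, x ≤ δ → r x = 0) → Phi (Lop b b') (fun t => ((r t : ℝ) : ℂ)) b = 0 := by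
    intro r hr hrc δ hδ hr0
    have hsq : ContDiff ℝ (⊤ : ℕ∞) (fun t => Real.sqrt t * r t) := by
      rw [contDiff_iff_contDiffAt]
      intro x
      rcases lt_or_ge 0 x with hx | hx
      · exact (Real.contDiffAt_sqrt hx.ne').mul hr.contDiffAt
      · have he : (fun t => Real.sqrt t * r t) =ᶠ[𝓝 x] fun _ => 0 := by
          filter_upwards [Iio_mem_nhds (lt_of_le_of_lt hx hδ)] with t ht
          rw [hr0 t (le_of_lt ht), mul_zero]
        exact contDiffAt_const.congr_of_eventuallyEq he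
    have hPT : PT (fun t => Real.sqrt t * r t) :=
      ⟨hsq, hrc.mul_left, δ, hδ, fun t ht => by
        change Real.sqrt t * r t = 0
        rw [hr0 t ht, mul_zero]⟩
    have h1 := hcon _ hPT
    unfold YF at h1
    have h2 : (fun t : ℝ => ((Real.sqrt t * r t / Real.sqrt t : ℝ) : ℂ)) = fun t => ((r t : ℝ) : ℂ) := by
      funext t
      rcases lt_or_ge 0 t with ht | ht
      · congr 1
        have := (Real.sqrt_pos.2 ht).ne'
        field_simp
      · rw [hr0 t (by linarith), mul_zero, zero_div]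
    rwa [h2] at h1
  have hspin : SpIn (Lop b b') 0 0 b := by
    intro f hf hv
    obtain ⟨δ, f₁, f₂, hδ, hf₁, hf₂, hsum, h₁, h₂⟩ := hf.split hv le_rfl
    have e1 : Phi (Lop b b') f₁ b = 0 :=
      phi_neg_zero hh hB hb hbb hb hf₁ hδ (fun x hx => h₁ x (by linarith))
    have hre : ContDiff ℝ (⊤ : ℕ∞) (fun x => (f₂ x).re) :=
      Complex.reCLM.contDiff.comp hf₂.1
    have him : ContDiff ℝ (⊤ : ℕ∞) (fun x => (f₂ x).im) :=
      Complex.imCLM.contDiff.comp hf₂.1
    have hrec : HasCompactSupport (fun x => (f₂ x).re) := hf₂.2.comp_left (g := Complex.re) rfl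
    have himc : HasCompactSupport (fun x => (f₂ x).im) := hf₂.2.comp_left (g := Complex.im) rfl
    have e2 := key _ hre hrec δ hδ (fun x hx => by rw [h₂ x (by linarith)]; rfl)
    have e3 := key _ him himc δ hδ (fun x hx => by rw [h₂ x (by linarith)]; rfl)
    have tre : Test (fun x => (((f₂ x).re : ℝ) : ℂ)) :=
      ⟨Complex.ofRealCLM.contDiff.comp hre, hrec.comp_left (g := fun r : ℝ => (r : ℂ)) (by simp)⟩
    have tim : Test (fun x => (((f₂ x).im : ℝ) : ℂ)) :=
      ⟨Complex.ofRealCLM.contDiff.comp him, himc.comp_left (g := fun r : ℝ => (r : ℂ)) (by simp)⟩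
    have e4 : Phi (Lop b b') f₂ b = 0 := by
      have hf2 : f₂ = fun x => (((f₂ x).re : ℝ) : ℂ) + Complex.I * (((f₂ x).im : ℝ) : ℂ) := by
        funext x
        rw [mul_comm]
        exact (Complex.re_add_im (f₂ x)).symm
      rw [hf2, Phi_add hL tre (tim.smul Complex.I), Phi_smul hL tim, _root_.add_apply,
        _root_.smul_apply, e2, e3, smul_zero, add_zero]
    have hf' : f = fun x => f₁ x + f₂ x := funext hsum
    rw [hf', Phi_add hL hf₁ hf₂, _root_.add_apply, e1, e4, add_zero]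
  have h0 : Lop b b' b = 0 := eq_zero_of_SpIn_zero hL hspin
  rw [Lop_apply] at h0
  have h2 : (1 / 2 : ℂ) ≠ 0 := by norm_num
  exact (smul_eq_zero.1 h0).resolve_left h2

end Pool.Agent.Helper61.HP
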