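import Pool.Agent.Helper61.HO.YFSin

/-!
# HO-24  Iterated sines

PROOF. `h ≠ 0`, so there is `e ∈ (0, 1)` with `e ‖YF g‖ ≤ 4 ‖h‖`. `F 0 = e g`, `F (k+1) = sin((π/2) F k)`. All `F k` are `PT`
(`PT.smul`, `PT.comp`), `‖YF (F k)‖ ≤ 4 ‖h‖` (`YF_smul`, `norm_YF_sin`), `F k t = 0` if `g t = 0`, and `F k t = c k` if
`g t = 1`, where `c 0 = e`, `c (k+1) = sin((π/2) c k)`. `c k ∈ (0, 1]` and `c k ≤ c (k+1)` (`Real.mul_le_sin`:
`2/π * x ≤ sin x` for `0 ≤ x ≤ π/2`), so `c k` converges to some `c ∈ [e, 1]` with `c = sin((π/2) c)`, hence `c = 1`: for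
`0 < c < 1` one has `sin((π/2) c) > c` (`Real.mul_lt_sin`). So `c k ≥ 1 - η` for some `k`.
-/

set_option autoImplicit false

open Filter Topology MeasureTheory

namespace Pool.Agent.Helper61.HP

universe u

variable {E : Type u} [NormedAddCommGroup E] [NormedSpace ℂ E] [CompleteSpace E]
  {𝔥 : Set (E →L[ℂ] E)} {h b b' : E →L[ℂ] E} {ε : ℝ} {𝔅 : Submodule ℂ (E →L[ℂ] E)}

private noncomputable def itF (e : ℝ) (g : ℝ → ℝ) : ℕ → ℝ → ℝ
  | 0 => fun t => e * g t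
  | k + 1 => fun t => Real.sin (Real.pi / 2 * itF e g k t)

private noncomputable def itc (e : ℝ) : ℕ → ℝ
  | 0 => e
  | k + 1 => Real.sin (Real.pi / 2 * itc e k)

private theorem itc_le {x : ℝ} (h0 : 0 < x) (h1 : x ≤ 1) : x ≤ Real.sin (Real.pi / 2 * x) := by
  have h2 : (2 / Real.pi) * (Real.pi / 2 * x) ≤ Real.sin (Real.pi / 2 * x) := by
    apply Real.mul_le_sin
    · positivity
    · have : 0 < Real.pi := Real.pi_pos
      nlinarith
  have h3 : (2 / Real.pi) * (Real.pi / 2 * x) = x := by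
    have : Real.pi ≠ 0 := Real.pi_ne_zero
    field_simp
  rwa [h3] at h2

private theorem itc_lt {x : ℝ} (h0 : 0 < x) (h1 : x < 1) : x < Real.sin (Real.pi / 2 * x) := by
  have hp : 0 < Real.pi := Real.pi_pos
  have h2 : (2 / Real.pi) * (Real.pi / 2 * x) < Real.sin (Real.pi / 2 * x) := by
    apply Real.mul_lt_sin
    · positivity
    · nlinarith
  have h3 : (2 / Real.pi) * (Real.pi / 2 * x) = x := by
    have : Real.pi ≠ 0 := Real.pi_ne_zero
    field_simp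
  rwa [h3] at h2

private theorem itc_props {e : ℝ} (h0 : 0 < e) (h1 : e ≤ 1) :
    ∀ k, 0 < itc e k ∧ itc e k ≤ 1 := by
  intro k
  induction k with
  | zero => exact ⟨h0, h1⟩
  | succ k ih =>
    refine ⟨lt_of_lt_of_le ih.1 (itc_le ih.1 ih.2), Real.sin_le_one _⟩

private theorem itc_lim {e : ℝ} (h0 : 0 < e) (h1 : e ≤ 1) {η : ℝ} (hη : 0 < η) :
    ∃ k, 1 - η ≤ itc e k := by
  have hmono : Monotone (itc e) := by
    apply monotone_nat_of_le_succ
    intro k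
    have := itc_props h0 h1 k
    exact itc_le this.1 this.2
  have hbdd : BddAbove (Set.range (itc e)) := by
    refine ⟨1, ?_⟩
    rintro _ ⟨k, rfl⟩
    exact (itc_props h0 h1 k).2
  set c : ℝ := ⨆ k, itc e k with hc
  have hlim : Tendsto (itc e) atTop (𝓝 c) := tendsto_atTop_ciSup hmono hbdd
  have hlim' : Tendsto (fun k => itc e (k + 1)) atTop (𝓝 c) :=
    hlim.comp (tendsto_add_atTop_nat 1)
  have hlim2 : Tendsto (fun k => itc e (k + 1)) atTop (𝓝 (Real.sin (Real.pi / 2 * c))) := by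
    have hcont : Continuous (fun x : ℝ => Real.sin (Real.pi / 2 * x)) := by fun_prop
    exact (hcont.tendsto c).comp hlim
  have heq : c = Real.sin (Real.pi / 2 * c) := tendsto_nhds_unique hlim' hlim2
  have hc0 : 0 < c := lt_of_lt_of_le (itc_props h0 h1 0).1 (le_ciSup hbdd 0)
  have hc1 : c ≤ 1 := ciSup_le fun k => (itc_props h0 h1 k).2
  have hc2 : c = 1 := by
    by_contra hne
    have hlt : c < 1 := lt_of_le_of_ne hc1 hne
    have := itc_lt hc0 hlt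
    rw [← heq] at this
    exact lt_irrefl _ this
  have hev : ∀ᶠ k in atTop, 1 - η < itc e k := by
    apply hlim.eventually_const_lt
    rw [hc2]
    linarith
  obtain ⟨k, hk⟩ := hev.exists
  exact ⟨k, hk.le⟩

private theorem itF_props (hh : HLie 𝔥) (hB : IsAb 𝔥 h ε 𝔅) (hε : ε ≤ 1 / 30) (hb : b ∈ 𝔅)
    (hbb : Pr 𝔥 b b') {g : ℝ → ℝ} (hg : PT g) {e : ℝ} (he0 : 0 < e)
    (he : e * ‖YF b b' g‖ ≤ 4 * ‖h‖) :
    ∀ k, PT (itF e g k) ∧ ‖YF b b' (itF e g k)‖ ≤ 4 * ‖h‖ ∧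
      (∀ t, g t = 0 → itF e g k t = 0) ∧ (∀ t, g t = 1 → itF e g k t = itc e k) := by
  intro k
  induction k with
  | zero =>
    refine ⟨hg.smul e, ?_, ?_, ?_⟩
    · have h1 : YF b b' (itF e g 0) = (e : ℂ) • YF b b' g := YF_smul hh hbb hg e
      rw [h1, norm_smul, Complex.norm_real, Real.norm_of_nonneg he0.le]
      exact he
    · intro t ht
      change e * g t = 0
      rw [ht, mul_zero]
    · intro t ht
      change e * g t = e
      rw [ht, mul_one]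
  | succ k ih =>
    obtain ⟨h1, h2, h3, h4⟩ := ih
    refine ⟨?_, ?_, ?_, ?_⟩
    · have hφ : ContDiff ℝ (⊤ : ℕ∞) (fun x : ℝ => Real.sin (Real.pi / 2 * x)) := by fun_prop
      exact h1.comp hφ (by simp)
    · exact norm_YF_sin hh hB hε hb hbb h1 h2
    · intro t ht
      change Real.sin (Real.pi / 2 * itF e g k t) = 0
      rw [h3 t ht, mul_zero, Real.sin_zero]
    · intro t ht
      change Real.sin (Real.pi / 2 * itF e g k t) = Real.sin (Real.pi / 2 * itc e k)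
      rw [h4 t ht]

theorem exists_iterate (hh : HLie 𝔥) (hB : IsAb 𝔥 h ε 𝔅) (hε : ε ≤ 1 / 30) (hb : b ∈ 𝔅)
    (hbb : Pr 𝔥 b b') (hh0 : h ≠ 0) {g : ℝ → ℝ} (hg : PT g) {η : ℝ} (hη : 0 < η) :
    ∃ (F : ℝ → ℝ) (c : ℝ), PT F ∧ ‖YF b b' F‖ ≤ 4 * ‖h‖ ∧ 1 - η ≤ c ∧ c ≤ 1 ∧
      (∀ t, g t = 0 → F t = 0) ∧ (∀ t, g t = 1 → F t = c) := by
  have hhn : 0 < ‖h‖ := norm_pos_iff.2 hh0
  set e : ℝ := min 1 (4 * ‖h‖ / (‖YF b b' g‖ + 1)) with hedef
  have hpos : 0 < ‖YF b b' g‖ + 1 := by positivity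
  have he0 : 0 < e := lt_min one_pos (by positivity)
  have he1 : e ≤ 1 := min_le_left _ _
  have he : e * ‖YF b b' g‖ ≤ 4 * ‖h‖ := by
    have h1 : e ≤ 4 * ‖h‖ / (‖YF b b' g‖ + 1) := min_le_right _ _
    have h2 : e * (‖YF b b' g‖ + 1) ≤ 4 * ‖h‖ := (le_div_iff₀ hpos).1 h1
    nlinarith
  obtain ⟨k, hk⟩ := itc_lim he0 he1 hη
  obtain ⟨h1, h2, h3, h4⟩ := itF_props hh hB hε hb hbb hg he0 he k
  exact ⟨itF e g k, itc e k, h1, h2, hk, (itc_props he0 he1 k).2, h3, h4⟩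

end Pool.Agent.Helper61.HP
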