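import Pool.Agent.Helper61.HO.InnerIdeal
import Pool.Agent.Helper61.HO.Iterate
import Pool.Agent.Helper61.HO.ExistsPT

/-!
# HO-26  Nonzero tripotents in the complexification of a nonabelian hermitian Lie algebra

PROOF of `exists_w_of_ab`. `b ∈ 𝔅`, `b ≠ 0`, star `b'`. `h ≠ 0` (otherwise `‖b‖ ≤ ε ‖b‖` by `IsAb.near`). `F` from
`exists_YF_ne`; it is supported in some `[δ, M]`, `0 < δ < M`. `g m` = bump (`exists_PT_bump`) equal to `1` on
`[δ 2^(-m), M 2^m]`, `0` outside `(δ 2^(-m-1), M 2^(m+1))`. `F m`, `c m` from `exists_iterate` for `g m` and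
`η = 1/(m+2)`. For `i < j`: `F i F j = c j F i` (where `F i t ≠ 0`, `g i t ≠ 0`, so `g j t = 1`), and `F F j = c j F`.
`y m = YF (F m)`, `y' m = YF' (F m)`, `‖y m‖ ≤ 4 ‖h‖`, `‖y' m‖ ≤ 24 ‖h‖` (`Pr.norm_le`). By `triple_YF`, for `i < j < l`:
`lie (lie (y i) (y' j)) (y l) = 2 c j c l y i` and `lie (lie (YF F) (y' j)) (y l) = 2 c j c l YF F`. Let `w`, `w'` be the
ultralimits of `y`, `y'` (`exists_ulim`); `Pr 𝔥 w w'` (`Pr.ulim`). Multiplication by a fixed operator from the left or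
the right is compatible with ultralimits (`IsULim.mul_left`, `mul_right`), `c l → 1`; so let first `l → ∞`, then `j → ∞`, then
`i → ∞`: `lie (lie w w') w = 2 w` and `lie (lie (YF F) w') w = 2 YF F ≠ 0`, so `w ≠ 0`.
(An equation that holds for all large indices passes to the ultralimit: `IsULim.unique` after `IsULim` of the eventually equal
sequences; the hyperfilter is finer than `atTop`.)

PROOF of `exists_w`. `exists_isAb` with `ε = 1/30`; `b = lie K (lie K K')`; its star exists (`IsAb.pr`). `b ≠ 0`: otherwise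
`lie (lie K K') K = - b = 0` and `K = 0` by `aniso`.
-/

set_option autoImplicit false

open Filter Topology MeasureTheory

namespace Pool.Agent.Helper61.HP

universe u

variable {E : Type u} [NormedAddCommGroup E] [NormedSpace ℂ E] [CompleteSpace E]
  {𝔥 : Set (E →L[ℂ] E)} {h b : E →L[ℂ] E} {ε : ℝ} {𝔅 : Submodule ℂ (E →L[ℂ] E)}

omit [CompleteSpace E] in
private theorem isULim_congr {D D' : ℕ → E →L[ℂ] E} {L : E →L[ℂ] E} (hD : IsULim D L)
    (he : ∀ᶠ n in atTop, D n = D' n) : IsULim D' L := by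
  intro x φ
  refine (hD x φ).congr' ?_
  have h1 : ∀ᶠ n in (hyperfilter ℕ : Filter ℕ), D n = D' n := Nat.hyperfilter_le_atTop he
  filter_upwards [h1] with n hn
  rw [hn]

omit [CompleteSpace E] in
private theorem isULim_sub {D D' : ℕ → E →L[ℂ] E} {L L' : E →L[ℂ] E} (hD : IsULim D L)
    (hD' : IsULim D' L') : IsULim (fun n => D n - D' n) (L - L') := by
  have h1 := hD.add hD'.neg
  simp only [← sub_eq_add_neg] at h1
  exact h1

omit [CompleteSpace E] in
private theorem isULim_lie_right {D : ℕ → E →L[ℂ] E} {L : E →L[ℂ] E} (hD : IsULim D L)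
    (A : E →L[ℂ] E) : IsULim (fun n => lie A (D n)) (lie A L) :=
  isULim_sub (hD.mul_left A) (hD.mul_right A)

omit [CompleteSpace E] in
private theorem isULim_lie_left {D : ℕ → E →L[ℂ] E} {L : E →L[ℂ] E} (hD : IsULim D L)
    (A : E →L[ℂ] E) : IsULim (fun n => lie (D n) A) (lie L A) :=
  isULim_sub (hD.mul_right A) (hD.mul_left A)

omit [CompleteSpace E] in
/-- the abstract limit argument -/
private theorem limit_step {y y' : ℕ → E →L[ℂ] E} {w w' A : E →L[ℂ] E} {c : ℕ → ℝ}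
    (hc : Tendsto c atTop (𝓝 1)) (hw : IsULim y w) (hw' : IsULim y' w') (N : ℕ)
    (h : ∀ j l, N ≤ j → N ≤ l → lie (lie A (y' j)) (y l) = ((2 * c j * c l : ℝ) : ℂ) • A) :
    lie (lie A w') w = (2 : ℂ) • A := by
  have h1 : ∀ j, N ≤ j → lie (lie A (y' j)) w = ((2 * c j : ℝ) : ℂ) • A := by
    intro j hj
    have h2 : IsULim (fun l => ((2 * c j * c l : ℝ) : ℂ) • A) (((2 * c j : ℝ) : ℂ) • A) := by
      refine isULim_of_tendsto ?_
      have h3 : Tendsto (fun l => ((2 * c j * c l : ℝ) : ℂ)) atTop (𝓝 ((2 * c j * 1 : ℝ) : ℂ)) :=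
        (Complex.continuous_ofReal.tendsto _).comp (hc.const_mul _)
      rw [mul_one] at h3
      exact h3.smul_const A
    have h4 : IsULim (fun l => lie (lie A (y' j)) (y l)) (((2 * c j : ℝ) : ℂ) • A) := by
      refine isULim_congr h2 ?_
      filter_upwards [eventually_ge_atTop N] with l hl
      exact (h j l hj hl).symm
    exact (isULim_lie_right hw _).unique h4
  have h2 : IsULim (fun j => ((2 * c j : ℝ) : ℂ) • A) ((2 : ℂ) • A) := by
    refine isULim_of_tendsto ?_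
    have h3 : Tendsto (fun j => ((2 * c j : ℝ) : ℂ)) atTop (𝓝 ((2 * 1 : ℝ) : ℂ)) :=
      (Complex.continuous_ofReal.tendsto _).comp (hc.const_mul _)
    rw [mul_one, Complex.ofReal_ofNat] at h3
    exact h3.smul_const A
  have h4 : IsULim (fun j => lie (lie A (y' j)) w) ((2 : ℂ) • A) := by
    refine isULim_congr h2 ?_
    filter_upwards [eventually_ge_atTop N] with j hj
    exact (h1 j hj).symm
  exact (isULim_lie_left (isULim_lie_right hw' A) w).unique h4

theorem exists_w_of_ab (hN : Nice E) (hh : HLie 𝔥) (hB : IsAb 𝔥 h ε 𝔅) (hε0 : 0 ≤ ε)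
    (hε : ε ≤ 1 / 30) (hb : b ∈ 𝔅) (hb0 : b ≠ 0) :
    ∃ w w' : E →L[ℂ] E, Pr 𝔥 w w' ∧ w ≠ 0 ∧ lie (lie w w') w = (2 : ℂ) • w := by
  obtain ⟨b', hbb⟩ := hB.pr b hb
  have hbn : 0 < ‖b‖ := norm_pos_iff.2 hb0
  have hh0 : h ≠ 0 := by
    intro h0
    have h1 := hB.near b hb
    rw [h0] at h1
    have h2 : lie (0 : E →L[ℂ] E) b = 0 := by
      unfold lie
      rw [zero_mul, mul_zero, sub_zero]
    rw [h2, zero_sub, norm_neg] at h1
    nlinarith
  obtain ⟨F, hF, hFne⟩ := exists_YF_ne hh hB hε0 (by linarith) hb hbb hb0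
  obtain ⟨δ, hδ, hFδ⟩ := hF.2.2
  obtain ⟨M, hM, hFM⟩ : ∃ M : ℝ, δ < M ∧ ∀ t, M ≤ t → F t = 0 := by
    obtain ⟨R, hR⟩ := hF.2.1.isCompact.isBounded.subset_closedBall (0 : ℝ)
    refine ⟨max R δ + 1, by linarith [le_max_right R δ], fun t ht => ?_⟩
    by_contra hne
    have h1 : t ∈ tsupport F := subset_tsupport F hne
    have h2 := hR h1
    rw [mem_closedBall_zero_iff, Real.norm_eq_abs] at h2
    have h3 := le_abs_self t
    linarith [le_max_left R δ]
  have hM0 : 0 < M := hδ.trans hM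
  have hpow : ∀ m : ℕ, (1 : ℝ) ≤ 2 ^ m := fun m => one_le_pow₀ (by norm_num)
  have hpow' : ∀ i j : ℕ, i < j → (2 : ℝ) ^ (i + 1) ≤ 2 ^ j := fun i j hij =>
    pow_le_pow_right₀ (by norm_num) hij
  have hbump : ∀ m : ℕ, ∃ g : ℝ → ℝ, PT g ∧ (∀ t, δ / 2 ^ m ≤ t → t ≤ M * 2 ^ m → g t = 1) ∧
      (∀ t, t ≤ δ / 2 ^ (m + 1) → g t = 0) ∧ (∀ t, M * 2 ^ (m + 1) ≤ t → g t = 0) := by
    intro m
    have h2 : (0 : ℝ) < 2 ^ m := by positivity
    have h3 : (2 : ℝ) ^ m < 2 ^ (m + 1) := pow_lt_pow_right₀ (by norm_num) (Nat.lt_succ_self m)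
    obtain ⟨g, g1, -, -, g2, g3, g4⟩ := exists_PT_bump (a := δ / 2 ^ m) (b := M * 2 ^ m)
      (a' := δ / 2 ^ (m + 1)) (b' := M * 2 ^ (m + 1)) (by positivity)
      (div_lt_div_of_pos_left hδ h2 h3) (mul_lt_mul_of_pos_left h3 hM0)
    exact ⟨g, g1, g2, g3, g4⟩
  choose g hg1 hg2 hg3 hg4 using hbump
  have hit : ∀ m : ℕ, ∃ (Fm : ℝ → ℝ) (c : ℝ), PT Fm ∧ ‖YF b b' Fm‖ ≤ 4 * ‖h‖ ∧
      1 - 1 / ((m : ℝ) + 2) ≤ c ∧ c ≤ 1 ∧
      (∀ t, g m t = 0 → Fm t = 0) ∧ (∀ t, g m t = 1 → Fm t = c) := fun m =>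
    exists_iterate hh hB hε hb hbb hh0 (hg1 m) (by positivity)
  choose G c hG1 hG2 hc1 hc2 hG3 hG4 using hit
  have hc : Tendsto c atTop (𝓝 1) := by
    refine tendsto_of_tendsto_of_tendsto_of_le_of_le ?_ tendsto_const_nhds hc1 hc2
    have h1 : Tendsto (fun m : ℕ => ((m : ℝ) + 2)) atTop atTop :=
      tendsto_atTop_add_const_right _ _ tendsto_natCast_atTop_atTop
    have h2 : Tendsto (fun m : ℕ => 1 / ((m : ℝ) + 2)) atTop (𝓝 0) := by
      simp_rw [one_div]
      exact h1.inv_tendsto_atTop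
    have h3 := h2.const_sub 1
    rwa [sub_zero] at h3
  have hGG : ∀ i j : ℕ, i < j → ∀ t, G i t * G j t = c j * G i t := by
    intro i j hij t
    by_cases hgt : g i t = 0
    · rw [hG3 i t hgt]
      ring
    · have h1 : δ / 2 ^ (i + 1) < t := lt_of_not_ge fun hle => hgt (hg3 i t hle)
      have h2 : t < M * 2 ^ (i + 1) := lt_of_not_ge fun hle => hgt (hg4 i t hle)
      have h3 : δ / 2 ^ j ≤ t :=
        (div_le_div_of_nonneg_left hδ.le (by positivity) (hpow' i j hij)).trans h1.le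
      have h4 : t ≤ M * 2 ^ j := h2.le.trans (mul_le_mul_of_nonneg_left (hpow' i j hij) hM0.le)
      rw [hG4 j t (hg2 j t h3 h4)]
      ring
  have hFG : ∀ j : ℕ, ∀ t, F t * G j t = c j * F t := by
    intro j t
    by_cases hgt : F t = 0
    · rw [hgt]
      ring
    · have h1 : δ < t := lt_of_not_ge fun hle => hgt (hFδ t hle)
      have h2 : t < M := lt_of_not_ge fun hle => hgt (hFM t hle)
      have h3 : δ / 2 ^ j ≤ t := (div_le_self hδ.le (hpow j)).trans h1.le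
      have h4 : t ≤ M * 2 ^ j := h2.le.trans (le_mul_of_one_le_right hM0.le (hpow j))
      rw [hG4 j t (hg2 j t h3 h4)]
      ring
  have hpr : ∀ m, Pr 𝔥 (YF b b' (G m)) (YF' b b' (G m)) := fun m => pr_YF hh hbb (hG1 m)
  obtain ⟨w, -, hw⟩ := exists_ulim hN (fun m => YF b b' (G m)) (4 * ‖h‖) hG2
  obtain ⟨w', -, hw'⟩ := exists_ulim hN (fun m => YF' b b' (G m)) (6 * (4 * ‖h‖)) (fun m =>
    ((hpr m).norm_le hh).trans (mul_le_mul_of_nonneg_left (hG2 m) (by norm_num)))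
  have hww : Pr 𝔥 w w' := Pr.ulim hh hpr hw hw'
  have htri : ∀ (K : ℝ → ℝ), PT K → ∀ N : ℕ, (∀ j, N ≤ j → ∀ t, K t * G j t = c j * K t) →
      lie (lie (YF b b' K) w') w = (2 : ℂ) • YF b b' K := by
    intro K hK N hKG
    refine limit_step (y := fun m => YF b b' (G m)) (y' := fun m => YF' b b' (G m)) hc hw hw' N ?_
    intro j l hj hl
    have e1 := triple_YF hh hB hb hbb hK (hG1 j) (hG1 l)
    have e2 : (fun t => K t * G j t * G l t) = fun t => (c j * c l) * K t := by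
      funext t
      rw [hKG j hj t, mul_assoc, hKG l hl t]
      ring
    rw [e2, YF_smul hh hbb hK] at e1
    rw [e1, smul_smul]
    congr 1
    push_cast
    ring
  have hF2 := htri F hF 0 (fun j _ t => hFG j t)
  have hG5 : ∀ i, lie (lie (YF b b' (G i)) w') w = (2 : ℂ) • YF b b' (G i) := fun i =>
    htri (G i) (hG1 i) (i + 1) (fun j hj t => hGG i j hj t)
  refine ⟨w, w', hww, ?_, ?_⟩
  · intro h0
    rw [h0] at hF2
    have h1 : lie (lie (YF b b' F) w') (0 : E →L[ℂ] E) = 0 := by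
      unfold lie
      rw [zero_mul, mul_zero, sub_zero]
    rw [h1] at hF2
    have h2 := smul_eq_zero.1 hF2.symm
    rcases h2 with h2 | h2
    · norm_num at h2
    · exact hFne h2
  · have h1 : IsULim (fun i => lie (lie (YF b b' (G i)) w') w) (lie (lie w w') w) :=
      isULim_lie_left (isULim_lie_left hw w') w
    have h2 : IsULim (fun i => lie (lie (YF b b' (G i)) w') w) ((2 : ℂ) • w) := by
      have h3 := hw.smul (2 : ℂ)
      refine isULim_congr h3 (Filter.Eventually.of_forall fun i => ?_)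
      exact (hG5 i).symm
    exact h1.unique h2

theorem exists_w (hN : Nice E) (hh : HLie 𝔥) (hnab : ∃ A ∈ 𝔥, ∃ B ∈ 𝔥, A * B ≠ B * A) :
    ∃ w w' : E →L[ℂ] E, Pr 𝔥 w w' ∧ w ≠ 0 ∧ lie (lie w w') w = (2 : ℂ) • w := by
  obtain ⟨h, 𝔅, hB, K, K', hKK, hK0, hKn, hb⟩ := exists_isAb hh hnab (ε := 1 / 30) (by norm_num)
  refine exists_w_of_ab hN hh hB (by norm_num) le_rfl hb fun h0 => hK0 ?_
  refine aniso hh hB.mem hKK (ε := 1 / 30) (by norm_num) (by norm_num) hKn ?_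
  have h1 : lie (lie K K') K = -lie K (lie K K') := by
    unfold lie
    rw [neg_sub]
  rw [h1, h0, neg_zero]

end Pool.Agent.Helper61.HP
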