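import Pool.Agent.Helper61.HO.PrApi

/-!
# HO-29  Gradings

PROOFS. `fix_iff`: `S (p j x) = j p j x`; conversely if `S x = j x`, then `j p k x = p k S x = k p k x`, so `p k x = 0` for
`k ≠ j` and `x = ∑ p k x = p j x`. `comm`: `p k T p j = 0` for `k ≠ j` if `T S = S T` (`k p k T p j = p k S T p j = p k T S p j =
j p k T p j`), so `T p j = ∑_k p k T p j = p j T p j` and `p j T = p j T p j`. `ex_eq`: `ex t (i S) = ∑ ex t (i S) p j` and
`ex t (i S) p j = exp(i t j) p j` (both sides solve the same equation, or series).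
`wt_avg`: `ex θ (iS) K ex (-θ) (iS) = ∑_(j,k) exp(i θ (k - j)) p k K p j`; with `θ = 2 π m / M` and the weights
`exp(- 2 π i d m / M)` the sum over `m < M` of `exp(2 π i (k - j - d) m / M)` is `M` if `M` divides `k - j - d` and `0`
otherwise (geometric sum); `|k - j - d| < M`, so only `k = j + d` remains.
`Pr.wt`: from `wt_avg`, `Pr.conj`, `Pr.smul`, `Pr.add` (the conjugate coefficients give the weight `-d`).
`wt_apply`: `p j' K p j x = 0` for `j ≠ k`, `p j x = 0` for `j ≠ k` (`x = p k x`). `wt_lie`: direct.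
`wt_zero_comm`: from `wt_lie` or directly.
-/

set_option autoImplicit false

open Filter Topology

namespace Pool.Agent.Helper61.HP

universe u

variable {E : Type u} [NormedAddCommGroup E] [NormedSpace ℂ E]
  {S K L T : E →L[ℂ] E} {N : ℕ} {p : ℤ → E →L[ℂ] E}

theorem Grad.fix_iff (hG : Grad S N p) (j : ℤ) (x : E) : p j x = x ↔ S x = (j : ℂ) • x := by
  constructor
  · intro h
    have h1 := congrArg (fun T : E →L[ℂ] E => T x) (hG.eig j)
    change S (p j x) = (j : ℂ) • p j x at h1
    rwa [h] at h1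
  · intro h
    have hk : ∀ k : ℤ, k ≠ j → p k x = 0 := by
      intro k hkj
      have h1 := congrArg (fun T : E →L[ℂ] E => T x) (hG.eig' k)
      change p k (S x) = (k : ℂ) • p k x at h1
      rw [h, map_smul] at h1
      have h2 : ((j : ℂ) - (k : ℂ)) • p k x = 0 := by rw [sub_smul, h1, sub_self]
      rcases smul_eq_zero.1 h2 with h3 | h3
      · exact absurd (by exact_mod_cast (sub_eq_zero.1 h3).symm) hkj
      · exact h3
    have hs := congrArg (fun T : E →L[ℂ] E => T x) hG.sum
    change (∑ j ∈ Finset.Icc (-(N : ℤ)) (N : ℤ), p j) x = x at hs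
    rw [ContinuousLinearMap.sum_apply] at hs
    by_cases hj : j ∈ Finset.Icc (-(N : ℤ)) (N : ℤ)
    · rw [Finset.sum_eq_single_of_mem j hj fun k _ hkj => hk k hkj] at hs
      exact hs
    · rw [Finset.sum_eq_zero fun k hkm => hk k fun hkj => hj (hkj ▸ hkm)] at hs
      rw [← hs, map_zero]

theorem Grad.eq_zero (hG : Grad S N p) {j k : ℤ} (hjk : j ≠ k) {x : E} (hx : p k x = x) :
    p j x = 0 := by
  have h1 := congrArg (fun T : E →L[ℂ] E => T x) (hG.orth j k hjk)
  change p j (p k x) = 0 at h1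
  rwa [hx] at h1

theorem Grad.sum_apply (hG : Grad S N p) (x : E) :
    ∑ j ∈ Finset.Icc (-(N : ℤ)) (N : ℤ), p j x = x := by
  have hs := congrArg (fun T : E →L[ℂ] E => T x) hG.sum
  change (∑ j ∈ Finset.Icc (-(N : ℤ)) (N : ℤ), p j) x = x at hs
  rwa [ContinuousLinearMap.sum_apply] at hs

theorem Grad.comm (hG : Grad S N p) (hT : T * S = S * T) (j : ℤ) : T * p j = p j * T := by
  have h0 : ∀ j k : ℤ, k ≠ j → p k * T * p j = 0 := by
    intro j k hkj
    have h1 : p k * S * T * p j = (k : ℂ) • (p k * T * p j) := by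
      rw [hG.eig', smul_mul_assoc, smul_mul_assoc]
    have h2 : p k * S * T * p j = (j : ℂ) • (p k * T * p j) := by
      rw [mul_assoc (p k) S T, ← hT, mul_assoc, mul_assoc, mul_assoc, hG.eig, mul_smul_comm,
        mul_smul_comm]
    have h3 : ((k : ℂ) - (j : ℂ)) • (p k * T * p j) = 0 := by
      rw [sub_smul, ← h1, ← h2, sub_self]
    rcases smul_eq_zero.1 h3 with h4 | h4
    · exact absurd (by exact_mod_cast sub_eq_zero.1 h4) hkj
    · exact h4
  by_cases hj : j ∈ Finset.Icc (-(N : ℤ)) (N : ℤ)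
  · have h1 : T * p j = p j * T * p j := by
      have e : T * p j = ∑ k ∈ Finset.Icc (-(N : ℤ)) (N : ℤ), p k * T * p j := by
        rw [← Finset.sum_mul, ← Finset.sum_mul, hG.sum, one_mul]
      exact e.trans (Finset.sum_eq_single_of_mem j hj fun k _ hkj => h0 j k hkj)
    have h2 : p j * T = p j * T * p j := by
      have e : p j * T = ∑ k ∈ Finset.Icc (-(N : ℤ)) (N : ℤ), p j * T * p k := by
        rw [← Finset.mul_sum, hG.sum, mul_one]
      exact e.trans (Finset.sum_eq_single_of_mem j hj fun k _ hkj => h0 k j hkj.symm)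
    rw [h1, ← h2]
  · have hp : p j = 0 := by
      refine hG.supp j ?_
      rw [Finset.mem_Icc, ← abs_le, not_le] at hj
      exact hj
    rw [hp, mul_zero, zero_mul]

theorem wt_add (N : ℕ) (p : ℤ → E →L[ℂ] E) (d : ℤ) (K L : E →L[ℂ] E) :
    wt N p d (K + L) = wt N p d K + wt N p d L := by
  unfold wt
  rw [← Finset.sum_add_distrib]
  exact Finset.sum_congr rfl fun j _ => by rw [mul_add, add_mul]

theorem Grad.wt_apply (hG : Grad S N p) (d : ℤ) (K : E →L[ℂ] E) {k : ℤ} {x : E}
    (hx : p k x = x) : wt N p d K x = p (k + d) (K x) := by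
  unfold wt
  rw [ContinuousLinearMap.sum_apply]
  by_cases hk : k ∈ Finset.Icc (-(N : ℤ)) (N : ℤ)
  · rw [Finset.sum_eq_single_of_mem k hk]
    · change p (k + d) (K (p k x)) = p (k + d) (K x)
      rw [hx]
    · intro j _ hjk
      change p (j + d) (K (p j x)) = 0
      rw [hG.eq_zero hjk hx, map_zero, map_zero]
  · have hp : p k = 0 := by
      refine hG.supp k ?_
      rw [Finset.mem_Icc, ← abs_le, not_le] at hk
      exact hk
    have hx0 : x = 0 := by
      rw [← hx, hp]
      rfl
    rw [hx0, map_zero, map_zero]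
    exact Finset.sum_eq_zero fun j _ => map_zero _

theorem Grad.wt_mul (hG : Grad S N p) (d k : ℤ) (K : E →L[ℂ] E) :
    wt N p d K * p k = p (k + d) * K * p k ∧ p (k + d) * wt N p d K = p (k + d) * K * p k := by
  unfold wt
  rw [Finset.sum_mul, Finset.mul_sum]
  by_cases hk : k ∈ Finset.Icc (-(N : ℤ)) (N : ℤ)
  · constructor
    · rw [Finset.sum_eq_single_of_mem k hk]
      · rw [mul_assoc, hG.idem]
      · intro j _ hjk
        rw [mul_assoc, hG.orth j k hjk, mul_zero]
    · rw [Finset.sum_eq_single_of_mem k hk]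
      · rw [← mul_assoc, ← mul_assoc, hG.idem]
      · intro j _ hjk
        rw [← mul_assoc, ← mul_assoc, hG.orth (k + d) (j + d) (by omega), zero_mul, zero_mul]
  · have hp : p k = 0 := by
      refine hG.supp k ?_
      rw [Finset.mem_Icc, ← abs_le, not_le] at hk
      exact hk
    rw [hp]
    constructor
    · rw [mul_zero]
      exact Finset.sum_eq_zero fun j _ => mul_zero _
    · rw [mul_zero]
      refine Finset.sum_eq_zero fun j hj => ?_
      have hjk : j ≠ k := fun h => hk (h ▸ hj)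
      rw [← mul_assoc, ← mul_assoc, hG.orth (k + d) (j + d) (by omega), zero_mul, zero_mul]

theorem Grad.wt_lie (hG : Grad S N p) (d : ℤ) (K : E →L[ℂ] E) :
    S * wt N p d K - wt N p d K * S = (d : ℂ) • wt N p d K := by
  unfold wt
  rw [Finset.mul_sum, Finset.sum_mul, ← Finset.sum_sub_distrib, Finset.smul_sum]
  refine Finset.sum_congr rfl fun j _ => ?_
  have h1 : S * (p (j + d) * K * p j) = ((j + d : ℤ) : ℂ) • (p (j + d) * K * p j) := by
    rw [← mul_assoc, ← mul_assoc, hG.eig, smul_mul_assoc, smul_mul_assoc]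
  have h2 : p (j + d) * K * p j * S = (j : ℂ) • (p (j + d) * K * p j) := by
    rw [mul_assoc, hG.eig', mul_smul_comm]
  rw [h1, h2, ← sub_smul]
  congr 1
  push_cast
  ring

theorem Grad.sum_wt (hG : Grad S N p) (K : E →L[ℂ] E) :
    ∑ d ∈ Finset.Icc (-(2 * N : ℤ)) (2 * N : ℤ), wt N p d K = K := by
  unfold wt
  rw [Finset.sum_comm]
  have h1 : ∀ j ∈ Finset.Icc (-(N : ℤ)) (N : ℤ),
      ∑ d ∈ Finset.Icc (-(2 * N : ℤ)) (2 * N : ℤ), p (j + d) * K * p j = K * p j := by
    intro j hj
    rw [← Finset.sum_mul, ← Finset.sum_mul]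
    have h2 : ∑ d ∈ Finset.Icc (-(2 * N : ℤ)) (2 * N : ℤ), p (j + d) =
        ∑ k ∈ Finset.Icc (j + -(2 * N : ℤ)) (j + 2 * N), p k := by
      rw [← Finset.map_add_left_Icc, Finset.sum_map]
      rfl
    have h3 : ∑ k ∈ Finset.Icc (-(N : ℤ)) (N : ℤ), p k =
        ∑ k ∈ Finset.Icc (j + -(2 * N : ℤ)) (j + 2 * N), p k := by
      refine Finset.sum_subset ?_ ?_
      · intro k hk
        rw [Finset.mem_Icc] at hk hj ⊢
        omega
      · intro k _ hk
        refine hG.supp k ?_
        rw [Finset.mem_Icc, ← abs_le, not_le] at hk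
        exact hk
    rw [h2, ← h3, hG.sum, one_mul]
  rw [Finset.sum_congr rfl h1, ← Finset.mul_sum, hG.sum, mul_one]

variable [CompleteSpace E]

theorem Grad.ex_eq (hG : Grad S N p) (t : ℝ) : ex t (Complex.I • S) =
    ∑ j ∈ Finset.Icc (-(N : ℤ)) (N : ℤ), Complex.exp (Complex.I * (t * j)) • p j := by
  have h1 : ∀ j : ℤ, ex t (Complex.I • S) * p j =
      Complex.exp (Complex.I * (t * j)) • p j := by
    intro j
    have hpow : ∀ n : ℕ, ((t : ℂ) • (Complex.I • S)) ^ n * p j =
        (Complex.I * (t * j)) ^ n • p j := by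
      intro n
      induction n with
      | zero => rw [pow_zero, pow_zero, one_mul, one_smul]
      | succ n ih =>
        rw [pow_succ', mul_assoc, ih, mul_smul_comm, smul_mul_assoc, smul_mul_assoc, hG.eig,
          smul_smul, smul_smul, smul_smul, pow_succ]
        congr 1
        ring
    have hs := (ex_hasSum t (Complex.I • S)).mul_right (p j)
    have hs2 : HasSum (fun n : ℕ => ((n.factorial : ℂ)⁻¹) • (Complex.I * (t * j)) ^ n)
        (Complex.exp (Complex.I * (t * j))) := by
      rw [Complex.exp_eq_exp_ℂ]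
      exact NormedSpace.exp_series_hasSum_exp' (𝕂 := ℂ) (Complex.I * (t * j))
    have hs3 := hs2.smul_const (p j)
    refine hs.unique ?_
    refine hs3.congr_fun fun n => ?_
    rw [smul_mul_assoc, hpow, smul_eq_mul, smul_smul]
  calc ex t (Complex.I • S) = ex t (Complex.I • S) * 1 := (mul_one _).symm
    _ = ∑ j ∈ Finset.Icc (-(N : ℤ)) (N : ℤ), ex t (Complex.I • S) * p j := by
        rw [← Finset.mul_sum, hG.sum]
    _ = _ := Finset.sum_congr rfl fun j _ => h1 j

theorem Grad.wt_avg (hG : Grad S N p) (d : ℤ) (K : E →L[ℂ] E) {M : ℕ}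
    (hM : 2 * (N : ℤ) + |d| < M) : wt N p d K = (M : ℂ)⁻¹ • ∑ m ∈ Finset.range M,
      Complex.exp (-(2 * Real.pi * Complex.I * d * m / M)) •
        (ex (2 * Real.pi * m / M) (Complex.I • S) * K *
          ex (-(2 * Real.pi * m / M)) (Complex.I • S)) := by
  have hM0 : 0 < M := by
    have := abs_nonneg d
    omega
  have hMC : (M : ℂ) ≠ 0 := by exact_mod_cast hM0.ne'
  have hpi : (2 * Real.pi * Complex.I : ℂ) ≠ 0 := Complex.two_pi_I_ne_zero
  -- the sum over the roots of unity
  have hroot : ∀ r : ℤ, |r| < M → (M : ℂ)⁻¹ * ∑ m ∈ Finset.range M,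
      Complex.exp (2 * Real.pi * Complex.I * r * m / M) = if r = 0 then 1 else 0 := by
    intro r hr
    split_ifs with h0
    · subst h0
      simp [hMC]
    · have hω1 : Complex.exp (2 * Real.pi * Complex.I * r / M) ≠ 1 := by
        intro h1
        obtain ⟨n, hn⟩ := Complex.exp_eq_one_iff.1 h1
        rw [div_eq_iff hMC] at hn
        have h2 : (r : ℂ) = n * M := by
          have h3 : (2 * Real.pi * Complex.I : ℂ) * r = (2 * Real.pi * Complex.I) * (n * M) := by
            rw [hn]
            ring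
          exact mul_left_cancel₀ hpi h3
        have h4 : r = n * M := by exact_mod_cast h2
        rw [h4, abs_mul, Nat.abs_cast] at hr
        have hn0 : n ≠ 0 := by
          rintro rfl
          exact h0 (by rw [h4, zero_mul])
        have h5 : 1 ≤ |n| := Int.one_le_abs hn0
        have h6 : (M : ℤ) ≤ |n| * M := le_mul_of_one_le_left (by positivity) h5
        omega
      have hpw : ∀ m : ℕ, Complex.exp (2 * Real.pi * Complex.I * r * m / M) =
          Complex.exp (2 * Real.pi * Complex.I * r / M) ^ m := by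
        intro m
        rw [← Complex.exp_nat_mul]
        congr 1
        ring
      have hωM : Complex.exp (2 * Real.pi * Complex.I * r / M) ^ M = 1 := by
        rw [← Complex.exp_nat_mul, Complex.exp_eq_one_iff]
        refine ⟨r, ?_⟩
        field_simp
      rw [Finset.sum_congr rfl fun m _ => hpw m, geom_sum_eq hω1, hωM, sub_self, zero_div,
        mul_zero]
  have hterm : ∀ m : ℕ, Complex.exp (-(2 * Real.pi * Complex.I * d * m / M)) •
      (ex (2 * Real.pi * m / M) (Complex.I • S) * K *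
        ex (-(2 * Real.pi * m / M)) (Complex.I • S)) =
      ∑ j ∈ Finset.Icc (-(N : ℤ)) (N : ℤ), ∑ k ∈ Finset.Icc (-(N : ℤ)) (N : ℤ),
        Complex.exp (2 * Real.pi * Complex.I * ((k - j - d : ℤ) : ℂ) * m / M) •
          (p k * K * p j) := by
    intro m
    rw [hG.ex_eq, hG.ex_eq, Finset.sum_mul, Finset.sum_mul_sum, Finset.sum_comm, Finset.smul_sum]
    refine Finset.sum_congr rfl fun j _ => ?_
    rw [Finset.smul_sum]
    refine Finset.sum_congr rfl fun k _ => ?_
    rw [smul_mul_assoc, smul_mul_assoc, mul_smul_comm, smul_smul, smul_smul, ← Complex.exp_add,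
      ← Complex.exp_add]
    congr 2
    push_cast
    ring
  rw [Finset.sum_congr rfl fun m _ => hterm m, Finset.sum_comm, Finset.smul_sum]
  unfold wt
  refine Finset.sum_congr rfl fun j hj => ?_
  rw [Finset.sum_comm, Finset.smul_sum]
  have hk : ∀ k ∈ Finset.Icc (-(N : ℤ)) (N : ℤ), (M : ℂ)⁻¹ • ∑ m ∈ Finset.range M,
      Complex.exp (2 * Real.pi * Complex.I * ((k - j - d : ℤ) : ℂ) * m / M) •
        (p k * K * p j) = if k = j + d then p k * K * p j else 0 := by
    intro k hk
    rw [Finset.mem_Icc] at hk hj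
    rw [← Finset.sum_smul, smul_smul, hroot (k - j - d) (by
      rw [abs_lt]
      have h1 := neg_abs_le d
      have h2 := le_abs_self d
      constructor <;> omega)]
    by_cases h : k = j + d
    · rw [if_pos (by omega), if_pos h, one_smul]
    · rw [if_neg (by omega), if_neg h, zero_smul]
  rw [Finset.sum_congr rfl hk, Finset.sum_ite_eq' (Finset.Icc (-(N : ℤ)) (N : ℤ)) (j + d)]
  split_ifs with h
  · rfl
  · rw [Finset.mem_Icc, ← abs_le, not_le] at h
    rw [hG.supp _ h, zero_mul, zero_mul]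

theorem Pr.wt {𝔥 : Set (E →L[ℂ] E)} (hh : HLie 𝔥) (hG : Grad S N p) (hS : S ∈ 𝔥)
    (h : Pr 𝔥 K L) (d : ℤ) : Pr 𝔥 (wt N p d K) (wt N p (-d) L) := by
  obtain ⟨M, hM⟩ : ∃ M : ℕ, 2 * (N : ℤ) + |d| < M := by
    refine ⟨(2 * (N : ℤ) + |d| + 1).toNat, ?_⟩
    have := abs_nonneg d
    omega
  rw [hG.wt_avg d K hM, hG.wt_avg (-d) L (by rw [abs_neg]; exact hM)]
  have hsum : ∀ (s : Finset ℕ) (f g : ℕ → E →L[ℂ] E), (∀ m, Pr 𝔥 (f m) (g m)) →
      Pr 𝔥 (∑ m ∈ s, f m) (∑ m ∈ s, g m) := by
    intro s f g hfg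
    classical
    induction s using Finset.induction_on with
    | empty =>
      rw [Finset.sum_empty, Finset.sum_empty]
      exact Pr.zero hh
    | insert a s ha ih =>
      rw [Finset.sum_insert ha, Finset.sum_insert ha]
      exact Pr.add hh (hfg a) ih
  have h1 := Pr.smul hh (hsum (Finset.range M) (fun m =>
    Complex.exp (-(2 * Real.pi * Complex.I * d * m / M)) •
        (ex (2 * Real.pi * m / M) (Complex.I • S) * K *
          ex (-(2 * Real.pi * m / M)) (Complex.I • S))) (fun m =>
    Complex.exp (-(2 * Real.pi * Complex.I * ((-d : ℤ) : ℂ) * m / M)) •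
        (ex (2 * Real.pi * m / M) (Complex.I • S) * L *
          ex (-(2 * Real.pi * m / M)) (Complex.I • S))) (by
    intro m
    have h2 := Pr.smul hh (Pr.conj hh h hS (2 * Real.pi * m / M))
      (Complex.exp (-(2 * Real.pi * Complex.I * d * m / M)))
    have h3 : (starRingEnd ℂ) (Complex.exp (-(2 * Real.pi * Complex.I * d * m / M))) =
        Complex.exp (-(2 * Real.pi * Complex.I * ((-d : ℤ) : ℂ) * m / M)) := by
      rw [← Complex.exp_conj]
      congr 1
      simp only [map_neg, map_div₀, map_mul, Complex.conj_I, Complex.conj_ofReal, map_natCast,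
        map_intCast, map_ofNat]
      push_cast
      ring
    rw [h3] at h2
    exact h2)) ((M : ℂ)⁻¹)
  have h4 : (starRingEnd ℂ) ((M : ℂ)⁻¹) = (M : ℂ)⁻¹ := by
    rw [map_inv₀, map_natCast]
  rw [h4] at h1
  exact h1

end Pool.Agent.Helper61.HP
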