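import Pool.Agent.Helper61.HO.HermNorm

/-!
# HO-28  Hermitian operators annihilated by a polynomial with integer roots

PROOF of `herm_squarefree`. By induction on the multiset `s`, for all polynomials `q`: if `aeval S (s.prod * q) = 0`, then
`aeval S (s.toFinset.prod * q) = 0`. `s = a ::ₘ s'`: if `a ∉ s'`, use the induction hypothesis with `(X - a) q`. If `a ∈ s'`,
write `s'.prod = (X - a) r`; `(S - a)^2 (r(S) q(S) y) = 0` for all `y`, and `S - a` is hermitian, so
`(S - a) (r(S) q(S) y) = 0` (`herm_sq_ker`), i.e. `aeval S (s'.prod * q) = 0`; induction hypothesis, `s.toFinset = s'.toFinset`.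

PROOF of `exists_grad`. `p j = aeval S (Lagrange.basis F (↑) j)` for `j ∈ F`, `p j = 0` otherwise; `N` a bound for `|j|`,
`j ∈ F`. `∑ p j = 1` (`Lagrange.sum_basis`; if `F` is empty, then `1 = 0` and everything is `0`), `(X - j) * basis j` and
`basis i * basis j` (`i ≠ j`) are divisible by `∏_(j ∈ F) (X - j)`, so `S p j = j p j`, `p i p j = 0`; `p j p j = p j ∑ p k = p j`;
`p j S = S p j`.
-/

set_option autoImplicit false

open Filter Topology Polynomial

namespace Pool.Agent.Helper61.HP

universe u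

variable {E : Type u} [NormedAddCommGroup E] [NormedSpace ℂ E] [CompleteSpace E]

private theorem herm_squarefree_aux {S : E →L[ℂ] E} (hS : Herm S) (s : Multiset ℤ) :
    ∀ q : ℂ[X], aeval S ((s.map fun j : ℤ => (X - C (j : ℂ) : ℂ[X])).prod * q) = 0 →
      aeval S ((∏ j ∈ s.toFinset, (X - C (j : ℂ) : ℂ[X])) * q) = 0 := by
  induction s using Multiset.induction_on with
  | empty =>
    intro q hq
    simpa using hq
  | cons a s ih =>
    intro q hq
    rw [Multiset.map_cons, Multiset.prod_cons] at hq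
    by_cases ha : a ∈ s
    · rw [Multiset.toFinset_cons, Finset.insert_eq_of_mem (Multiset.mem_toFinset.2 ha)]
      apply ih
      obtain ⟨t, rfl⟩ := Multiset.exists_cons_of_mem ha
      rw [Multiset.map_cons, Multiset.prod_cons] at hq ⊢
      generalize (t.map fun j : ℤ => (X - C (j : ℂ) : ℂ[X])).prod = T at hq ⊢
      have hA : Herm (S - (((a : ℝ) : ℂ) • (1 : E →L[ℂ] E))) := hS.sub (Herm.one.smul (a : ℝ))
      have e : aeval S (X - C (a : ℂ) : ℂ[X]) = S - (((a : ℝ) : ℂ) • (1 : E →L[ℂ] E)) := by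
        rw [map_sub, aeval_X, aeval_C, Algebra.algebraMap_eq_smul_one]
        simp
      rw [mul_assoc, mul_assoc, map_mul, map_mul, e] at hq
      rw [mul_assoc, map_mul, e]
      ext y
      have h1 := DFunLike.congr_fun hq y
      exact herm_sq_ker hA h1
    · rw [Multiset.toFinset_cons, Finset.prod_insert (fun h => ha (Multiset.mem_toFinset.1 h))]
      have h1 := ih ((X - C (a : ℂ)) * q) (by rw [← hq]; congr 1; ring)
      rw [← h1]
      congr 1
      ring

/-- `herm_squarefree` for the product over the multiset of integers itself -/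
theorem herm_squarefree' {S : E →L[ℂ] E} (hS : Herm S) (s : Multiset ℤ)
    (h : aeval S ((s.map fun j : ℤ => (X - C (j : ℂ) : ℂ[X])).prod) = 0) :
    aeval S (∏ j ∈ s.toFinset, (X - C (j : ℂ) : ℂ[X])) = 0 := by
  have h1 := herm_squarefree_aux hS s 1 (by rw [mul_one]; exact h)
  rwa [mul_one] at h1

/-- (the multiset `s` is coerced to a multiset of complex numbers in this statement) -/
theorem herm_squarefree {S : E →L[ℂ] E} (hS : Herm S) (s : Multiset ℤ)
    (h : aeval S ((s.map fun j => (X - C (j : ℂ) : ℂ[X])).prod) = 0) :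
    aeval S (∏ j ∈ s.toFinset, (X - C (j : ℂ) : ℂ[X])) = 0 := by
  apply herm_squarefree' hS s
  rw [← h]
  congr 2
  simp only [Multiset.bind_def, Multiset.pure_def]
  rw [Multiset.map_bind]
  simp

private theorem aeval_zero_of_nodes {S : E →L[ℂ] E} {F : Finset ℤ}
    (h : aeval S (∏ j ∈ F, (X - C (j : ℂ) : ℂ[X])) = 0) {f : ℂ[X]}
    (hf : ∀ j ∈ F, f.eval (j : ℂ) = 0) : aeval S f = 0 := by
  have hd : (∏ j ∈ F, (X - C (j : ℂ) : ℂ[X])) ∣ f := by
    refine Finset.prod_dvd_of_coprime ?_ (fun j hj => dvd_iff_isRoot.2 (hf j hj))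
    intro i _ j _ hij
    refine isCoprime_X_sub_C_of_isUnit_sub ?_
    rw [isUnit_iff_ne_zero, sub_ne_zero]
    exact_mod_cast hij
  obtain ⟨g, rfl⟩ := hd
  rw [map_mul, h, zero_mul]

theorem exists_grad {S : E →L[ℂ] E} (hS : Herm S) (F : Finset ℤ)
    (h : aeval S (∏ j ∈ F, (X - C (j : ℂ) : ℂ[X])) = 0) :
    ∃ (N : ℕ) (p : ℤ → E →L[ℂ] E), Grad S N p := by
  classical
  have hinj : Set.InjOn (fun j : ℤ => (j : ℂ)) (F : Set ℤ) := fun i _ j _ hij =>
    Int.cast_injective hij
  set b : ℤ → ℂ[X] := fun j => Lagrange.basis F (fun j : ℤ => (j : ℂ)) j with hb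
  have hb1 : ∀ j ∈ F, (b j).eval (j : ℂ) = 1 := fun j hj => Lagrange.eval_basis_self hinj hj
  have hb0 : ∀ j, ∀ k ∈ F, j ≠ k → (b j).eval (k : ℂ) = 0 := fun j k hk hjk =>
    Lagrange.eval_basis_of_ne hjk hk
  set p : ℤ → E →L[ℂ] E := fun j => if j ∈ F then aeval S (b j) else 0 with hp
  have p1 : ∀ j ∈ F, p j = aeval S (b j) := fun j hj => if_pos hj
  have p0 : ∀ j, j ∉ F → p j = 0 := fun j hj => if_neg hj
  set N : ℕ := F.sup Int.natAbs with hN
  have hFN : ∀ j ∈ F, |j| ≤ (N : ℤ) := by
    intro j hj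
    have h1 : j.natAbs ≤ N := Finset.le_sup (f := Int.natAbs) hj
    rw [Int.abs_eq_natAbs]
    exact_mod_cast h1
  have heig : ∀ j : ℤ, S * p j = (j : ℂ) • p j := by
    intro j
    by_cases hj : j ∈ F
    · rw [p1 j hj]
      have h1 : aeval S (X * b j - C (j : ℂ) * b j) = 0 := by
        refine aeval_zero_of_nodes h fun k hk => ?_
        rw [eval_sub, eval_mul, eval_mul, eval_X, eval_C]
        by_cases hjk : j = k
        · rw [hjk]; ring
        · rw [hb0 j k hk hjk]; ring
      rw [map_sub, map_mul, map_mul, aeval_X, aeval_C, sub_eq_zero,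
        Algebra.algebraMap_eq_smul_one, smul_mul_assoc, one_mul] at h1
      exact h1
    · rw [p0 j hj, mul_zero, smul_zero]
  have hcomm : ∀ j : ℤ, p j * S = S * p j := by
    intro j
    by_cases hj : j ∈ F
    · rw [p1 j hj]
      have h1 : aeval S (b j * X) = aeval S (X * b j) := by rw [mul_comm]
      rwa [map_mul, map_mul, aeval_X] at h1
    · rw [p0 j hj, mul_zero, zero_mul]
  refine ⟨N, p, ⟨hS, ?_, ?_, ?_, ?_, heig, ?_⟩⟩
  · intro j hj
    exact p0 j fun hjF => absurd (hFN j hjF) (not_le.2 hj)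
  · intro j k hjk
    by_cases hj : j ∈ F
    · by_cases hk : k ∈ F
      · rw [p1 j hj, p1 k hk, ← map_mul]
        refine aeval_zero_of_nodes h fun i hi => ?_
        rw [eval_mul]
        by_cases hji : j = i
        · rw [hb0 k i hi (fun hki => hjk (hji.trans hki.symm)), mul_zero]
        · rw [hb0 j i hi hji, zero_mul]
      · rw [p0 k hk, mul_zero]
    · rw [p0 j hj, zero_mul]
  · intro j
    by_cases hj : j ∈ F
    · rw [p1 j hj]
      have h1 : aeval S (b j * b j - b j) = 0 := by
        refine aeval_zero_of_nodes h fun k hk => ?_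
        rw [eval_sub, eval_mul]
        by_cases hjk : j = k
        · rw [← hjk, hb1 j hj]; ring
        · rw [hb0 j k hk hjk]; ring
      rw [map_sub, map_mul, sub_eq_zero] at h1
      exact h1
    · rw [p0 j hj, mul_zero]
  · have hsub : F ⊆ Finset.Icc (-(N : ℤ)) (N : ℤ) := fun j hj =>
      Finset.mem_Icc.2 (abs_le.1 (hFN j hj))
    rw [← Finset.sum_subset hsub fun j _ hj => p0 j hj, Finset.sum_congr rfl p1, ← map_sum]
    rcases F.eq_empty_or_nonempty with hF | hF
    · subst hF
      rw [Finset.prod_empty, map_one] at h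
      rw [Finset.sum_empty, map_zero, h]
    · have : ∑ j ∈ F, b j = 1 := Lagrange.sum_basis hinj hF
      rw [this, map_one]
  · intro j
    rw [hcomm, heig]

end Pool.Agent.Helper61.HP
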