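import Pool.Agent.Helper61.HO.Sl2
import Pool.Agent.Helper61.HO.HermSplit
import Pool.Agent.Helper61.HO.GradApi

/-!
# HO-30  The operator `S = lie w w'` has positive and negative integer eigenvalues

PROOF. `S ∈ 𝔥` (`Pr.lie`: its star is itself, `Pr.self`). `lie S w = 2 w`; taking stars, `lie w' S = 2 w'`, i.e.
`lie S w' = - 2 w'`; `lie w w' = S`. `w^n = 0 = w'^n` for some `n` (`pow_eq_zero_of_ad`). `sl2_poly` with `e = w`, `f = w'`,
`h = S`; the product is a product over a multiset of integers, so `herm_squarefree` and `exists_grad` give a grading.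
Some `p j` with `j ≠ 0` is not `0`: otherwise `S = ∑ j p j = 0` and `2 w = lie S w = 0`.
CLAIM: if `p (-m) ≠ 0` and `p (-k) = 0` for all `k > m`, `m ≥ 1`, then `p m ≠ 0`. Let `x = p (-m) x ≠ 0`. `S (w' x) =
(-m - 2) w' x`, so `w' x = 0` (`Grad.fix_iff`). `sl2_raise` for the triple `(f, e, -S)` (i.e. with `e := w'`, `f := w`, `h := -S`)
and `v` the operator `y ↦ φ(y) x` (a functional `φ ≠ 0`; or apply the argument of (2) of `Sl2` to vectors): `w'^m w^m x =
m! ∏_(i<m) (-S - i) x = m! ∏_(i<m) (m - i) x = (m!)^2 x ≠ 0`, so `w^m x ≠ 0` and `S w^m x = (-m + 2 m) w^m x`: `p m ≠ 0`.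
The same with the roles of `w`, `w'` exchanged: if `p m ≠ 0`, `m ≥ 1` maximal, then `p (-m) ≠ 0`.
So both signs occur; take the largest and the smallest `j` with `p j ≠ 0`.
-/

set_option autoImplicit false

open Filter Topology Polynomial

namespace Pool.Agent.Helper61.HP

universe u

variable {E : Type u} [NormedAddCommGroup E] [NormedSpace ℂ E] [CompleteSpace E]
  {𝔥 : Set (E →L[ℂ] E)}

omit [CompleteSpace E] in
private theorem grad_aeval {h : E →L[ℂ] E} {N : ℕ} {p : ℤ → E →L[ℂ] E} (hG : Grad h N p)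
    (j : ℤ) (P : ℂ[X]) : aeval h P * p j = (P.eval (j : ℂ)) • p j := by
  induction P using Polynomial.induction_on' with
  | add P Q hP hQ => rw [map_add, add_mul, hP, hQ, eval_add, add_smul]
  | monomial k c =>
    have hpow : ∀ k : ℕ, h ^ k * p j = ((j : ℂ) ^ k) • p j := by
      intro k
      induction k with
      | zero => rw [pow_zero, pow_zero, one_mul, one_smul]
      | succ k ih => rw [pow_succ', mul_assoc, ih, mul_smul_comm, hG.eig, smul_smul, ← pow_succ]
    rw [aeval_monomial, mul_assoc, hpow, eval_monomial, Algebra.algebraMap_eq_smul_one,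
      smul_mul_assoc, one_mul, smul_smul]

omit [CompleteSpace E] in
private theorem pow_weight {f h : E →L[ℂ] E} (hf : h * f - f * h = -((2 : ℂ) • f)) (k : ℕ)
    (x : E) (c : ℂ) (hx : h x = c • x) : h ((f ^ k) x) = (c - 2 * k) • (f ^ k) x := by
  induction k with
  | zero =>
    rw [pow_zero]
    change h x = _ • x
    rw [hx]
    congr 1
    push_cast
    ring
  | succ k ih =>
    rw [pow_succ']
    change h (f ((f ^ k) x)) = _ • f ((f ^ k) x)
    have h1 := congrArg (fun T : E →L[ℂ] E => T ((f ^ k) x)) hf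
    change h (f ((f ^ k) x)) - f (h ((f ^ k) x)) = -((2 : ℂ) • f ((f ^ k) x)) at h1
    rw [ih, map_smul, sub_eq_iff_eq_add] at h1
    rw [h1, ← neg_smul, ← add_smul]
    congr 1
    push_cast
    ring

omit [CompleteSpace E] in
private theorem neg_ne {e f h : E →L[ℂ] E} (he : h * e - e * h = (2 : ℂ) • e)
    (hf : h * f - f * h = -((2 : ℂ) • f)) (hef : e * f - f * e = h) {N : ℕ}
    {p : ℤ → E →L[ℂ] E} (hG : Grad h N p) (m : ℕ) (hm : p (m : ℤ) ≠ 0)
    (hm2 : p ((m : ℤ) + 2) = 0) : p (-(m : ℤ)) ≠ 0 := by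
  have h1 : e * p (m : ℤ) = 0 := by
    ext x
    change e (p (m : ℤ) x) = 0
    have h2 : h (p (m : ℤ) x) = (((m : ℤ) : ℂ)) • p (m : ℤ) x :=
      congrArg (fun T : E →L[ℂ] E => T x) (hG.eig (m : ℤ))
    have h3 := congrArg (fun T : E →L[ℂ] E => T (p (m : ℤ) x)) he
    change h (e (p (m : ℤ) x)) - e (h (p (m : ℤ) x)) = (2 : ℂ) • e (p (m : ℤ) x) at h3
    rw [h2, map_smul, sub_eq_iff_eq_add, ← add_smul] at h3
    have h4 : p ((m : ℤ) + 2) (e (p (m : ℤ) x)) = e (p (m : ℤ) x) := by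
      rw [hG.fix_iff, h3]
      congr 1
      push_cast
      ring
    rw [← h4, hm2]
    rfl
  have h5 := sl2_raise he hf hef m h1
  rw [grad_aeval hG, eval_prod] at h5
  have h6 : ∏ i ∈ Finset.range m, (X - C (i : ℂ)).eval (((m : ℤ) : ℂ)) = (m.factorial : ℂ) := by
    have h7 : ∀ i ∈ Finset.range m, (X - C (i : ℂ)).eval (((m : ℤ) : ℂ)) = ((m - i : ℕ) : ℂ) := by
      intro i hi
      rw [eval_sub, eval_X, eval_C, Nat.cast_sub (Finset.mem_range.1 hi).le]
      push_cast
      ring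
    rw [Finset.prod_congr rfl h7, ← Nat.cast_prod]
    congr 1
    rw [← Finset.prod_range_reflect]
    rw [← Finset.prod_range_add_one_eq_factorial]
    refine Finset.prod_congr rfl fun i hi => ?_
    have := Finset.mem_range.1 hi
    omega
  rw [h6] at h5
  have h8 : (m.factorial : ℂ) ≠ 0 := by exact_mod_cast m.factorial_ne_zero
  have h9 : f ^ m * p (m : ℤ) ≠ 0 := by
    intro h0
    rw [mul_assoc, h0, mul_zero] at h5
    exact hm (by
      rcases smul_eq_zero.1 h5.symm with h10 | h10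
      · exact absurd h10 h8
      · rcases smul_eq_zero.1 h10 with h11 | h11
        · exact absurd h11 h8
        · exact h11)
  obtain ⟨x, hx⟩ : ∃ x, (f ^ m * p (m : ℤ)) x ≠ 0 := by
    by_contra hne
    push Not at hne
    exact h9 (ContinuousLinearMap.ext hne)
  have h2 : h (p (m : ℤ) x) = (((m : ℤ) : ℂ)) • p (m : ℤ) x :=
    congrArg (fun T : E →L[ℂ] E => T x) (hG.eig (m : ℤ))
  have h12 := pow_weight hf m (p (m : ℤ) x) _ h2
  have h13 : p (-(m : ℤ)) ((f ^ m) (p (m : ℤ) x)) = (f ^ m) (p (m : ℤ) x) := by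
    rw [hG.fix_iff, h12]
    congr 1
    push_cast
    ring
  intro h0
  rw [h0] at h13
  exact hx h13.symm

omit [CompleteSpace E] in
private theorem grad_neg {h : E →L[ℂ] E} {N : ℕ} {p : ℤ → E →L[ℂ] E} (hG : Grad h N p) :
    Grad (-h) N (fun j => p (-j)) where
  herm := by
    have h1 := (Herm.zero (E := E)).sub hG.herm
    rwa [zero_sub] at h1
  supp := fun j hj => hG.supp _ (by rwa [abs_neg])
  orth := fun j k hjk => hG.orth _ _ (fun h => hjk (neg_injective h))
  idem := fun j => hG.idem _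
  sum := by
    rw [← hG.sum]
    refine Finset.sum_bij' (fun j _ => -j) (fun j _ => -j) ?_ ?_ ?_ ?_ ?_
    · intro j hj
      rw [Finset.mem_Icc] at hj ⊢
      omega
    · intro j hj
      rw [Finset.mem_Icc] at hj ⊢
      omega
    · intro j _
      exact neg_neg j
    · intro j _
      exact neg_neg j
    · intro j _
      rfl
  eig := by
    intro j
    rw [neg_mul, hG.eig, ← neg_smul]
    congr 1
    push_cast
    ring
  eig' := by
    intro j
    rw [mul_neg, hG.eig', ← neg_smul]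
    congr 1
    push_cast
    ring

theorem exists_weights (hh : HLie 𝔥) {w w' : E →L[ℂ] E} (hw : Pr 𝔥 w w') (hw0 : w ≠ 0)
    (h2 : lie (lie w w') w = (2 : ℂ) • w) :
    ∃ (S : E →L[ℂ] E) (N : ℕ) (p : ℤ → E →L[ℂ] E) (a b : ℤ), S ∈ 𝔥 ∧ Grad S N p ∧ 0 < a ∧
      b < 0 ∧ p a ≠ 0 ∧ p b ≠ 0 ∧ (∀ j, a < j → p j = 0) ∧ (∀ j, j < b → p j = 0) := by
  classical
  set S := lie w w' with hS
  have hw' := Pr.symm hh hw
  have hSS : Pr 𝔥 S S := Pr.lie hh hw hw'
  have hSh : S ∈ 𝔥 := Pr.self hh hSS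
  have he : S * w - w * S = (2 : ℂ) • w := h2
  have hstar : lie w' S = (2 : ℂ) • w' := by
    have h3 : Pr 𝔥 (lie S w) (lie w' S) := Pr.lie hh hSS hw
    have h4 := Pr.smul hh hw (2 : ℂ)
    rw [h2] at h3
    rw [map_ofNat] at h4
    exact Pr.unique hh h3 h4
  have hf : S * w' - w' * S = -((2 : ℂ) • w') := by
    rw [← hstar]
    unfold Pool.Agent.Helper61.HP.lie
    abel
  have hef : w * w' - w' * w = S := rfl
  obtain ⟨n1, hn1⟩ := pow_eq_zero_of_ad (two_ne_zero) he
  obtain ⟨n2, hn2⟩ := pow_eq_zero_of_ad (c := (-2 : ℂ)) (by norm_num) (by rw [hf, neg_smul])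
  have h5 := sl2_poly he hf hef (n := n1 + n2) (by rw [pow_add, hn1, zero_mul])
    (by rw [pow_add, hn2, mul_zero])
  set s : Multiset ℤ := (Finset.range (n1 + n2) ×ˢ Finset.range (n1 + n2)).val.map
    (fun x : ℕ × ℕ => (x.2 : ℤ) - 2 * (x.1 : ℤ)) with hs
  have h6 : aeval S ((s.map fun j : ℤ => (X - C (j : ℂ) : ℂ[X])).prod) = 0 := by
    rw [← h5]
    congr 1
    rw [hs, Multiset.map_map]
    change ∏ x ∈ Finset.range (n1 + n2) ×ˢ Finset.range (n1 + n2), _ = _
    rw [Finset.prod_product]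
    rfl
  have hherm : Herm S := hh.herm S hSh
  obtain ⟨N, p, hG⟩ := exists_grad hherm _ (herm_squarefree' hherm s h6)
  -- some weight is not zero
  have hne : ∃ j : ℤ, j ≠ 0 ∧ p j ≠ 0 := by
    by_contra hcon
    push Not at hcon
    have h7 : S = 0 := by
      calc S = S * 1 := (mul_one _).symm
        _ = ∑ j ∈ Finset.Icc (-(N : ℤ)) (N : ℤ), S * p j := by rw [← hG.sum, Finset.mul_sum]
        _ = 0 := by
          refine Finset.sum_eq_zero fun j _ => ?_
          rw [hG.eig]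
          by_cases hj : j = 0
          · rw [hj, Int.cast_zero, zero_smul]
          · rw [hcon j hj, smul_zero]
    rw [h7, zero_mul, mul_zero, sub_zero] at he
    rcases smul_eq_zero.1 he.symm with h8 | h8
    · exact two_ne_zero h8
    · exact hw0 h8
  set F : Finset ℤ := (Finset.Icc (-(N : ℤ)) (N : ℤ)).filter (fun j => p j ≠ 0) with hF
  have hFm : ∀ j, p j ≠ 0 → j ∈ F := by
    intro j hj
    rw [hF, Finset.mem_filter]
    refine ⟨?_, hj⟩
    rw [Finset.mem_Icc, ← abs_le]
    by_contra hlt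
    exact hj (hG.supp j (not_le.1 hlt))
  obtain ⟨j0, hj0, hpj0⟩ := hne
  have hFne : F.Nonempty := ⟨j0, hFm j0 hpj0⟩
  set a := F.max' hFne with ha
  set b := F.min' hFne with hb
  have haF : a ∈ F := F.max'_mem hFne
  have hbF : b ∈ F := F.min'_mem hFne
  have hpa : p a ≠ 0 := (Finset.mem_filter.1 haF).2
  have hpb : p b ≠ 0 := (Finset.mem_filter.1 hbF).2
  have hmax : ∀ j, a < j → p j = 0 := by
    intro j hj
    by_contra hpj
    exact absurd (F.le_max' j (hFm j hpj)) (not_le.2 hj)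
  have hmin : ∀ j, j < b → p j = 0 := by
    intro j hj
    by_contra hpj
    exact absurd (F.min'_le j (hFm j hpj)) (not_le.2 hj)
  have hle : ∀ j, p j ≠ 0 → b ≤ j ∧ j ≤ a := fun j hj =>
    ⟨F.min'_le j (hFm j hj), F.le_max' j (hFm j hj)⟩
  -- if the maximum is positive, then so is minus the minimum
  have hA : 0 < a → b < 0 := by
    intro h0
    obtain ⟨m, hm⟩ := Int.eq_ofNat_of_zero_le h0.le
    have h9 := neg_ne he hf hef hG m (by rw [← hm]; exact hpa) (hmax _ (by omega))
    have := (hle _ h9).1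
    omega
  have hB : b < 0 → 0 < a := by
    intro h0
    obtain ⟨m, hm⟩ := Int.eq_ofNat_of_zero_le (by omega : 0 ≤ -b)
    have h9 := neg_ne (e := w') (f := w) (h := -S) (by rw [neg_mul, mul_neg, ← neg_sub', hf, neg_neg])
      (by rw [neg_mul, mul_neg, ← neg_sub', he]) (by rw [← hef]; abel) (grad_neg hG) m
      (by
        have : -(m : ℤ) = b := by omega
        rw [this]
        exact hpb) (hmin _ (by omega))
    change p (-(-(m : ℤ))) ≠ 0 at h9
    have := (hle _ h9).2
    omega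
  have hab : 0 < a ∧ b < 0 := by
    have h10 := hle j0 hpj0
    rcases lt_or_gt_of_ne hj0 with h11 | h11
    · have h12 : b < 0 := by omega
      exact ⟨hB h12, h12⟩
    · have h12 : 0 < a := by omega
      exact ⟨h12, hA h12⟩
  exact ⟨S, N, p, a, b, hSh, hG, hab.1, hab.2, hpa, hpb, hmax, hmin⟩

end Pool.Agent.Helper61.HP
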