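import Pool.Agent.Helper61.HO.LinkGrad
import Pool.Agent.Helper61.HO.WSupport
import Pool.Agent.Helper61.HO.Weights
import Pool.Agent.Helper61.HO.TripW

/-!
# HO-34  Existence of Cubs

PROOF of `exists_cub_of_grad`. `𝓛 = LS (Ug S a b) ∅ ∅ (p a + p b)` is a weak link (`LS_wlink`, `herm_Ug`, `Ug_Ug`), maps
`Fix (p b)` to `Fix (p a)` and back (`link_maps`), dense (`link_dense`). Take `x = p b x ≠ 0` (`p b ≠ 0`, idempotent);
`WLink.exists_trip_fix` gives a tripotent `W ∈ 𝓛` with `supp W x = x`. `U = Ug S a b`, `S₁ = U * supp W`. Hermitian: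
`skew_square` and `Herm.neg` (`supp W = - W W`). `Π = p a + p b`: `Π W = W = W Π`, so `Π supp W = supp W = supp W Π`, `U (U supp W)
= supp W`; `U` commutes with `supp W`; so `S₁ S₁ S₁ = U U U supp W = U supp W = S₁`. `S₁ x = U x = - x`, `W x ∈ Fix (p a)`,
`W (W x) = - x`, so `W x ≠ 0`, `supp W (W x) = W x`, `S₁ (W x) = W x`.

PROOF of `exists_cub_ann`. `exists_w` for `𝔥 = Ann S₀` (`hann`), `exists_weights`: `S ∈ Ann S₀` with extreme weights
`a > 0 > b`; `exists_cub_of_grad`. `S₀ p a = a⁻¹ S₀ S p a = 0`, `p a S₀ = a⁻¹ p a S S₀ = 0`, the same for `b`. So `S₀ S₁ =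
S₀ Π S₁ = 0`, `S₁ S₀ = S₁ Π S₀ = 0`.
-/

set_option autoImplicit false

open Filter Topology

namespace Pool.Agent.Helper61.HP

universe u

variable {E : Type u} [NormedAddCommGroup E] [NormedSpace ℂ E] [CompleteSpace E]
  [TopologicalSpace.SeparableSpace E]

omit [CompleteSpace E] [TopologicalSpace.SeparableSpace E] in
private lemma exists_fix {q : E →L[ℂ] E} (hq : q * q = q) (hq0 : q ≠ 0) :
    ∃ x ∈ Fix q, x ≠ 0 := by
  obtain ⟨y, hy⟩ : ∃ y, q y ≠ 0 := by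
    by_contra hc
    push Not at hc
    exact hq0 (ContinuousLinearMap.ext hc)
  refine ⟨q y, ?_, hy⟩
  change q (q y) = q y
  have h1 : (q * q) y = q y := by rw [hq]
  exact h1

theorem exists_cub_of_grad (hN : Nice E) (htr : Transitive E) {S : E →L[ℂ] E} {N : ℕ}
    {p : ℤ → E →L[ℂ] E} {a b : ℤ} (hG : Grad S N p) (hab : b < a) (hpa : p a ≠ 0)
    (hpb : p b ≠ 0) (ha : ∀ j, a < j → p j = 0) (hb : ∀ j, j < b → p j = 0) :
    ∃ S₁ : E →L[ℂ] E, Cub S₁ ∧ (p a + p b) * S₁ = S₁ ∧ S₁ * (p a + p b) = S₁ ∧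
      (∃ x, x ≠ 0 ∧ S₁ x = x) ∧ (∃ x, x ≠ 0 ∧ S₁ x = -x) := by
  have hU : Herm (Ug S a b) := herm_Ug hG.herm a b
  have hUU := Ug_Ug hG hab
  have hL : WLink (LS (Ug S a b) ∅ ∅ (p a + p b)) := LS_wlink hU hUU ∅ ∅
  have hM := link_maps hG hab
  have hd := (link_dense htr hG hab ha hb).1
  obtain ⟨x, hx, hx0⟩ := exists_fix (hG.idem b) hpb
  obtain ⟨W, hW, hWx⟩ := WLink.exists_trip_fix hN hL hM hd (exists_fix (hG.idem a) hpa) hx hx0
  obtain ⟨u1, u2, u3, u4⟩ := Ug_p hG hab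
  have hWa : p a (W x) = W x := hM.1 W hW.mem x hx
  have hxb : p b x = x := hx
  obtain ⟨w1, w2, -, -, w3, w4⟩ := hW.mem
  have s1 := hW.supp_idem
  have s2 := hW.supp_mul
  have s3 : (p a + p b) * supp W = supp W := by
    rw [supp, mul_neg, ← mul_assoc, w3]
  have s4 : supp W * (p a + p b) = supp W := by
    rw [supp, neg_mul, mul_assoc, w4]
  have hherm : Herm (Ug S a b * supp W) := by
    have h := (skew_square hU w1 w2).neg
    rw [supp, mul_neg]
    exact h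
  have hPU : (p a + p b) * Ug S a b = Ug S a b * (p a + p b) := by
    rw [add_mul, mul_add, u1, u2, u3, u4]
  have hUW : W * Ug S a b = -(Ug S a b * W) := by rw [w2, neg_neg]
  have hcomm : supp W * Ug S a b = Ug S a b * supp W := by
    rw [supp, neg_mul, mul_neg, mul_assoc, hUW, mul_neg, ← mul_assoc, hUW, neg_mul, neg_neg,
      mul_assoc]
  have hUUs : Ug S a b * (Ug S a b * supp W) = supp W := by
    calc Ug S a b * (Ug S a b * supp W) = Ug S a b * (Ug S a b * ((p a + p b) * supp W)) := by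
          rw [s3]
      _ = (Ug S a b * (Ug S a b * (p a + p b))) * supp W := by
          simp only [mul_assoc]
      _ = supp W := by rw [hUU, s3]
  have hUx : Ug S a b x = -x := by
    have h1 : (Ug S a b * p b) x = (-p b) x := by rw [u3]
    have h2 : (Ug S a b * p b) x = Ug S a b (p b x) := rfl
    have h3 : (-p b) x = -(p b x) := rfl
    rw [h2, h3, hxb] at h1
    exact h1
  have hUWx : Ug S a b (W x) = W x := by
    have h1 : (Ug S a b * p a) (W x) = (p a) (W x) := by rw [u1]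
    have h2 : (Ug S a b * p a) (W x) = Ug S a b (p a (W x)) := rfl
    rw [h2, hWa] at h1
    exact h1
  have hS1x : (Ug S a b * supp W) x = -x := by
    have h1 : (Ug S a b * supp W) x = Ug S a b (supp W x) := rfl
    rw [h1, hWx, hUx]
  refine ⟨Ug S a b * supp W, ⟨hherm, ?_, ?_⟩, ?_, ?_, ⟨W x, ?_, ?_⟩, ⟨x, hx0, hS1x⟩⟩
  · calc Ug S a b * supp W * (Ug S a b * supp W) * (Ug S a b * supp W)
        = Ug S a b * (supp W * Ug S a b) * supp W * (Ug S a b * supp W) := by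
          simp only [mul_assoc]
      _ = Ug S a b * (Ug S a b * supp W) * supp W * (Ug S a b * supp W) := by rw [hcomm]
      _ = supp W * (Ug S a b * supp W) := by rw [hUUs, s1]
      _ = Ug S a b * supp W * supp W := by rw [← mul_assoc, hcomm]
      _ = Ug S a b * supp W := by rw [mul_assoc, s1]
  · intro h0
    rw [h0] at hS1x
    have h1 : (0 : E →L[ℂ] E) x = 0 := rfl
    rw [h1] at hS1x
    exact hx0 (neg_eq_zero.1 hS1x.symm)
  · rw [← mul_assoc, hPU, mul_assoc, s3]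
  · rw [mul_assoc, s4]
  · intro h0
    have h1 : supp W x = -(W (W x)) := rfl
    rw [hWx, h0, map_zero, neg_zero] at h1
    exact hx0 h1
  · have h1 : (Ug S a b * supp W) (W x) = Ug S a b ((supp W * W) x) := rfl
    rw [h1, s2, hUWx]

theorem exists_cub_ann (hN : Nice E) (htr : Transitive E) (S₀ : E →L[ℂ] E)
    (hnab : ∃ A ∈ Ann S₀, ∃ B ∈ Ann S₀, A * B ≠ B * A) :
    ∃ S₁ : E →L[ℂ] E, Cub S₁ ∧ S₀ * S₁ = 0 ∧ S₁ * S₀ = 0 ∧
      (∃ x, x ≠ 0 ∧ S₁ x = x) ∧ (∃ x, x ≠ 0 ∧ S₁ x = -x) := by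
  obtain ⟨w, w', hw, hw0, h2⟩ := exists_w hN (hann S₀) hnab
  obtain ⟨S, N, p, a, b, hS, hG, ha0, hb0, hpa, hpb, hta, htb⟩ :=
    exists_weights (hann S₀) hw hw0 h2
  obtain ⟨S₁, hC, h3, h4, h5, h6⟩ :=
    exists_cub_of_grad hN htr hG (hb0.trans ha0) hpa hpb hta htb
  obtain ⟨-, hS1, hS2⟩ := hS
  have hl : ∀ j : ℤ, j ≠ 0 → S₀ * p j = 0 := by
    intro j hj
    have k1 : S₀ * (S * p j) = 0 := by rw [← mul_assoc, hS2, zero_mul]
    rw [hG.eig, mul_smul_comm] at k1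
    rcases smul_eq_zero.1 k1 with k2 | k2
    · exact absurd (Int.cast_eq_zero.1 k2) hj
    · exact k2
  have hr : ∀ j : ℤ, j ≠ 0 → p j * S₀ = 0 := by
    intro j hj
    have k1 : (p j * S) * S₀ = 0 := by rw [mul_assoc, hS1, mul_zero]
    rw [hG.eig', smul_mul_assoc] at k1
    rcases smul_eq_zero.1 k1 with k2 | k2
    · exact absurd (Int.cast_eq_zero.1 k2) hj
    · exact k2
  refine ⟨S₁, hC, ?_, ?_, h5, h6⟩
  · rw [← h3, ← mul_assoc, mul_add, hl a ha0.ne', hl b hb0.ne, add_zero, zero_mul]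
  · rw [← h4, mul_assoc, add_mul, hr a ha0.ne', hr b hb0.ne, add_zero, mul_zero]

end Pool.Agent.Helper61.HP
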