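import Pool.Agent.Helper61.HO.TestApi

/-!
# HO-02  Fourier transforms of test functions

PROOFS. A test function is a Schwartz function (`HasCompactSupport.toSchwartzMap` or build `⟨f, smooth, decay⟩`), so
`𝓕 f` is a Schwartz function (`SchwartzMap.fourier_coe`), in particular integrable.
* `fourier_mul_apply`: `𝓕 (f g) = 𝓕 f ⋆ 𝓕 g`: by inversion from `Real.fourier_mul_convolution_eq` (or
  `SchwartzMap.fourier_convolution_apply`, `SchwartzMap.convolution_apply`; the convolution is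
  `∫ η, 𝓕 f η * 𝓕 g (ξ - η)`, `MeasureTheory.convolution_def`).
* `integral_norm_fourier_mul_le`: the `L¹` norm of a convolution is at most the product of the `L¹` norms (Fubini, or
  `MeasureTheory.Integrable.integrable_convolution` and `norm` estimates).
* `hasDerivAt_fourier_test`: `Real.hasDerivAt_fourier`.
* `fourier_star`, `fourier_comp_neg`: conjugate/substitute in the integral.
* `integral_fourier_test`: inversion at `0` (`Continuous.fourierInv_fourier_eq`, `fourierInv_eq`).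
* `fourier_affine`: substitution `x ↦ a x + b`: `𝓕 (f(a · + b)) ξ = |a|⁻¹ exp(2 π i b ξ / a) (𝓕 f)(ξ / a)`; then substitute
  in the norm integral (`MeasureTheory.Measure.integral_comp_div` or `integral_comp_mul_left`).
* `integral_norm_fourier_le`: `|𝓕 f ξ| ≤ ∫ |f|` and `(2 π ξ)^2 |𝓕 f ξ| ≤ ∫ |f''|` (`Real.fourier_deriv` twice), so
  `(1 + (2 π ξ)^2) |𝓕 f ξ| ≤ 2 R M`, and `∫ dξ / (1 + (2 π ξ)^2) = 1 / 2` (`integral_univ_inv_one_add_sq`).
-/

set_option autoImplicit false

open Filter Topology MeasureTheory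
open scoped FourierTransform

namespace Pool.Agent.Helper61.HP

theorem Test.integrable {f : ℝ → ℂ} (hf : Test f) : Integrable f :=
  hf.1.continuous.integrable_of_hasCompactSupport hf.2

private noncomputable def toS {f : ℝ → ℂ} (hf : Test f) : SchwartzMap ℝ ℂ :=
  hf.2.toSchwartzMap hf.1

private theorem coe_toS {f : ℝ → ℂ} (hf : Test f) : ((toS hf : SchwartzMap ℝ ℂ) : ℝ → ℂ) = f := rfl

private theorem coe_fourier_toS {f : ℝ → ℂ} (hf : Test f) :
    ((𝓕 (toS hf) : SchwartzMap ℝ ℂ) : ℝ → ℂ) = 𝓕 f := by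
  rw [SchwartzMap.fourier_coe, coe_toS]

theorem Test.integrable_fourier {f : ℝ → ℂ} (hf : Test f) : Integrable (𝓕 f) := by
  rw [← coe_fourier_toS hf]
  exact SchwartzMap.integrable _

theorem Test.continuous_fourier {f : ℝ → ℂ} (hf : Test f) : Continuous (𝓕 f) := by
  rw [← coe_fourier_toS hf]
  exact SchwartzMap.continuous _

private theorem test_conv {f : ℝ → ℂ} (hf : Test f) (ξ : ℝ) :
    Integrable (fun v : ℝ => 𝐞 (-(v * ξ)) • f v) := by
  have h := (Real.fourierIntegral_convergent_iff (f := f) ξ).2 hf.integrable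
  refine h.congr (Eventually.of_forall fun v => ?_)
  simp [mul_comm]

theorem Test.fourier_add {f g : ℝ → ℂ} (hf : Test f) (hg : Test g) (ξ : ℝ) :
    𝓕 (fun x => f x + g x) ξ = 𝓕 f ξ + 𝓕 g ξ := by
  simp only [Real.fourier_real_eq, smul_add]
  exact integral_add (test_conv hf ξ) (test_conv hg ξ)

theorem Test.fourier_smul {f : ℝ → ℂ} (hf : Test f) (c : ℂ) (ξ : ℝ) :
    𝓕 (fun x => c * f x) ξ = c * 𝓕 f ξ := by
  simp only [Real.fourier_real_eq_integral_exp_smul, smul_eq_mul]
  rw [← integral_const_mul]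
  congr 1
  ext v
  ring

private theorem fourierInv_fourier_test {f : ℝ → ℂ} (hf : Test f) : 𝓕⁻ (𝓕 f) = f :=
  hf.1.continuous.fourierInv_fourier_eq hf.integrable hf.integrable_fourier

private theorem fourier_fourier_test {f : ℝ → ℂ} (hf : Test f) (x : ℝ) : 𝓕 (𝓕 f) x = f (-x) := by
  have h := congrFun (fourierInv_fourier_test hf) (-x)
  rw [Real.fourierInv_eq_fourier_neg, neg_neg] at h
  exact h

theorem Test.fourier_mul_apply {f g : ℝ → ℂ} (hf : Test f) (hg : Test g) (ξ : ℝ) :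
    𝓕 (fun x => f x * g x) ξ = ∫ η : ℝ, 𝓕 f η * 𝓕 g (ξ - η) := by
  set A : SchwartzMap ℝ ℂ := 𝓕 (toS hf) with hA
  set B : SchwartzMap ℝ ℂ := 𝓕 (toS hg) with hB
  have hAc : (A : ℝ → ℂ) = 𝓕 f := coe_fourier_toS hf
  have hBc : (B : ℝ → ℂ) = 𝓕 g := coe_fourier_toS hg
  set C : SchwartzMap ℝ ℂ := SchwartzMap.convolution (ContinuousLinearMap.mul ℂ ℂ) A B with hC
  have hC1 : ∀ x : ℝ, C x = ∫ η : ℝ, 𝓕 f η * 𝓕 g (x - η) := by
    intro x
    rw [hC, SchwartzMap.convolution_apply, MeasureTheory.convolution_def]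
    simp only [hAc, hBc, ContinuousLinearMap.mul_apply']
  have hC2 : ∀ x : ℝ, 𝓕 (C : ℝ → ℂ) x = f (-x) * g (-x) := by
    intro x
    have h1 := SchwartzMap.fourier_convolution_apply (ContinuousLinearMap.mul ℂ ℂ) A B x
    rw [← SchwartzMap.fourier_coe, hC, h1,
      Real.fourier_mul_convolution_eq A.integrable B.integrable, hAc, hBc,
      fourier_fourier_test hf, fourier_fourier_test hg]
  have hC3 : 𝓕⁻ (C : ℝ → ℂ) = fun x => f x * g x := by
    ext x
    rw [Real.fourierInv_eq_fourier_neg, hC2]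
    simp
  have hC4 : 𝓕 (𝓕⁻ (C : ℝ → ℂ)) = (C : ℝ → ℂ) := by
    refine C.continuous.fourier_fourierInv_eq C.integrable ?_
    rw [← SchwartzMap.fourier_coe]
    exact SchwartzMap.integrable _
  rw [hC3] at hC4
  rw [hC4, hC1]

theorem Test.integral_norm_fourier_mul_le {f g : ℝ → ℂ} (hf : Test f) (hg : Test g) :
    ∫ ξ : ℝ, ‖𝓕 (fun x => f x * g x) ξ‖ ≤ (∫ ξ : ℝ, ‖𝓕 f ξ‖) * ∫ ξ : ℝ, ‖𝓕 g ξ‖ := by
  have hA : Integrable (fun ξ : ℝ => ‖𝓕 f ξ‖) := hf.integrable_fourier.norm
  have hB : Integrable (fun ξ : ℝ => ‖𝓕 g ξ‖) := hg.integrable_fourier.norm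
  have h1 := MeasureTheory.integral_convolution (ContinuousLinearMap.mul ℝ ℝ) hA hB (μ := volume)
    (ν := volume)
  have h2 := hA.integrable_convolution (ContinuousLinearMap.mul ℝ ℝ) hB (μ := volume)
  rw [ContinuousLinearMap.mul_apply'] at h1
  rw [← h1]
  refine integral_mono_of_nonneg (Eventually.of_forall fun ξ => norm_nonneg _) h2
    (Eventually.of_forall fun ξ => ?_)
  simp only
  rw [hf.fourier_mul_apply hg, MeasureTheory.convolution_def]
  refine (norm_integral_le_integral_norm _).trans (le_of_eq ?_)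
  congr 1
  ext η
  simp

theorem Test.hasDerivAt_fourier {f : ℝ → ℂ} (hf : Test f) (ξ : ℝ) :
    HasDerivAt (𝓕 f) (-(2 * Real.pi * Complex.I) * 𝓕 (fun x : ℝ => (x : ℂ) * f x) ξ) ξ := by
  have h1 : Integrable (fun x : ℝ => x • f x) := by
    refine hf.id_mul.integrable.congr (Eventually.of_forall fun x => ?_)
    simp
  have h := Real.hasDerivAt_fourier hf.integrable h1 ξ
  rw [← hf.id_mul.fourier_smul]
  have e : (fun x : ℝ => (-2 * Real.pi * Complex.I * x) • f x) =
      fun x : ℝ => -(2 * Real.pi * Complex.I) * ((x : ℂ) * f x) := by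
    ext x
    rw [smul_eq_mul]
    ring
  rw [e] at h
  exact h

theorem Test.fourier_star {f : ℝ → ℂ} (hf : Test f) (ξ : ℝ) :
    𝓕 (fun x => (starRingEnd ℂ) (f x)) ξ = (starRingEnd ℂ) (𝓕 f (-ξ)) := by
  simp only [Real.fourier_real_eq_integral_exp_smul, smul_eq_mul]
  rw [← integral_conj]
  congr 1
  ext v
  rw [map_mul, ← Complex.exp_conj, map_mul, Complex.conj_ofReal, Complex.conj_I]
  congr 2
  push_cast
  ring

theorem Test.fourier_comp_neg {f : ℝ → ℂ} (hf : Test f) (ξ : ℝ) :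
    𝓕 (fun x => f (-x)) ξ = 𝓕 f (-ξ) := by
  simp only [Real.fourier_real_eq_integral_exp_smul, smul_eq_mul]
  rw [← integral_neg_eq_self]
  congr 1
  ext v
  simp

theorem Test.integral_fourier {f : ℝ → ℂ} (hf : Test f) : ∫ ξ : ℝ, 𝓕 f ξ = f 0 := by
  have h := congrFun (fourierInv_fourier_test hf) 0
  rw [Real.fourierInv_eq'] at h
  simpa using h

/-- the Fourier transform of a dilated function is an approximate identity -/
theorem Test.fourier_dilate {f : ℝ → ℂ} (hf : Test f) {R : ℝ} (hR : 0 < R) (ξ : ℝ) :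
    𝓕 (fun x => f (x / R)) ξ = (R : ℂ) * 𝓕 f (R * ξ) := by
  simp only [Real.fourier_real_eq_integral_exp_smul, smul_eq_mul]
  have h := MeasureTheory.Measure.integral_comp_div
    (fun y : ℝ => Complex.exp (((-2 * Real.pi * y * (R * ξ) : ℝ) : ℂ) * Complex.I) * f y) R
  rw [abs_of_pos hR, Complex.real_smul] at h
  rw [← h]
  congr 1
  ext v
  congr 3
  have : R ≠ 0 := hR.ne'
  field_simp

theorem Test.integral_norm_fourier_affine {f : ℝ → ℂ} (hf : Test f) {a : ℝ} (ha : a ≠ 0)
    (b : ℝ) : ∫ ξ : ℝ, ‖𝓕 (fun x => f (a * x + b)) ξ‖ = ∫ ξ : ℝ, ‖𝓕 f ξ‖ := by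
  have key : ∀ ξ : ℝ, ‖𝓕 (fun x => f (a * x + b)) ξ‖ = |a|⁻¹ * ‖𝓕 f (ξ / a)‖ := by
    intro ξ
    simp only [Real.fourier_real_eq_integral_exp_smul, smul_eq_mul]
    have h := MeasureTheory.Measure.integral_comp_mul_left
      (fun y : ℝ => Complex.exp (((-2 * Real.pi * y * (ξ / a) : ℝ) : ℂ) * Complex.I) * f (y + b)) a
    have h2 := MeasureTheory.integral_add_right_eq_self (μ := (volume : Measure ℝ))
      (fun y : ℝ => Complex.exp (((-2 * Real.pi * (y - b) * (ξ / a) : ℝ) : ℂ) * Complex.I) * f y) b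
    have h3 : ∫ v : ℝ, Complex.exp (((-2 * Real.pi * v * ξ : ℝ) : ℂ) * Complex.I) * f (a * v + b)
        = (|a|⁻¹ : ℝ) • (Complex.exp (((2 * Real.pi * b * (ξ / a) : ℝ) : ℂ) * Complex.I) *
          ∫ v : ℝ, Complex.exp (((-2 * Real.pi * v * (ξ / a) : ℝ) : ℂ) * Complex.I) * f v) := by
      rw [← integral_const_mul]
      have e1 : ∀ v : ℝ, Complex.exp (((-2 * Real.pi * v * ξ : ℝ) : ℂ) * Complex.I) * f (a * v + b)
          = Complex.exp (((-2 * Real.pi * (a * v) * (ξ / a) : ℝ) : ℂ) * Complex.I) *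
            f (a * v + b) := by
        intro v
        congr 4
        field_simp
      simp only [e1]
      rw [h, abs_inv]
      congr 1
      simp only [add_sub_cancel_right] at h2
      rw [h2]
      congr 1
      ext v
      rw [← mul_assoc, ← Complex.exp_add]
      congr 2
      push_cast
      ring
    rw [h3, norm_smul, norm_mul, Complex.norm_exp_ofReal_mul_I, one_mul]
    simp
  simp only [key]
  rw [integral_const_mul, MeasureTheory.Measure.integral_comp_div (fun x : ℝ => ‖𝓕 f x‖) a,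
    smul_eq_mul, ← mul_assoc, inv_mul_cancel₀ (abs_ne_zero.2 ha), one_mul]

private theorem norm_fourier_le {f : ℝ → ℂ} (ξ : ℝ) : ‖𝓕 f ξ‖ ≤ ∫ x : ℝ, ‖f x‖ := by
  simp only [Real.fourier_real_eq_integral_exp_smul]
  refine (norm_integral_le_integral_norm _).trans (le_of_eq ?_)
  congr 1
  ext v
  rw [norm_smul, Complex.norm_exp_ofReal_mul_I, one_mul]

private theorem Test.deriv' {f : ℝ → ℂ} (hf : Test f) : Test (deriv f) := by
  refine ⟨?_, hf.2.deriv⟩
  have := hf.1
  rw [contDiff_infty_iff_deriv] at this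
  exact this.2

theorem Test.integral_norm_fourier_le {f : ℝ → ℂ} (hf : Test f) {R M : ℝ} (hR0 : 0 ≤ R)
    (hR : ∀ x, R < |x| → f x = 0) (hM : ∀ x, ‖f x‖ + ‖deriv (deriv f) x‖ ≤ M) :
    ∫ ξ : ℝ, ‖𝓕 f ξ‖ ≤ R * M := by
  have hf1 : Test (deriv f) := hf.deriv'
  have hf2 : Test (deriv (deriv f)) := hf1.deriv'
  have d1 : 𝓕 (deriv f) = fun (x : ℝ) ↦ (2 * Real.pi * Complex.I * x) • (𝓕 f x) :=
    Real.fourier_deriv hf.integrable (hf.1.differentiable (by simp)) hf1.integrable
  have d2 : 𝓕 (deriv (deriv f)) = fun (x : ℝ) ↦ (2 * Real.pi * Complex.I * x) • (𝓕 (deriv f) x) :=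
    Real.fourier_deriv hf1.integrable (hf1.1.differentiable (by simp)) hf2.integrable
  have hM0 : 0 ≤ M := by
    have := hM 0
    have h1 := norm_nonneg (f 0)
    have h2 := norm_nonneg (deriv (deriv f) 0)
    linarith
  have hopen : ∀ (h : ℝ → ℂ), (∀ x, R < |x| → h x = 0) → ∀ x, R < |x| → deriv h x = 0 := by
    intro h hh x hx
    have : h =ᶠ[𝓝 x] fun _ => 0 := by
      have ho : IsOpen {y : ℝ | R < |y|} := isOpen_lt continuous_const continuous_abs
      filter_upwards [ho.mem_nhds hx] with y hy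
      exact hh y hy
    rw [this.deriv_eq]
    simp
  have hv2 : ∀ x, R < |x| → deriv (deriv f) x = 0 := hopen _ (hopen _ hR)
  have hint : ∫ x : ℝ, (‖f x‖ + ‖deriv (deriv f) x‖) ≤ 2 * R * M := by
    have hsub : ∀ x, ‖f x‖ + ‖deriv (deriv f) x‖ ≤ Set.indicator (Set.Icc (-R) R) (fun _ => M) x := by
      intro x
      by_cases hx : x ∈ Set.Icc (-R) R
      · rw [Set.indicator_of_mem hx]
        exact hM x
      · rw [Set.indicator_of_notMem hx]
        have hx' : R < |x| := by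
          by_contra hcon
          exact hx (abs_le.1 (not_lt.1 hcon))
        rw [hR x hx', hv2 x hx']
        simp
    refine (integral_mono (hf.integrable.norm.add hf2.integrable.norm) ?_ hsub).trans ?_
    · rw [integrable_indicator_iff measurableSet_Icc]
      exact integrableOn_const (by simp)
    · rw [integral_indicator measurableSet_Icc, setIntegral_const]
      simp only [Measure.real, Real.volume_Icc, smul_eq_mul]
      rw [ENNReal.toReal_ofReal (by linarith)]
      linarith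
  have hpt : ∀ ξ : ℝ, ‖𝓕 f ξ‖ ≤ (2 * R * M) * (1 + (2 * Real.pi * ξ) ^ 2)⁻¹ := by
    intro ξ
    have h1 : ‖𝓕 f ξ‖ ≤ ∫ x : ℝ, ‖f x‖ := norm_fourier_le ξ
    have h2 : ‖𝓕 (deriv (deriv f)) ξ‖ ≤ ∫ x : ℝ, ‖deriv (deriv f) x‖ := norm_fourier_le ξ
    rw [d2] at h2
    simp only [d1] at h2
    rw [norm_smul, norm_smul] at h2
    have h3 : ‖(2 * Real.pi * Complex.I * ξ : ℂ)‖ = |2 * Real.pi * ξ| := by
      simp [abs_mul, abs_of_pos Real.pi_pos]
    rw [h3, ← mul_assoc, ← pow_two, sq_abs] at h2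
    rw [← div_eq_mul_inv, le_div_iff₀ (by positivity)]
    rw [integral_add hf.integrable.norm hf2.integrable.norm] at hint
    nlinarith
  have hI : Integrable (fun ξ : ℝ => (2 * R * M) * (1 + (2 * Real.pi * ξ) ^ 2)⁻¹) := by
    refine Integrable.const_mul ?_ _
    exact integrable_inv_one_add_sq.comp_mul_left' (by positivity)
  have hval : ∫ ξ : ℝ, (2 * R * M) * (1 + (2 * Real.pi * ξ) ^ 2)⁻¹ = R * M := by
    rw [integral_const_mul]
    have := MeasureTheory.Measure.integral_comp_mul_left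
      (fun y : ℝ => (1 + y ^ 2)⁻¹) (2 * Real.pi)
    rw [this, integral_univ_inv_one_add_sq, abs_of_pos (by positivity), smul_eq_mul]
    have := Real.pi_pos
    field_simp
  rw [← hval]
  exact integral_mono hf.integrable_fourier.norm hI hpt

/-- if the test functions `c n * (f t * u t ^ n)` sum pointwise to the test function `g`, then so
do their Fourier transforms -/
theorem Test.fourier_series {f u g : ℝ → ℂ} (hf : Test f) (hu : Test u) (hg : Test g)
    (c : ℕ → ℂ) (hc : ∀ R : ℝ, Summable fun n => ‖c n‖ * R ^ n)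
    (hsum : ∀ t, HasSum (fun n => c n * (f t * u t ^ n)) (g t)) (ξ : ℝ) :
    HasSum (fun n => c n * 𝓕 (fun t => f t * u t ^ n) ξ) (𝓕 g ξ) := by
  obtain ⟨U, hU⟩ := hu.2.exists_bound_of_continuous hu.1.continuous
  have hU0 : 0 ≤ U := (norm_nonneg _).trans (hU 0)
  set F : ℕ → ℝ → ℂ := fun n t =>
    c n * (Complex.exp (((-2 * Real.pi * t * ξ : ℝ) : ℂ) * Complex.I) * (f t * u t ^ n)) with hF
  have hcont : ∀ n, Continuous (F n) := by
    intro n
    have h1 := hf.1.continuous
    have h2 := hu.1.continuous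
    simp only [hF]
    fun_prop
  have hnorm : ∀ n t, ‖F n t‖ ≤ (‖c n‖ * U ^ n) * ‖f t‖ := by
    intro n t
    simp only [hF, norm_mul, Complex.norm_exp_ofReal_mul_I, one_mul, norm_pow]
    have : ‖u t‖ ^ n ≤ U ^ n := pow_le_pow_left₀ (norm_nonneg _) (hU t) n
    have h0 := norm_nonneg (c n)
    have h1 := norm_nonneg (f t)
    calc ‖c n‖ * (‖f t‖ * ‖u t‖ ^ n) ≤ ‖c n‖ * (‖f t‖ * U ^ n) := by gcongr
      _ = _ := by ring
  have hdom : ∀ n, Integrable (fun t => (‖c n‖ * U ^ n) * ‖f t‖) := fun n =>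
    hf.integrable.norm.const_mul _
  have hint : ∀ n, Integrable (F n) := fun n =>
    (hdom n).mono' (hcont n).aestronglyMeasurable (Eventually.of_forall (hnorm n))
  have hS : Summable fun n => ∫ t : ℝ, ‖F n t‖ := by
    refine Summable.of_nonneg_of_le (fun n => integral_nonneg fun t => norm_nonneg _)
      (fun n => ?_) ((hc U).mul_right (∫ t : ℝ, ‖f t‖))
    rw [← integral_const_mul]
    exact integral_mono (hint n).norm (hdom n) (hnorm n)
  have h := hasSum_integral_of_summable_integral_norm hint hS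
  have e1 : ∀ n, ∫ t : ℝ, F n t = c n * 𝓕 (fun t => f t * u t ^ n) ξ := by
    intro n
    simp only [hF, Real.fourier_real_eq_integral_exp_smul, smul_eq_mul]
    rw [integral_const_mul]
  have e2 : ∫ t : ℝ, ∑' n, F n t = 𝓕 g ξ := by
    simp only [Real.fourier_real_eq_integral_exp_smul, smul_eq_mul]
    congr 1
    ext t
    have := (hsum t).mul_left (Complex.exp (((-2 * Real.pi * t * ξ : ℝ) : ℂ) * Complex.I))
    rw [← this.tsum_eq]
    congr 1
    ext n
    simp only [hF]
    ring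
  rw [e2] at h
  simpa only [e1] using h

end Pool.Agent.Helper61.HP
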