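import Pool.Agent.Helper61.HO.CubApi

/-!
# HO-42  Norming functionals vanish on the negative eigenspace

PROOF. Let `y₊ = S y` (so `S y₊ = y₊`, `S (y - y₊) = 0`, `pc S 1 y = y₊`, `pc S (-1) y = 0`). If `y = 0`, then `φ v = 0`? No: then
`φ` is arbitrary, so `y ≠ 0` is assumed.
Case `y₊ = 0`: `S y = 0`, so `ex t (i S) y = y`; `φ ∘ ex t (i S)` is also norming for `y` (`Skew.norm_ex_le`), so it equals `φ`
(`Nice.smooth`); `ex t (i S) v = exp(- i t) v`, so `exp(- i t) φ v = φ v` for all `t`, `φ v = 0` (`t = π`).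
Case `y₊ ≠ 0`: let `K` be hermitian. `wt 1 p 2 K = p 1 K p (-1)`, `wt 1 p (-2) K = p (-1) K p 1` (`p = pc S`). `Pr.wt` for `Pr K K` and
`Pr.skew`: `D = p (-1) K p 1 - p 1 K p (-1)` is skew, `D y = p (-1) K y₊`, so `Re φ(p (-1) K y₊) = 0`; the same for `i K`-combination:
`Pr.smul` with `c = i`: `i p (-1) K p 1 + i p 1 K p (-1)` is skew, so `Re φ(i p (-1) K y₊) = 0`. So `φ(p (-1) K y₊) = 0` for all
hermitian `K`. `dense_herm` with `A = S - 1` (`A y₊ = 0`), `u = - v / 2`, `A u = v`: `K` with `‖K y₊ - v‖ < ε`, so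
`‖p (-1) K y₊ - v‖ ≤ ‖p (-1)‖ ε` (`p (-1) v = v`) and `|φ v| ≤ ‖p (-1)‖ ε`.
-/

set_option autoImplicit false

open Filter Topology

namespace Pool.Agent.Helper61.HP

universe u

variable {E : Type u} [NormedAddCommGroup E] [NormedSpace ℂ E] [CompleteSpace E]
  [TopologicalSpace.SeparableSpace E] {S : E →L[ℂ] E}

private theorem nv_pc_one (x : E) : pc S 1 x = (1 / 2 : ℂ) • (S (S x) + S x) := by
  unfold pc
  rw [if_pos rfl]
  rfl

private theorem nv_pc_neg (x : E) : pc S (-1) x = (1 / 2 : ℂ) • (S (S x) - S x) := by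
  unfold pc
  rw [if_neg (by norm_num), if_pos rfl]
  rfl

private theorem nv_pc_zero (x : E) : pc S 0 x = x - S (S x) := by
  unfold pc
  rw [if_neg (by norm_num), if_neg (by norm_num), if_pos rfl]
  rfl

private theorem nv_case0 (hN : Nice E) (hS : Cub S) {y v : E} (hy0 : y ≠ 0) (hy : S y = 0)
    {φ : StrongDual ℂ E} (hφ : Norming φ y) (hv : S v = -v) : φ v = 0 := by
  have hψ : Norming (φ.comp (1 - (2 : ℂ) • (S * S))) y := by
    constructor
    · refine ContinuousLinearMap.opNorm_le_bound _ zero_le_one fun z => ?_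
      have h1 : ‖φ ((1 - (2 : ℂ) • (S * S) : E →L[ℂ] E) z)‖ ≤
          ‖(1 - (2 : ℂ) • (S * S) : E →L[ℂ] E) z‖ := hφ.abs_le _
      have h2 : ‖(1 - (2 : ℂ) • (S * S) : E →L[ℂ] E) z‖ = ‖z‖ := hS.norm_refl z
      rw [ContinuousLinearMap.comp_apply, one_mul]
      exact h1.trans h2.le
    · have h1 : (1 - (2 : ℂ) • (S * S) : E →L[ℂ] E) y = y := by
        show y - (2 : ℂ) • S (S y) = y
        rw [hy, map_zero, smul_zero, sub_zero]
      rw [ContinuousLinearMap.comp_apply, h1]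
      exact hφ.2
  have h3 := hN.smooth y hy0 _ _ hψ hφ
  have h4 : φ ((1 - (2 : ℂ) • (S * S) : E →L[ℂ] E) v) = φ v :=
    congrArg (fun f : StrongDual ℂ E => f v) h3
  have h5 : (1 - (2 : ℂ) • (S * S) : E →L[ℂ] E) v = -v := by
    show v - (2 : ℂ) • S (S v) = -v
    rw [hv, map_neg, hv, neg_neg, two_smul]
    abel
  rw [h5, map_neg] at h4
  linear_combination (-1 / 2 : ℂ) * h4

private theorem nv_key (hS : Cub S) {y : E} (hy : S (S y) = S y) {φ : StrongDual ℂ E}
    (hφ : Norming φ y) {K : E →L[ℂ] E} (hK : Herm K) : φ (pc S (-1) (K (S y))) = 0 := by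
  have hG := cub_grad hS
  have hh : HLie {H : E →L[ℂ] E | Herm H} := hherm
  have h1 : Pr {H : E →L[ℂ] E | Herm H} K K := Pr.of_mem hh hK
  have h2 := Pr.wt hh hG (show S ∈ {H : E →L[ℂ] E | Herm H} from hS.herm) h1 (-2)
  have p1 : pc S 1 (S y) = S y := by
    rw [nv_pc_one, hy, hy, ← two_smul ℂ, smul_smul]
    norm_num
  have p0 : pc S 0 (y - S y) = y - S y := by
    rw [nv_pc_zero, map_sub, map_sub, hy, hy, sub_self, sub_zero]
  have hz : ∀ j : ℤ, 1 < |j| → pc S j = 0 := fun j hj => hG.supp j (by exact_mod_cast hj)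
  have w1 : wt 1 (pc S) (-2) K y = pc S (-1) (K (S y)) := by
    have e1 := hG.wt_apply (-2) K p1
    have e2 := hG.wt_apply (-2) K p0
    rw [hz (0 + -2) (by norm_num)] at e2
    have e3 : y = S y + (y - S y) := by abel
    rw [e3, map_add, e2, e1, ← e3]
    norm_num
  have w2 : wt 1 (pc S) (- -2) K y = 0 := by
    have e1 := hG.wt_apply (- -2) K p1
    have e2 := hG.wt_apply (- -2) K p0
    rw [hz (0 + - -2) (by norm_num)] at e2
    rw [hz (1 + - -2) (by norm_num)] at e1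
    have e3 : y = S y + (y - S y) := by abel
    rw [e3, map_add, e2, e1]
    simp
  have s1 := Pr.skew hh h2 y φ hφ
  have s2 := Pr.skew hh (Pr.smul hh h2 Complex.I) y φ hφ
  rw [ContinuousLinearMap.sub_apply, w1, w2, sub_zero] at s1
  rw [ContinuousLinearMap.sub_apply, ContinuousLinearMap.smul_apply,
    ContinuousLinearMap.smul_apply, w1, w2, smul_zero, sub_zero, map_smul, smul_eq_mul] at s2
  apply Complex.ext
  · exact s1
  · rw [Complex.mul_re, Complex.I_re, Complex.I_im, zero_mul, one_mul, zero_sub] at s2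
    rw [Complex.zero_im]
    linarith

theorem norming_vanish (hN : Nice E) (htr : Transitive E) (hS : Cub S) {y v : E} (hy0 : y ≠ 0)
    (hy : S (S y) = S y) {φ : StrongDual ℂ E} (hφ : Norming φ y) (hv : S v = -v) : φ v = 0 := by
  by_cases h0 : S y = 0
  · exact nv_case0 hN hS hy0 h0 hφ hv
  by_contra hne
  have hpos : 0 < ‖φ v‖ := norm_pos_iff.mpr hne
  have hA : Herm (S - 1) := hS.herm.sub Herm.one
  have hx : (S - 1 : E →L[ℂ] E) (S y) = 0 := by
    show S (S y) - S y = 0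
    rw [hy, sub_self]
  have hu : (S - 1 : E →L[ℂ] E) (-(1 / 2 : ℂ) • v) = v := by
    show S (-(1 / 2 : ℂ) • v) - -(1 / 2 : ℂ) • v = v
    rw [map_smul, hv]
    module
  have hpv : pc S (-1) v = v := by
    rw [nv_pc_neg, hv, map_neg, hv]
    module
  set C : ℝ := ‖φ.comp (pc S (-1))‖ with hC
  have hC0 : 0 ≤ C := norm_nonneg _
  obtain ⟨K, hK, hK2⟩ := dense_herm htr hA hx h0 (-(1 / 2 : ℂ) • v)
    (ε := ‖φ v‖ / (C + 1)) (by positivity)
  rw [hu] at hK2
  have h1 := nv_key hS hy hφ hK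
  have h2 : φ v = (φ.comp (pc S (-1))) (v - K (S y)) := by
    rw [ContinuousLinearMap.comp_apply, map_sub, map_sub, h1, hpv, sub_zero]
  have h3 : ‖φ v‖ ≤ C * ‖v - K (S y)‖ := by
    conv_lhs => rw [h2]
    exact ContinuousLinearMap.le_opNorm _ _
  rw [norm_sub_rev] at h3
  have h4 : ‖K (S y) - v‖ * (C + 1) < ‖φ v‖ := by
    rwa [lt_div_iff₀ (by positivity)] at hK2
  have h5 := norm_nonneg (K (S y) - v)
  nlinarith

end Pool.Agent.Helper61.HP
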