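import Pool.Agent.Helper61.HO.XApi
import Pool.Agent.Helper61.HO.Vanish

/-!
# HO-44  The compressed operators are skew on `X`

PROOF. `q = qX S T`, `x ∈ XX S T`, `φ` norming for `x`. If `x = 0`, the expression is `0`. `Pr K K` (`Pr.of_mem`, `hherm`).
(0,1): `K' = wt 1 (pc S) 1 (wt 1 (pc T) (-1) K)` has the star `wt 1 (pc S) (-1) (wt 1 (pc T) 1 K)` (`Pr.wt` twice, `cub_grad`), so the
difference is skew (`Pr.skew`) and its value at `x` is `q 0 K q 1 x - q 1 K q 0 x` (`wt_pair`).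
(0,2): `K' = wt 1 (pc S) 1 (wt 1 (pc T) 0 K)` has the star `wt 1 (pc S) (-1) (wt 1 (pc T) 0 K)` (`-0 = 0`); the value of the difference
at `x` is `q 0 K q 2 x - q 2 K q 0 x - pc S (-1) K q 2 x`, and `φ (pc S (-1) z) = 0` by `norming_vanish` (`S (pc S (-1) z) = - pc S (-1) z`).
(1,2): exchange `S` and `T` (`XX_symm`, `qX T S 0 = qX S T 1`, `qX T S 2 = qX S T 2`).
The other cases `(j, i)` are the negatives.
-/

set_option autoImplicit false

open Filter Topology

namespace Pool.Agent.Helper61.HP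

universe u

variable {E : Type u} [NormedAddCommGroup E] [NormedSpace ℂ E] [CompleteSpace E]
  [TopologicalSpace.SeparableSpace E] {S T : E →L[ℂ] E}

private theorem pr_pair (hS : Cub S) (hT : Cub T) {K : E →L[ℂ] E} (hK : Herm K) (d : ℤ) :
    Pr {H : E →L[ℂ] E | Herm H} (wt 1 (pc S) 1 (wt 1 (pc T) d K))
      (wt 1 (pc S) (-1) (wt 1 (pc T) (-d) K)) := by
  have h1 : Pr {H : E →L[ℂ] E | Herm H} K K := Pr.of_mem hherm hK
  have h2 := Pr.wt hherm (cub_grad hT) hT.herm h1 d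
  exact Pr.wt hherm (cub_grad hS) hS.herm h2 1

private theorem frame_zero_one (hS : Cub S) (hT : Cub T)
    (h : S * T = 0) (h' : T * S = 0) {K : E →L[ℂ] E} (hK : Herm K)
    {x : E} (hx : x ∈ XX S T) {φ : StrongDual ℂ E} (hφ : Norming φ x) :
    (φ (qX S T 0 (K (qX S T 1 x)) - qX S T 1 (K (qX S T 0 x)))).re = 0 := by
  have h3 := pr_pair hS hT hK (-1)
  rw [neg_neg] at h3
  have h4 := (h3.skew hherm) x φ hφ
  obtain ⟨w1, w2, -, -⟩ := wt_pair hS hT h h' K
  rw [sub_apply, w1 x hx, w2 x hx] at h4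
  exact h4

private theorem frame_zero_two (hN : Nice E) (htr : Transitive E) (hS : Cub S) (hT : Cub T)
    (h : S * T = 0) (h' : T * S = 0) {K : E →L[ℂ] E} (hK : Herm K)
    {x : E} (hx0 : x ≠ 0) (hx : x ∈ XX S T) {φ : StrongDual ℂ E} (hφ : Norming φ x) :
    (φ (qX S T 0 (K (qX S T 2 x)) - qX S T 2 (K (qX S T 0 x)))).re = 0 := by
  have h3 := pr_pair hS hT hK 0
  rw [neg_zero] at h3
  have h4 := (h3.skew hherm) x φ hφ
  obtain ⟨-, -, w3, w4⟩ := wt_pair hS hT h h' K
  rw [sub_apply, w3 x hx, w4 x hx] at h4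
  have h5 : S (pc S (-1) (K (qX S T 2 x))) = -(pc S (-1) (K (qX S T 2 x))) := by
    have h6 := (cub_grad hS).eig (-1)
    have h7 := congrArg (fun D : E →L[ℂ] E => D (K (qX S T 2 x))) h6
    simpa using h7
  have h8 : φ (pc S (-1) (K (qX S T 2 x))) = 0 := norming_vanish hN htr hS hx0 hx.1 hφ h5
  rw [← sub_sub, map_sub, h8, sub_zero] at h4
  exact h4

theorem frame_skew (hN : Nice E) (htr : Transitive E) (hS : Cub S) (hT : Cub T)
    (h : S * T = 0) (h' : T * S = 0) {K : E →L[ℂ] E} (hK : Herm K) {i j : Fin 3} (hij : i ≠ j)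
    {x : E} (hx : x ∈ XX S T) {φ : StrongDual ℂ E} (hφ : Norming φ x) :
    (φ (qX S T i (K (qX S T j x)) - qX S T j (K (qX S T i x)))).re = 0 := by
  by_cases hx0 : x = 0
  · subst hx0
    simp only [map_zero, sub_zero, Complex.zero_re]
  have h01 := frame_zero_one hS hT h h' hK hx hφ
  have h02 := frame_zero_two hN htr hS hT h h' hK hx0 hx hφ
  have h12 : (φ (qX S T 1 (K (qX S T 2 x)) - qX S T 2 (K (qX S T 1 x)))).re = 0 := by
    have hx' : x ∈ XX T S := by rw [← XX_symm]; exact hx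
    have h3 := frame_zero_two hN htr hT hS h' h hK hx0 hx' hφ
    have e0 : qX T S 0 = qX S T 1 := rfl
    have e2 : qX T S 2 = qX S T 2 := by
      change (1 - T * T - S * S : E →L[ℂ] E) = 1 - S * S - T * T
      abel
    rw [e0, e2] at h3
    exact h3
  have hneg : ∀ a b : E, (φ (a - b)).re = 0 → (φ (b - a)).re = 0 := by
    intro a b hab
    rw [← neg_sub, map_neg, Complex.neg_re, hab, neg_zero]
  fin_cases i <;> fin_cases j
  · exact absurd rfl hij
  · exact h01
  · exact h02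
  · exact hneg _ _ h01
  · exact absurd rfl hij
  · exact h12
  · exact hneg _ _ h02
  · exact hneg _ _ h12
  · exact absurd rfl hij

end Pool.Agent.Helper61.HP
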