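import Pool.Agent.Helper61.HO.Defs
import Pool.Agent.Helper61.HP.SkewConj

/-!
# HO-41  Closed subspaces of nice spaces, restricted operators

PROOFS. `Nice.sub`. `refl`: let `F` be in the bidual of `X`; `F'(φ) = F (φ.comp X.subtypeL)` is in the bidual of `E`, so
`F' φ = φ x` for some `x ∈ E`. If `x ∉ X`, by Hahn-Banach (`Submodule.exists_dual_map_eq_bot`-like, or
`geometric_hahn_banach`; `X` closed) there is `φ` with `φ = 0` on `X`, `φ x ≠ 0`, but `F' φ = F 0 = 0`. So `x ∈ X`; every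
`ψ` in the dual of `X` is the restriction of some `φ` (`exists_extension_norm_eq`), so `F ψ = F' φ = φ x = ψ x`. `smooth`:
norming functionals `φ`, `ψ` of `x ∈ X` on `X` extend with the same norm to norming functionals on `E`, which are equal.
`rotund`: clear.
`skew_of_ext`: a norming functional `ψ` of `x ∈ X` on `X` extends to a norming functional `φ` of `x` on `E`, and
`ψ (T x) = φ (T x)`.
`skew_rs`, `herm_rs`: from `skew_of_ext`.
-/

set_option autoImplicit false

open Filter Topology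

namespace Pool.Agent.Helper61.HP

universe u

variable {E : Type u} [NormedAddCommGroup E] [NormedSpace ℂ E] {X : Submodule ℂ E}

/-- the restriction of an operator to an invariant subspace -/
noncomputable def rs (X : Submodule ℂ E) (D : E →L[ℂ] E) (h : ∀ x ∈ X, D x ∈ X) : X →L[ℂ] X :=
  (D.comp X.subtypeL).codRestrict X (fun x => h x x.2)

theorem rs_apply (D : E →L[ℂ] E) (h : ∀ x ∈ X, D x ∈ X) (x : X) :
    ((rs X D h x : X) : E) = D (x : E) := rfl

private theorem sub_sep (hX : IsClosed (X : Set E)) {x : E} (hx : x ∉ X) :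
    ∃ f : StrongDual ℂ E, (∀ a ∈ X, f a = 0) ∧ f x ≠ 0 := by
  obtain ⟨f, u, h1, h2⟩ := RCLike.geometric_hahn_banach_closed_point (𝕜 := ℂ)
    (s := (X : Set E)) (x := x)
    ((X.restrictScalars ℝ).convex) hX hx
  have hu : 0 < u := by
    have h3 := h1 0 X.zero_mem
    rwa [map_zero, map_zero] at h3
  have hre : ∀ a ∈ X, RCLike.re (f a) = 0 := by
    intro a ha
    by_contra h0
    have h3 := h1 (((u / RCLike.re (f a) : ℝ) : ℂ) • a) (X.smul_mem _ ha)
    rw [map_smul, smul_eq_mul] at h3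
    have h4 : RCLike.re ((((u / RCLike.re (f a) : ℝ) : ℂ)) * f a) = u := by
      have h5 : RCLike.re ((((u / RCLike.re (f a) : ℝ) : ℂ)) * f a) =
          (u / RCLike.re (f a)) * RCLike.re (f a) := by
        exact Complex.re_ofReal_mul _ _
      rw [h5, div_mul_cancel₀ _ h0]
    rw [h4] at h3
    exact lt_irrefl _ h3
  refine ⟨f, fun a ha => ?_, fun h0 => ?_⟩
  · have h3 : (f a).re = 0 := hre a ha
    have h4 : (f (Complex.I • a)).re = 0 := hre _ (X.smul_mem _ ha)
    rw [map_smul, smul_eq_mul, Complex.I_mul_re, neg_eq_zero] at h4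
    exact Complex.ext h3 h4
  · rw [h0, map_zero] at h2
    exact lt_asymm hu h2

private theorem norming_ext {x : X} {ψ : StrongDual ℂ X} (h : Norming ψ x) :
    ∃ φ : StrongDual ℂ E, (∀ y : X, φ y = ψ y) ∧ Norming φ (x : E) := by
  obtain ⟨g, hg, hgn⟩ := exists_extension_norm_eq X ψ
  refine ⟨g, hg, by rw [hgn]; exact h.1, ?_⟩
  rw [hg, h.2]
  rfl

theorem Nice.sub (hN : Nice E) (hX : IsClosed (X : Set E)) : Nice X := by
  refine ⟨fun F => ?_, fun x hx φ ψ hφ hψ => ?_, fun x y hx hy hxy => ?_⟩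
  · obtain ⟨x, hx⟩ := hN.refl (F.comp ((ContinuousLinearMap.compL ℂ X E ℂ).flip X.subtypeL))
    have hx' : ∀ φ : StrongDual ℂ E, F (φ.comp X.subtypeL) = φ x := hx
    have hxX : x ∈ X := by
      by_contra hcon
      obtain ⟨f, hf, hfx⟩ := sub_sep hX hcon
      have h1 : f.comp X.subtypeL = 0 := by
        ext y
        exact hf y y.2
      have h2 := hx' f
      rw [h1, map_zero] at h2
      exact hfx h2.symm
    refine ⟨⟨x, hxX⟩, fun ψ => ?_⟩
    obtain ⟨g, hg, _⟩ := exists_extension_norm_eq X ψ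
    have h1 : g.comp X.subtypeL = ψ := by
      ext y
      exact hg y
    rw [← h1, hx']
    rfl
  · obtain ⟨g, hg, hg'⟩ := norming_ext hφ
    obtain ⟨k, hk, hk'⟩ := norming_ext hψ
    have h1 : (x : E) ≠ 0 := fun h0 => hx (Subtype.ext h0)
    have h2 := hN.smooth _ h1 g k hg' hk'
    ext y
    rw [← hg, ← hk, h2]
  · exact Subtype.ext (hN.rotund _ _ hx hy hxy)

theorem skew_of_ext (T : X →L[ℂ] X)
    (h : ∀ (x : X) (φ : StrongDual ℂ E), Norming φ (x : E) → (φ ((T x : X) : E)).re = 0) :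
    Skew T := by
  intro x ψ hψ
  obtain ⟨φ, hφ, hφ'⟩ := norming_ext hψ
  rw [← hφ]
  exact h x φ hφ'

theorem skew_rs {D : E →L[ℂ] E} (hD : Skew D) (h : ∀ x ∈ X, D x ∈ X) : Skew (rs X D h) :=
  skew_of_ext _ fun x φ hφ => by
    rw [rs_apply]
    exact hD _ φ hφ

theorem herm_rs {D : E →L[ℂ] E} (hD : Herm D) (h : ∀ x ∈ X, D x ∈ X) : Herm (rs X D h) :=
  skew_of_ext _ fun _ φ hφ => hD _ φ hφ

end Pool.Agent.Helper61.HP
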