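import Pool.Agent.Helper61.HO.FrameSkew
import Pool.Agent.Helper61.HO.SubNice
import Pool.Agent.Helper61.HP.FramePar

/-!
# HO-45  The full frame on `X` and the parallelogram law

PROOF of `frame_X`. `X = XX S T` with the operators `Q i = rs X (qX S T i)` (invariance: `qX_mem`). `HProj (Q i)`: idempotent
(`qX_idem`); `Q 0` is the restriction of `S` (`qX_zero`), so hermitian (`herm_rs`), `Q 1` that of `T`, `Q 2 = 1 - Q 0 - Q 1`
(`qX_sum`), hermitian (`Herm.sub`, `Herm.one`). `Frame` with `P = 0`: `Herm.zero`; products `Q i Q j = 0` for `i ≠ j`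
(`qX_orth`); sum `= 1 = 1 + 0`. `ne`: the three given vectors. `dense i j`: let `a ∈ Bl 0 Q j` nonzero, `b ∈ Bl 0 Q i`: `q j a = a`,
`q i b = b`. There is a hermitian `A` on `E` with `A a = 0` and `A u = b` for some `u`: `i = 0`: `A = S`, `u = b` (`S a = q 0 a = 0`,
`S b = b`); `i = 1`: `A = T`; `i = 2`: `j = 0`: `A = S - 1`, `u = - b` (`S b = 0`), `j = 1`: `A = T - 1`. `dense_herm`: `K` hermitian,
`‖K a - b‖ < ε / (‖q i‖ + 1)`. `D = rs X (q i K q j - q j K q i)` (values in `X` by `qX_mem`) is skew (`skew_of_ext`, `frame_skew`), and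
in `Lk 0 Q i j`: `Q i D + D Q i = D`, `Q j D + D Q j = D`, so `(2 Q i - 1) D = - D (2 Q i - 1)` etc.; for `k ≠ i, j`: `Q k D = 0 = D Q k`;
`P = 0` commutes. `D a = q i K a` (`q i a = q i q j a = 0`), `‖D a - b‖ = ‖q i (K a - b)‖ < ε`.

PROOF of `par_X0`. `FullFrame.par` on the Banach space `X` (`Nice.sub`, `XX_closed`; complete as a closed subspace), `P = 0`, for the
elements `⟨x, _⟩`, `⟨y, _⟩` of `X`.
-/

set_option autoImplicit false

open Filter Topology

namespace Pool.Agent.Helper61.HP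

universe u

variable {E : Type u} [NormedAddCommGroup E] [NormedSpace ℂ E] [CompleteSpace E]
  [TopologicalSpace.SeparableSpace E] {S T : E →L[ℂ] E}

private theorem x_of_S (h' : T * S = 0) {x : E} (hx : S x = x) : x ∈ XX S T := by
  have e : T x = 0 := by
    rw [← hx]
    exact congrArg (fun A : E →L[ℂ] E => A x) h'
  exact ⟨by rw [hx, hx], by rw [e, map_zero]⟩

private theorem x_of_T (h : S * T = 0) {x : E} (hx : T x = x) : x ∈ XX S T := by
  have e : S x = 0 := by
    rw [← hx]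
    exact congrArg (fun A : E →L[ℂ] E => A x) h
  exact ⟨by rw [e, map_zero], by rw [hx, hx]⟩

private theorem x_of_zero {x : E} (hx : S x = 0) (hx' : T x = 0) : x ∈ XX S T :=
  ⟨by rw [hx, map_zero], by rw [hx', map_zero]⟩

private theorem q_q (hS : Cub S) (hT : Cub T) (h : S * T = 0) (h' : T * S = 0) {i j : Fin 3}
    (hij : i ≠ j) (x : E) : qX S T i (qX S T j x) = 0 :=
  congrArg (fun A : E →L[ℂ] E => A x) (qX_orth hS hT h h' hij)

private theorem q_i (hS : Cub S) (hT : Cub T) (h : S * T = 0) (h' : T * S = 0) (i : Fin 3)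
    (x : E) : qX S T i (qX S T i x) = qX S T i x :=
  congrArg (fun A : E →L[ℂ] E => A x) (qX_idem hS hT h h' i)

private theorem exists_A (hS : Cub S) (hT : Cub T) (h : S * T = 0) (h' : T * S = 0)
    {i j : Fin 3} (hij : i ≠ j) {a b : E} (ha : a ∈ XX S T) (hb : b ∈ XX S T)
    (haj : qX S T j a = a) (hbi : qX S T i b = b) :
    ∃ (A : E →L[ℂ] E) (u : E), Herm A ∧ A a = 0 ∧ A u = b := by
  have hai : qX S T i a = 0 := by rw [← haj, q_q hS hT h h' hij]
  have hbj : qX S T j b = 0 := by rw [← hbi, q_q hS hT h h' hij.symm]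
  fin_cases i
  · refine ⟨S, b, hS.herm, ?_, ?_⟩
    · rw [← qX_zero ha]
      exact hai
    · rw [← qX_zero hb]
      exact hbi
  · refine ⟨T, b, hT.herm, ?_, ?_⟩
    · rw [← qX_one ha]
      exact hai
    · rw [← qX_one hb]
      exact hbi
  · fin_cases j
    · refine ⟨S - 1, -b, hS.herm.sub Herm.one, ?_, ?_⟩
      · have e : (S - 1) a = S a - a := rfl
        rw [e, ← qX_zero ha]
        exact sub_eq_zero.2 haj
      · have e : (S - 1) (-b) = S (-b) - (-b) := rfl
        have e2 : S b = 0 := by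
          rw [← qX_zero hb]
          exact hbj
        rw [e, map_neg, e2, neg_zero, zero_sub, neg_neg]
    · refine ⟨T - 1, -b, hT.herm.sub Herm.one, ?_, ?_⟩
      · have e : (T - 1) a = T a - a := rfl
        rw [e, ← qX_one ha]
        exact sub_eq_zero.2 haj
      · have e : (T - 1) (-b) = T (-b) - (-b) := rfl
        have e2 : T b = 0 := by
          rw [← qX_one hb]
          exact hbj
        rw [e, map_neg, e2, neg_zero, zero_sub, neg_neg]
    · exact absurd rfl hij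

private theorem anti_of {R : Type u} [Ring R] {Q D : R} (h : Q * D + D * Q = D) :
    (2 * Q - 1) * D = -(D * (2 * Q - 1)) := by
  rw [eq_neg_iff_add_eq_zero]
  have e : (2 * Q - 1) * D + D * (2 * Q - 1) = 2 * (Q * D + D * Q) - 2 * D := by
    noncomm_ring
  rw [e, h, sub_self]

private theorem comm_of {R : Type u} [Ring R] {Q D : R} (h : Q * D = 0) (h' : D * Q = 0) :
    (2 * Q - 1) * D = D * (2 * Q - 1) := by
  have e : (2 * Q - 1) * D - D * (2 * Q - 1) = 2 * (Q * D) - 2 * (D * Q) := by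
    noncomm_ring
  rw [← sub_eq_zero, e, h, h']
  simp

theorem frame_X (hN : Nice E) (htr : Transitive E) (hS : Cub S) (hT : Cub T)
    (h : S * T = 0) (h' : T * S = 0) (h1 : ∃ x, x ≠ 0 ∧ S x = x) (h2 : ∃ x, x ≠ 0 ∧ T x = x)
    (h3 : ∃ x, x ≠ 0 ∧ S x = 0 ∧ T x = 0) :
    FullFrame (0 : XX S T →L[ℂ] XX S T)
      (fun i => rs (XX S T) (qX S T i) (fun x _ => qX_mem hS hT h h' i x)) := by
  set Q : Fin 3 → (XX S T →L[ℂ] XX S T) :=
    fun i => rs (XX S T) (qX S T i) (fun x _ => qX_mem hS hT h h' i x) with hQ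
  have hQa : ∀ (i : Fin 3) (x : XX S T), ((Q i x : XX S T) : E) = qX S T i (x : E) := fun i x =>
    rs_apply _ _ x
  have hQQ : ∀ i j, i ≠ j → Q i * Q j = 0 := by
    intro i j hij
    ext x
    change ((Q i (Q j x) : XX S T) : E) = 0
    rw [hQa, hQa, q_q hS hT h h' hij]
  have hQi : ∀ i, Q i * Q i = Q i := by
    intro i
    ext x
    change ((Q i (Q i x) : XX S T) : E) = _
    rw [hQa, hQa, q_i hS hT h h']
  have hsum : Q 0 + Q 1 + Q 2 = 1 := by
    ext x
    change ((Q 0 x : XX S T) : E) + ((Q 1 x : XX S T) : E) + ((Q 2 x : XX S T) : E) = x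
    rw [hQa, hQa, hQa, qX_sum x.2]
  have hSX : ∀ x ∈ XX S T, S x ∈ XX S T := fun x hx => by
    rw [← qX_zero hx]
    exact qX_mem hS hT h h' 0 x
  have hTX : ∀ x ∈ XX S T, T x ∈ XX S T := fun x hx => by
    rw [← qX_one hx]
    exact qX_mem hS hT h h' 1 x
  have hQ0 : Herm (Q 0) := by
    have e : Q 0 = rs (XX S T) S hSX := by
      ext x
      rw [hQa, rs_apply, qX_zero x.2]
    rw [e]
    exact herm_rs hS.herm hSX
  have hQ1 : Herm (Q 1) := by
    have e : Q 1 = rs (XX S T) T hTX := by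
      ext x
      rw [hQa, rs_apply, qX_one x.2]
    rw [e]
    exact herm_rs hT.herm hTX
  have hQ2 : Herm (Q 2) := by
    have e : Q 2 = 1 - Q 0 - Q 1 := by
      rw [← hsum]
      abel
    rw [e]
    exact (Herm.one.sub hQ0).sub hQ1
  have hproj : ∀ i, HProj (Q i) := by
    intro i
    refine ⟨hQi i, ?_⟩
    fin_cases i
    · exact hQ0
    · exact hQ1
    · exact hQ2
  have hframe : Frame (0 : XX S T →L[ℂ] XX S T) Q := by
    refine ⟨⟨by rw [mul_zero], Herm.zero⟩, hproj, fun i => by rw [zero_mul, mul_zero], ?_, ?_, ?_, ?_⟩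
    · intro i j
      by_cases hij : i = j
      · rw [hij]
      · rw [hQQ i j hij, hQQ j i (Ne.symm hij)]
    · rw [hsum, add_zero]
    · intro i j hij
      rw [hQQ i j hij, zero_mul]
    · intro i j _
      rw [mul_zero]
  refine ⟨hframe, ?_, ?_⟩
  · intro i
    fin_cases i
    · obtain ⟨x, hx0, hx⟩ := h1
      refine ⟨⟨x, x_of_S h' hx⟩, ⟨rfl, ?_⟩, fun hc => hx0 (congrArg Subtype.val hc)⟩
      refine Subtype.ext ?_
      change ((Q 0 ⟨x, x_of_S h' hx⟩ : XX S T) : E) = x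
      rw [hQa]
      change qX S T 0 x = x
      rw [qX_zero (x_of_S h' hx), hx]
    · obtain ⟨x, hx0, hx⟩ := h2
      refine ⟨⟨x, x_of_T h hx⟩, ⟨rfl, ?_⟩, fun hc => hx0 (congrArg Subtype.val hc)⟩
      refine Subtype.ext ?_
      change ((Q 1 ⟨x, x_of_T h hx⟩ : XX S T) : E) = x
      rw [hQa]
      change qX S T 1 x = x
      rw [qX_one (x_of_T h hx), hx]
    · obtain ⟨x, hx0, hx, hx'⟩ := h3
      refine ⟨⟨x, x_of_zero hx hx'⟩, ⟨rfl, ?_⟩, fun hc => hx0 (congrArg Subtype.val hc)⟩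
      refine Subtype.ext ?_
      change ((Q 2 ⟨x, x_of_zero hx hx'⟩ : XX S T) : E) = x
      rw [hQa]
      change x - S (S x) - T (T x) = x
      rw [hx, hx', map_zero, map_zero, sub_zero, sub_zero]
  · intro i j hij a ha ha0 b hb ε hε
    have haj : qX S T j (a : E) = a := by
      rw [← hQa]
      exact congrArg Subtype.val ha.2
    have hbi : qX S T i (b : E) = b := by
      rw [← hQa]
      exact congrArg Subtype.val hb.2
    have hai : qX S T i (a : E) = 0 := by rw [← haj, q_q hS hT h h' hij]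
    obtain ⟨A, u, hA, hAa, hAu⟩ := exists_A hS hT h h' hij a.2 b.2 haj hbi
    have ha0' : (a : E) ≠ 0 := fun hc => ha0 (Subtype.ext hc)
    have hpos : 0 < ‖qX S T i‖ + 1 := by positivity
    obtain ⟨K, hK, hKn⟩ := dense_herm htr hA hAa ha0' u (ε := ε / (‖qX S T i‖ + 1))
      (div_pos hε hpos)
    rw [hAu] at hKn
    have hDX : ∀ x ∈ XX S T, (qX S T i * K * qX S T j - qX S T j * K * qX S T i) x ∈ XX S T :=
      fun x _ => (XX S T).sub_mem (qX_mem hS hT h h' i _) (qX_mem hS hT h h' j _)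
    obtain ⟨D, hD⟩ : ∃ D : XX S T →L[ℂ] XX S T, ∀ x : XX S T, ((D x : XX S T) : E) =
        qX S T i (K (qX S T j x)) - qX S T j (K (qX S T i x)) :=
      ⟨rs (XX S T) _ hDX, fun x => rs_apply _ _ x⟩
    have hi : Q i * D + D * Q i = D := by
      ext x
      change ((Q i (D x) : XX S T) : E) + ((D (Q i x) : XX S T) : E) = ((D x : XX S T) : E)
      rw [hQa, hD, hD, hQa, map_sub, q_i hS hT h h', q_q hS hT h h' hij,
        q_i hS hT h h', q_q hS hT h h' hij.symm, map_zero, map_zero]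
      abel
    have hj : Q j * D + D * Q j = D := by
      ext x
      change ((Q j (D x) : XX S T) : E) + ((D (Q j x) : XX S T) : E) = ((D x : XX S T) : E)
      rw [hQa, hD, hD, hQa, map_sub, q_i hS hT h h', q_q hS hT h h' hij.symm,
        q_i hS hT h h', q_q hS hT h h' hij, map_zero, map_zero]
      abel
    refine ⟨D, ⟨?_, by rw [zero_mul, mul_zero], anti_of hi, anti_of hj, ?_⟩, ?_⟩
    · refine skew_of_ext D fun x φ hφ => ?_
      rw [hD]
      exact frame_skew hN htr hS hT h h' hK hij x.2 hφ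
    · intro k hki hkj
      refine comm_of ?_ ?_
      · ext x
        change ((Q k (D x) : XX S T) : E) = 0
        rw [hQa, hD, map_sub, q_q hS hT h h' hki, q_q hS hT h h' hkj, sub_zero]
      · ext x
        change ((D (Q k x) : XX S T) : E) = 0
        rw [hD, hQa, q_q hS hT h h' hki.symm, q_q hS hT h h' hkj.symm, map_zero, map_zero,
          map_zero, sub_zero]
    · have e1 : ((D a : XX S T) : E) - (b : E) = qX S T i (K (a : E) - b) := by
        rw [hD, haj, hai, map_zero, map_zero, sub_zero, map_sub, hbi]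
      change ‖((D a : XX S T) : E) - (b : E)‖ < ε
      rw [e1]
      calc ‖qX S T i (K (a : E) - b)‖ ≤ ‖qX S T i‖ * ‖K (a : E) - b‖ := (qX S T i).le_opNorm _
        _ ≤ (‖qX S T i‖ + 1) * ‖K (a : E) - b‖ := by
          apply mul_le_mul_of_nonneg_right _ (norm_nonneg _)
          linarith
        _ < (‖qX S T i‖ + 1) * (ε / (‖qX S T i‖ + 1)) := mul_lt_mul_of_pos_left hKn hpos
        _ = ε := mul_div_cancel₀ _ hpos.ne'

theorem par_X0 (hN : Nice E) (htr : Transitive E) (hS : Cub S) (hT : Cub T)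
    (h : S * T = 0) (h' : T * S = 0) (h1 : ∃ x, x ≠ 0 ∧ S x = x) (h2 : ∃ x, x ≠ 0 ∧ T x = x)
    (h3 : ∃ x, x ≠ 0 ∧ S x = 0 ∧ T x = 0) {x y : E} (hx : S x = 0) (hx' : T x = 0)
    (hy : S y = 0) (hy' : T y = 0) : ‖x + y‖ ^ 2 + ‖x - y‖ ^ 2 = 2 * (‖x‖ ^ 2 + ‖y‖ ^ 2) := by
  have hcl := XX_closed S T
  have : CompleteSpace (XX S T) := hcl.completeSpace_coe
  exact FullFrame.par (hN.sub hcl) (frame_X hN htr hS hT h h' h1 h2 h3)
    (x := ⟨x, x_of_zero hx hx'⟩) (y := ⟨y, x_of_zero hy hy'⟩) rfl rfl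

end Pool.Agent.Helper61.HP
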