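import Pool.Agent.Helper61.HO.SpInApi

/-!
# HO-05  `A` is nearly scalar on small spectral subspaces

PROOF of `exists_spec_const`. Let `χ` be a cutoff, `χ = 1` on `[-1 - δ, 1 + δ]` with `δ = 1`, `g x = x χ x`,
`C = 1 + ∫ ‖𝓕 g‖`. Let `SpIn A (s - r) (s + r) y`, and first `r > 0`. Put `χ_r x = χ ((x - s) / r)`; it is `1` near
`[s - r, s + r]`, so `Phi χ_r y = y` (`Phi_eq_self`), and `(A - s) y = Phi ((x - s) χ_r) y` (`Phi_id_mul`, `Phi_smul`),
`(x - s) χ_r x = r g ((x - s) / r)`, whose Fourier transform has `L¹` norm `r ∫ ‖𝓕 g‖`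
(`integral_norm_fourier_affine`). For `r = 0` use all `r' > 0` (`mono`).
`eq_zero_of_SpIn_zero`: `s = 0`, `r = 0`.
`scalar_of_SpIn`: `α = β = s`: `A y = s y`.
-/

set_option autoImplicit false

open Filter Topology MeasureTheory
open scoped FourierTransform

namespace Pool.Agent.Helper61.HP

universe u

theorem exists_spec_const : ∃ C : ℝ, 0 < C ∧ ∀ (E : Type u) [NormedAddCommGroup E]
    [NormedSpace ℂ E] [CompleteSpace E] (A : E →L[ℂ] E) (s r : ℝ) (y : E), Herm A → 0 ≤ r →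
    SpIn A (s - r) (s + r) y → ‖A y - (s : ℂ) • y‖ ≤ C * r * ‖y‖ := by
  obtain ⟨χ, -, -, hχ, -, -, hχ1, -, -⟩ := exists_cutoff (-1) 1 (δ := 1) one_pos
  have hG : Test (fun x : ℝ => (x : ℂ) * (χ x : ℂ)) := hχ.id_mul
  set I : ℝ := ∫ ξ : ℝ, ‖𝓕 (fun x : ℝ => (x : ℂ) * (χ x : ℂ)) ξ‖ with hI
  have hI0 : 0 ≤ I := integral_nonneg fun ξ => norm_nonneg _
  refine ⟨1 + I, by linarith, ?_⟩
  intro E _ _ _ A s r y hA hr hy
  have key : ∀ r : ℝ, 0 < r → SpIn A (s - r) (s + r) y →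
      ‖A y - (s : ℂ) • y‖ ≤ (1 + I) * r * ‖y‖ := by
    intro r hr hy
    have ha : r⁻¹ ≠ 0 := inv_ne_zero hr.ne'
    have hf : Test (fun x : ℝ => (χ (r⁻¹ * x + -(s * r⁻¹)) : ℂ)) := hχ.comp_affine ha _
    have hGa : Test (fun x : ℝ => ((r⁻¹ * x + -(s * r⁻¹) : ℝ) : ℂ) *
        (χ (r⁻¹ * x + -(s * r⁻¹)) : ℂ)) := hG.comp_affine ha _
    have hfy := Phi_eq_self hA hy hf (by
      intro x hx
      have hcont : Continuous fun z : ℝ => r⁻¹ * z + -(s * r⁻¹) := by fun_prop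
      have h1 : r⁻¹ * x + -(s * r⁻¹) ∈ Set.Ioo (-2 : ℝ) 2 := by
        have e : r⁻¹ * x + -(s * r⁻¹) = (x - s) / r := by
          rw [div_eq_mul_inv]
          ring
        rw [e]
        constructor
        · rw [lt_div_iff₀ hr]
          linarith [hx.1]
        · rw [div_lt_iff₀ hr]
          linarith [hx.2]
      filter_upwards [hcont.continuousAt.preimage_mem_nhds (isOpen_Ioo.mem_nhds h1)] with z hz
      have hz' : r⁻¹ * z + -(s * r⁻¹) ∈ Set.Ioo (-2 : ℝ) 2 := hz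
      rw [hχ1 _ (by linarith [hz'.1]) (by linarith [hz'.2])]
      norm_num)
    have hid := Phi_id_mul hA hf
    have hsm := Phi_smul hA hf (-(s : ℂ))
    have hadd := Phi_add hA hf.id_mul (hf.smul (-(s : ℂ)))
    rw [hid, hsm] at hadd
    have hfun : (fun x : ℝ => (x : ℂ) * (χ (r⁻¹ * x + -(s * r⁻¹)) : ℂ) +
        -(s : ℂ) * (χ (r⁻¹ * x + -(s * r⁻¹)) : ℂ)) =
        fun x : ℝ => (r : ℂ) * (((r⁻¹ * x + -(s * r⁻¹) : ℝ) : ℂ) *
          (χ (r⁻¹ * x + -(s * r⁻¹)) : ℂ)) := by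
      funext x
      have e : (r : ℂ) * ((r⁻¹ * x + -(s * r⁻¹) : ℝ) : ℂ) = (x : ℂ) - s := by
        have e1 : r * (r⁻¹ * x + -(s * r⁻¹)) = x - s := by
          field_simp
          ring
        rw [← Complex.ofReal_mul, e1]
        push_cast
        rfl
      rw [← mul_assoc, e]
      ring
    rw [hfun, Phi_smul hA hGa (r : ℂ)] at hadd
    have hval : A y - (s : ℂ) • y = ((r : ℂ) • Phi A (fun x : ℝ =>
        ((r⁻¹ * x + -(s * r⁻¹) : ℝ) : ℂ) * (χ (r⁻¹ * x + -(s * r⁻¹)) : ℂ))) y := by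
      rw [hadd]
      rw [ContinuousLinearMap.add_apply, ContinuousLinearMap.smul_apply,
        ContinuousLinearMap.mul_apply, hfy, neg_smul, sub_eq_add_neg]
    rw [hval]
    have hn := norm_Phi_le hA hGa
    have hint := hG.integral_norm_fourier_affine ha (-(s * r⁻¹))
    have hn' : ‖Phi A (fun x : ℝ =>
        ((r⁻¹ * x + -(s * r⁻¹) : ℝ) : ℂ) * (χ (r⁻¹ * x + -(s * r⁻¹)) : ℂ))‖ ≤ I := by
      refine hn.trans (le_of_eq ?_)
      rw [hI, ← hint]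
    calc ‖((r : ℂ) • Phi A (fun x : ℝ =>
          ((r⁻¹ * x + -(s * r⁻¹) : ℝ) : ℂ) * (χ (r⁻¹ * x + -(s * r⁻¹)) : ℂ))) y‖
        ≤ ‖(r : ℂ) • Phi A (fun x : ℝ =>
          ((r⁻¹ * x + -(s * r⁻¹) : ℝ) : ℂ) * (χ (r⁻¹ * x + -(s * r⁻¹)) : ℂ))‖ * ‖y‖ :=
          ContinuousLinearMap.le_opNorm _ _
      _ ≤ ((1 + I) * r) * ‖y‖ := by
          refine mul_le_mul_of_nonneg_right ?_ (norm_nonneg _)
          rw [norm_smul, Complex.norm_real, Real.norm_of_nonneg hr.le]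
          nlinarith [mul_le_mul_of_nonneg_left hn' hr.le]
  rcases hr.eq_or_lt with h0 | hpos
  · subst h0
    have hy' : ∀ ρ : ℝ, 0 < ρ → SpIn A (s - ρ) (s + ρ) y := fun ρ hρ =>
      hy.mono (by linarith) (by linarith)
    have hlim : Tendsto (fun ρ : ℝ => (1 + I) * ρ * ‖y‖) (𝓝[>] 0) (𝓝 ((1 + I) * 0 * ‖y‖)) := by
      have hc : Continuous fun ρ : ℝ => (1 + I) * ρ * ‖y‖ := by fun_prop
      exact (hc.tendsto 0).mono_left nhdsWithin_le_nhds
    refine ge_of_tendsto hlim ?_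
    filter_upwards [self_mem_nhdsWithin] with ρ hρ
    exact key ρ hρ (hy' ρ hρ)
  · exact key r hpos hy

variable {E : Type u} [NormedAddCommGroup E] [NormedSpace ℂ E] [CompleteSpace E]
  {A : E →L[ℂ] E} {y : E}

theorem scalar_of_SpIn (hA : Herm A) {s : ℝ} (h : SpIn A s s y) : A y = (s : ℂ) • y := by
  obtain ⟨C, -, hC⟩ := exists_spec_const.{u}
  have h1 := hC E A s 0 y hA le_rfl (by rw [sub_zero, add_zero]; exact h)
  rw [mul_zero, zero_mul] at h1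
  exact sub_eq_zero.1 (norm_le_zero_iff.1 h1)

theorem eq_zero_of_SpIn_zero (hA : Herm A) (h : SpIn A 0 0 y) : A y = 0 := by
  have h1 := scalar_of_SpIn hA h
  rw [h1]
  simp

end Pool.Agent.Helper61.HP
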