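import Pool.Agent.Helper61.HO.PrPhi
import Pool.Agent.Helper61.HO.SpNorm

/-!
# HO-12  Nearly extreme eigenvectors of `ad H`

PROOF. Let `c` be the infimum of the `c' ≥ 0` such that `SpIn (adL A) (-c') c' K` for all `K` with a star (`‖adL A‖` is such
a number, `of_norm`). The condition holds for `c` itself: `SpIn (adL A) (-c') c' K` for all `c' > c` gives it for `c` (a
test function vanishing near `[-c, c]` vanishes near `[-c', c']` for some `c' > c`, `Test.margin`). `c > 0`: if `c = 0`,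
then `adL A K = 0` for all `K` with a star (`eq_zero_of_SpIn_zero`), in particular `A B = B A`. Let `a = (1 - η) c < c`: there
is `K` with a star `L` and not `SpIn (adL A) (-a) a K`; `exists_part`: either there is `f` with
`K' = Phi (adL A) f K ≠ 0`, `SpIn (adL A) a c K'`: then `H = A` (`K'` has a star by `pr_phi`); or
`SpIn (adL A) (-c) (-a) K'`, then `H = -A` (`SpIn.neg`, `adL (-A) = -adL A`).
-/

set_option autoImplicit false

open Filter Topology

namespace Pool.Agent.Helper61.HP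

universe u

variable {E : Type u} [NormedAddCommGroup E] [NormedSpace ℂ E] [CompleteSpace E]
  {𝔥 : Set (E →L[ℂ] E)}

omit [CompleteSpace E] in
private lemma gap_adL_neg (A : E →L[ℂ] E) : adL (-A) = -adL A := by
  ext K x
  simp only [adL_apply, lie, neg_apply]
  simp
  abel

theorem exists_gap (hh : HLie 𝔥) {A B : E →L[ℂ] E} (hA : A ∈ 𝔥) (hB : B ∈ 𝔥) (hAB : A * B ≠ B * A)
    {η : ℝ} (hη : 0 < η) (hη1 : η < 1) :
    ∃ (H : E →L[ℂ] E) (c : ℝ), H ∈ 𝔥 ∧ 0 < c ∧ (∀ K L, Pr 𝔥 K L → SpIn (adL H) (-c) c K) ∧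
      ∃ K L, Pr 𝔥 K L ∧ K ≠ 0 ∧ SpIn (adL H) ((1 - η) * c) c K := by
  have hH : Herm (adL A) := herm_adL (hh.herm A hA)
  obtain ⟨S, hS⟩ : ∃ S : Set ℝ, S = {c' : ℝ | 0 ≤ c' ∧
    ∀ K L, Pr 𝔥 K L → SpIn (adL A) (-c') c' K} := ⟨_, rfl⟩
  have hSne : S.Nonempty := by
    refine ⟨‖adL A‖, ?_⟩
    rw [hS]
    exact ⟨ContinuousLinearMap.opNorm_nonneg _, fun K L _ => SpIn.of_norm hH le_rfl K⟩
  have hSbd : BddBelow S := by
    refine ⟨0, fun x hx => ?_⟩
    rw [hS] at hx
    exact hx.1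
  obtain ⟨c, hc⟩ : ∃ c, c = sInf S := ⟨_, rfl⟩
  have hc0 : 0 ≤ c := by
    rw [hc]
    refine le_csInf hSne fun x hx => ?_
    rw [hS] at hx
    exact hx.1
  have hcS : ∀ K L, Pr 𝔥 K L → SpIn (adL A) (-c) c K := by
    intro K L hKL f hf hv
    obtain ⟨δ, hδ, hfδ⟩ := Test.margin hv (by linarith)
    obtain ⟨c', hc'S, hc'⟩ := exists_lt_of_csInf_lt hSne (show sInf S < c + δ by rw [← hc]; linarith)
    rw [hS] at hc'S
    refine hc'S.2 K L hKL f hf ?_
    intro x hx
    have h1 : -c - δ < x := by linarith [hx.1]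
    have h2 : x < c + δ := by linarith [hx.2]
    filter_upwards [lt_mem_nhds h1, gt_mem_nhds h2] with y hy1 hy2
    exact hfδ y hy1.le hy2.le
  have hcpos : 0 < c := by
    rcases hc0.lt_or_eq with h | h
    · exact h
    · exfalso
      have h1 := hcS B B (Pr.of_mem hh hB)
      rw [← h, neg_zero] at h1
      have h2 := eq_zero_of_SpIn_zero hH h1
      rw [adL_apply] at h2
      exact hAB (sub_eq_zero.1 h2)
  have ha0 : 0 ≤ (1 - η) * c := mul_nonneg (by linarith) hc0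
  have hac : (1 - η) * c < c := by nlinarith
  have hna : ∃ K L, Pr 𝔥 K L ∧ ¬ SpIn (adL A) (-((1 - η) * c)) ((1 - η) * c) K := by
    by_contra hcon
    push Not at hcon
    have h1 : (1 - η) * c ∈ S := by
      rw [hS]
      exact ⟨ha0, fun K L hKL => hcon K L hKL⟩
    have h2 := csInf_le hSbd h1
    rw [← hc] at h2
    linarith
  obtain ⟨K, L, hKL, hn⟩ := hna
  rcases exists_part hH ha0 (hcS K L hKL) hn with ⟨f, hf, hne, hsp⟩ | ⟨f, hf, hne, hsp⟩
  · exact ⟨A, c, hA, hcpos, hcS, _, _, pr_phi hh hA hKL hf, hne, hsp⟩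
  · refine ⟨-A, c, hh.neg hA, hcpos, ?_, _, _, pr_phi hh hA hKL hf, hne, ?_⟩
    · intro K1 L1 h1
      have h2 := (hcS K1 L1 h1).neg
      rw [neg_neg, ← gap_adL_neg] at h2
      exact h2
    · have h2 := hsp.neg
      rw [neg_neg, neg_neg, ← gap_adL_neg] at h2
      exact h2

end Pool.Agent.Helper61.HP
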