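import Pool.Agent.Helper61.HO.SpInApi

/-!
# HO-06  Spectral subspaces and growth

PROOF of `SpIn.growth`. Let `δ = (r' - r) / 4`, `χ` the cutoff with `χ = 1` on `[s - r - δ, s + r + δ]`, `χ = 0` for
`|x - s| ≥ r + 2 δ =: ρ < r'`. `Phi χ y = y` (`Phi_eq_self`), so `(A - s)^n y = Phi ((x - s)^n χ) y` (induction,
`Phi_id_mul`). `f_n x = (x - s)^n χ x` vanishes for `|x - s| > ρ` and
`‖f_n‖ + ‖f_n''‖ ≤ C₀ (n + 1)^2 max(1, ρ)^2 ρ^(n - 2)`-type bound; to avoid `ρ^(n-2)` note that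
`|(x - s)^(n-2)| ≤ ρ^(n-2) = ρ^n / ρ^2` (`ρ > 0`). So `∫ ‖𝓕 f_n‖ ≤ C₁ (n + 1)^2 ρ^n ≤ C r'^n` (translate to `s = 0` with
`integral_norm_fourier_affine`, then `integral_norm_fourier_le`).

PROOF of `SpIn.of_growth`. Let `f` vanish near `[s - r, s + r]`; by `Test.margin` it vanishes for `|x - s| ≤ ρ`, `ρ > r`.
Let `r < r' < ρ`. `f_n x = f x / (x - s)^n` is a test function (`Test.div_sub`), `Phi f = Phi f_n (A - s)^n`
(`Phi_id_mul`, `Phi_comm`), `∫ ‖𝓕 f_n‖ ≤ C₁ (n + 1)^2 ρ^(-n)` (on the support `|x - s| ≥ ρ`; the support is bounded), and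
`‖(A - s)^n y‖ ≤ C r'^n`. Let `n → ∞`.
-/

set_option autoImplicit false

open Filter Topology MeasureTheory
open scoped FourierTransform

namespace Pool.Agent.Helper61.HP

universe u

variable {E : Type u} [NormedAddCommGroup E] [NormedSpace ℂ E] [CompleteSpace E]
  {A : E →L[ℂ] E} {y : E}

/-- derivative of `f / x ^ n` -/
private theorem grw_hasDerivAt_div_pow {h h' : ℝ → ℂ} {ρ : ℝ} (hρ : 0 < ρ)
    (hd : ∀ x, HasDerivAt h (h' x) x) (h0 : ∀ x, |x| < ρ → h x = 0)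
    (h0' : ∀ x, |x| < ρ → h' x = 0) (n : ℕ) (x : ℝ) :
    HasDerivAt (fun x : ℝ => h x / (x : ℂ) ^ n)
      (h' x / (x : ℂ) ^ n - n * (h x / (x : ℂ) ^ (n + 1))) x := by
  by_cases hx : |x| < ρ
  · have e : (fun x : ℝ => h x / (x : ℂ) ^ n) =ᶠ[𝓝 x] fun _ => 0 := by
      have h2 : ∀ᶠ y in 𝓝 x, |y| < ρ :=
        continuous_abs.continuousAt.eventually_lt continuousAt_const hx
      filter_upwards [h2] with y hy
      rw [h0 y hy, zero_div]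
    rw [h0 x hx, h0' x hx, zero_div, zero_div, mul_zero, sub_zero]
    exact (hasDerivAt_const x (0 : ℂ)).congr_of_eventuallyEq e
  · have hx0 : (x : ℂ) ≠ 0 := by
      intro h1
      apply hx
      have h2 : x = 0 := by exact_mod_cast h1
      rw [h2, abs_zero]
      exact hρ
    have h1 : HasDerivAt (fun x : ℝ => (x : ℂ)) 1 x := Complex.ofRealCLM.hasDerivAt
    have h2 := h1.pow n
    have h3 := (hd x).div h2 (pow_ne_zero n hx0)
    refine h3.congr_deriv ?_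
    cases n with
    | zero => simp
    | succ n =>
      simp only [Nat.add_sub_cancel, mul_one, Pi.pow_apply]
      field_simp
      ring

private theorem grw_test_div_pow {f : ℝ → ℂ} (hf : Test f) {δ : ℝ} (hδ : 0 < δ)
    (h : ∀ x, |x| ≤ δ → f x = 0) (n : ℕ) : Test (fun x => f x / (x : ℂ) ^ n) := by
  induction n with
  | zero => simpa using hf
  | succ n ih =>
    have h1 := Test.div_sub ih (s := 0) hδ fun x hx => by
      rw [sub_zero] at hx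
      rw [h x hx, zero_div]
    refine (congrArg Test (funext fun x => ?_)).mp h1
    rw [Complex.ofReal_zero, sub_zero, pow_succ, div_div]

private theorem grw_norm_div_pow_le {h : ℝ → ℂ} {ρ K : ℝ} (hρ : 0 < ρ) (hK : 0 ≤ K)
    (h0 : ∀ x, |x| < ρ → h x = 0) (hb : ∀ x, ‖h x‖ ≤ K) (n : ℕ) (x : ℝ) :
    ‖h x / (x : ℂ) ^ n‖ ≤ K * ρ⁻¹ ^ n := by
  by_cases hx : |x| < ρ
  · rw [h0 x hx, zero_div, norm_zero]
    positivity
  · rw [norm_div, norm_pow, Complex.norm_real, Real.norm_eq_abs, div_eq_mul_inv, ← inv_pow]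
    have h1 : |x|⁻¹ ≤ ρ⁻¹ := inv_anti₀ hρ (not_lt.mp hx)
    have h2 : |x|⁻¹ ^ n ≤ ρ⁻¹ ^ n := pow_le_pow_left₀ (inv_nonneg.mpr (abs_nonneg x)) h1 n
    exact mul_le_mul (hb x) h2 (by positivity) hK


/-- multiplication by a power of `A - s` -/
private theorem grw_Phi_sub_mul (hA : Herm A) (s : ℝ) {f : ℝ → ℂ} (hf : Test f) :
    Phi A (fun x => ((x : ℂ) - (s : ℂ)) * f x) = (A - (s : ℂ) • (1 : E →L[ℂ] E)) * Phi A f := by
  have e : (fun x : ℝ => ((x : ℂ) - (s : ℂ)) * f x) =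
      fun x : ℝ => (x : ℂ) * f x + (-(s : ℂ)) * f x := by
    funext x
    ring
  rw [e, Phi_add hA hf.id_mul (hf.smul _), Phi_smul hA hf, Phi_id_mul hA hf, sub_mul, smul_mul_assoc,
    one_mul, neg_smul, sub_eq_add_neg]

private theorem grw_Phi_pow_mul (hA : Herm A) (s : ℝ) {f : ℝ → ℂ} (hf : Test f) (n : ℕ) :
    Phi A (fun x => ((x : ℂ) - (s : ℂ)) ^ n * f x) =
      (A - (s : ℂ) • (1 : E →L[ℂ] E)) ^ n * Phi A f := by
  induction n with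
  | zero => simp
  | succ n ih =>
    rw [pow_succ' (A - (s : ℂ) • (1 : E →L[ℂ] E)), mul_assoc, ← ih,
      ← grw_Phi_sub_mul hA s (hf.pow_mul s n)]
    congr 1
    funext x
    ring

private theorem grw_Phi_div_pow (hA : Herm A) (s : ℝ) {f : ℝ → ℂ} {g : ℝ → ℂ} (n : ℕ)
    (hg : Test g) (h : ∀ x : ℝ, f x = ((x : ℂ) - (s : ℂ)) ^ n * g x) :
    Phi A f = (A - (s : ℂ) • (1 : E →L[ℂ] E)) ^ n * Phi A g := by
  rw [← grw_Phi_pow_mul hA s hg n]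
  congr 1
  funext x
  exact h x

/-- common data for a test function -/
private theorem grw_data {f : ℝ → ℂ} (hf : Test f) :
    ∃ K R : ℝ, 0 ≤ K ∧ 0 ≤ R ∧ (∀ x, ‖f x‖ ≤ K) ∧ (∀ x, ‖deriv f x‖ ≤ K) ∧
      (∀ x, ‖deriv (deriv f) x‖ ≤ K) ∧ (∀ x, R < |x| → f x = 0) ∧
      (∀ x, HasDerivAt f (deriv f x) x) ∧ (∀ x, HasDerivAt (deriv f) (deriv (deriv f) x) x) := by
  have hder : ∀ g : ℝ → ℂ, Test g → Test (deriv g) := fun g hg =>
    ⟨(contDiff_infty_iff_deriv.1 hg.1).2, hg.2.deriv⟩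
  have hf1 : Test (deriv f) := hder f hf
  have hf2 : Test (deriv (deriv f)) := hder _ hf1
  obtain ⟨K0, hK0⟩ := hf.2.exists_bound_of_continuous hf.1.continuous
  obtain ⟨K1, hK1⟩ := hf1.2.exists_bound_of_continuous hf1.1.continuous
  obtain ⟨K2, hK2⟩ := hf2.2.exists_bound_of_continuous hf2.1.continuous
  obtain ⟨R, hR⟩ := hf.2.isCompact.isBounded.exists_norm_le
  refine ⟨max K0 (max K1 K2), max R 0, (norm_nonneg (f 0)).trans ((hK0 0).trans (le_max_left _ _)),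
    le_max_right _ _, fun x => (hK0 x).trans (le_max_left _ _),
    fun x => (hK1 x).trans ((le_max_left _ _).trans (le_max_right _ _)),
    fun x => (hK2 x).trans ((le_max_right _ _).trans (le_max_right _ _)), fun x hx => ?_,
    fun x => ((hf.1.differentiable (by simp)) x).hasDerivAt,
    fun x => ((hf1.1.differentiable (by simp)) x).hasDerivAt⟩
  by_contra hne
  have h1 := hR x (subset_tsupport f hne)
  rw [Real.norm_eq_abs] at h1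
  exact absurd (lt_of_le_of_lt (le_max_left R 0) hx) (not_lt.mpr h1)

/-- the Fourier norm of `f / x ^ n` -/
private theorem grw_div_bound {f : ℝ → ℂ} (hf : Test f) {ρ : ℝ} (hρ : 0 < ρ)
    (hf0 : ∀ x, |x| ≤ ρ → f x = 0) :
    ∃ C : ℝ, 0 ≤ C ∧ ∀ n : ℕ, ∫ ξ : ℝ, ‖𝓕 (fun x : ℝ => f x / (x : ℂ) ^ n) ξ‖ ≤
      C * (((n : ℝ) + 1) ^ 2 * ρ⁻¹ ^ n) := by
  obtain ⟨K, R, hKn, hR0, b0, b1, b2, hR, hd1, hd2⟩ := grw_data hf
  have v0 : ∀ x, |x| < ρ → f x = 0 := fun x hx => hf0 x hx.le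
  have ev : ∀ x : ℝ, |x| < ρ → ∀ᶠ z in 𝓝 x, |z| < ρ := fun x hx =>
    continuous_abs.continuousAt.eventually_lt continuousAt_const hx
  have v1 : ∀ x, |x| < ρ → deriv f x = 0 := by
    intro x hx
    have e : f =ᶠ[𝓝 x] fun _ => 0 := by
      filter_upwards [ev x hx] with z hz
      exact v0 z hz
    rw [e.deriv_eq, deriv_const]
  have v2 : ∀ x, |x| < ρ → deriv (deriv f) x = 0 := by
    intro x hx
    have e : deriv f =ᶠ[𝓝 x] fun _ => 0 := by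
      filter_upwards [ev x hx] with z hz
      exact v1 z hz
    rw [e.deriv_eq, deriv_const]
  refine ⟨R * (K * (2 + 2 * ρ⁻¹ + ρ⁻¹ ^ 2)), by positivity, fun n => ?_⟩
  have hTn := grw_test_div_pow hf hρ hf0 n
  have hder1 : deriv (fun x : ℝ => f x / (x : ℂ) ^ n) =
      fun x : ℝ => deriv f x / (x : ℂ) ^ n - n * (f x / (x : ℂ) ^ (n + 1)) :=
    funext fun x => (grw_hasDerivAt_div_pow hρ hd1 v0 v1 n x).deriv
  have hder2 : ∀ x : ℝ, deriv (deriv (fun x : ℝ => f x / (x : ℂ) ^ n)) x =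
      (deriv (deriv f) x / (x : ℂ) ^ n - n * (deriv f x / (x : ℂ) ^ (n + 1))) -
        n * (deriv f x / (x : ℂ) ^ (n + 1) -
          ((n + 1 : ℕ) : ℂ) * (f x / (x : ℂ) ^ (n + 1 + 1))) := by
    intro x
    rw [hder1]
    exact ((grw_hasDerivAt_div_pow hρ hd2 v1 v2 n x).sub
      ((grw_hasDerivAt_div_pow hρ hd1 v0 v1 (n + 1) x).const_mul (n : ℂ))).deriv
  have hbd : ∀ x : ℝ, ‖f x / (x : ℂ) ^ n‖ +
      ‖deriv (deriv (fun x : ℝ => f x / (x : ℂ) ^ n)) x‖ ≤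
        (K * (2 + 2 * ρ⁻¹ + ρ⁻¹ ^ 2)) * (((n : ℝ) + 1) ^ 2 * ρ⁻¹ ^ n) := by
    intro x
    rw [hder2]
    have c0 := grw_norm_div_pow_le hρ hKn v0 b0 n x
    have c1 := grw_norm_div_pow_le hρ hKn v1 b1 (n + 1) x
    have c2 := grw_norm_div_pow_le hρ hKn v2 b2 n x
    have c3 := grw_norm_div_pow_le hρ hKn v0 b0 (n + 1 + 1) x
    have t1 : ‖(deriv (deriv f) x / (x : ℂ) ^ n - n * (deriv f x / (x : ℂ) ^ (n + 1))) -
        n * (deriv f x / (x : ℂ) ^ (n + 1) -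
          ((n + 1 : ℕ) : ℂ) * (f x / (x : ℂ) ^ (n + 1 + 1)))‖ ≤
        (‖deriv (deriv f) x / (x : ℂ) ^ n‖ + n * ‖deriv f x / (x : ℂ) ^ (n + 1)‖) +
          n * (‖deriv f x / (x : ℂ) ^ (n + 1)‖ +
            ((n : ℝ) + 1) * ‖f x / (x : ℂ) ^ (n + 1 + 1)‖) := by
      refine (norm_sub_le _ _).trans (add_le_add ((norm_sub_le _ _).trans ?_) ?_)
      · rw [norm_mul, Complex.norm_natCast]
      · rw [norm_mul, Complex.norm_natCast]
        refine mul_le_mul_of_nonneg_left ((norm_sub_le _ _).trans ?_) (Nat.cast_nonneg _)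
        rw [norm_mul, Complex.norm_natCast]
        push_cast
        exact le_refl _
    have hn : (0 : ℝ) ≤ n := Nat.cast_nonneg n
    have hp : 0 ≤ ρ⁻¹ := (inv_pos.mpr hρ).le
    have t2 : ‖f x / (x : ℂ) ^ n‖ +
        ((‖deriv (deriv f) x / (x : ℂ) ^ n‖ + n * ‖deriv f x / (x : ℂ) ^ (n + 1)‖) +
          n * (‖deriv f x / (x : ℂ) ^ (n + 1)‖ +
            ((n : ℝ) + 1) * ‖f x / (x : ℂ) ^ (n + 1 + 1)‖)) ≤
        K * ρ⁻¹ ^ n + ((K * ρ⁻¹ ^ n + n * (K * ρ⁻¹ ^ (n + 1))) +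
          n * (K * ρ⁻¹ ^ (n + 1) + ((n : ℝ) + 1) * (K * ρ⁻¹ ^ (n + 1 + 1)))) := by
      gcongr
    have t3 : K * ρ⁻¹ ^ n + ((K * ρ⁻¹ ^ n + n * (K * ρ⁻¹ ^ (n + 1))) +
          n * (K * ρ⁻¹ ^ (n + 1) + ((n : ℝ) + 1) * (K * ρ⁻¹ ^ (n + 1 + 1)))) =
        (K * ρ⁻¹ ^ n) * (2 + 2 * n * ρ⁻¹ + n * (n + 1) * ρ⁻¹ ^ 2) := by
      ring
    have t4 : (2 + 2 * n * ρ⁻¹ + n * (n + 1) * ρ⁻¹ ^ 2) ≤
        (2 + 2 * ρ⁻¹ + ρ⁻¹ ^ 2) * ((n : ℝ) + 1) ^ 2 := by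
      have q1 : (2 : ℝ) ≤ 2 * ((n : ℝ) + 1) ^ 2 := by nlinarith
      have q2 : (n : ℝ) ≤ ((n : ℝ) + 1) ^ 2 := by nlinarith
      have q3 : (n : ℝ) * (n + 1) ≤ ((n : ℝ) + 1) ^ 2 := by nlinarith
      have q4 : 2 * n * ρ⁻¹ ≤ 2 * ρ⁻¹ * ((n : ℝ) + 1) ^ 2 := by
        have := mul_le_mul_of_nonneg_left q2 hp
        linarith
      have q5 : n * (n + 1) * ρ⁻¹ ^ 2 ≤ ρ⁻¹ ^ 2 * ((n : ℝ) + 1) ^ 2 := by
        have := mul_le_mul_of_nonneg_left q3 (sq_nonneg ρ⁻¹)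
        linarith
      linarith
    have hKρ : 0 ≤ K * ρ⁻¹ ^ n := by positivity
    calc _ ≤ (K * ρ⁻¹ ^ n) * (2 + 2 * n * ρ⁻¹ + n * (n + 1) * ρ⁻¹ ^ 2) := by
          rw [← t3]
          exact (add_le_add_right t1 _).trans t2
      _ ≤ (K * ρ⁻¹ ^ n) * ((2 + 2 * ρ⁻¹ + ρ⁻¹ ^ 2) * ((n : ℝ) + 1) ^ 2) :=
          mul_le_mul_of_nonneg_left t4 hKρ
      _ = _ := by ring
  have h1 := Test.integral_norm_fourier_le hTn hR0 (fun x hx => by rw [hR x hx, zero_div]) hbd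
  refine h1.trans (le_of_eq ?_)
  ring

private theorem grw_norm_mul_pow_le {h : ℝ → ℂ} {ρ K : ℝ} (hK : 0 ≤ K)
    (hρ : 0 < ρ) (h0 : ∀ x, ρ < |x| → h x = 0) (hb : ∀ x, ‖h x‖ ≤ K) (n : ℕ) (x : ℝ) :
    ‖(x : ℂ) ^ n * h x‖ ≤ K * ρ ^ n := by
  by_cases hx : ρ < |x|
  · rw [h0 x hx, mul_zero, norm_zero]
    positivity
  · rw [norm_mul, norm_pow, Complex.norm_real, Real.norm_eq_abs, mul_comm]
    exact mul_le_mul (hb x) (pow_le_pow_left₀ (abs_nonneg x) (not_lt.mp hx) n) (by positivity) hK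

private theorem grw_hasDerivAt_mul_pow {h : ℝ → ℂ} {d : ℂ} {x : ℝ} (hd : HasDerivAt h d x)
    (n : ℕ) :
    HasDerivAt (fun x : ℝ => (x : ℂ) ^ n * h x)
      (n * ((x : ℂ) ^ (n - 1) * h x) + (x : ℂ) ^ n * d) x := by
  have h1 : HasDerivAt (fun x : ℝ => (x : ℂ)) 1 x := Complex.ofRealCLM.hasDerivAt
  have h2 := (h1.pow n).mul hd
  refine h2.congr_deriv ?_
  simp only [Pi.pow_apply]
  ring

/-- the Fourier norm of `x ^ n f` -/
private theorem grw_mul_bound {f : ℝ → ℂ} (hf : Test f) {ρ : ℝ} (hρ : 0 < ρ)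
    (hf0 : ∀ x, ρ < |x| → f x = 0) :
    ∃ C : ℝ, 0 ≤ C ∧ ∀ n : ℕ, ∫ ξ : ℝ, ‖𝓕 (fun x : ℝ => (x : ℂ) ^ n * f x) ξ‖ ≤
      C * (((n : ℝ) + 1) ^ 2 * ρ ^ n) := by
  obtain ⟨K, R, hKn, hR0, b0, b1, b2, hR, hd1, hd2⟩ := grw_data hf
  have ev : ∀ x : ℝ, ρ < |x| → ∀ᶠ z in 𝓝 x, ρ < |z| := fun x hx =>
    continuousAt_const.eventually_lt continuous_abs.continuousAt hx
  have v1 : ∀ x, ρ < |x| → deriv f x = 0 := by
    intro x hx
    have e : f =ᶠ[𝓝 x] fun _ => 0 := by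
      filter_upwards [ev x hx] with z hz
      exact hf0 z hz
    rw [e.deriv_eq, deriv_const]
  have v2 : ∀ x, ρ < |x| → deriv (deriv f) x = 0 := by
    intro x hx
    have e : deriv f =ᶠ[𝓝 x] fun _ => 0 := by
      filter_upwards [ev x hx] with z hz
      exact v1 z hz
    rw [e.deriv_eq, deriv_const]
  refine ⟨R * (K * (2 + 2 * ρ⁻¹ + ρ⁻¹ ^ 2)), by positivity, fun n => ?_⟩
  have hTn : Test (fun x : ℝ => (x : ℂ) ^ n * f x) := by
    have := hf.pow_mul 0 n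
    refine (congrArg Test (funext fun x => ?_)).mp this
    rw [Complex.ofReal_zero, sub_zero]
  have hder1 : deriv (fun x : ℝ => (x : ℂ) ^ n * f x) =
      fun x : ℝ => n * ((x : ℂ) ^ (n - 1) * f x) + (x : ℂ) ^ n * deriv f x :=
    funext fun x => (grw_hasDerivAt_mul_pow (hd1 x) n).deriv
  have hder2 : ∀ x : ℝ, deriv (deriv (fun x : ℝ => (x : ℂ) ^ n * f x)) x =
      n * ((n - 1 : ℕ) * ((x : ℂ) ^ (n - 1 - 1) * f x) + (x : ℂ) ^ (n - 1) * deriv f x) +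
        (n * ((x : ℂ) ^ (n - 1) * deriv f x) + (x : ℂ) ^ n * deriv (deriv f) x) := by
    intro x
    rw [hder1]
    exact (((grw_hasDerivAt_mul_pow (hd1 x) (n - 1)).const_mul (n : ℂ)).add
      (grw_hasDerivAt_mul_pow (hd2 x) n)).deriv
  have hp : 0 ≤ ρ⁻¹ := (inv_pos.mpr hρ).le
  have hn : (0 : ℝ) ≤ n := Nat.cast_nonneg n
  have p1 : (n : ℝ) * ρ ^ (n - 1) = n * (ρ⁻¹ * ρ ^ n) := by
    cases n with
    | zero => simp
    | succ m =>
      rw [Nat.add_sub_cancel, pow_succ]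
      field_simp
  have p2 : (n : ℝ) * (((n - 1 : ℕ) : ℝ) * ρ ^ (n - 1 - 1)) =
      n * (((n - 1 : ℕ) : ℝ) * (ρ⁻¹ ^ 2 * ρ ^ n)) := by
    cases n with
    | zero => simp
    | succ m =>
      cases m with
      | zero => simp
      | succ k =>
        simp only [Nat.add_sub_cancel]
        field_simp
        ring
  have hbd : ∀ x : ℝ, ‖(x : ℂ) ^ n * f x‖ +
      ‖deriv (deriv (fun x : ℝ => (x : ℂ) ^ n * f x)) x‖ ≤
        (K * (2 + 2 * ρ⁻¹ + ρ⁻¹ ^ 2)) * (((n : ℝ) + 1) ^ 2 * ρ ^ n) := by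
    intro x
    rw [hder2]
    have c0 := grw_norm_mul_pow_le hKn hρ hf0 b0 n x
    have c1 := grw_norm_mul_pow_le hKn hρ v1 b1 (n - 1) x
    have c2 := grw_norm_mul_pow_le hKn hρ v2 b2 n x
    have c3 := grw_norm_mul_pow_le hKn hρ hf0 b0 (n - 1 - 1) x
    have t1 : ‖n * (((n - 1 : ℕ) : ℂ) * ((x : ℂ) ^ (n - 1 - 1) * f x) +
        (x : ℂ) ^ (n - 1) * deriv f x) +
        (n * ((x : ℂ) ^ (n - 1) * deriv f x) + (x : ℂ) ^ n * deriv (deriv f) x)‖ ≤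
        n * (((n - 1 : ℕ) : ℝ) * ‖(x : ℂ) ^ (n - 1 - 1) * f x‖ + ‖(x : ℂ) ^ (n - 1) * deriv f x‖) +
        (n * ‖(x : ℂ) ^ (n - 1) * deriv f x‖ + ‖(x : ℂ) ^ n * deriv (deriv f) x‖) := by
      refine (norm_add_le _ _).trans (add_le_add ?_ ((norm_add_le _ _).trans ?_))
      · rw [norm_mul, Complex.norm_natCast]
        refine mul_le_mul_of_nonneg_left ((norm_add_le _ _).trans ?_) (Nat.cast_nonneg _)
        rw [norm_mul ((n - 1 : ℕ) : ℂ), Complex.norm_natCast]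
      · rw [norm_mul (n : ℂ), Complex.norm_natCast]
    have t2 : ‖(x : ℂ) ^ n * f x‖ +
        (n * (((n - 1 : ℕ) : ℝ) * ‖(x : ℂ) ^ (n - 1 - 1) * f x‖ +
          ‖(x : ℂ) ^ (n - 1) * deriv f x‖) +
        (n * ‖(x : ℂ) ^ (n - 1) * deriv f x‖ + ‖(x : ℂ) ^ n * deriv (deriv f) x‖)) ≤
        K * ρ ^ n + (n * (((n - 1 : ℕ) : ℝ) * (K * ρ ^ (n - 1 - 1)) + K * ρ ^ (n - 1)) +
          (n * (K * ρ ^ (n - 1)) + K * ρ ^ n)) := by
      gcongr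
    have t3 : K * ρ ^ n + (n * (((n - 1 : ℕ) : ℝ) * (K * ρ ^ (n - 1 - 1)) + K * ρ ^ (n - 1)) +
          (n * (K * ρ ^ (n - 1)) + K * ρ ^ n)) =
        (K * ρ ^ n) * (2 + 2 * n * ρ⁻¹ + n * ((n - 1 : ℕ) : ℝ) * ρ⁻¹ ^ 2) := by
      have e1 : K * ρ ^ n + (n * (((n - 1 : ℕ) : ℝ) * (K * ρ ^ (n - 1 - 1)) + K * ρ ^ (n - 1)) +
          (n * (K * ρ ^ (n - 1)) + K * ρ ^ n)) =
          2 * (K * ρ ^ n) + K * ((n : ℝ) * (((n - 1 : ℕ) : ℝ) * ρ ^ (n - 1 - 1))) +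
            2 * (K * ((n : ℝ) * ρ ^ (n - 1))) := by
        ring
      rw [e1, p1, p2]
      ring
    have hn1 : ((n - 1 : ℕ) : ℝ) ≤ n := by exact_mod_cast Nat.sub_le n 1
    have hn0 : (0 : ℝ) ≤ ((n - 1 : ℕ) : ℝ) := Nat.cast_nonneg _
    have t4 : (2 + 2 * n * ρ⁻¹ + n * ((n - 1 : ℕ) : ℝ) * ρ⁻¹ ^ 2) ≤
        (2 + 2 * ρ⁻¹ + ρ⁻¹ ^ 2) * ((n : ℝ) + 1) ^ 2 := by
      have q1 : (2 : ℝ) ≤ 2 * ((n : ℝ) + 1) ^ 2 := by nlinarith
      have q2 : (n : ℝ) ≤ ((n : ℝ) + 1) ^ 2 := by nlinarith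
      have q3 : (n : ℝ) * ((n - 1 : ℕ) : ℝ) ≤ ((n : ℝ) + 1) ^ 2 := by nlinarith
      have q4 : 2 * n * ρ⁻¹ ≤ 2 * ρ⁻¹ * ((n : ℝ) + 1) ^ 2 := by
        have := mul_le_mul_of_nonneg_left q2 hp
        linarith
      have q5 : n * ((n - 1 : ℕ) : ℝ) * ρ⁻¹ ^ 2 ≤ ρ⁻¹ ^ 2 * ((n : ℝ) + 1) ^ 2 := by
        have := mul_le_mul_of_nonneg_left q3 (sq_nonneg ρ⁻¹)
        linarith
      linarith
    have hKρ : 0 ≤ K * ρ ^ n := by positivity
    calc _ ≤ (K * ρ ^ n) * (2 + 2 * n * ρ⁻¹ + n * ((n - 1 : ℕ) : ℝ) * ρ⁻¹ ^ 2) := by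
          rw [← t3]
          exact (add_le_add_right t1 _).trans t2
      _ ≤ (K * ρ ^ n) * ((2 + 2 * ρ⁻¹ + ρ⁻¹ ^ 2) * ((n : ℝ) + 1) ^ 2) :=
          mul_le_mul_of_nonneg_left t4 hKρ
      _ = _ := by ring
  have h1 := Test.integral_norm_fourier_le hTn hR0 (fun x hx => by rw [hR x hx, mul_zero]) hbd
  refine h1.trans (le_of_eq ?_)
  ring

private theorem grw_lim {q : ℝ} (h0 : 0 ≤ q) (h1 : q < 1) :
    Tendsto (fun n : ℕ => ((n : ℝ) + 1) ^ 2 * q ^ n) atTop (𝓝 0) := by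
  have hr : |q| < 1 := by
    rw [abs_of_nonneg h0]
    exact h1
  have l2 := tendsto_pow_const_mul_const_pow_of_abs_lt_one 2 hr
  have l1 := tendsto_pow_const_mul_const_pow_of_abs_lt_one 1 hr
  have l0 := tendsto_pow_const_mul_const_pow_of_abs_lt_one 0 hr
  have l := (l2.add (l1.const_mul 2)).add l0
  simp only [mul_zero, add_zero] at l
  refine l.congr fun n => ?_
  ring

theorem SpIn.growth (hA : Herm A) {s r : ℝ} (hr : 0 ≤ r) (hy : SpIn A (s - r) (s + r) y) {r' : ℝ}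
    (hr' : r < r') :
    ∃ C : ℝ, ∀ n : ℕ, ‖((A - (s : ℂ) • (1 : E →L[ℂ] E)) ^ n) y‖ ≤ C * r' ^ n := by
  have hδ : 0 < (r' - r) / 4 := by linarith
  obtain ⟨χ, -, -, hT, -, -, h1, hl, hu⟩ := exists_cutoff (s - r) (s + r) hδ
  have hρ : 0 < r + 2 * ((r' - r) / 4) := by linarith
  have hρr : r + 2 * ((r' - r) / 4) < r' := by linarith
  set ρ : ℝ := r + 2 * ((r' - r) / 4) with hρd
  have hr'0 : 0 < r' := by linarith
  have hg : Test (fun x => ((χ (1 * x + s) : ℝ) : ℂ)) := hT.comp_affine one_ne_zero s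
  have hg0 : ∀ x, ρ < |x| → ((χ (1 * x + s) : ℝ) : ℂ) = 0 := by
    intro x hx
    have hz : χ (1 * x + s) = 0 := by
      rcases lt_abs.mp hx with h | h
      · apply hu
        linarith
      · apply hl
        linarith
    rw [hz, Complex.ofReal_zero]
  obtain ⟨C, hC0, hC⟩ := grw_mul_bound hg hρ hg0
  have hself : Phi A (fun x => (χ x : ℂ)) y = y := by
    refine Phi_eq_self hA hy hT fun x hx => ?_
    have hx1 : s - r - (r' - r) / 4 < x := by linarith [hx.1]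
    have hx2 : x < s + r + (r' - r) / 4 := by linarith [hx.2]
    filter_upwards [eventually_gt_nhds hx1, eventually_lt_nhds hx2] with z hz1 hz2
    rw [h1 z hz1.le hz2.le, Complex.ofReal_one]
  have key : ∀ n : ℕ, ‖((A - (s : ℂ) • (1 : E →L[ℂ] E)) ^ n) y‖ ≤
      C * (((n : ℝ) + 1) ^ 2 * ρ ^ n) * ‖y‖ := by
    intro n
    have e1 : ((A - (s : ℂ) • (1 : E →L[ℂ] E)) ^ n) y =
        Phi A (fun x => ((x : ℂ) - (s : ℂ)) ^ n * (χ x : ℂ)) y := by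
      rw [grw_Phi_pow_mul hA s hT n]
      change _ = ((A - (s : ℂ) • (1 : E →L[ℂ] E)) ^ n) (Phi A (fun x => (χ x : ℂ)) y)
      rw [hself]
    rw [e1]
    refine ((Phi A _).le_opNorm y).trans (mul_le_mul_of_nonneg_right ?_ (norm_nonneg y))
    refine (norm_Phi_le hA (hT.pow_mul s n)).trans ?_
    rw [← Test.integral_norm_fourier_affine (hT.pow_mul s n) one_ne_zero s]
    have hfun : (fun x : ℝ => (((1 * x + s : ℝ) : ℂ) - (s : ℂ)) ^ n * (χ (1 * x + s) : ℂ)) =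
        fun x : ℝ => (x : ℂ) ^ n * (χ (1 * x + s) : ℂ) := by
      funext x
      have e5 : ((1 * x + s : ℝ) : ℂ) - (s : ℂ) = (x : ℂ) := by
        push_cast
        ring
      rw [e5]
    rw [hfun]
    exact hC n
  have lim := grw_lim (q := ρ * r'⁻¹) (by positivity)
    (by rw [← div_eq_mul_inv, div_lt_one hr'0]; exact hρr)
  obtain ⟨B, hB⟩ := lim.bddAbove_range
  refine ⟨C * B * ‖y‖, fun n => (key n).trans ?_⟩
  have hB' : ((n : ℝ) + 1) ^ 2 * (ρ * r'⁻¹) ^ n ≤ B := hB ⟨n, rfl⟩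
  have e2 : ((n : ℝ) + 1) ^ 2 * ρ ^ n = ((n : ℝ) + 1) ^ 2 * (ρ * r'⁻¹) ^ n * r' ^ n := by
    rw [mul_pow, inv_pow]
    have : r' ^ n ≠ 0 := (pow_pos hr'0 n).ne'
    field_simp
  rw [e2]
  have hp : 0 ≤ r' ^ n := (pow_pos hr'0 n).le
  calc C * (((n : ℝ) + 1) ^ 2 * (ρ * r'⁻¹) ^ n * r' ^ n) * ‖y‖ ≤ C * (B * r' ^ n) * ‖y‖ := by
        gcongr
    _ = C * B * ‖y‖ * r' ^ n := by ring

theorem SpIn.of_growth (hA : Herm A) {s r : ℝ} (hr : 0 ≤ r)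
    (h : ∀ r' : ℝ, r < r' →
      ∃ C : ℝ, ∀ n : ℕ, ‖((A - (s : ℂ) • (1 : E →L[ℂ] E)) ^ n) y‖ ≤ C * r' ^ n) :
    SpIn A (s - r) (s + r) y := by
  intro f hf hv
  obtain ⟨δ, hδ, hm⟩ := Test.margin hv (by linarith)
  have hρ : 0 < r + δ := by linarith
  set ρ : ℝ := r + δ with hρd
  obtain ⟨C, hC⟩ := h (r + δ / 2) (by linarith)
  have hr'0 : 0 < r + δ / 2 := by linarith
  have hr'ρ : r + δ / 2 < ρ := by linarith
  set r' : ℝ := r + δ / 2 with hr'd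
  have hg : Test (fun x => f (1 * x + s)) := hf.comp_affine one_ne_zero s
  have hg0 : ∀ x, |x| ≤ ρ → f (1 * x + s) = 0 := by
    intro x hx
    rw [abs_le] at hx
    exact hm _ (by linarith [hx.1]) (by linarith [hx.2])
  obtain ⟨D, hD0, hD⟩ := grw_div_bound hg hρ hg0
  have key : ∀ n : ℕ, ‖Phi A f y‖ ≤ D * C * (((n : ℝ) + 1) ^ 2 * (r' * ρ⁻¹) ^ n) := by
    intro n
    have hTn := grw_test_div_pow hg hρ hg0 n
    have hTn' := hTn.comp_affine (a := 1) one_ne_zero (-s)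
    have hI := Test.integral_norm_fourier_affine hTn (a := 1) one_ne_zero (-s)
    have e1 : Phi A f = (A - (s : ℂ) • (1 : E →L[ℂ] E)) ^ n *
        Phi A (fun x : ℝ => f (1 * (1 * x + -s) + s) / ((1 * x + -s : ℝ) : ℂ) ^ n) := by
      refine grw_Phi_div_pow hA s n hTn' fun x => ?_
      have e2 : (1 * (1 * x + -s) + s : ℝ) = x := by ring
      have e3 : ((1 * x + -s : ℝ) : ℂ) = (x : ℂ) - (s : ℂ) := by
        push_cast
        ring
      rw [e2, e3]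
      by_cases hx : (x : ℂ) - (s : ℂ) = 0
      · have h2 : x = s := by exact_mod_cast sub_eq_zero.mp hx
        have h3 : f x = 0 := hm x (by rw [h2]; linarith) (by rw [h2]; linarith)
        rw [h3, zero_div, mul_zero]
      · have := pow_ne_zero n hx
        field_simp
    have hcomm : (A - (s : ℂ) • (1 : E →L[ℂ] E)) ^ n *
        Phi A (fun x : ℝ => f (1 * (1 * x + -s) + s) / ((1 * x + -s : ℝ) : ℂ) ^ n) =
        Phi A (fun x : ℝ => f (1 * (1 * x + -s) + s) / ((1 * x + -s : ℝ) : ℂ) ^ n) *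
          (A - (s : ℂ) • (1 : E →L[ℂ] E)) ^ n := by
      refine Phi_comm hA hTn' ?_
      have hc : Commute (A - (s : ℂ) • (1 : E →L[ℂ] E)) A :=
        (Commute.refl A).sub_left ((Commute.one_left A).smul_left _)
      exact (hc.pow_left n).eq
    have e4 : Phi A f y =
        Phi A (fun x : ℝ => f (1 * (1 * x + -s) + s) / ((1 * x + -s : ℝ) : ℂ) ^ n)
          (((A - (s : ℂ) • (1 : E →L[ℂ] E)) ^ n) y) := by
      rw [e1, hcomm]
      rfl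
    rw [e4]
    have hn1 : ‖Phi A (fun x : ℝ => f (1 * (1 * x + -s) + s) / ((1 * x + -s : ℝ) : ℂ) ^ n)‖ ≤
        D * (((n : ℝ) + 1) ^ 2 * ρ⁻¹ ^ n) :=
      (norm_Phi_le hA hTn').trans ((le_of_eq hI).trans (hD n))
    refine ((Phi A _).le_opNorm _).trans ((mul_le_mul hn1 (hC n) (norm_nonneg _) ?_).trans ?_)
    · positivity
    · rw [mul_pow]
      apply le_of_eq
      ring
  have lim := (grw_lim (q := r' * ρ⁻¹) (by positivity)
    (by rw [← div_eq_mul_inv, div_lt_one hρ]; exact hr'ρ)).const_mul (D * C)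
  rw [mul_zero] at lim
  exact norm_le_zero_iff.mp (ge_of_tendsto' lim key)

end Pool.Agent.Helper61.HP
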