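import Pool.Agent.Helper61.HO.Defs
import Pool.Agent.Helper61.HP.SkewConj

/-!
# HO-08  The norm of a hermitian operator is controlled by its numerical radius

PROOFS.
* `growth_of_numrange`: let `Re φ(D x) ≤ v ‖x‖` for all norming pairs; then `‖ex t D‖ ≤ exp(v t)` for `t ≥ 0`. For `t > 0`:
  `‖x - t D x‖ ≥ Re φ(x - t D x) ≥ (1 - t v) ‖x‖`. Let `u s = ‖ex s D x‖`. From
  `ex (s) D x - t D ex s D x = ex (s - t) D x + O(t²)` (`ex_taylor`): `(1 - t v) u(s) ≤ u(s - t) + C t²` for `s` in a bounded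
  interval. Hence, with `t = s / n`, `u(s) ≤ (1 - v s / n)^(-n) (u(0) + C' s² / n)`-type estimate, `n → ∞`. (Or: adapt the
  proof of `norm_ex_apply_le` in HP.SkewExp, applied to `D - v`.)
* `herm_norm_le`: `A` hermitian, `|φ(A x)| ≤ v` for all norming `φ` of unit vectors `x`. For `z = a + i b` complex
  `exp(z A) = ex a A * ex b (i A)`, norm `≤ exp(|a| v)` (`Skew.norm_ex_le`, the first part for `A` and `-A`). The entire
  function `z ↦ exp(z A)` has derivative `A` at `0`; by the Cauchy estimate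
  (`Complex.norm_deriv_le_of_forall_mem_sphere_norm_le`) `‖A‖ ≤ exp(r v) / r` for all `r > 0`. If `v > 0`, `r = 1 / v`
  gives `‖A‖ ≤ e v ≤ 3 v`; if `v = 0` let `r → ∞`.
* `herm_skew_zero`: `A` hermitian and skew: all `φ(A x)` are `0`; `herm_norm_le` with `v = 0`.
* `pair_unique`: `A + i B = A' + i B'`: `A - A' = i (B' - B)` is hermitian and skew (`Skew (i (B' - B))`).
* `pair_norm_le`: for a norming pair (`‖x‖ = 1`) `φ((A + i B) x) = φ(A x) + i φ(B x)` with `φ(A x)`, `φ(B x)` real (`Herm`),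
  so `|φ(A x)|, |φ(B x)| ≤ ‖A + i B‖`, hence `‖A‖, ‖B‖ ≤ 3 ‖A + i B‖`.
-/

set_option autoImplicit false

open Filter Topology

namespace Pool.Agent.Helper61.HP

universe u

variable {E : Type u} [NormedAddCommGroup E] [NormedSpace ℂ E]

/-- the numerical range of a hermitian operator is real -/
theorem Herm.im_eq_zero {A : E →L[ℂ] E} (hA : Herm A) {φ : StrongDual ℂ E} {x : E}
    (h : Norming φ x) : (φ (A x)).im = 0 := by
  have h1 := hA x φ h
  rw [ContinuousLinearMap.smul_apply, map_smul, smul_eq_mul, Complex.I_mul_re] at h1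
  linarith

variable [CompleteSpace E]

private theorem hn_norm_le_sub {D : E →L[ℂ] E}
    (hD : ∀ (x : E) (φ : StrongDual ℂ E), Norming φ x → (φ (D x)).re ≤ 0) {s : ℝ} (hs : 0 ≤ s)
    (x : E) : ‖x‖ ≤ ‖x + ((-s : ℝ) : ℂ) • D x‖ := by
  obtain ⟨φ, hφ⟩ := exists_norming x
  have h1 := hφ.re_le (x + ((-s : ℝ) : ℂ) • D x)
  rw [map_add, map_smul, hφ.2, smul_eq_mul, Complex.add_re, Complex.re_ofReal_mul,
    Complex.ofReal_re] at h1
  have h2 := mul_nonneg hs (neg_nonneg.2 (hD x φ hφ))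
  linarith

private theorem hn_step_le {D : E →L[ℂ] E}
    (hD : ∀ (x : E) (φ : StrongDual ℂ E), Norming φ x → (φ (D x)).re ≤ 0) :
    ∃ C : ℝ, 0 ≤ C ∧ ∀ s : ℝ, 0 ≤ s → s ≤ 1 → ∀ y : E, ‖ex s D y‖ ≤ (1 + C * s ^ 2) * ‖y‖ := by
  refine ⟨‖D‖ ^ 2 + ‖D‖ ^ 2 * Real.exp ‖D‖ * (1 + ‖D‖), by positivity, fun s hs0 hs1 y => ?_⟩
  have hs : |s| ≤ 1 := by rwa [abs_of_nonneg hs0]
  have h1 := hn_norm_le_sub hD hs0 (ex s D y)
  set T : E →L[ℂ] E := ex s D - 1 - (s : ℂ) • D with hT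
  have hTn : ‖T‖ ≤ s ^ 2 * ‖D‖ ^ 2 * Real.exp ‖D‖ := by
    refine (ex_taylor D s).trans ?_
    have h2 : |s| * ‖D‖ ≤ ‖D‖ := by
      have := mul_le_mul_of_nonneg_right hs (norm_nonneg D)
      rwa [one_mul] at this
    exact mul_le_mul_of_nonneg_left (Real.exp_le_exp.mpr h2) (by positivity)
  have hTy : ‖T y‖ ≤ s ^ 2 * ‖D‖ ^ 2 * Real.exp ‖D‖ * ‖y‖ :=
    (T.le_opNorm y).trans (mul_le_mul_of_nonneg_right hTn (norm_nonneg y))
  have hex : ex s D y = y + (s : ℂ) • D y + T y := by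
    rw [hT]
    simp only [sub_apply, smul_apply,
      one_apply_eq_self]
    abel
  have h3 : ex s D y + ((-s : ℝ) : ℂ) • D (ex s D y) =
      y + T y + (-((s : ℂ) ^ 2) • D (D y) + (-(s : ℂ)) • D (T y)) := by
    rw [hex]
    simp only [map_add, map_smul, Complex.ofReal_neg, smul_add, smul_smul, neg_smul]
    have e : -(s : ℂ) * (s : ℂ) = -((s : ℂ) ^ 2) := by ring
    rw [e, neg_smul]
    abel
  have hsn : ‖(s : ℂ)‖ = |s| := by rw [Complex.norm_real, Real.norm_eq_abs]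
  have h4 : ‖(-((s : ℂ) ^ 2)) • D (D y)‖ ≤ s ^ 2 * ‖D‖ ^ 2 * ‖y‖ := by
    rw [norm_smul, norm_neg, norm_pow, hsn, sq_abs]
    have h5 : ‖D (D y)‖ ≤ ‖D‖ * (‖D‖ * ‖y‖) :=
      (D.le_opNorm _).trans (mul_le_mul_of_nonneg_left (D.le_opNorm y) (norm_nonneg D))
    calc s ^ 2 * ‖D (D y)‖ ≤ s ^ 2 * (‖D‖ * (‖D‖ * ‖y‖)) :=
          mul_le_mul_of_nonneg_left h5 (sq_nonneg s)
      _ = s ^ 2 * ‖D‖ ^ 2 * ‖y‖ := by ring
  have h6 : ‖(-(s : ℂ)) • D (T y)‖ ≤ s ^ 2 * ‖D‖ ^ 2 * Real.exp ‖D‖ * ‖D‖ * ‖y‖ := by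
    rw [norm_smul, norm_neg, hsn]
    have h7 : ‖D (T y)‖ ≤ ‖D‖ * (s ^ 2 * ‖D‖ ^ 2 * Real.exp ‖D‖ * ‖y‖) :=
      (D.le_opNorm _).trans (mul_le_mul_of_nonneg_left hTy (norm_nonneg D))
    calc |s| * ‖D (T y)‖ ≤ 1 * (‖D‖ * (s ^ 2 * ‖D‖ ^ 2 * Real.exp ‖D‖ * ‖y‖)) :=
          mul_le_mul hs h7 (norm_nonneg _) zero_le_one
      _ = s ^ 2 * ‖D‖ ^ 2 * Real.exp ‖D‖ * ‖D‖ * ‖y‖ := by ring
  rw [h3] at h1
  calc ‖ex s D y‖ ≤ ‖y + T y + (-((s : ℂ) ^ 2) • D (D y) + (-(s : ℂ)) • D (T y))‖ := h1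
    _ ≤ ‖y‖ + ‖T y‖ + (‖(-((s : ℂ) ^ 2)) • D (D y)‖ + ‖(-(s : ℂ)) • D (T y)‖) := by
        refine (norm_add_le _ _).trans (add_le_add (norm_add_le _ _) (norm_add_le _ _))
    _ ≤ (1 + (‖D‖ ^ 2 + ‖D‖ ^ 2 * Real.exp ‖D‖ * (1 + ‖D‖)) * s ^ 2) * ‖y‖ := by
        nlinarith [hTy, h4, h6]

private theorem hn_norm_ex_apply_le {D : E →L[ℂ] E}
    (hD : ∀ (x : E) (φ : StrongDual ℂ E), Norming φ x → (φ (D x)).re ≤ 0) {t : ℝ} (ht : 0 ≤ t)
    (x : E) : ‖ex t D x‖ ≤ ‖x‖ := by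
  obtain ⟨C, hC, hstep⟩ := hn_step_le hD
  have hiter : ∀ (s : ℝ), 0 ≤ s → s ≤ 1 → ∀ k : ℕ,
      ‖ex ((k : ℝ) * s) D x‖ ≤ (1 + C * s ^ 2) ^ k * ‖x‖ := by
    intro s hs hs' k
    induction k with
    | zero =>
      rw [Nat.cast_zero, zero_mul, ex_zero, pow_zero, one_mul, one_apply_eq_self]
    | succ k ih =>
      have h1 : ((k + 1 : ℕ) : ℝ) * s = s + (k : ℝ) * s := by push_cast; ring
      rw [h1, ex_add, mul_apply_eq_comp, pow_succ']
      refine (hstep s hs hs' _).trans ?_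
      rw [mul_assoc]
      exact mul_le_mul_of_nonneg_left ih (by positivity)
  have hlim : Tendsto (fun n : ℕ => Real.exp (C * t ^ 2 / (n : ℝ)) * ‖x‖) atTop
      (𝓝 (Real.exp 0 * ‖x‖)) := by
    refine Tendsto.mul_const _ ?_
    exact (Real.continuous_exp.tendsto 0).comp (tendsto_const_div_atTop_nhds_zero_nat (C * t ^ 2))
  rw [Real.exp_zero, one_mul] at hlim
  refine ge_of_tendsto hlim ?_
  filter_upwards [eventually_ge_atTop (⌈|t|⌉₊ + 1)] with n hn
  have hn0 : (0 : ℝ) < (n : ℝ) := by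
    have : 0 < n := by omega
    exact_mod_cast this
  have hnt : |t| ≤ (n : ℝ) := by
    have h1 : |t| ≤ (⌈|t|⌉₊ : ℝ) := Nat.le_ceil _
    have h2 : ((⌈|t|⌉₊ + 1 : ℕ) : ℝ) ≤ (n : ℝ) := by exact_mod_cast hn
    push_cast at h2
    linarith
  have hs : t / (n : ℝ) ≤ 1 := by
    rw [div_le_one hn0]
    exact (le_abs_self t).trans hnt
  have h3 := hiter (t / (n : ℝ)) (by positivity) hs n
  have h4 : (n : ℝ) * (t / (n : ℝ)) = t := by field_simp
  rw [h4] at h3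
  refine h3.trans (mul_le_mul_of_nonneg_right ?_ (norm_nonneg x))
  have h5 : 1 + C * (t / (n : ℝ)) ^ 2 ≤ Real.exp (C * (t / (n : ℝ)) ^ 2) := by
    have := Real.add_one_le_exp (C * (t / (n : ℝ)) ^ 2)
    linarith
  calc (1 + C * (t / (n : ℝ)) ^ 2) ^ n ≤ (Real.exp (C * (t / (n : ℝ)) ^ 2)) ^ n :=
        pow_le_pow_left₀ (by positivity) h5 n
    _ = Real.exp (C * t ^ 2 / (n : ℝ)) := by
        rw [← Real.exp_nat_mul]
        congr 1
        field_simp

private theorem hn_ex_scalar (t v : ℝ) :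
    ex t ((v : ℂ) • (1 : E →L[ℂ] E)) = ((Real.exp (v * t) : ℝ) : ℂ) • (1 : E →L[ℂ] E) := by
  unfold ex
  have h1 : (t : ℂ) • (v : ℂ) • (1 : E →L[ℂ] E) =
      algebraMap ℂ (E →L[ℂ] E) ((v * t : ℝ) : ℂ) := by
    rw [Algebra.algebraMap_eq_smul_one, smul_smul]
    congr 1
    push_cast
    ring
  rw [h1, ← NormedSpace.algebraMap_exp_comm, Algebra.algebraMap_eq_smul_one]
  congr 1
  rw [← Complex.exp_eq_exp_ℂ, Complex.ofReal_exp]

theorem growth_of_numrange {D : E →L[ℂ] E} {v : ℝ}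
    (h : ∀ (x : E) (φ : StrongDual ℂ E), Norming φ x → (φ (D x)).re ≤ v * ‖x‖) {t : ℝ}
    (ht : 0 ≤ t) (x : E) : ‖ex t D x‖ ≤ Real.exp (v * t) * ‖x‖ := by
  set D₁ : E →L[ℂ] E := D - (v : ℂ) • 1 with hD₁
  have h1 : ∀ (x : E) (φ : StrongDual ℂ E), Norming φ x → (φ (D₁ x)).re ≤ 0 := by
    intro x φ hφ
    have h2 : D₁ x = D x - (v : ℂ) • x := rfl
    rw [h2, map_sub, map_smul, hφ.2, smul_eq_mul, Complex.sub_re, Complex.re_ofReal_mul,
      Complex.ofReal_re]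
    have := h x φ hφ
    linarith
  have h3 : D = D₁ + (v : ℂ) • 1 := by rw [hD₁, sub_add_cancel]
  have h4 : D₁ * ((v : ℂ) • 1) = ((v : ℂ) • 1) * D₁ := by
    rw [mul_smul_comm, smul_mul_assoc, mul_one, one_mul]
  have h5 : ex t D x = ((Real.exp (v * t) : ℝ) : ℂ) • ex t D₁ x := by
    have h6 : ex t D = ex t D₁ * (((Real.exp (v * t) : ℝ) : ℂ) • 1) := by
      rw [← hn_ex_scalar (E := E) t v, ← ex_add_op h4, ← h3]
    rw [h6, mul_smul_comm, mul_one, ContinuousLinearMap.smul_apply]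
  rw [h5, norm_smul, Complex.norm_real, Real.norm_eq_abs, abs_of_pos (Real.exp_pos _)]
  exact mul_le_mul_of_nonneg_left (hn_norm_ex_apply_le h1 ht x) (Real.exp_pos _).le

theorem herm_norm_le {A : E →L[ℂ] E} (hA : Herm A) {v : ℝ} (hv : 0 ≤ v)
    (h : ∀ (x : E) (φ : StrongDual ℂ E), Norming φ x → ‖φ (A x)‖ ≤ v * ‖x‖) : ‖A‖ ≤ 3 * v := by
  have hpos : ∀ t : ℝ, 0 ≤ t → ‖ex t A‖ ≤ Real.exp (v * t) := by
    intro t ht
    refine ContinuousLinearMap.opNorm_le_bound _ (Real.exp_pos _).le fun x => ?_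
    exact growth_of_numrange (fun x φ hφ => (Complex.re_le_norm _).trans (h x φ hφ)) ht x
  have hneg : ∀ t : ℝ, 0 ≤ t → ‖ex t (-A)‖ ≤ Real.exp (v * t) := by
    intro t ht
    refine ContinuousLinearMap.opNorm_le_bound _ (Real.exp_pos _).le fun x => ?_
    refine growth_of_numrange (fun x φ hφ => (Complex.re_le_norm _).trans ?_) ht x
    rw [ContinuousLinearMap.neg_apply, map_neg, norm_neg]
    exact h x φ hφ
  have habs : ∀ t : ℝ, ‖ex t A‖ ≤ Real.exp (v * |t|) := by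
    intro t
    rcases le_total 0 t with ht | ht
    · rw [abs_of_nonneg ht]
      exact hpos t ht
    · rw [abs_of_nonpos ht]
      have h1 := hneg (-t) (by linarith)
      rwa [ex_neg_op, neg_neg] at h1
  have hz : ∀ z : ℂ, ‖NormedSpace.exp (z • A)‖ ≤ Real.exp (v * ‖z‖) := by
    intro z
    have h1 : z • A = ((z.re : ℝ) : ℂ) • A + ((z.im : ℝ) : ℂ) • (Complex.I • A) := by
      rw [smul_smul, ← add_smul, Complex.re_add_im]
    have hc : Commute (((z.re : ℝ) : ℂ) • A) (((z.im : ℝ) : ℂ) • (Complex.I • A)) :=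
      ((((Commute.refl A).smul_right Complex.I)).smul_left _).smul_right _
    have h2 : NormedSpace.exp (z • A) = ex z.re A * ex z.im (Complex.I • A) := by
      rw [h1]
      letI : NormedAlgebra ℚ (E →L[ℂ] E) := NormedAlgebra.restrictScalars ℚ ℂ (E →L[ℂ] E)
      exact NormedSpace.exp_add_of_commute hc
    rw [h2]
    refine (norm_mul_le _ _).trans ?_
    have h3 : ‖ex z.im (Complex.I • A)‖ ≤ 1 := Skew.norm_ex_le hA z.im
    calc ‖ex z.re A‖ * ‖ex z.im (Complex.I • A)‖ ≤ Real.exp (v * |z.re|) * 1 :=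
          mul_le_mul (habs _) h3 (norm_nonneg _) (Real.exp_pos _).le
      _ ≤ Real.exp (v * ‖z‖) := by
          rw [mul_one]
          exact Real.exp_le_exp.2 (mul_le_mul_of_nonneg_left (Complex.abs_re_le_norm z) hv)
  have hderiv : ∀ z : ℂ, HasDerivAt (fun z : ℂ => NormedSpace.exp (z • A))
      (A * NormedSpace.exp (z • A)) z := fun z => hasDerivAt_exp_smul_const' (𝕂 := ℂ) A z
  have hd0 : deriv (fun z : ℂ => NormedSpace.exp (z • A)) 0 = A := by
    rw [(hderiv 0).deriv, zero_smul, NormedSpace.exp_zero, mul_one]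
  have hr : ∀ r : ℝ, 0 < r → ‖A‖ ≤ Real.exp (v * r) / r := by
    intro r hr
    have h1 := Complex.norm_deriv_le_of_forall_mem_sphere_norm_le (c := 0) (R := r)
      (C := Real.exp (v * r)) (f := fun z : ℂ => NormedSpace.exp (z • A)) hr
      (Differentiable.diffContOnCl fun z => (hderiv z).differentiableAt) (fun z hz' => by
        have h2 : ‖z‖ = r := by simpa using hz'
        have h3 := hz z
        rwa [h2] at h3)
    rwa [hd0] at h1
  rcases hv.lt_or_eq with hv' | hv'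
  · have h1 := hr (1 / v) (by positivity)
    rw [mul_one_div_cancel hv'.ne'] at h1
    have h2 : Real.exp 1 / (1 / v) = Real.exp 1 * v := by field_simp
    rw [h2] at h1
    have h3 : Real.exp 1 ≤ 3 := by
      have := Real.exp_one_lt_d9
      linarith
    exact h1.trans (mul_le_mul_of_nonneg_right h3 hv)
  · subst hv'
    rw [mul_zero]
    have h1 : ∀ r : ℝ, 0 < r → ‖A‖ ≤ 1 / r := by
      intro r hr'
      have := hr r hr'
      rwa [zero_mul, Real.exp_zero] at this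
    by_contra hcon
    push Not at hcon
    have h2 := h1 (2 / ‖A‖) (by positivity)
    have h3 : 1 / (2 / ‖A‖) = ‖A‖ / 2 := by field_simp
    rw [h3] at h2
    linarith

theorem herm_skew_zero {A : E →L[ℂ] E} (hA : Herm A) (hA' : Skew A) : A = 0 := by
  have h1 := herm_norm_le hA (v := 0) le_rfl (fun x φ hφ => by
    have h2 : φ (A x) = 0 := Complex.ext (by simpa using hA' x φ hφ)
      (by simpa using hA.im_eq_zero hφ)
    rw [h2, norm_zero, zero_mul])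
  rw [mul_zero] at h1
  exact norm_le_zero_iff.1 h1

theorem pair_unique {A B A' B' : E →L[ℂ] E} (hA : Herm A) (hB : Herm B) (hA' : Herm A')
    (hB' : Herm B') (h : A + Complex.I • B = A' + Complex.I • B') : A = A' ∧ B = B' := by
  have h1 : A - A' = Complex.I • (B' - B) := by
    rw [smul_sub, sub_eq_sub_iff_add_eq_add, h]
    abel
  have h2 : Skew (A - A') := by
    rw [h1]
    exact hB'.sub hB
  have h3 := herm_skew_zero (hA.sub hA') h2
  refine ⟨sub_eq_zero.1 h3, ?_⟩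
  rw [h1] at h3
  have h4 : B' - B = 0 := by
    rcases smul_eq_zero.1 h3 with h5 | h5
    · exact absurd h5 Complex.I_ne_zero
    · exact h5
  exact (sub_eq_zero.1 h4).symm

theorem pair_norm_le {A B : E →L[ℂ] E} (hA : Herm A) (hB : Herm B) :
    ‖A‖ ≤ 3 * ‖A + Complex.I • B‖ ∧ ‖B‖ ≤ 3 * ‖A + Complex.I • B‖ := by
  have key : ∀ (x : E) (φ : StrongDual ℂ E), Norming φ x →
      ‖φ (A x)‖ ≤ ‖A + Complex.I • B‖ * ‖x‖ ∧ ‖φ (B x)‖ ≤ ‖A + Complex.I • B‖ * ‖x‖ := by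
    intro x φ hφ
    have h1 : ‖φ ((A + Complex.I • B) x)‖ ≤ ‖A + Complex.I • B‖ * ‖x‖ :=
      (hφ.abs_le _).trans ((A + Complex.I • B).le_opNorm x)
    have h2 : φ ((A + Complex.I • B) x) = φ (A x) + Complex.I * φ (B x) := by
      rw [ContinuousLinearMap.add_apply, ContinuousLinearMap.smul_apply, map_add, map_smul,
        smul_eq_mul]
    have hAi := hA.im_eq_zero hφ
    have hBi := hB.im_eq_zero hφ
    have hAr : φ (A x) = (((φ (A x)).re : ℝ) : ℂ) := Complex.ext (by simp) (by simpa using hAi)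
    have hBr : φ (B x) = (((φ (B x)).re : ℝ) : ℂ) := Complex.ext (by simp) (by simpa using hBi)
    have h3 : (φ ((A + Complex.I • B) x)).re = (φ (A x)).re := by
      rw [h2, Complex.add_re, Complex.I_mul_re, hBi]
      ring
    have h4 : (φ ((A + Complex.I • B) x)).im = (φ (B x)).re := by
      rw [h2, Complex.add_im, Complex.I_mul_im, hAi]
      ring
    constructor
    · rw [hAr, Complex.norm_real, Real.norm_eq_abs, ← h3]
      exact (Complex.abs_re_le_norm _).trans h1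
    · rw [hBr, Complex.norm_real, Real.norm_eq_abs, ← h4]
      exact (Complex.abs_im_le_norm _).trans h1
  exact ⟨herm_norm_le hA (norm_nonneg _) fun x φ hφ => (key x φ hφ).1,
    herm_norm_le hB (norm_nonneg _) fun x φ hφ => (key x φ hφ).2⟩

/-- hermitian operators have no nilpotent part -/
theorem herm_sq_ker {A : E →L[ℂ] E} (hA : Herm A) {x : E} (h : A (A x) = 0) : A x = 0 := by
  set D : E →L[ℂ] E := Complex.I • A with hD
  have hDD : D (D x) = 0 := by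
    rw [hD, ContinuousLinearMap.smul_apply, ContinuousLinearMap.smul_apply, map_smul, h,
      smul_zero, smul_zero]
  have h1 : ∀ t : ℝ, ‖x + (t : ℂ) • D x‖ ≤ ‖x‖ := by
    intro t
    have h2 := Skew.norm_le_add hA (-t) (x + (t : ℂ) • D x)
    rw [← hD, map_add, map_smul, hDD, smul_zero, add_zero] at h2
    have h3 : x + (t : ℂ) • D x + ((-t : ℝ) : ℂ) • D x = x := by
      rw [Complex.ofReal_neg, neg_smul, add_assoc, add_neg_cancel, add_zero]
    rwa [h3] at h2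
  have h4 : ∀ t : ℝ, |t| * ‖D x‖ ≤ 2 * ‖x‖ := by
    intro t
    have h5 : (t : ℂ) • D x = (x + (t : ℂ) • D x) - x := by abel
    have h6 : ‖(t : ℂ) • D x‖ ≤ ‖x + (t : ℂ) • D x‖ + ‖x‖ := by
      conv_lhs => rw [h5]
      exact norm_sub_le _ _
    rw [norm_smul, Complex.norm_real, Real.norm_eq_abs] at h6
    have h7 := h1 t
    linarith
  have h8 : ‖D x‖ = 0 := by
    by_contra hne
    have hpos : 0 < ‖D x‖ := lt_of_le_of_ne (norm_nonneg _) (Ne.symm hne)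
    have h9 := h4 ((2 * ‖x‖ + 1) / ‖D x‖)
    rw [abs_of_nonneg (by positivity), div_mul_cancel₀ _ hne] at h9
    linarith
  have h10 : D x = 0 := norm_eq_zero.1 h8
  rw [hD, ContinuousLinearMap.smul_apply] at h10
  rcases smul_eq_zero.1 h10 with h11 | h11
  · exact absurd h11 Complex.I_ne_zero
  · exact h11

end Pool.Agent.Helper61.HP
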