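import Mathlib

/-!
# HO-13  Elements with `(ad K)^3 = 0` (Lie algebra, Mathlib only)

PROOF. Let `A = ad K`, `A^3 = 0`, `X = ad x`, `Y = ad y` (in the associative algebra `Module.End ℂ L`, product = composition).
`ad (A x) = A X - X A`, so `0 = ad (A^3 x) = A^3 X - 3 A^2 X A + 3 A X A^2 - X A^3`, i.e. (1) `A^2 X A = A X A^2`;
multiply by `A` from the left: (2) `A^2 X A^2 = A^3 X A = 0`. `ad (A^2 x) = A^2 X - 2 A X A + X A^2`.
First claim: `⁅A^2 x, A^2 y⁆ = ad (A^2 x) (A^2 y) = A^2 X A^2 y - 2 A X A^3 y + X A^4 y = 0`.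
Second claim: `ad (A^2 x) ad (A^2 y) = A^2 X A^2 Y - 2 A^2 X A Y A + A^2 X Y A^2 - 2 A X A^3 Y + 4 A X A^2 Y A
- 2 A X A Y A^2 + X A^4 Y - 2 X A^3 Y A + X A^2 Y A^2`; by (2) and `A^3 = 0` this is
`- 2 A^2 X A Y A + A^2 X Y A^2 + 4 A X A^2 Y A - 2 A X A Y A^2`; by (1) `A X A^2 Y A = A^2 X A Y A` and
`A X (A Y A^2) = A X A^2 Y A = A^2 X A Y A`, so it is `A^2 X Y A^2`. Apply it to `z`.
-/

set_option autoImplicit false

namespace Pool.Agent.Helper61.HP

theorem lie_nil {L : Type*} [LieRing L] [LieAlgebra ℂ L] {K : L}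
    (hK : ∀ y : L, ⁅K, ⁅K, ⁅K, y⁆⁆⁆ = 0) :
    (∀ x y : L, ⁅⁅K, ⁅K, x⁆⁆, ⁅K, ⁅K, y⁆⁆⁆ = 0) ∧
      ∀ x y z : L, ⁅⁅K, ⁅K, x⁆⁆, ⁅⁅K, ⁅K, y⁆⁆, z⁆⁆ = ⁅K, ⁅K, ⁅x, ⁅y, ⁅K, ⁅K, z⁆⁆⁆⁆⁆⁆ := by
  obtain ⟨A, hA⟩ : ∃ A : Module.End ℂ L, A = LieAlgebra.ad ℂ L K := ⟨_, rfl⟩
  have hAap : ∀ y : L, A y = ⁅K, y⁆ := by
    intro y; rw [hA, LieAlgebra.ad_apply]
  have hA3 : A * A * A = 0 := by
    ext y
    simp [hAap, hK]
  have hbr : ∀ x : L, LieAlgebra.ad ℂ L ⁅K, x⁆ =
      A * LieAlgebra.ad ℂ L x - LieAlgebra.ad ℂ L x * A := by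
    intro x
    ext y
    rw [LinearMap.sub_apply, Module.End.mul_apply, Module.End.mul_apply, LieAlgebra.ad_apply,
      LieAlgebra.ad_apply, LieAlgebra.ad_apply, hAap, hAap, lie_lie]
  have h1 : ∀ x : L, A * A * LieAlgebra.ad ℂ L x * A = A * LieAlgebra.ad ℂ L x * A * A := by
    intro x
    have h := hbr ⁅K, ⁅K, x⁆⁆
    rw [hK x, map_zero, hbr, hbr] at h
    generalize LieAlgebra.ad ℂ L x = X at h ⊢
    have e1 : A * A * A * X = 0 := by rw [hA3, zero_mul]
    have e2 : X * (A * A * A) = 0 := by rw [hA3, mul_zero]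
    have e3 : (A * A * X * A - A * X * A * A) + (A * A * X * A - A * X * A * A)
        + (A * A * X * A - A * X * A * A) = 0 := by
      have e4 : (A * A * X * A - A * X * A * A) + (A * A * X * A - A * X * A * A)
        + (A * A * X * A - A * X * A * A) = A * A * A * X - X * (A * A * A)
          - (A * (A * (A * X - X * A) - (A * X - X * A) * A)
            - (A * (A * X - X * A) - (A * X - X * A) * A) * A) := by
        noncomm_ring
      rw [e4, ← h, e1, e2]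
      simp
    have e5 : (3 : ℂ) • (A * A * X * A - A * X * A * A) = 0 := by
      rw [show (3 : ℂ) = 1 + 1 + 1 by norm_num, add_smul, add_smul, one_smul]
      exact e3
    have e6 : A * A * X * A - A * X * A * A = 0 := by
      rcases smul_eq_zero.mp e5 with h3 | h3
      · norm_num at h3
      · exact h3
    exact sub_eq_zero.mp e6
  have h2 : ∀ x : L, A * A * LieAlgebra.ad ℂ L x * A * A = 0 := by
    intro x
    have e1 : A * (A * A * LieAlgebra.ad ℂ L x * A) = A * (A * LieAlgebra.ad ℂ L x * A * A) := by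
      rw [h1 x]
    have e2 : A * (A * A * LieAlgebra.ad ℂ L x * A) = A * A * A * (LieAlgebra.ad ℂ L x * A) := by
      noncomm_ring
    have e3 : A * (A * LieAlgebra.ad ℂ L x * A * A) = A * A * LieAlgebra.ad ℂ L x * A * A := by
      noncomm_ring
    rw [← e3, ← e1, e2, hA3, zero_mul]
  have had2 : ∀ x : L, LieAlgebra.ad ℂ L ⁅K, ⁅K, x⁆⁆ =
      A * (A * LieAlgebra.ad ℂ L x - LieAlgebra.ad ℂ L x * A)
        - (A * LieAlgebra.ad ℂ L x - LieAlgebra.ad ℂ L x * A) * A := by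
    intro x
    rw [hbr, hbr]
  constructor
  · intro x y
    have e0 : ⁅⁅K, ⁅K, x⁆⁆, ⁅K, ⁅K, y⁆⁆⁆ =
        (LieAlgebra.ad ℂ L ⁅K, ⁅K, x⁆⁆ * (A * A)) y := by
      rw [Module.End.mul_apply, LieAlgebra.ad_apply, Module.End.mul_apply, hAap, hAap]
    rw [e0, had2]
    have h1x := h1 x
    have h2x := h2 x
    generalize LieAlgebra.ad ℂ L x = X at h1x h2x ⊢
    have e1 : (A * (A * X - X * A) - (A * X - X * A) * A) * (A * A) =
        A * A * X * A * A - A * X * (A * A * A) - A * X * (A * A * A) + X * (A * A * A) * A := by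
      noncomm_ring
    rw [e1, hA3, h2x]
    simp
  · intro x y z
    have e0 : ⁅⁅K, ⁅K, x⁆⁆, ⁅⁅K, ⁅K, y⁆⁆, z⁆⁆ =
        (LieAlgebra.ad ℂ L ⁅K, ⁅K, x⁆⁆ * LieAlgebra.ad ℂ L ⁅K, ⁅K, y⁆⁆) z := by
      rw [Module.End.mul_apply, LieAlgebra.ad_apply, LieAlgebra.ad_apply]
    have e0' : ⁅K, ⁅K, ⁅x, ⁅y, ⁅K, ⁅K, z⁆⁆⁆⁆⁆⁆ =
        (A * A * LieAlgebra.ad ℂ L x * LieAlgebra.ad ℂ L y * (A * A)) z := by
      simp only [Module.End.mul_apply, LieAlgebra.ad_apply, hAap]
    rw [e0, e0', had2, had2]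
    have h1x := h1 x
    have h2x := h2 x
    have h1y := h1 y
    have h2y := h2 y
    generalize LieAlgebra.ad ℂ L x = X at h1x h2x ⊢
    generalize LieAlgebra.ad ℂ L y = Y at h1y h2y ⊢
    congr 1
    have k1 : A * A * X * A * A = 0 := h2x
    have k2 : A * X * A * Y * A * A = A * A * X * A * Y * A := by
      have s1 : A * X * A * Y * A * A = A * X * (A * Y * A * A) := by noncomm_ring
      have s2 : A * X * (A * A * Y * A) = (A * X * A * A) * Y * A := by noncomm_ring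
      rw [s1, ← h1y, s2, ← h1x]
    have k3 : A * X * A * A * Y * A = A * A * X * A * Y * A := by
      rw [← h1x]
    have e1 : (A * (A * X - X * A) - (A * X - X * A) * A) *
        (A * (A * Y - Y * A) - (A * Y - Y * A) * A) =
        A * A * X * Y * (A * A) + (A * A * X * A * A) * Y
        - (A * A * X * A * Y * A) - (A * A * X * A * Y * A)
        - A * X * (A * A * A) * Y - A * X * (A * A * A) * Y
        + (A * X * A * A * Y * A) + (A * X * A * A * Y * A)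
        + (A * X * A * A * Y * A) + (A * X * A * A * Y * A)
        - (A * X * A * Y * A * A) - (A * X * A * Y * A * A)
        + X * (A * A * A) * A * Y - X * (A * A * A) * Y * A - X * (A * A * A) * Y * A
        + X * (A * A * Y * A * A) := by
      noncomm_ring
    rw [e1, hA3, h2y, k1, k2, k3]
    simp only [mul_zero, zero_mul]
    abel

end Pool.Agent.Helper61.HP
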