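import Mathlib

/-!
# HO-18  Powers in abelian triple systems (Lie algebra, Mathlib only)

Notation `T = ⁅b, b'⁆`, `τ i j = ⁅x i, x' j⁆`; `⁅T, x n⁆ = 2 x (n+1)`, `⁅T, x' n⁆ = - 2 x' (n+1)`.

PROOF. (a) For commuting `x i`, `x k`: `⁅⁅x i, y⁆, x k⁆ = ⁅⁅x k, y⁆, x i⁆` (Jacobi); the same for the `x'`:
`⁅⁅y, x' i⁆, x' k⁆ = ⁅⁅y, x' k⁆, x' i⁆`. (b) `⁅T, τ i j⁆ = 2 τ (i+1) j - 2 τ i (j+1)` (Jacobi).
CLAIM(n): all `τ i j` with `i + j = n` are equal, and `⁅T, τ i j⁆ = 0` for them. `n = 0`: `τ 0 0 = T`.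
Step: by (b) and CLAIM(n), `τ (i+1) j = τ i (j+1)` for `i + j = n`, so all `τ i j` with `i + j = n + 1` are equal to
`t = τ (n+1) 0 = τ 0 (n+1)`. Let `2 c = ⁅T, t⁆`. By (b) for `i + j = n + 1`: `τ (i+1) j - τ i (j+1) = c`; summing,
`τ (n+2) 0 - τ 0 (n+2) = (n+2) c`. On the other hand `⁅T, t⁆ = ⁅⁅b, b'⁆, t⁆ = ⁅b, ⁅b', t⁆⁆ - ⁅b', ⁅b, t⁆⁆`; by (a)
`⁅t, b⁆ = ⁅⁅x (n+1), b'⁆, b⁆ = ⁅⁅b, b'⁆, x (n+1)⁆ = 2 x (n+2)` and `⁅t, b'⁆ = ⁅⁅b, x' (n+1)⁆, b'⁆ = ⁅⁅b, b'⁆, x' (n+1)⁆ =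
- 2 x' (n+2)`; so `⁅T, t⁆ = 2 ⁅b, x' (n+2)⁆ + 2 ⁅b', x (n+2)⁆ = 2 τ 0 (n+2) - 2 τ (n+2) 0 = - 2 (n+2) c`. Hence
`2 c = - 2 (n+2) c`, `(n+3) c = 0`, `c = 0`.
(c) `⁅τ i 0, x k⁆`: by CLAIM `ad (τ i 0)` commutes with `ad T`, so `2^k ⁅τ i 0, x k⁆ = (ad T)^k ⁅τ i 0, b⁆ = (ad T)^k ⁅T, x i⁆`
(by (a)), which is `2^(k+1) x (i+k+1)`. The same for `x'`: `⁅τ 0 j, b'⁆ = ⁅T, x' j⁆ = - 2 x' (j+1)` by (a).
-/

set_option autoImplicit false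

namespace Pool.Agent.Helper61.HP

theorem lie_powers {L : Type*} [LieRing L] [LieAlgebra ℂ L] {b b' : L} {x x' : ℕ → L}
    (hx0 : x 0 = b) (hx0' : x' 0 = b') (hx : ∀ n, ⁅⁅b, b'⁆, x n⁆ = (2 : ℂ) • x (n + 1))
    (hx' : ∀ n, ⁅⁅b, b'⁆, x' n⁆ = -((2 : ℂ) • x' (n + 1))) (hc : ∀ m n, ⁅x m, x n⁆ = 0)
    (hc' : ∀ m n, ⁅x' m, x' n⁆ = 0) :
    (∀ i j, ⁅x i, x' j⁆ = ⁅x (i + j), b'⁆) ∧ (∀ i j, ⁅⁅b, b'⁆, ⁅x i, x' j⁆⁆ = 0) ∧
      (∀ i j k, ⁅⁅x i, x' j⁆, x k⁆ = (2 : ℂ) • x (i + j + k + 1)) ∧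
      (∀ i j k, ⁅⁅x i, x' j⁆, x' k⁆ = -((2 : ℂ) • x' (i + j + k + 1))) := by
  have A1 : ∀ (i k : ℕ) (y : L), ⁅⁅x i, y⁆, x k⁆ = ⁅⁅x k, y⁆, x i⁆ := by
    intro i k y
    rw [← lie_skew ⁅x i, y⁆, ← lie_skew ⁅x k, y⁆, leibniz_lie (x i) (x k) y, hc, zero_lie, zero_add]
  have A2 : ∀ (i k : ℕ) (y : L), ⁅⁅y, x' i⁆, x' k⁆ = ⁅⁅y, x' k⁆, x' i⁆ := by
    intro i k y
    rw [lie_lie y (x' i) (x' k), hc', lie_zero, zero_sub, lie_skew]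
  have hT : ⁅x 0, x' 0⁆ = ⁅b, b'⁆ := by rw [hx0, hx0']
  have B : ∀ i j, ⁅⁅b, b'⁆, ⁅x i, x' j⁆⁆ = (2 : ℂ) • (⁅x (i + 1), x' j⁆ - ⁅x i, x' (j + 1)⁆) := by
    intro i j
    rw [leibniz_lie, hx, hx', smul_lie, lie_neg, lie_smul, smul_sub, sub_eq_add_neg]
  have two : (2 : ℂ) ≠ 0 := two_ne_zero
  have claim : ∀ n, ∀ i j, i + j = n → ⁅x i, x' j⁆ = ⁅x n, x' 0⁆ ∧
      ⁅⁅b, b'⁆, ⁅x i, x' j⁆⁆ = 0 := by
    intro n
    induction n with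
    | zero =>
      intro i j h
      obtain ⟨rfl, rfl⟩ : i = 0 ∧ j = 0 := by omega
      refine ⟨rfl, ?_⟩
      rw [hT, lie_self]
    | succ n ih =>
      have s1 : ∀ i j, i + j = n → ⁅x (i + 1), x' j⁆ = ⁅x i, x' (j + 1)⁆ := by
        intro i j h
        have h1 := (ih i j h).2
        rw [B, smul_eq_zero] at h1
        exact sub_eq_zero.1 (h1.resolve_left two)
      have s2 : ∀ j i, i + j = n + 1 → ⁅x i, x' j⁆ = ⁅x (n + 1), x' 0⁆ := by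
        intro j
        induction j with
        | zero =>
          intro i h
          obtain rfl : i = n + 1 := by omega
          rfl
        | succ j ihj =>
          intro i h
          rw [← s1 i j (by omega)]
          exact ihj (i + 1) (by omega)
      set t := ⁅x (n + 1), x' 0⁆ with ht
      have s3 : ∀ i j, i + j = n + 1 → ⁅x i, x' (j + 1)⁆ = ⁅x (i + 1), x' j⁆ -
          ((1 : ℂ) / 2) • ⁅⁅b, b'⁆, t⁆ := by
        intro i j h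
        have h1 := B i j
        rw [s2 j i h] at h1
        rw [h1, smul_smul, one_div, inv_mul_cancel₀ two, one_smul]
        abel
      have s4 : ∀ j i, i + j = n + 2 → ⁅x i, x' j⁆ = ⁅x (n + 2), x' 0⁆ -
          (j : ℂ) • (((1 : ℂ) / 2) • ⁅⁅b, b'⁆, t⁆) := by
        intro j
        induction j with
        | zero =>
          intro i h
          obtain rfl : i = n + 2 := by omega
          rw [Nat.cast_zero, zero_smul, sub_zero]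
        | succ j ihj =>
          intro i h
          rw [s3 i j (by omega), ihj (i + 1) (by omega), Nat.cast_add, Nat.cast_one, add_smul,
            one_smul]
          abel
      have s5 := s4 (n + 2) 0 (by omega)
      have c1 : ⁅t, b⁆ = (2 : ℂ) • x (n + 2) := by
        rw [ht, ← hx0, A1 (n + 1) 0 (x' 0), hT, hx]
      have c2 : ⁅t, b'⁆ = -((2 : ℂ) • x' (n + 2)) := by
        rw [← s2 (n + 1) 0 (by omega), ← hx0', A2 (n + 1) 0 (x 0), hT, hx']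
      have c3 : ⁅⁅b, b'⁆, t⁆ = (2 : ℂ) • (⁅x 0, x' (n + 2)⁆ - ⁅x (n + 2), x' 0⁆) := by
        have h1 : ⁅b', t⁆ = (2 : ℂ) • x' (n + 2) := by rw [← lie_skew, c2, neg_neg]
        have h2 : ⁅b, t⁆ = -((2 : ℂ) • x (n + 2)) := by rw [← lie_skew, c1]
        rw [lie_lie, h1, h2, lie_neg, lie_smul, lie_smul, ← hx0, ← hx0',
          ← lie_skew (x (n + 2)) (x' 0), smul_sub, smul_neg]
      have c4 : ⁅⁅b, b'⁆, t⁆ = 0 := by
        rw [s5] at c3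
        generalize ⁅⁅b, b'⁆, t⁆ = u at c3
        have h1 : u = -(((n + 2 : ℕ) : ℂ) • u) := by
          nth_rewrite 1 [c3]
          rw [sub_sub_cancel_left, smul_neg, smul_smul, smul_smul]
          congr 2
          ring
        have h2 : ((n + 2 + 1 : ℕ) : ℂ) • u = 0 := by
          rw [Nat.cast_add, Nat.cast_one, add_smul, one_smul]
          nth_rewrite 2 [h1]
          rw [add_neg_cancel]
        exact (smul_eq_zero.1 h2).resolve_left (Nat.cast_ne_zero.2 (by omega))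
      intro i j h
      refine ⟨s2 j i h, ?_⟩
      rw [s2 j i h, c4]
  have e1 : ∀ i j, ⁅x i, x' j⁆ = ⁅x (i + j), b'⁆ := by
    intro i j
    rw [(claim (i + j) i j rfl).1, hx0']
  have e2 : ∀ i j, ⁅⁅b, b'⁆, ⁅x i, x' j⁆⁆ = 0 := fun i j => (claim (i + j) i j rfl).2
  have e3 : ∀ k i, ⁅⁅x i, x' 0⁆, x k⁆ = (2 : ℂ) • x (i + k + 1) := by
    intro k
    induction k with
    | zero =>
      intro i
      rw [A1 i 0, hT, hx]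
    | succ k ih =>
      intro i
      have h1 : ⁅⁅x i, x' 0⁆, ⁅⁅b, b'⁆, x k⁆⁆ = ⁅⁅b, b'⁆, ⁅⁅x i, x' 0⁆, x k⁆⁆ := by
        rw [leibniz_lie, ← lie_skew ⁅x i, x' 0⁆ ⁅b, b'⁆, e2, neg_zero, zero_lie, zero_add]
      rw [hx, ih, lie_smul, lie_smul, hx] at h1
      exact smul_right_injective L two h1
  have e4 : ∀ k i, ⁅⁅x 0, x' i⁆, x' k⁆ = -((2 : ℂ) • x' (i + k + 1)) := by
    intro k
    induction k with
    | zero =>
      intro i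
      rw [A2 i 0, hT, hx']
    | succ k ih =>
      intro i
      have h1 : ⁅⁅x 0, x' i⁆, ⁅⁅b, b'⁆, x' k⁆⁆ = ⁅⁅b, b'⁆, ⁅⁅x 0, x' i⁆, x' k⁆⁆ := by
        rw [leibniz_lie, ← lie_skew ⁅x 0, x' i⁆ ⁅b, b'⁆, e2, neg_zero, zero_lie, zero_add]
      rw [hx', ih, lie_neg, lie_neg, lie_smul, lie_smul, hx', smul_neg, neg_neg] at h1
      have h2 : (2 : ℂ) • ⁅⁅x 0, x' i⁆, x' (k + 1)⁆ = (2 : ℂ) • (-((2 : ℂ) • x' (i + k + 1 + 1))) := by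
        rw [smul_neg, ← h1, neg_neg]
      exact smul_right_injective L two h2
  refine ⟨e1, e2, ?_, ?_⟩
  · intro i j k
    rw [(claim (i + j) i j rfl).1, e3]
  · intro i j k
    rw [(claim (i + j) i j rfl).1, ← (claim (i + j) 0 (i + j) (by omega)).1, e4]

end Pool.Agent.Helper61.HP
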