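import Pool.Agent.Helper61.HO.LinkSkew
import Pool.Agent.Helper61.HO.GradApi
import Pool.Agent.Helper61.HO.DenseHerm

/-!
# HO-33  The link between the extreme eigenspaces

`Ug S a b = (2 S - (a + b)) / (a - b)`, `Pg p a b = p a + p b`, `a > b` the extreme weights.

PROOFS. `Ug_p`: `U p a = p a`, `U p b = - p b` (`Grad.eig`), so `U (U (p a + p b)) = p a + p b`. `maps`: let `D` be in the link,
`p b x = x`: `U x = - x`, `U (D x) = - D (U x) = D x`, and `D x = (p a + p b) (D x)`, `U (D x) = p a D x - p b D x`; so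
`p b D x = 0`, `p a D x = D x`. The same for the other direction.
`dense`: let `p b x = x ≠ 0`, `p a y = y`. `dense_herm` with the hermitian operator `A = S - b` (`A x = 0`) and
`u = y / (a - b)`, `A u = y`: `K` hermitian with `‖K x - y‖ < ε / (‖p a‖ + 1)`. `wt N p (a - b) K = p a K p b` (the extreme
weights: `p (j + (a - b)) K p j ≠ 0` only for `j = b`), `wt N p (b - a) K = p b K p a`. `D = p a K p b - p b K p a` is skew
(`Pr.wt` for `Pr K K`, `Pr.skew`, `hherm`). `U D = p a K p b + p b K p a = - D U`; `Pg D = D = D Pg`. `D x = p a K x`,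
`‖D x - y‖ = ‖p a (K x - y)‖ < ε`. The other direction: `A = S - a`, `u = y / (b - a)`, and the same `D`.
-/

set_option autoImplicit false

open Filter Topology

namespace Pool.Agent.Helper61.HP

universe u

variable {E : Type u} [NormedAddCommGroup E] [NormedSpace ℂ E]

/-- the hermitian operator which is `1` on the eigenspace of `a` and `-1` on that of `b` -/
noncomputable def Ug (S : E →L[ℂ] E) (a b : ℤ) : E →L[ℂ] E :=
  (((2 / ((a : ℝ) - b) : ℝ)) : ℂ) • S - ((((a : ℝ) + b) / ((a : ℝ) - b) : ℝ) : ℂ) • 1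

/-- the fixed vectors of an operator -/
def Fix (q : E →L[ℂ] E) : Submodule ℂ E where
  carrier := {y | q y = y}
  add_mem' := by
    intro x y hx hy
    change q (x + y) = x + y
    rw [map_add, hx, hy]
  zero_mem' := map_zero _
  smul_mem' := by
    intro c x hx
    change q (c • x) = c • x
    rw [map_smul, hx]

variable {S : E →L[ℂ] E} {N : ℕ} {p : ℤ → E →L[ℂ] E} {a b : ℤ}

theorem herm_Ug (hS : Herm S) (a b : ℤ) : Herm (Ug S a b) := by
  unfold Ug
  exact (hS.smul _).sub (Herm.one.smul _)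

theorem Ug_p (hG : Grad S N p) (hab : b < a) : Ug S a b * p a = p a ∧ p a * Ug S a b = p a ∧
    Ug S a b * p b = -p b ∧ p b * Ug S a b = -p b := by
  have hne : ((a : ℂ) - (b : ℂ)) ≠ 0 := by
    intro h
    have h1 : (a : ℂ) = (b : ℂ) := sub_eq_zero.1 h
    have h2 : a = b := by exact_mod_cast h1
    omega
  have e1 : (((2 / ((a : ℝ) - b) : ℝ)) : ℂ) * (a : ℂ) -
      ((((a : ℝ) + b) / ((a : ℝ) - b) : ℝ) : ℂ) = 1 := by
    push_cast
    field_simp
    ring
  have e2 : (((2 / ((a : ℝ) - b) : ℝ)) : ℂ) * (b : ℂ) -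
      ((((a : ℝ) + b) / ((a : ℝ) - b) : ℝ) : ℂ) = -1 := by
    push_cast
    field_simp
    ring
  unfold Ug
  refine ⟨?_, ?_, ?_, ?_⟩
  · rw [sub_mul, smul_mul_assoc, smul_mul_assoc, one_mul, hG.eig, smul_smul, ← sub_smul, e1,
      one_smul]
  · rw [mul_sub, mul_smul_comm, mul_smul_comm, mul_one, hG.eig', smul_smul, ← sub_smul, e1,
      one_smul]
  · rw [sub_mul, smul_mul_assoc, smul_mul_assoc, one_mul, hG.eig, smul_smul, ← sub_smul, e2,
      neg_smul, one_smul]
  · rw [mul_sub, mul_smul_comm, mul_smul_comm, mul_one, hG.eig', smul_smul, ← sub_smul, e2,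
      neg_smul, one_smul]

theorem Ug_Ug (hG : Grad S N p) (hab : b < a) :
    Ug S a b * (Ug S a b * (p a + p b)) = p a + p b := by
  obtain ⟨h1, -, h2, -⟩ := Ug_p hG hab
  rw [mul_add, h1, h2, mul_add, h1, mul_neg, h2, neg_neg]

theorem link_maps (hG : Grad S N p) (hab : b < a) :
    Maps (LS (Ug S a b) ∅ ∅ (p a + p b)) (Fix (p b)) (Fix (p a)) := by
  obtain ⟨h1, -, h2, -⟩ := Ug_p hG hab
  have h1' : ∀ x : E, Ug S a b (p a x) = p a x := fun x => by
    have h := congrArg (fun F : E →L[ℂ] E => F x) h1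
    simpa only [mul_apply_eq_comp] using h
  have h2' : ∀ x : E, Ug S a b (p b x) = -p b x := fun x => by
    have h := congrArg (fun F : E →L[ℂ] E => F x) h2
    simpa only [mul_apply_eq_comp, ContinuousLinearMap.neg_apply] using h
  have hself : ∀ w : E, w = -w → w = 0 := by
    intro w hw
    have h3 : (2 : ℂ) • w = 0 := by
      rw [two_smul]
      nth_rewrite 1 [hw]
      exact neg_add_cancel w
    rcases smul_eq_zero.1 h3 with h4 | h4
    · norm_num at h4
    · exact h4
  refine ⟨?_, ?_⟩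
  · rintro D ⟨-, hUD, -, -, hfD, -⟩ x hx
    have hx' : p b x = x := hx
    change p a (D x) = D x
    have hUx : Ug S a b x = -x := by
      rw [← hx', h2', hx']
    have hUDx : Ug S a b (D x) = D x := by
      have h := congrArg (fun F : E →L[ℂ] E => F x) hUD
      simp only [mul_apply_eq_comp, ContinuousLinearMap.neg_apply] at h
      rw [h, hUx, map_neg, neg_neg]
    have hfx : p a (D x) + p b (D x) = D x := by
      have h := congrArg (fun F : E →L[ℂ] E => F x) hfD
      simpa only [mul_apply_eq_comp, ContinuousLinearMap.add_apply] using h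
    have h3 : Ug S a b (D x) = p a (D x) - p b (D x) := by
      nth_rewrite 1 [← hfx]
      rw [map_add, h1', h2', ← sub_eq_add_neg]
    rw [hUDx] at h3
    have h4 : p b (D x) = 0 := by
      refine hself _ ?_
      have h5 : p a (D x) + p b (D x) = p a (D x) - p b (D x) := hfx.trans h3
      rw [sub_eq_add_neg] at h5
      exact add_left_cancel h5
    rw [h4, add_zero] at hfx
    exact hfx
  · rintro D ⟨-, hUD, -, -, hfD, -⟩ x hx
    have hx' : p a x = x := hx
    change p b (D x) = D x
    have hUx : Ug S a b x = x := by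
      rw [← hx', h1', hx']
    have hUDx : Ug S a b (D x) = -D x := by
      have h := congrArg (fun F : E →L[ℂ] E => F x) hUD
      simp only [mul_apply_eq_comp, ContinuousLinearMap.neg_apply] at h
      rw [h, hUx]
    have hfx : p a (D x) + p b (D x) = D x := by
      have h := congrArg (fun F : E →L[ℂ] E => F x) hfD
      simpa only [mul_apply_eq_comp, ContinuousLinearMap.add_apply] using h
    have h3 : Ug S a b (D x) = p a (D x) - p b (D x) := by
      nth_rewrite 1 [← hfx]
      rw [map_add, h1', h2', ← sub_eq_add_neg]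
    rw [hUDx] at h3
    have h4 : p a (D x) = 0 := by
      refine hself _ ?_
      have h5 : -(p a (D x) + p b (D x)) = p a (D x) - p b (D x) := by rw [hfx]; exact h3
      rw [neg_add, sub_eq_add_neg] at h5
      exact (add_right_cancel h5).symm
    rw [h4, zero_add] at hfx
    exact hfx

private theorem wt_top (hG : Grad S N p) (ha : ∀ j, a < j → p j = 0)
    (hb : ∀ j, j < b → p j = 0) (K : E →L[ℂ] E) : wt N p (a - b) K = p a * K * p b := by
  unfold wt
  rw [Finset.sum_eq_single b]
  · congr 2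
    congr 1
    ring
  · intro j _ hj
    rcases lt_or_gt_of_ne hj with h | h
    · rw [hb j h, mul_zero]
    · rw [ha (j + (a - b)) (by omega), zero_mul, zero_mul]
  · intro h
    rw [hG.supp b ?_, mul_zero]
    by_contra h'
    push Not at h'
    exact h (Finset.mem_Icc.2 (abs_le.1 h'))

private theorem wt_bot (hG : Grad S N p) (ha : ∀ j, a < j → p j = 0)
    (hb : ∀ j, j < b → p j = 0) (K : E →L[ℂ] E) : wt N p (-(a - b)) K = p b * K * p a := by
  unfold wt
  rw [Finset.sum_eq_single a]
  · congr 2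
    congr 1
    ring
  · intro j _ hj
    rcases lt_or_gt_of_ne hj with h | h
    · rw [hb (j + -(a - b)) (by omega), zero_mul, zero_mul]
    · rw [ha j h, mul_zero]
  · intro h
    rw [hG.supp a ?_, mul_zero]
    by_contra h'
    push Not at h'
    exact h (Finset.mem_Icc.2 (abs_le.1 h'))

variable [CompleteSpace E] [TopologicalSpace.SeparableSpace E]

omit [TopologicalSpace.SeparableSpace E] in
private theorem mem_link (hG : Grad S N p) (hab : b < a) (ha : ∀ j, a < j → p j = 0)
    (hb : ∀ j, j < b → p j = 0) {K : E →L[ℂ] E} (hK : Herm K) :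
    p a * K * p b - p b * K * p a ∈ LS (Ug S a b) ∅ ∅ (p a + p b) := by
  obtain ⟨h1, h1', h2, h2'⟩ := Ug_p hG hab
  have hne : a ≠ b := by omega
  have hskew : Skew (p a * K * p b - p b * K * p a) := by
    have h := Pr.wt hherm hG (show S ∈ {H : E →L[ℂ] E | Herm H} from hG.herm)
      (Pr.of_mem hherm (show K ∈ {H : E →L[ℂ] E | Herm H} from hK)) (a - b)
    rw [wt_top hG ha hb, wt_bot hG ha hb] at h
    exact Pr.skew hherm h
  refine ⟨hskew, ?_, fun T hT => absurd hT (Set.notMem_empty T),
    fun T hT => absurd hT (Set.notMem_empty T), ?_, ?_⟩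
  · have e1 : Ug S a b * (p a * K * p b - p b * K * p a) = p a * K * p b + p b * K * p a := by
      rw [mul_sub, ← mul_assoc, ← mul_assoc, h1, ← mul_assoc, ← mul_assoc, h2, neg_mul, neg_mul,
        sub_neg_eq_add]
    have e2 : (p a * K * p b - p b * K * p a) * Ug S a b =
        -(p a * K * p b + p b * K * p a) := by
      rw [sub_mul, mul_assoc, h2', mul_assoc (p b * K), h1', mul_neg, neg_add, sub_eq_add_neg]
    rw [e1, e2, neg_neg]
  · rw [add_mul, mul_sub, mul_sub]
    simp only [← mul_assoc]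
    rw [hG.idem a, hG.idem b, hG.orth a b hne, hG.orth b a hne.symm]
    simp only [zero_mul, sub_zero, zero_sub]
    rw [← sub_eq_add_neg]
  · rw [mul_add, sub_mul, sub_mul, mul_assoc _ (p b) (p a), mul_assoc _ (p b) (p b),
      mul_assoc _ (p a) (p a), mul_assoc _ (p a) (p b), hG.idem a, hG.idem b,
      hG.orth a b hne, hG.orth b a hne.symm]
    simp only [mul_zero, sub_zero, zero_sub]
    rw [add_comm, ← sub_eq_add_neg]

theorem link_dense (htr : Transitive E) (hG : Grad S N p) (hab : b < a)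
    (ha : ∀ j, a < j → p j = 0) (hb : ∀ j, j < b → p j = 0) :
    DenseOn (LS (Ug S a b) ∅ ∅ (p a + p b)) (Fix (p b)) (Fix (p a)) ∧
      DenseOn (LS (Ug S a b) ∅ ∅ (p a + p b)) (Fix (p a)) (Fix (p b)) := by
  have hne : ((a : ℂ) - (b : ℂ)) ≠ 0 := by
    intro h
    have h1 : (a : ℂ) = (b : ℂ) := sub_eq_zero.1 h
    have h2 : a = b := by exact_mod_cast h1
    omega
  have hab' : a ≠ b := by omega
  have happ : ∀ (c d : ℤ) (x : E), c ≠ d → p c (p d x) = 0 := by
    intro c d x hcd
    have h := congrArg (fun F : E →L[ℂ] E => F x) (hG.orth c d hcd)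
    simpa only [mul_apply_eq_comp, ContinuousLinearMap.zero_apply] using h
  have hH : ∀ c : ℤ, Herm (S - ((c : ℝ) : ℂ) • (1 : E →L[ℂ] E)) := fun c =>
    hG.herm.sub (Herm.one.smul _)
  have hval : ∀ (c : ℤ) (x : E), (S - ((c : ℝ) : ℂ) • (1 : E →L[ℂ] E)) x = S x - (c : ℂ) • x := by
    intro c x
    rw [ContinuousLinearMap.sub_apply, ContinuousLinearMap.smul_apply,
      ContinuousLinearMap.one_apply]
    push_cast
    rfl
  refine ⟨?_, ?_⟩
  · intro x hx hx0 y hy ε hε
    have hx' : p b x = x := hx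
    have hy' : p a y = y := hy
    have hpos : 0 < ‖p a‖ + 1 := by positivity
    have hA0 : (S - ((b : ℝ) : ℂ) • (1 : E →L[ℂ] E)) x = 0 := by
      rw [hval, (hG.fix_iff b x).1 hx', sub_self]
    have hAu : (S - ((b : ℝ) : ℂ) • (1 : E →L[ℂ] E)) (((a : ℂ) - b)⁻¹ • y) = y := by
      rw [hval, map_smul, (hG.fix_iff a y).1 hy', smul_comm (b : ℂ), ← smul_sub, ← sub_smul,
        smul_smul, inv_mul_cancel₀ hne, one_smul]
    obtain ⟨K, hK, hKx⟩ := dense_herm htr (hH b) hA0 hx0 (((a : ℂ) - b)⁻¹ • y)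
      (div_pos hε hpos)
    rw [hAu] at hKx
    refine ⟨_, mem_link hG hab ha hb hK, ?_⟩
    have h1 : (p a * K * p b - p b * K * p a) x = p a (K x) := by
      rw [ContinuousLinearMap.sub_apply]
      simp only [mul_apply_eq_comp]
      have h3 : p a x = 0 := by
        rw [← hx']
        exact happ a b x hab'
      rw [hx', h3, map_zero, map_zero, sub_zero]
    rw [h1]
    calc ‖p a (K x) - y‖ = ‖p a (K x - y)‖ := by rw [map_sub, hy']
      _ ≤ ‖p a‖ * ‖K x - y‖ := (p a).le_opNorm _
      _ ≤ (‖p a‖ + 1) * ‖K x - y‖ := by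
          refine mul_le_mul_of_nonneg_right ?_ (norm_nonneg _)
          linarith
      _ < (‖p a‖ + 1) * (ε / (‖p a‖ + 1)) := mul_lt_mul_of_pos_left hKx hpos
      _ = ε := by field_simp
  · intro x hx hx0 y hy ε hε
    have hx' : p a x = x := hx
    have hy' : p b y = y := hy
    have hpos : 0 < ‖p b‖ + 1 := by positivity
    have hA0 : (S - ((a : ℝ) : ℂ) • (1 : E →L[ℂ] E)) x = 0 := by
      rw [hval, (hG.fix_iff a x).1 hx', sub_self]
    have hAu : (S - ((a : ℝ) : ℂ) • (1 : E →L[ℂ] E)) (((a : ℂ) - b)⁻¹ • y) = -y := by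
      rw [hval, map_smul, (hG.fix_iff b y).1 hy', smul_comm (a : ℂ), ← smul_sub, ← sub_smul,
        smul_smul]
      have h3 : ((a : ℂ) - b)⁻¹ * ((b : ℂ) - a) = -1 := by
        field_simp
        ring
      rw [h3, neg_smul, one_smul]
    obtain ⟨K, hK, hKx⟩ := dense_herm htr (hH a) hA0 hx0 (((a : ℂ) - b)⁻¹ • y)
      (div_pos hε hpos)
    rw [hAu] at hKx
    refine ⟨_, mem_link hG hab ha hb hK, ?_⟩
    have h1 : (p a * K * p b - p b * K * p a) x = -p b (K x) := by
      rw [ContinuousLinearMap.sub_apply]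
      simp only [mul_apply_eq_comp]
      have h3 : p b x = 0 := by
        rw [← hx']
        exact happ b a x hab'.symm
      rw [hx', h3, map_zero, map_zero, zero_sub]
    rw [h1]
    calc ‖-p b (K x) - y‖ = ‖p b (K x - -y)‖ := by
          rw [map_sub, map_neg, hy', ← norm_neg]
          congr 1
          abel
      _ ≤ ‖p b‖ * ‖K x - -y‖ := (p b).le_opNorm _
      _ ≤ (‖p b‖ + 1) * ‖K x - -y‖ := by
          refine mul_le_mul_of_nonneg_right ?_ (norm_nonneg _)
          linarith
      _ < (‖p b‖ + 1) * (ε / (‖p b‖ + 1)) := mul_lt_mul_of_pos_left hKx hpos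
      _ = ε := by field_simp

end Pool.Agent.Helper61.HP
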