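import Pool.Agent.Helper61.HO.WLink
import Pool.Agent.Helper61.HP.LSLink

/-!
# HO-31  The standard weak links

PROOF of `skew_tri'`. As `skew_tri` in HP.TripleSkew, with `U (U X) = X` only for `X = A`, `B`. In detail: `i U A` is
skew (`skew_phase`); `U A A`, `U (A B + B A)` are hermitian (`skew_square` and polarisation). `[i U A A, B] =
i (U A A B + U B A A)` (since `B U = - U B`) is skew and anticommutes with `U`; `skew_phase` for it: `i U (i U (A A B + B A A)) =
- (A A B + B A A)` is skew (`U U A = A`, `U U B = B`). Also `[A, [A, B]] = A A B - 2 A B A + B A A` is skew (`Skew.lie`). So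
`2 A B A = (A A B + B A A) - [A, [A, B]]` is skew.

PROOF of `LS_wlink`. As `LS_link` in HP.LSLink; for `D ∈ LS U C A f`: `U (U D) = U (U (f D)) = f D = D`. The operator `A B A` is
skew by `skew_tri'`.
-/

set_option autoImplicit false

open Filter Topology

namespace Pool.Agent.Helper61.HP

universe u

variable {E : Type u} [NormedAddCommGroup E] [NormedSpace ℂ E] [CompleteSpace E]

omit [CompleteSpace E] in
private lemma anti_tri {S A B : E →L[ℂ] E} (hA : S * A = -(A * S)) (hB : S * B = -(B * S)) :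
    S * (A * B * A) = -(A * B * A * S) := by
  calc S * (A * B * A) = (S * A) * B * A := by simp only [mul_assoc]
    _ = -(A * (S * B) * A) := by rw [hA]; simp only [neg_mul, mul_assoc]
    _ = A * B * (S * A) := by rw [hB]; simp only [mul_neg, neg_mul, neg_neg, mul_assoc]
    _ = -(A * B * A * S) := by rw [hA]; simp only [mul_neg, mul_assoc]

omit [CompleteSpace E] in
private lemma anti_two {S A B : E →L[ℂ] E} (hA : S * A = -(A * S)) (hB : S * B = -(B * S)) :
    S * (A * B) = A * B * S := by
  calc S * (A * B) = (S * A) * B := by simp only [mul_assoc]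
    _ = -(A * (S * B)) := by rw [hA]; simp only [neg_mul, mul_assoc]
    _ = A * B * S := by rw [hB]; simp only [mul_neg, neg_neg, mul_assoc]

omit [CompleteSpace E] in
private lemma anti_lie {S A B : E →L[ℂ] E} (hA : S * A = -(A * S)) (hB : S * B = -(B * S)) :
    S * (A * B - B * A) = (A * B - B * A) * S := by
  rw [mul_sub, sub_mul, anti_two hA hB, anti_two hB hA]

omit [CompleteSpace E] in
private lemma conj_anti {S X Z Y : E →L[ℂ] E} (hX : S * X = X * S) (hY : S * Y = Y * S)
    (hZ : S * Z = -(Z * S)) : S * (X * Z * Y) = -(X * Z * Y * S) := by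
  calc S * (X * Z * Y) = (S * X) * Z * Y := by simp only [mul_assoc]
    _ = X * (S * Z) * Y := by rw [hX]; simp only [mul_assoc]
    _ = -(X * Z * (S * Y)) := by rw [hZ]; simp only [mul_neg, neg_mul, mul_assoc]
    _ = -(X * Z * Y * S) := by rw [hY]; simp only [mul_assoc]

theorem skew_tri' {U A B : E →L[ℂ] E} (hU : Herm U) (hA : Skew A) (hB : Skew B)
    (hUA : U * A = -(A * U)) (hUB : U * B = -(B * U)) (hA2 : U * (U * A) = A)
    (hB2 : U * (U * B) = B) : Skew (A * B * A) := by
  have hAU : A * U = -(U * A) := by rw [hUA, neg_neg]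
  have hBU : B * U = -(U * B) := by rw [hUB, neg_neg]
  have hAU1 : ∀ x : E →L[ℂ] E, A * (U * x) = -(U * (A * x)) := by
    intro x
    rw [← mul_assoc, hAU, neg_mul, mul_assoc]
  have hBU1 : ∀ x : E →L[ℂ] E, B * (U * x) = -(U * (B * x)) := by
    intro x
    rw [← mul_assoc, hBU, neg_mul, mul_assoc]
  have hA3 : ∀ x : E →L[ℂ] E, U * (U * (A * x)) = A * x := by
    intro x
    rw [← mul_assoc U A x, ← mul_assoc U (U * A) x, hA2]
  have hB3 : ∀ x : E →L[ℂ] E, U * (U * (B * x)) = B * x := by
    intro x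
    rw [← mul_assoc U B x, ← mul_assoc U (U * B) x, hB2]
  obtain ⟨Z, hZ⟩ : ∃ Z, Z = A * (B * A) + A * (B * A) + B * (A * A) + A * (A * B) := ⟨_, rfl⟩
  have hZU : Z * U = -(U * Z) := by
    rw [hZ]
    simp only [mul_add, add_mul, mul_assoc, hAU, hBU, hAU1, hBU1, mul_neg, neg_neg, neg_add_rev]
    abel
  have hUUZ : U * (U * Z) = Z := by
    rw [hZ]
    simp only [mul_add, hA3, hB3]
  have h2 := Skew.lie hA (skew_phase hU hB hUB)
  have e2 : A * (Complex.I • (U * B)) - (Complex.I • (U * B)) * A =
      -(Complex.I • (U * (A * B + B * A))) := by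
    rw [smul_mul_assoc, mul_smul_comm, hAU1, mul_add, mul_assoc]
    module
  rw [e2] at h2
  have h3 := Skew.lie h2 hA
  have e3 : -(Complex.I • (U * (A * B + B * A))) * A - A * -(Complex.I • (U * (A * B + B * A))) =
      -(Complex.I • (U * Z)) := by
    rw [neg_mul, mul_neg, smul_mul_assoc, mul_smul_comm, hAU1, hZ]
    simp only [mul_add, add_mul, mul_assoc]
    module
  rw [e3] at h3
  have h4 := (Skew.lie hU h3).smul (1 / 2)
  have e4 : (((1 / 2 : ℝ) : ℂ)) • ((Complex.I • U) * -(Complex.I • (U * Z)) -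
      -(Complex.I • (U * Z)) * (Complex.I • U)) = Z := by
    rw [neg_mul, mul_neg, smul_mul_assoc, mul_smul_comm, smul_mul_assoc, mul_smul_comm,
      smul_smul, smul_smul, Complex.I_mul_I, hUUZ, mul_assoc, hZU, mul_neg, hUUZ]
    push_cast
    module
  rw [e4] at h4
  have h5 := Skew.lie hA (Skew.lie hA hB)
  have h6 := (h4.sub h5).smul (1 / 4)
  have e6 : (((1 / 4 : ℝ) : ℂ)) • (Z - (A * (A * B - B * A) - (A * B - B * A) * A)) =
      A * B * A := by
    rw [hZ]
    simp only [mul_sub, sub_mul, mul_assoc]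
    push_cast
    module
  rwa [e6] at h6

theorem LS_wlink {U f : E →L[ℂ] E} (hU : Herm U) (hf : U * (U * f) = f)
    (C A : Set (E →L[ℂ] E)) : WLink (LS U C A f) := by
  have hUU : ∀ D : E →L[ℂ] E, f * D = D → U * (U * D) = D := by
    intro D hD
    rw [← hD, ← mul_assoc U f D, ← mul_assoc U (U * f) D, hf]
  refine ⟨fun D hD => hD.1, ?_, ?_, ?_, ?_, ?_, ?_⟩
  · exact ⟨Skew.zero, by simp, fun S _ => by simp, fun S _ => by simp, by simp, by simp⟩
  · rintro D ⟨h1, h2, h3, h4, h5, h6⟩ D' ⟨h1', h2', h3', h4', h5', h6'⟩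
    refine ⟨h1.add h1', ?_, fun S hS => ?_, fun S hS => ?_, ?_, ?_⟩
    · rw [mul_add, add_mul, h2, h2']; abel
    · rw [mul_add, add_mul, h3 S hS, h3' S hS]
    · rw [mul_add, add_mul, h4 S hS, h4' S hS]; abel
    · rw [mul_add, h5, h5']
    · rw [add_mul, h6, h6']
  · rintro t D ⟨h1, h2, h3, h4, h5, h6⟩
    refine ⟨h1.smul t, ?_, fun S hS => ?_, fun S hS => ?_, ?_, ?_⟩
    · rw [mul_smul_comm, smul_mul_assoc, h2, smul_neg]
    · rw [mul_smul_comm, smul_mul_assoc, h3 S hS]
    · rw [mul_smul_comm, smul_mul_assoc, h4 S hS, smul_neg]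
    · rw [mul_smul_comm, h5]
    · rw [smul_mul_assoc, h6]
  · intro D L hD hDL
    refine ⟨Skew.ulim (fun n => (hD n).1) hDL, ?_, fun S hS => ?_, fun S hS => ?_, ?_, ?_⟩
    · have h1 := hDL.mul_left U
      have h2 := (hDL.mul_right U).neg
      have h3 : (fun n => U * D n) = fun n => -(D n * U) := by
        funext n
        exact (hD n).2.1
      rw [h3] at h1
      exact h1.unique h2
    · have h1 := hDL.mul_left S
      have h2 := hDL.mul_right S
      have h3 : (fun n => S * D n) = fun n => D n * S := by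
        funext n
        exact (hD n).2.2.1 S hS
      rw [h3] at h1
      exact h1.unique h2
    · have h1 := hDL.mul_left S
      have h2 := (hDL.mul_right S).neg
      have h3 : (fun n => S * D n) = fun n => -(D n * S) := by
        funext n
        exact (hD n).2.2.2.1 S hS
      rw [h3] at h1
      exact h1.unique h2
    · have h1 := hDL.mul_left f
      have h3 : (fun n => f * D n) = D := by
        funext n
        exact (hD n).2.2.2.2.1
      rw [h3] at h1
      exact h1.unique hDL
    · have h1 := hDL.mul_right f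
      have h3 : (fun n => D n * f) = D := by
        funext n
        exact (hD n).2.2.2.2.2
      rw [h3] at h1
      exact h1.unique hDL
  · rintro D ⟨h1, h2, h3, h4, h5, h6⟩ D' ⟨h1', h2', h3', h4', h5', h6'⟩
    refine ⟨skew_tri' hU h1 h1' h2 h2' (hUU _ h5) (hUU _ h5'), ?_, fun S hS => ?_, fun S hS => ?_, ?_, ?_⟩
    · exact anti_tri h2 h2'
    · have hc : Commute S (D * D' * D) :=
        ((show Commute S D from h3 S hS).mul_right (h3' S hS)).mul_right (h3 S hS)
      exact hc
    · exact anti_tri (h4 S hS) (h4' S hS)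
    · rw [← mul_assoc, ← mul_assoc, h5]
    · rw [mul_assoc, h6]
  · rintro D ⟨h1, h2, h3, h4, h5, h6⟩ D' ⟨h1', h2', h3', h4', h5', h6'⟩ Z
      ⟨k1, k2, k3, k4, k5, k6⟩ s
    obtain ⟨K, hK⟩ : ∃ K : E →L[ℂ] E, K = D * D' - D' * D := ⟨_, rfl⟩
    have hKs : Skew K := by rw [hK]; exact h1.lie h1'
    have hUK : U * K = K * U := by rw [hK]; exact anti_lie h2 h2'
    rw [← hK]
    refine ⟨k1.conj_ex hKs s, ?_, fun S hS => ?_, fun S hS => ?_, ?_, ?_⟩
    · exact conj_anti (ex_comm hUK s) (ex_comm hUK (-s)) k2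
    · have hSK : S * K = K * S := by
        rw [hK]
        have hc : Commute S (D * D' - D' * D) :=
          ((show Commute S D from h3 S hS).mul_right (h3' S hS)).sub_right
            ((show Commute S D' from h3' S hS).mul_right (h3 S hS))
        exact hc
      have hc : Commute S (ex s K * Z * ex (-s) K) :=
        ((show Commute S (ex s K) from ex_comm hSK s).mul_right (k3 S hS)).mul_right
          (ex_comm hSK (-s))
      exact hc
    · have hSK : S * K = K * S := by rw [hK]; exact anti_lie (h4 S hS) (h4' S hS)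
      exact conj_anti (ex_comm hSK s) (ex_comm hSK (-s)) (k4 S hS)
    · have hfK : f * K = K * f := by
        rw [hK, mul_sub, sub_mul, ← mul_assoc, ← mul_assoc, h5, h5', mul_assoc, mul_assoc, h6, h6']
      rw [← mul_assoc, ← mul_assoc, ex_comm hfK s, mul_assoc (ex s K), k5]
    · have hfK : f * K = K * f := by
        rw [hK, mul_sub, sub_mul, ← mul_assoc, ← mul_assoc, h5, h5', mul_assoc, mul_assoc, h6, h6']
      rw [mul_assoc, ← ex_comm hfK (-s), ← mul_assoc, mul_assoc (ex s K), k6]

end Pool.Agent.Helper61.HP
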