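import Pool.Agent.Helper61.HO.SpNorm
import Pool.Agent.Helper61.HP.SkewConj
import Pool.Agent.Helper59.Rotation.Trans

/-!
# HO-11  There are non-commuting hermitian operators

PROOF of `exists_two_tests`. `D` hermitian, not a scalar. Let `S` be the set of the pairs `(α, β)` with `SpIn D α β y` for
all `y`; `(-‖D‖, ‖D‖) ∈ S` (`of_norm`). Let `β₀` be the infimum of the `β` with `∀ y, SpIn D (-‖D‖) β y` and `α₀` the
supremum of the `α` with `∀ y, SpIn D α ‖D‖ y` (`E` is not trivial; bounded: if `β < -‖D‖`, the interval is empty and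
`y = 0` for all `y` by `SpIn.empty`, but then `D = 0`). For every `η > 0`: `SpIn D (α₀ - η) (β₀ + η) y` for all `y`
(`mono`, `inter`; if `β₀ + η < α₀ - η`, then `SpIn.disjoint` shows that `E` is trivial). If `β₀ ≤ α₀`, then for every
`η > 0` all `y` are in the subspace of `[α₀ - η, α₀ + η]`, so `‖D y - α₀ y‖ ≤ C η ‖y‖` (`exists_spec_const`) and
`D = α₀`: contradiction. So `α₀ < β₀`; let `m = (α₀ + β₀)/2`, `η = (β₀ - α₀)/8`. By the definition of `β₀` not all `y` are in
the subspace of `[-‖D‖, m + η]`: some test `f` vanishes near it, `Phi f y ≠ 0`; replace `f` by its part `f₂` (`Test.split`),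
which vanishes for `x ≤ m + η` (the other part `f₁` vanishes for `x ≥ - ‖D‖ - δ`, so near `[-‖D‖, ‖D‖]`, `Phi f₁ y = 0`).
In the same way there is `k` which vanishes for `x ≥ m - η` and `z` with `Phi k z ≠ 0`.

PROOF of `exists_noncomm`. Suppose all hermitian operators commute. Let `χ` be a test function with `χ = 1` on
`[m + η, ‖D‖ + 1]` and containing the support of `f`, `χ = 0` for `x ≤ m - η` (`exists_cutoff`). `G = Phi D χ`,
`b = Phi D f y ≠ 0`: `G b = Phi (χ f) y = b`; `z' = Phi D k z ≠ 0`: `G z' = Phi (χ k) z = 0`. The family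
`𝒞 = {T G T⁻¹ | T isometry}` (as real operators: `restrictScalars`) is bounded by `‖G‖`, commuting (`T D T⁻¹` is hermitian,
`Herm.conj`; `T G T⁻¹ = Phi (T D T⁻¹) χ`, `Phi_conj`; two commuting hermitian operators have commuting functional calculus,
`Phi_comm` twice), and for every `x` some member kills `x` and fixes a nonzero vector: `x = 0`: `G` and `b`; `x ≠ 0`: take
`T` with `T (z' / ‖z'‖) = x / ‖x‖`, `T G T⁻¹ x = 0`, `T G T⁻¹ (T b) = T b`. This contradicts
`Helper59.Rotation.false_of_commuting` (see `Pool/Agent/Shelf/MP_cc72b1_an/CommutingConjugates.lean` for a similar use).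
-/

set_option autoImplicit false

open Filter Topology

namespace Pool.Agent.Helper61.HP

universe u

variable {E : Type u} [NormedAddCommGroup E] [NormedSpace ℂ E] [CompleteSpace E]

theorem exists_two_tests {D : E →L[ℂ] E} (hD : Herm D) (hns : ∀ c : ℂ, D ≠ c • (1 : E →L[ℂ] E)) :
    ∃ (m η : ℝ) (f k : ℝ → ℂ) (y z : E), 0 < η ∧ Test f ∧ Test k ∧ (∀ x, x ≤ m + η → f x = 0) ∧
      (∀ x, m - η ≤ x → k x = 0) ∧ Phi D f y ≠ 0 ∧ Phi D k z ≠ 0 := by
  classical
  -- a nonzero vector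
  obtain ⟨v, hv⟩ : ∃ v : E, v ≠ 0 := by
    by_contra hno
    push Not at hno
    refine hns 0 ?_
    ext w
    rw [hno w, map_zero, map_zero]
  set M : ℝ := ‖D‖ with hM
  have hM0 : 0 ≤ M := norm_nonneg _
  have hall : ∀ y : E, SpIn D (-M) M y := fun y => SpIn.of_norm hD le_rfl y
  set Sb : Set ℝ := {β | ∀ y : E, SpIn D (-M) β y} with hSb
  set Sa : Set ℝ := {α | ∀ y : E, SpIn D α M y} with hSa
  have hbM : M ∈ Sb := hall
  have haM : -M ∈ Sa := hall
  have hSb_lb : ∀ β ∈ Sb, -M ≤ β := by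
    intro β hβ
    by_contra hlt
    push Not at hlt
    exact hv (SpIn.empty (hβ v) hD hlt)
  have hSa_ub : ∀ α ∈ Sa, α ≤ M := by
    intro α hα
    by_contra hlt
    push Not at hlt
    exact hv (SpIn.empty (hα v) hD hlt)
  have hbb : BddBelow Sb := ⟨-M, fun β hβ => hSb_lb β hβ⟩
  have hba : BddAbove Sa := ⟨M, fun α hα => hSa_ub α hα⟩
  set b0 : ℝ := sInf Sb with hb0
  set a0 : ℝ := sSup Sa with ha0
  have hb0M : b0 ≤ M := csInf_le hbb hbM
  have hb0M' : -M ≤ b0 := le_csInf ⟨M, hbM⟩ hSb_lb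
  have ha0M : a0 ≤ M := csSup_le ⟨-M, haM⟩ hSa_ub
  have ha0M' : -M ≤ a0 := le_csSup hba haM
  have hPb : ∀ t : ℝ, b0 < t → ∀ y : E, SpIn D (-M) t y := by
    intro t ht y
    obtain ⟨β, hβ, hlt⟩ := exists_lt_of_csInf_lt ⟨M, hbM⟩ ht
    exact (hβ y).mono le_rfl hlt.le
  have hPa : ∀ t : ℝ, t < a0 → ∀ y : E, SpIn D t M y := by
    intro t ht y
    obtain ⟨α, hα, hlt⟩ := exists_lt_of_lt_csSup ⟨-M, haM⟩ ht
    exact (hα y).mono hlt.le le_rfl
  -- the scalar case is excluded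
  have hlt : a0 < b0 := by
    by_contra hle
    push Not at hle
    obtain ⟨C, hC0, hC⟩ := exists_spec_const.{u}
    have hsp : ∀ ε : ℝ, 0 < ε → ∀ y : E, SpIn D (a0 - ε) (a0 + ε) y := by
      intro ε hε y
      have h1 := hPb (b0 + ε) (by linarith)
      have h2 := hPa (a0 - ε) (by linarith)
      have h3 : a0 - ε ≤ b0 + ε := by
        by_contra hgt
        push Not at hgt
        exact hv (SpIn.disjoint (h1 v) (h2 v) hD hgt)
      have h4 := SpIn.inter (h1 y) (h2 y) hD (by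
        refine max_le (le_min ?_ ?_) (le_min ?_ ?_)
        · linarith
        · linarith
        · exact h3
        · linarith)
      exact h4.mono (le_max_right _ _) ((min_le_left _ _).trans (by linarith))
    refine hns (a0 : ℂ) ?_
    ext y
    have h5 : ∀ ε : ℝ, 0 < ε → ‖D y - (a0 : ℂ) • y‖ ≤ C * ε * ‖y‖ := fun ε hε =>
      hC E D a0 ε y hD hε.le (hsp ε hε y)
    have hlim : Tendsto (fun ρ : ℝ => C * ρ * ‖y‖) (𝓝[>] 0) (𝓝 (C * 0 * ‖y‖)) := by
      have hc : Continuous fun ρ : ℝ => C * ρ * ‖y‖ := by fun_prop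
      exact (hc.tendsto 0).mono_left nhdsWithin_le_nhds
    have h6 : ‖D y - (a0 : ℂ) • y‖ ≤ C * 0 * ‖y‖ := by
      refine ge_of_tendsto hlim ?_
      filter_upwards [self_mem_nhdsWithin] with ρ hρ
      exact h5 ρ hρ
    rw [mul_zero, zero_mul] at h6
    have h7 := sub_eq_zero.1 (norm_le_zero_iff.1 h6)
    rw [h7]
    rfl
  set m : ℝ := (a0 + b0) / 2 with hm
  set η : ℝ := (b0 - a0) / 8 with hη
  have hη0 : 0 < η := by rw [hη]; linarith
  have hmb : m + η < b0 := by rw [hm, hη]; linarith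
  have hma : a0 < m - η := by rw [hm, hη]; linarith
  -- the first test function
  have hn1 : ¬ ∀ y : E, SpIn D (-M) (m + η) y := by
    intro h
    have h1 : b0 ≤ m + η := csInf_le hbb h
    linarith
  have hn2 : ¬ ∀ y : E, SpIn D (m - η) M y := by
    intro h
    have h1 : m - η ≤ a0 := le_csSup hba h
    linarith
  push Not at hn1 hn2
  obtain ⟨y, hy⟩ := hn1
  obtain ⟨z, hz⟩ := hn2
  unfold SpIn at hy hz
  push Not at hy hz
  obtain ⟨f, hf, hfv, hfy⟩ := hy
  obtain ⟨k, hk, hkv, hkz⟩ := hz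
  obtain ⟨δ, f₁, f₂, hδ, hf₁, hf₂, hfs, hf₁0, hf₂0⟩ := hf.split hfv (by linarith)
  obtain ⟨δ', k₁, k₂, hδ', hk₁, hk₂, hks, hk₁0, hk₂0⟩ := hk.split hkv (by linarith)
  refine ⟨m, η, f₂, k₁, y, z, hη0, hf₂, hk₁, fun x hx => hf₂0 x (by linarith),
    fun x hx => hk₁0 x (by linarith), ?_, ?_⟩
  · have h1 : Phi D f = Phi D f₁ + Phi D f₂ := by
      rw [← Phi_add hD hf₁ hf₂]
      congr 1
      funext x
      exact hfs x
    have h2 : Phi D f₁ y = 0 := by
      refine hall y f₁ hf₁ ?_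
      intro x hx
      filter_upwards [eventually_gt_nhds (show -M - δ < x by linarith [hx.1])] with w hw
      exact hf₁0 w hw.le
    rw [h1, ContinuousLinearMap.add_apply, h2, zero_add] at hfy
    exact hfy
  · have h1 : Phi D k = Phi D k₁ + Phi D k₂ := by
      rw [← Phi_add hD hk₁ hk₂]
      congr 1
      funext x
      exact hks x
    have h2 : Phi D k₂ z = 0 := by
      refine hall z k₂ hk₂ ?_
      intro x hx
      filter_upwards [eventually_lt_nhds (show x < M + δ' by linarith [hx.2])] with w hw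
      exact hk₂0 w hw.le
    rw [h1, ContinuousLinearMap.add_apply, h2, add_zero] at hkz
    exact hkz

theorem exists_noncomm [TopologicalSpace.SeparableSpace E] (htr : Transitive E)
    {D : E →L[ℂ] E} (hD : Herm D) (hns : ∀ c : ℂ, D ≠ c • (1 : E →L[ℂ] E)) :
    ∃ A B : E →L[ℂ] E, Herm A ∧ Herm B ∧ A * B ≠ B * A := by
  classical
  by_contra hno
  push Not at hno
  obtain ⟨m, η, f, k, y, z, hη, hf, hk, hf0, hk0, hfy, hkz⟩ := exists_two_tests hD hns
  -- the support of `f`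
  obtain ⟨R, hR⟩ : ∃ R : ℝ, ∀ x, R ≤ x → f x = 0 := by
    obtain ⟨R, hR⟩ := hf.2.isCompact.bddAbove
    refine ⟨R + 1, fun x hx => ?_⟩
    by_contra hne
    have h1 := hR (subset_tsupport _ hne)
    linarith
  obtain ⟨χ, -, -, hχ, -, -, hχ1, hχ0, -⟩ := exists_cutoff (m + η) R hη
  have hχf : (fun x : ℝ => (χ x : ℂ) * f x) = f := by
    funext x
    by_cases h1 : x ≤ m + η
    · rw [hf0 x h1, mul_zero]
    · by_cases h2 : x ≤ R + η
      · rw [hχ1 x (by push Not at h1; linarith) h2, Complex.ofReal_one, one_mul]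
      · rw [hR x (by push Not at h2; linarith), mul_zero]
  have hχk : (fun x : ℝ => (χ x : ℂ) * k x) = fun x : ℝ => 0 * k x := by
    funext x
    by_cases h1 : m - η ≤ x
    · rw [hk0 x h1, mul_zero, mul_zero]
    · rw [hχ0 x (by push Not at h1; linarith), Complex.ofReal_zero]
  set G : E →L[ℂ] E := Phi D (fun x : ℝ => (χ x : ℂ)) with hG
  set b : E := Phi D f y with hb
  set z' : E := Phi D k z with hz'
  have hGb : G b = b := by
    have h1 := Phi_mul hD hχ hf
    rw [hχf] at h1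
    have h2 := congrArg (fun F : E →L[ℂ] E => F y) h1
    simp only [mul_apply_eq_comp] at h2
    exact h2.symm
  have hGz : G z' = 0 := by
    have h1 := Phi_mul hD hχ hk
    rw [hχk, Phi_smul hD hk, zero_smul] at h1
    have h2 := congrArg (fun F : E →L[ℂ] E => F z) h1
    simp only [mul_apply_eq_comp] at h2
    exact h2.symm
  let S : (E ≃ₗᵢ[ℂ] E) → (E →L[ℂ] E) := fun T => (T.toContinuousLinearEquiv : E →L[ℂ] E)
  have hSS : ∀ T : E ≃ₗᵢ[ℂ] E, S T.symm * S T = 1 := by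
    intro T
    ext x
    exact T.symm_apply_apply x
  have hSS' : ∀ T : E ≃ₗᵢ[ℂ] E, S T * S T.symm = 1 := by
    intro T
    ext x
    exact T.apply_symm_apply x
  have hSn : ∀ (T : E ≃ₗᵢ[ℂ] E) (x : E), ‖S T x‖ = ‖x‖ := fun T x => T.norm_map x
  have hherm : ∀ T : E ≃ₗᵢ[ℂ] E, Herm (S T * D * S T.symm) := fun T =>
    hD.conj (hSS T) (hSS' T) (hSn T)
  have hconj : ∀ T : E ≃ₗᵢ[ℂ] E, S T * G * S T.symm =
      Phi (S T * D * S T.symm) (fun x : ℝ => (χ x : ℂ)) := fun T =>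
    Phi_conj hD hχ (hSS T) (hSS' T)
  have hcommG : ∀ T T' : E ≃ₗᵢ[ℂ] E, (S T * G * S T.symm) * (S T' * G * S T'.symm) =
      (S T' * G * S T'.symm) * (S T * G * S T.symm) := by
    intro T T'
    rw [hconj, hconj]
    have h1 := hno _ _ (hherm T) (hherm T')
    have h2 := Phi_comm (hherm T') hχ h1
    exact Phi_comm (hherm T') hχ (Phi_comm (hherm T) hχ h1.symm).symm
  refine Helper59.Rotation.false_of_commuting
    {g : E →L[ℝ] E | ∃ T : E ≃ₗᵢ[ℂ] E, ∀ x, g x = T (G (T.symm x))} ‖G‖ ?_ ?_ ?_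
  · rintro g ⟨T, hT⟩ x
    rw [hT, T.norm_map]
    refine (G.le_opNorm _).trans ?_
    rw [T.symm.norm_map]
  · rintro g ⟨T, hT⟩ g' ⟨T', hT'⟩ x
    rw [hT, hT', hT', hT]
    exact congrArg (fun F : E →L[ℂ] E => F x) (hcommG T T')
  · intro x
    let cnj : (E ≃ₗᵢ[ℂ] E) → (E →L[ℝ] E) := fun T => (S T * G * S T.symm).restrictScalars ℝ
    by_cases hx : x = 0
    · refine ⟨cnj (LinearIsometryEquiv.refl ℂ E), ⟨LinearIsometryEquiv.refl ℂ E, fun w => rfl⟩,
        by rw [hx, map_zero], b,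
        hfy, ?_⟩
      exact hGb
    · have hxn : ‖x‖ ≠ 0 := norm_ne_zero_iff.mpr hx
      have hzn : ‖z'‖ ≠ 0 := norm_ne_zero_iff.mpr hkz
      have hnz : ‖((‖z'‖⁻¹ : ℝ) : ℂ) • z'‖ = 1 := by
        rw [norm_smul, Complex.norm_real, norm_inv, norm_norm, inv_mul_cancel₀ hzn]
      have hnx : ‖((‖x‖⁻¹ : ℝ) : ℂ) • x‖ = 1 := by
        rw [norm_smul, Complex.norm_real, norm_inv, norm_norm, inv_mul_cancel₀ hxn]
      obtain ⟨T, hT⟩ := htr _ _ hnz hnx
      have hTx : T.symm x = ((‖x‖ : ℝ) : ℂ) • ((‖z'‖⁻¹ : ℝ) : ℂ) • z' := by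
        have h1 : x = ((‖x‖ : ℝ) : ℂ) • T (((‖z'‖⁻¹ : ℝ) : ℂ) • z') := by
          rw [hT, smul_smul, ← Complex.ofReal_mul, mul_inv_cancel₀ hxn, Complex.ofReal_one,
            one_smul]
        rw [← map_smul] at h1
        have h2 := congrArg T.symm h1
        rwa [T.symm_apply_apply] at h2
      refine ⟨cnj T, ⟨T, fun w => rfl⟩, ?_, T b, ?_, ?_⟩
      · change T (G (T.symm x)) = 0
        rw [hTx, G.map_smul, G.map_smul, hGz, smul_zero, smul_zero, map_zero]
      · exact (map_ne_zero_iff T T.injective).mpr hfy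
      · change T (G (T.symm (T b))) = T b
        rw [T.symm_apply_apply, hGb]

end Pool.Agent.Helper61.HP
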