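import Pool.Agent.Helper61.HO.SeqInf
import Pool.Agent.Helper61.HO.AnnComm
import Pool.Agent.Helper61.HO.ExistsCub

/-!
# HO-40  Infinite orthogonal sequences of Cubs

PROOF of `seq_fin`. Call `B` good if it is a Cub with `x ≠ 0`, `B x = x` and `x ≠ 0`, `B x = - x`. If `B` is good, `Fix (B * B)` is
finite-dimensional (hypothesis), so `Ann B` is not abelian (`ann_noncomm`), and `exists_cub_ann` gives a Cub `T` with
`B T = 0 = T B`; `B + T` is good (`Cub.add`; `T x = T (B x) = 0` for `B x = x`, and similarly for `- x`). Recursion: `B 0 = S`,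
`T n` from `B n`, `B (n+1) = B n + T n`. CLAIM: for `m < n`, `T m` is a part of `B n`, i.e. `B n * T m = T m * T m = T m * B n`.
Step: `B (n+1) T n = B n T n + T n T n = T n T n`; for `m < n`, `T n B n = 0 = B n T n` and `Cub.part` (with `X = T n`) give
`T n T m = 0 = T m T n`, so `B (n+1) T m = B n T m`. In particular `T n T m = 0 = T m T n` for `m < n`.

PROOF of `exists_orth_seq`. Two non-commuting hermitian operators are elements of `Ann 0`; `exists_cub_ann` with `S₀ = 0` gives a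
good Cub `S`. If there is a good Cub with infinite-dimensional `Eig S 1`: `seq_inf`. Otherwise for every good `S`, `Eig S 1` and
`Eig S (-1) = Eig (-S) 1` are finite-dimensional (`-S` is good), and `Fix (S * S)` is contained in their sum: `seq_fin`.
-/

set_option autoImplicit false

open Filter Topology

namespace Pool.Agent.Helper61.HP

universe u

variable {E : Type u} [NormedAddCommGroup E] [NormedSpace ℂ E] [CompleteSpace E]
  [TopologicalSpace.SeparableSpace E] {S : E →L[ℂ] E}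

private def GoodCub (B : E →L[ℂ] E) : Prop :=
  Cub B ∧ (∃ x, x ≠ 0 ∧ B x = x) ∧ (∃ x, x ≠ 0 ∧ B x = -x)

private theorem good_step (hN : Nice E) (htr : Transitive E) (hinf : ¬ FiniteDimensional ℂ E)
    (hfin : ∀ B : E →L[ℂ] E, Cub B → (∃ x, x ≠ 0 ∧ B x = x) → (∃ x, x ≠ 0 ∧ B x = -x) →
      FiniteDimensional ℂ (Fix (B * B))) (B : E →L[ℂ] E) (hB : GoodCub B) :
    ∃ T : E →L[ℂ] E, Cub T ∧ B * T = 0 ∧ T * B = 0 ∧ GoodCub (B + T) := by
  obtain ⟨hC, hp, hm⟩ := hB
  obtain ⟨T, hT, h1, h2, -, -⟩ := exists_cub_ann hN htr B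
    (ann_noncomm htr hC hp (hfin B hC hp hm) hinf)
  refine ⟨T, hT, h1, h2, hC.add hT h1 h2, ?_, ?_⟩
  · obtain ⟨x, hx0, hx⟩ := hp
    refine ⟨x, hx0, ?_⟩
    have h3 : T x = 0 := by
      have h4 : (T * B) x = T x := by
        change T (B x) = T x
        rw [hx]
      rw [← h4, h2]
      rfl
    change B x + T x = x
    rw [h3, hx, add_zero]
  · obtain ⟨x, hx0, hx⟩ := hm
    refine ⟨x, hx0, ?_⟩
    have h3 : T x = 0 := by
      have h4 : (T * B) x = - T x := by
        change T (B x) = - T x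
        rw [hx, map_neg]
      rw [h2] at h4
      have h5 : (0 : E) = - T x := h4
      rw [← neg_neg (T x), ← h5, neg_zero]
    change B x + T x = -x
    rw [h3, hx, add_zero]

theorem seq_fin (hN : Nice E) (htr : Transitive E) (hinf : ¬ FiniteDimensional ℂ E) (hS : Cub S)
    (hp : ∃ x, x ≠ 0 ∧ S x = x) (hm : ∃ x, x ≠ 0 ∧ S x = -x)
    (hfin : ∀ B : E →L[ℂ] E, Cub B → (∃ x, x ≠ 0 ∧ B x = x) → (∃ x, x ≠ 0 ∧ B x = -x) →
      FiniteDimensional ℂ (Fix (B * B))) :
    ∃ T : ℕ → (E →L[ℂ] E), (∀ n, Cub (T n)) ∧ ∀ m n, m ≠ n → T m * T n = 0 := by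
  choose! T hTC hBT hTB hG using good_step hN htr hinf hfin
  let R : ℕ → (E →L[ℂ] E) := fun n => Nat.rec S (fun _ B => B + T B) n
  have hR : ∀ n, R (n + 1) = R n + T (R n) := fun _ => rfl
  have hgood : ∀ n, GoodCub (R n) := by
    intro n
    induction n with
    | zero => exact ⟨hS, hp, hm⟩
    | succ n ih =>
      rw [hR]
      exact hG _ ih
  have hclaim : ∀ n m, m < n → R n * T (R m) = T (R m) * T (R m) ∧
      T (R m) * R n = T (R m) * T (R m) := by
    intro n
    induction n with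
    | zero =>
      intro m hm0
      exact absurd hm0 (Nat.not_lt_zero m)
    | succ n ih =>
      intro m hmn
      rw [hR, add_mul, mul_add]
      rcases Nat.lt_succ_iff_lt_or_eq.mp hmn with h | h
      · obtain ⟨h1, h2⟩ := ih m h
        obtain ⟨h3, h4⟩ := Cub.part (X := T (R n)) (hgood n).1 (hTC _ (hgood m)) h1 h2
        rw [h1, h2, h3 (hTB _ (hgood n)), h4 (hBT _ (hgood n)), add_zero]
        exact ⟨rfl, rfl⟩
      · subst h
        rw [hBT _ (hgood m), hTB _ (hgood m), zero_add]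
        exact ⟨rfl, rfl⟩
  refine ⟨fun n => T (R n), fun n => hTC _ (hgood n), fun m n hmn => ?_⟩
  rcases lt_or_gt_of_ne hmn with h | h
  · obtain ⟨h1, h2⟩ := hclaim n m h
    exact (Cub.part (X := T (R n)) (hgood n).1 (hTC _ (hgood m)) h1 h2).2 (hBT _ (hgood n))
  · obtain ⟨h1, h2⟩ := hclaim m n h
    exact (Cub.part (X := T (R m)) (hgood m).1 (hTC _ (hgood n)) h1 h2).1 (hTB _ (hgood m))

theorem exists_orth_seq (hN : Nice E) (htr : Transitive E) (hNP : NP E)
    (hinf : ¬ FiniteDimensional ℂ E)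
    (hnc : ∃ A B : E →L[ℂ] E, Herm A ∧ Herm B ∧ A * B ≠ B * A) :
    ∃ T : ℕ → (E →L[ℂ] E), (∀ n, Cub (T n)) ∧ ∀ m n, m ≠ n → T m * T n = 0 := by
  obtain ⟨A, B, hA, hB, hAB⟩ := hnc
  obtain ⟨S, hS, -, -, hp, hm⟩ := exists_cub_ann hN htr (0 : E →L[ℂ] E)
    ⟨A, ⟨hA, mul_zero _, zero_mul _⟩, B, ⟨hB, mul_zero _, zero_mul _⟩, hAB⟩
  by_cases hex : ∃ B : E →L[ℂ] E, Cub B ∧ (∃ x, x ≠ 0 ∧ B x = x) ∧ (∃ x, x ≠ 0 ∧ B x = -x) ∧
      ¬ FiniteDimensional ℂ (Eig B 1)
  · obtain ⟨B, h1, h2, h3, h4⟩ := hex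
    exact seq_inf hN htr hNP h1 h2 h3 h4
  · refine seq_fin hN htr hinf hS hp hm fun B h1 h2 h3 => ?_
    have h4 : FiniteDimensional ℂ (Eig B 1) := by
      by_contra h5
      exact hex ⟨B, h1, h2, h3, h5⟩
    have h5 : FiniteDimensional ℂ (Eig (-B) 1) := by
      by_contra h6
      refine hex ⟨-B, h1.neg, ?_, ?_, h6⟩
      · obtain ⟨x, hx0, hx⟩ := h3
        refine ⟨x, hx0, ?_⟩
        change -(B x) = x
        rw [hx, neg_neg]
      · obtain ⟨x, hx0, hx⟩ := h2
        refine ⟨x, hx0, ?_⟩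
        change -(B x) = -x
        rw [hx]
    have h6 : Fix (B * B) ≤ Eig B 1 ⊔ Eig (-B) 1 := by
      intro x hx
      have hx' : B (B x) = x := hx
      have e : x = (1 / 2 : ℂ) • (x + B x) + (1 / 2 : ℂ) • (x - B x) := by
        rw [← smul_add, add_add_sub_cancel, ← two_smul ℂ x, smul_smul]
        norm_num
      rw [e]
      refine Submodule.add_mem_sup ?_ ?_
      · change ((B - (1 : ℂ) • (1 : E →L[ℂ] E)) ((1 / 2 : ℂ) • (x + B x))) = 0
        rw [map_smul]
        change (1 / 2 : ℂ) • (B (x + B x) - (1 : ℂ) • (x + B x)) = 0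
        rw [map_add, hx', one_smul, add_comm (B x) x, sub_self, smul_zero]
      · change (((-B) - (1 : ℂ) • (1 : E →L[ℂ] E)) ((1 / 2 : ℂ) • (x - B x))) = 0
        rw [map_smul]
        change (1 / 2 : ℂ) • (-(B (x - B x)) - (1 : ℂ) • (x - B x)) = 0
        rw [map_sub, hx', one_smul, neg_sub, sub_self, smul_zero]
    exact Submodule.finiteDimensional_of_le h6

end Pool.Agent.Helper61.HP
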