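import Pool.Agent.Helper61.HO.ParAll
import Pool.Agent.Helper61.HO.SeqAll
import Pool.Agent.Helper61.HO.NonComm
import Pool.Agent.Helper61.HP.Main

/-!
# HO-48  The main theorem of project HO
-/

set_option autoImplicit false

open Filter Topology

namespace Pool.Agent.Helper61.HP

universe u

variable {E : Type u} [NormedAddCommGroup E] [NormedSpace ℂ E] [CompleteSpace E]
  [TopologicalSpace.SeparableSpace E]

/-- a non-scalar hermitian operator forces the parallelogram law -/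
theorem par_of_herm (hN : Nice E) (htr : Transitive E) (hU : Helper60.Rosenthal.UConvex E)
    {D : E →L[ℂ] E} (hD : Herm D) (hns : ∀ c : ℂ, D ≠ c • (1 : E →L[ℂ] E)) (x y : E) :
    ‖x + y‖ ^ 2 + ‖x - y‖ ^ 2 = 2 * (‖x‖ ^ 2 + ‖y‖ ^ 2) := by
  by_cases hfin : FiniteDimensional ℂ E
  · exact par_of_finiteDimensional htr x y
  by_cases hNP : NP E
  · obtain ⟨T, hT, horth⟩ := exists_orth_seq hN htr hNP hfin (exists_noncomm htr hD hns)
    exact par_of_orth_seq hN htr hU hT horth x y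
  · unfold NP at hNP
    push Not at hNP
    obtain ⟨P, hP, hP0, hP1⟩ := hNP
    exact par_of_hproj hN htr hP hP0 hP1 x y

/-- the theorem for one-parameter groups -/
theorem ho_main (htrans : ∀ x y : E, ‖x‖ = 1 → ‖y‖ = 1 → ∃ T : E ≃ₗᵢ[ℂ] E, T x = y)
    (hl1 : ¬ ∃ (J : lp (fun _ : ℕ => ℝ) 1 →L[ℝ] E) (c : ℝ), 0 < c ∧ ∀ a, c * ‖a‖ ≤ ‖J a‖)
    (D : E →L[ℂ] E) (hD : ∀ (t : ℝ) (x : E), ‖NormedSpace.exp ((t : ℂ) • D) x‖ = ‖x‖)
    (hns : ∀ c : ℂ, D ≠ c • (1 : E →L[ℂ] E)) (x y : E) :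
    ‖x + y‖ ^ 2 + ‖x - y‖ ^ 2 = 2 * (‖x‖ ^ 2 + ‖y‖ ^ 2) := by
  have hN : Nice E := nice_of_transitive htrans hl1
  have hU := uconvex_of_transitive htrans hl1
  have hsk : Skew D := skew_of_norm_ex fun t x => (hD t x).le
  have hH : Herm (-(Complex.I • D)) := by
    unfold Herm
    have e : Complex.I • -(Complex.I • D) = D := by
      rw [smul_neg, smul_smul, Complex.I_mul_I, neg_one_smul, neg_neg]
    rw [e]
    exact hsk
  refine par_of_herm hN htrans hU hH ?_ x y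
  intro c hc
  apply hns (Complex.I * c)
  have e : D = Complex.I • -(Complex.I • D) := by
    rw [smul_neg, smul_smul, Complex.I_mul_I, neg_one_smul, neg_neg]
  rw [e, hc, smul_smul]

end Pool.Agent.Helper61.HP
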