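import Pool.Agent.Helper61.HO.CubApi
import Pool.Agent.Helper60.Rosenthal.Main
import Pool.Agent.Helper61.HP.NiceOf

/-!
# HO-46  The supports of an orthogonal sequence of Cubs tend to zero

PROOF of `sq_tendsto`. `B n = ∑_(i<n) T i`; `B 0 = 0`, and for `n ≥ 1` it is a Cub (`Cub.add`, induction), `A n = B n * B n =
∑_(i<n) T i * T i`, `A m A n = A (min m n)`. `‖x - 2 A n x‖ = ‖x‖` (`Cub.norm_refl`), `‖A n x‖ ≤ ‖x‖`. Let `y ∈ E`,
`x n = A (n+1) y`, `v n = A n y = A n (x n)`, so `x n - v n = T n (T n y)`. `‖v n‖ ≤ ‖x n‖ = ‖v (n+1)‖ ≤ ‖y‖`: the norms increase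
to a limit `l`. If `l = 0`, all `x n = 0`. Otherwise, for large `n`, `x n ≠ 0`; the vectors `x n / ‖x n‖` and
`(2 v n - x n) / ‖x n‖` are unit vectors (`‖x n - 2 A n (x n)‖ = ‖x n‖`), their sum has norm `2 ‖v n‖ / ‖x n‖ → 2`, so by uniform
convexity their difference `2 (x n - v n) / ‖x n‖` tends to `0`.

`uconvex_of_transitive`: `Helper60.Rosenthal.uniform_of_transitive` (as in `nice_of_transitive`, HP.NiceOf).
-/

set_option autoImplicit false

open Filter Topology

namespace Pool.Agent.Helper61.HP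

universe u

variable {E : Type u} [NormedAddCommGroup E] [NormedSpace ℂ E] [CompleteSpace E]

/-- abstract form: an increasing sequence of vectors with reflections -/
private lemma uconvex_cauchy (hU : Helper60.Rosenthal.UConvex E) {v : ℕ → E} {M : ℝ}
    (hle : ∀ n, ‖v n‖ ≤ ‖v (n + 1)‖) (hM : ∀ n, ‖v n‖ ≤ M)
    (href : ∀ n, ‖v (n + 1) - (2 : ℂ) • v n‖ = ‖v (n + 1)‖) :
    Tendsto (fun n => v (n + 1) - v n) atTop (𝓝 0) := by
  have hmono : Monotone fun n => ‖v n‖ := monotone_nat_of_le_succ hle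
  have hbdd : BddAbove (Set.range fun n => ‖v n‖) := ⟨M, by
    rintro _ ⟨n, rfl⟩
    exact hM n⟩
  obtain ⟨l, hl⟩ : ∃ l, Tendsto (fun n => ‖v n‖) atTop (𝓝 l) :=
    ⟨_, tendsto_atTop_ciSup hmono hbdd⟩
  have hvl : ∀ n, ‖v n‖ ≤ l := fun n => hmono.ge_of_tendsto hl n
  rcases (norm_nonneg (v 0)).trans (hvl 0) |>.eq_or_lt with h0 | hpos
  · have hz : ∀ n, v n = 0 := fun n => by
      have := hvl n
      rw [← h0] at this
      exact norm_le_zero_iff.mp this
    have : (fun n => v (n + 1) - v n) = fun _ => 0 := by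
      funext n
      rw [hz, hz, sub_zero]
    rw [this]
    exact tendsto_const_nhds
  · rw [NormedAddCommGroup.tendsto_nhds_zero]
    intro ε hε
    obtain ⟨δ, hδ, hconv⟩ := hU (2 * ε / l) (by positivity)
    have hl' : Tendsto (fun n => ‖v (n + 1)‖) atTop (𝓝 l) := (tendsto_add_atTop_iff_nat 1).mpr hl
    have hquot : Tendsto (fun n => 2 * ‖v n‖ / ‖v (n + 1)‖) atTop (𝓝 (2 * l / l)) :=
      (hl.const_mul 2).div hl' hpos.ne'
    have h2 : (2 * l / l) = 2 := by field_simp
    rw [h2] at hquot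
    have hev : ∀ᶠ n in atTop, 2 - δ < 2 * ‖v n‖ / ‖v (n + 1)‖ :=
      hquot.eventually (lt_mem_nhds (by linarith))
    have hev2 : ∀ᶠ n in atTop, 0 < ‖v (n + 1)‖ := hl'.eventually (lt_mem_nhds hpos)
    filter_upwards [hev, hev2] with n h1 hn
    by_contra hcon
    push Not at hcon
    have hne : ‖v (n + 1)‖ ≠ 0 := hn.ne'
    obtain ⟨c, hc⟩ : ∃ c : ℂ, c = ((‖v (n + 1)‖⁻¹ : ℝ) : ℂ) := ⟨_, rfl⟩
    have hcn : ‖c‖ = ‖v (n + 1)‖⁻¹ := by
      rw [hc, Complex.norm_real, norm_inv, norm_norm]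
    have hx1 : ‖c • v (n + 1)‖ = 1 := by
      rw [norm_smul, hcn, inv_mul_cancel₀ hne]
    have hy1 : ‖c • ((2 : ℂ) • v n - v (n + 1))‖ = 1 := by
      rw [norm_smul, norm_sub_rev, href, hcn, inv_mul_cancel₀ hne]
    have hd : ‖c • v (n + 1) - c • ((2 : ℂ) • v n - v (n + 1))‖ =
        2 * ‖v (n + 1) - v n‖ / ‖v (n + 1)‖ := by
      have : c • v (n + 1) - c • ((2 : ℂ) • v n - v (n + 1)) =
          c • (2 : ℂ) • (v (n + 1) - v n) := by
        module
      rw [this, norm_smul, norm_smul, hcn, Complex.norm_ofNat]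
      field_simp
    have hs : ‖c • v (n + 1) + c • ((2 : ℂ) • v n - v (n + 1))‖ =
        2 * ‖v n‖ / ‖v (n + 1)‖ := by
      have : c • v (n + 1) + c • ((2 : ℂ) • v n - v (n + 1)) =
          c • (2 : ℂ) • v n := by
        module
      rw [this, norm_smul, norm_smul, hcn, Complex.norm_ofNat]
      field_simp
    have h3 := hconv _ _ hx1 hy1 (by
      rw [hd, div_le_div_iff₀ hpos hn]
      have h4 : ‖v (n + 1)‖ ≤ l := hvl (n + 1)
      nlinarith [norm_nonneg (v (n + 1) - v n)])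
    rw [hs] at h3
    linarith

private lemma sum_mul_zero {T : ℕ → (E →L[ℂ] E)} (horth : ∀ m n, m ≠ n → T m * T n = 0) (n : ℕ) :
    (∑ i ∈ Finset.range n, T i) * T n = 0 ∧ T n * (∑ i ∈ Finset.range n, T i) = 0 := by
  constructor
  · rw [Finset.sum_mul]
    exact Finset.sum_eq_zero fun i hi => horth i n (Finset.mem_range.mp hi).ne
  · rw [Finset.mul_sum]
    exact Finset.sum_eq_zero fun i hi => horth n i (Finset.mem_range.mp hi).ne'

private lemma sum_cub {T : ℕ → (E →L[ℂ] E)} (hT : ∀ n, Cub (T n))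
    (horth : ∀ m n, m ≠ n → T m * T n = 0) (n : ℕ) :
    Cub (∑ i ∈ Finset.range (n + 1), T i) := by
  induction n with
  | zero => simpa using hT 0
  | succ n ih =>
    rw [Finset.sum_range_succ]
    exact ih.add (hT (n + 1)) (sum_mul_zero horth (n + 1)).1 (sum_mul_zero horth (n + 1)).2

theorem sq_tendsto (hU : Helper60.Rosenthal.UConvex E) {T : ℕ → (E →L[ℂ] E)}
    (hT : ∀ n, Cub (T n)) (horth : ∀ m n, m ≠ n → T m * T n = 0) (y : E) :
    Tendsto (fun n => T n (T n y)) atTop (𝓝 0) := by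
  obtain ⟨B, hB⟩ : ∃ B : ℕ → (E →L[ℂ] E), B = fun n => ∑ i ∈ Finset.range n, T i := ⟨_, rfl⟩
  have hB0 : B 0 = 0 := by rw [hB]; simp
  have hBs : ∀ n, B (n + 1) = B n + T n := fun n => by
    rw [hB]
    exact Finset.sum_range_succ _ _
  have hBT : ∀ n, B n * T n = 0 := fun n => by
    rw [hB]
    exact (sum_mul_zero horth n).1
  have hTB : ∀ n, T n * B n = 0 := fun n => by
    rw [hB]
    exact (sum_mul_zero horth n).2
  have hBC : ∀ n, Cub (B (n + 1)) := fun n => by
    rw [hB]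
    exact sum_cub hT horth n
  have hcube : ∀ n, B n * B n * B n = B n := by
    intro n
    cases n with
    | zero => rw [hB0]; simp
    | succ n => exact (hBC n).cube
  have hsq : ∀ n, B (n + 1) * B (n + 1) = B n * B n + T n * T n := by
    intro n
    rw [hBs, mul_add, add_mul, add_mul, hBT, hTB, add_zero, zero_add]
  have hsqmul : ∀ n, (B n * B n) * (B (n + 1) * B (n + 1)) = B n * B n := by
    intro n
    rw [hsq, mul_add]
    have h1 : B n * B n * (B n * B n) = B n * B n := by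
      rw [← mul_assoc, hcube]
    have h2 : B n * B n * (T n * T n) = 0 := by
      rw [← mul_assoc, mul_assoc (B n) (B n) (T n), hBT, mul_zero, zero_mul]
    rw [h1, h2, add_zero]
  have hnorm : ∀ n (x : E), ‖(B n * B n) x‖ ≤ ‖x‖ := by
    intro n x
    cases n with
    | zero => rw [hB0]; simp
    | succ n => exact ((hBC n).norm_sq_le x).1
  have hrefl : ∀ n (x : E), ‖x - (2 : ℂ) • (B n * B n) x‖ = ‖x‖ := by
    intro n x
    cases n with
    | zero => rw [hB0]; simp
    | succ n => exact (hBC n).norm_refl x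
  have happ : ∀ n, (B n * B n) ((B (n + 1) * B (n + 1)) y) = (B n * B n) y := by
    intro n
    have := congrArg (fun X : E →L[ℂ] E => X y) (hsqmul n)
    exact this
  have key := uconvex_cauchy hU (v := fun n => (B n * B n) y) (M := ‖y‖)
    (fun n => by
      have := hnorm n ((B (n + 1) * B (n + 1)) y)
      rw [happ] at this
      exact this)
    (fun n => hnorm n y)
    (fun n => by
      have := hrefl n ((B (n + 1) * B (n + 1)) y)
      rw [happ] at this
      exact this)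
  refine key.congr fun n => ?_
  have h1 : (B (n + 1) * B (n + 1)) y = (B n * B n) y + (T n * T n) y := by
    rw [hsq]
    rfl
  show (B (n + 1) * B (n + 1)) y - (B n * B n) y = T n (T n y)
  rw [h1, add_sub_cancel_left]
  rfl

theorem uconvex_of_transitive [TopologicalSpace.SeparableSpace E] (htr : Transitive E)
    (hl1 : ¬ ∃ (J : lp (fun _ : ℕ => ℝ) 1 →L[ℝ] E) (c : ℝ), 0 < c ∧ ∀ a, c * ‖a‖ ≤ ‖J a‖) :
    Helper60.Rosenthal.UConvex E := by
  have htransR : ∀ x y : E, ‖x‖ = 1 → ‖y‖ = 1 → ∃ T : E ≃ₗᵢ[ℝ] E, T x = y := by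
    intro x y hx hy
    obtain ⟨T, hT⟩ := htr x y hx hy
    exact ⟨⟨T.toLinearEquiv.restrictScalars ℝ, T.norm_map⟩, hT⟩
  exact (Helper60.Rosenthal.uniform_of_transitive htransR fun h => hl1 h.embedding).1

end Pool.Agent.Helper61.HP
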