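import Pool.Agent.Helper61.HO.FrameX
import Pool.Agent.Helper61.HO.SeqLimit

/-!
# HO-47  An infinite orthogonal sequence of Cubs forces the parallelogram law

PROOF. Replacing `T n` by `- T n` we may assume that for every `n` there is `x ≠ 0` with `T n x = x` (`Cub.exists_sign`, `Cub.neg`;
the products `T n T n` do not change, the orthogonality is preserved). Let `x, y ∈ E`, `R n = 1 - T n T n - T (n+1) T (n+1)`. `R n x → x`
(`sq_tendsto`). `T n (R n x) = 0 = T (n+1) (R n x)`. `par_X0` for `T n`, `T (n+1)` (third vector: `x ≠ 0` with `T (n+2) x = x`, so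
`T n x = T n (T (n+2) x) = 0`) and the vectors `R n x`, `R n y`: parallelogram law; let `n → ∞`.
-/

set_option autoImplicit false

open Filter Topology

namespace Pool.Agent.Helper61.HP

universe u

variable {E : Type u} [NormedAddCommGroup E] [NormedSpace ℂ E] [CompleteSpace E]
  [TopologicalSpace.SeparableSpace E]

private theorem pa_main (hN : Nice E) (htr : Transitive E) (hU : Helper60.Rosenthal.UConvex E)
    {S : ℕ → (E →L[ℂ] E)} (hS : ∀ n, Cub (S n)) (horth : ∀ m n, m ≠ n → S m * S n = 0)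
    (h1 : ∀ n, ∃ x, x ≠ 0 ∧ S n x = x)
    (x y : E) : ‖x + y‖ ^ 2 + ‖x - y‖ ^ 2 = 2 * (‖x‖ ^ 2 + ‖y‖ ^ 2) := by
  have hap : ∀ m n, m ≠ n → ∀ z, S m (S n z) = 0 := by
    intro m n hmn z
    have h := congrArg (fun A : E →L[ℂ] E => A z) (horth m n hmn)
    exact h
  have hR : ∀ z : E, Tendsto (fun n => z - S n (S n z) - S (n + 1) (S (n + 1) z)) atTop (𝓝 z) := by
    intro z
    have e1 := sq_tendsto hU hS horth z
    have e2 : Tendsto (fun n => S (n + 1) (S (n + 1) z)) atTop (𝓝 0) :=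
      e1.comp (tendsto_add_atTop_nat 1)
    have e3 := (tendsto_const_nhds (x := z)).sub e1
    have e4 := e3.sub e2
    rw [sub_zero, sub_zero] at e4
    exact e4
  have k1 : ∀ n (z : E), S n (z - S n (S n z) - S (n + 1) (S (n + 1) z)) = 0 := by
    intro n z
    rw [map_sub, map_sub, (hS n).apply, hap n (n + 1) (by omega)]
    simp
  have k2 : ∀ n (z : E), S (n + 1) (z - S n (S n z) - S (n + 1) (S (n + 1) z)) = 0 := by
    intro n z
    rw [map_sub, map_sub, (hS (n + 1)).apply, hap (n + 1) n (by omega)]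
    simp
  have hpar : ∀ n, ‖(x - S n (S n x) - S (n + 1) (S (n + 1) x)) +
        (y - S n (S n y) - S (n + 1) (S (n + 1) y))‖ ^ 2 +
      ‖(x - S n (S n x) - S (n + 1) (S (n + 1) x)) -
        (y - S n (S n y) - S (n + 1) (S (n + 1) y))‖ ^ 2 =
      2 * (‖x - S n (S n x) - S (n + 1) (S (n + 1) x)‖ ^ 2 +
        ‖y - S n (S n y) - S (n + 1) (S (n + 1) y)‖ ^ 2) := by
    intro n
    obtain ⟨w, hw0, hw⟩ := h1 (n + 2)
    refine par_X0 hN htr (hS n) (hS (n + 1)) (horth _ _ (by omega)) (horth _ _ (by omega))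
      (h1 n) (h1 (n + 1)) ⟨w, hw0, ?_, ?_⟩ (k1 n x) (k2 n x) (k1 n y) (k2 n y)
    · rw [← hw]
      exact hap n (n + 2) (by omega) w
    · rw [← hw]
      exact hap (n + 1) (n + 2) (by omega) w
  have t1 := (((hR x).add (hR y)).norm.pow 2).add (((hR x).sub (hR y)).norm.pow 2)
  have t2 := (((hR x).norm.pow 2).add ((hR y).norm.pow 2)).const_mul 2
  refine tendsto_nhds_unique t1 ?_
  refine t2.congr fun n => ?_
  exact (hpar n).symm

theorem par_of_orth_seq (hN : Nice E) (htr : Transitive E) (hU : Helper60.Rosenthal.UConvex E)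
    {T : ℕ → (E →L[ℂ] E)} (hT : ∀ n, Cub (T n)) (horth : ∀ m n, m ≠ n → T m * T n = 0)
    (x y : E) : ‖x + y‖ ^ 2 + ‖x - y‖ ^ 2 = 2 * (‖x‖ ^ 2 + ‖y‖ ^ 2) := by
  have hex : ∀ n, ∃ S : E →L[ℂ] E, Cub S ∧ (S = T n ∨ S = -T n) ∧ ∃ x, x ≠ 0 ∧ S x = x := by
    intro n
    rcases (hT n).exists_sign with ⟨x, hx, hx'⟩ | ⟨x, hx, hx'⟩
    · exact ⟨T n, hT n, Or.inl rfl, x, hx, hx'⟩
    · refine ⟨-T n, (hT n).neg, Or.inr rfl, x, hx, ?_⟩
      rw [ContinuousLinearMap.neg_apply, hx', neg_neg]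
  choose S hS hST hx using hex
  refine pa_main hN htr hU hS ?_ hx x y
  intro m n hmn
  have h0 := horth m n hmn
  rcases hST m with h | h <;> rcases hST n with h' | h' <;> rw [h, h']
  · exact h0
  · rw [mul_neg, h0, neg_zero]
  · rw [neg_mul, h0, neg_zero]
  · rw [neg_mul_neg, h0]

end Pool.Agent.Helper61.HP
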