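import Pool.Agent.Helper61.HO.FourierApi
import Pool.Agent.Helper61.HP.SkewExp

/-!
# HO-03  The smooth functional calculus

`U s = ex s (i A)` is a norm continuous one-parameter group of operators of norm `≤ 1` (`Herm A`, `Skew.norm_ex_le`).

PROOFS. * `Phi_mul`: `Phi (f g) = ∫ (∫ 𝓕 f η 𝓕 g (ξ - η) dη) U (2 π ξ) dξ`, Fubini and `U (2 π ξ) = U (2 π η) U (2 π (ξ - η))`
(`ex_add`).
* `Phi_id_mul`: `A (𝓕 f ξ • U (2 π ξ)) = 𝓕 f ξ • (2 π i)⁻¹ d/dξ U (2 π ξ)` (`ex_hasDerivAt`), integrate by parts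
(`integral_mul_deriv_eq_deriv_mul`/`integral_smul_deriv...` on the whole line, everything integrable, or: the integral
of the derivative of the integrable function `𝓕 f ξ • U (2 π ξ)` with integrable derivative is `0`,
`integral_of_hasDerivAt_of_tendsto` / `MeasureTheory.integral_eq_zero_of_hasDerivAt_of_integrable`), and
`(𝓕 f)' = - 2 π i 𝓕 (x f)`.
* `Phi_comm`, `Phi_conj`: pull the continuous linear maps `X ↦ B X`, `X ↦ X B` into the integral
(`ContinuousLinearMap.integral_comp_comm`), `ex_comm`, `ex_conj`.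
* `Phi_neg`: `ex s (i (-A)) = ex (-s) (i A)` and substitution `ξ ↦ - ξ`.
* `Phi_approx`: `𝓕 (χ(· / R)) ξ = R 𝓕 χ (R ξ)`, substitution: `Phi A χ_R = ∫ 𝓕 χ ξ • U (2 π ξ / R) dξ → ∫ 𝓕 χ ξ • 1 = χ 0 = 1`
by dominated convergence.
* `eq_zero_of_Phi`: take a cutoff `χ` with `χ 0 = 1` and `Phi_approx`.
* `Phi_mem`: for `y ∈ F` all `U s y` are in `F` (closed, exponential series), `Phi A f y = ∫ 𝓕 f ξ • U (2 π ξ) y` is in the
closed subspace `F` (`ContinuousLinearMap.integral_apply`; closed convex/submodule: `Submodule.ClosedComplemented`... or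
`Convex.integral_mem`-type lemma, or: a functional separating `F` from the integral kills all values of the integrand).
* `Phi_hasSum`: `HasSum` in operator norm: `∑ ‖c n‖ ‖𝓕 (f u^n)‖₁ ≤ ∑ ‖c n‖ ‖𝓕 f‖₁ ‖𝓕 u‖₁^n < ∞`
(`integral_norm_fourier_mul_le`), `Test.fourier_series` and `hasSum_integral_of_summable_integral_norm`.
-/

set_option autoImplicit false

open Filter Topology MeasureTheory
open scoped FourierTransform

namespace Pool.Agent.Helper61.HP

universe u

variable {E : Type u} [NormedAddCommGroup E] [NormedSpace ℂ E] [CompleteSpace E]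
  {A : E →L[ℂ] E} {f g : ℝ → ℂ}

theorem phi_cont (A : E →L[ℂ] E) :
    Continuous (fun ξ : ℝ => ex (2 * Real.pi * ξ) (Complex.I • A)) := by
  have h : Continuous (fun s : ℝ => ex s (Complex.I • A)) :=
    continuous_iff_continuousAt.2 fun t => (ex_hasDerivAt (Complex.I • A) t).continuousAt
  exact h.comp (continuous_const.mul continuous_id)

theorem phi_norm_smul_le (hA : Herm A) (c : ℂ) (ξ : ℝ) :
    ‖c • ex (2 * Real.pi * ξ) (Complex.I • A)‖ ≤ ‖c‖ := by
  rw [norm_smul]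
  exact mul_le_of_le_one_right (norm_nonneg _) (Skew.norm_ex_le hA _)

theorem phi_int (hA : Herm A) {h : ℝ → ℂ} (hh : Integrable h) :
    Integrable (fun ξ : ℝ => h ξ • ex (2 * Real.pi * ξ) (Complex.I • A)) :=
  hh.norm.mono' (hh.aestronglyMeasurable.smul (phi_cont A).aestronglyMeasurable)
    (ae_of_all _ fun ξ => phi_norm_smul_le hA _ ξ)

theorem Phi_integrable (hA : Herm A) (hf : Test f) :
    Integrable (fun ξ : ℝ => (𝓕 f ξ) • ex (2 * Real.pi * ξ) (Complex.I • A)) :=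
  phi_int hA hf.integrable_fourier

theorem norm_Phi_le (hA : Herm A) (hf : Test f) : ‖Phi A f‖ ≤ ∫ ξ : ℝ, ‖𝓕 f ξ‖ :=
  norm_integral_le_of_norm_le hf.integrable_fourier.norm
    (ae_of_all _ fun ξ => phi_norm_smul_le hA _ ξ)

theorem Phi_add (hA : Herm A) (hf : Test f) (hg : Test g) :
    Phi A (fun x => f x + g x) = Phi A f + Phi A g := by
  unfold Phi
  rw [← integral_add (Phi_integrable hA hf) (Phi_integrable hA hg)]
  refine integral_congr_ae (ae_of_all _ fun ξ => ?_)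
  simp only
  rw [hf.fourier_add hg, add_smul]

theorem Phi_smul (hA : Herm A) (hf : Test f) (c : ℂ) :
    Phi A (fun x => c * f x) = c • Phi A f := by
  unfold Phi
  rw [← integral_smul]
  refine integral_congr_ae (ae_of_all _ fun ξ => ?_)
  simp only
  rw [hf.fourier_smul, mul_smul]

theorem Phi_mul (hA : Herm A) (hf : Test f) (hg : Test g) :
    Phi A (fun x => f x * g x) = Phi A f * Phi A g := by
  have h1 := integral_convolution (ContinuousLinearMap.mul ℂ (E →L[ℂ] E))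
    (Phi_integrable hA hf) (Phi_integrable hA hg) (μ := volume) (ν := volume)
  rw [ContinuousLinearMap.mul_apply'] at h1
  unfold Phi
  rw [← h1]
  refine integral_congr_ae (ae_of_all _ fun ξ => ?_)
  simp only [MeasureTheory.convolution_def, ContinuousLinearMap.mul_apply']
  have h2 := integral_smul_const (μ := volume) (fun η : ℝ => 𝓕 f η * 𝓕 g (ξ - η))
    (ex (2 * Real.pi * ξ) (Complex.I • A))
  rw [hf.fourier_mul_apply hg, ← h2]
  refine integral_congr_ae (ae_of_all _ fun η => ?_)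
  simp only
  rw [smul_mul_smul_comm, ← ex_add]
  congr 2
  ring

theorem Phi_id_mul (hA : Herm A) (hf : Test f) :
    Phi A (fun x => (x : ℂ) * f x) = A * Phi A f := by
  have hxf : Test (fun x => (x : ℂ) * f x) := hf.id_mul
  have hL := (ContinuousLinearMap.mul ℂ (E →L[ℂ] E) A).integral_comp_comm (Phi_integrable hA hf)
  simp only [ContinuousLinearMap.mul_apply'] at hL
  have hLi := (ContinuousLinearMap.mul ℂ (E →L[ℂ] E) A).integrable_comp (Phi_integrable hA hf)
  simp only [ContinuousLinearMap.mul_apply'] at hLi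
  have hderiv : ∀ ξ : ℝ, HasDerivAt
      (fun ξ : ℝ => (𝓕 f ξ) • ex (2 * Real.pi * ξ) (Complex.I • A))
      ((-(2 * Real.pi * Complex.I) : ℂ) •
          ((𝓕 (fun x : ℝ => (x : ℂ) * f x) ξ) • ex (2 * Real.pi * ξ) (Complex.I • A))
        + (2 * Real.pi * Complex.I : ℂ) •
          (A * ((𝓕 f ξ) • ex (2 * Real.pi * ξ) (Complex.I • A)))) ξ := by
    intro ξ
    have h1 := hf.hasDerivAt_fourier ξ
    have h2 : HasDerivAt (fun ξ : ℝ => 2 * Real.pi * ξ) (2 * Real.pi) ξ := by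
      simpa using (hasDerivAt_id ξ).const_mul (2 * Real.pi)
    have h3 := (ex_hasDerivAt (Complex.I • A) (2 * Real.pi * ξ)).scomp ξ h2
    have h4 := h1.smul h3
    refine h4.congr_deriv ?_
    rw [add_comm]
    congr 1
    · rw [smul_smul]
      rfl
    · rw [smul_mul_assoc, mul_smul_comm, ← Complex.coe_smul, smul_smul, smul_smul, smul_smul]
      congr 1
      push_cast
      ring
  have hi1 : Integrable (fun ξ : ℝ => (-(2 * Real.pi * Complex.I) : ℂ) •
      ((𝓕 (fun x : ℝ => (x : ℂ) * f x) ξ) • ex (2 * Real.pi * ξ) (Complex.I • A))) :=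
    (Phi_integrable hA hxf).smul (-(2 * Real.pi * Complex.I) : ℂ)
  have hi2 : Integrable (fun ξ : ℝ => (2 * Real.pi * Complex.I : ℂ) •
      (A * ((𝓕 f ξ) • ex (2 * Real.pi * ξ) (Complex.I • A)))) :=
    hLi.smul (2 * Real.pi * Complex.I : ℂ)
  have hint := integral_eq_zero_of_hasDerivAt_of_integrable hderiv
    (hi1.add hi2) (Phi_integrable hA hf)
  rw [integral_add hi1 hi2, integral_smul, integral_smul, hL] at hint
  have hne : (2 * Real.pi * Complex.I : ℂ) ≠ 0 := by
    simp [Real.pi_ne_zero]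
  rw [neg_smul, neg_add_eq_zero] at hint
  exact smul_right_injective _ hne hint

theorem Phi_comm (hA : Herm A) (hf : Test f) {B : E →L[ℂ] E} (h : B * A = A * B) :
    B * Phi A f = Phi A f * B := by
  have hL := (ContinuousLinearMap.mul ℂ (E →L[ℂ] E) B).integral_comp_comm (Phi_integrable hA hf)
  have hR := ((ContinuousLinearMap.mul ℂ (E →L[ℂ] E)).flip B).integral_comp_comm
    (Phi_integrable hA hf)
  simp only [ContinuousLinearMap.mul_apply', ContinuousLinearMap.flip_apply] at hL hR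
  unfold Phi
  rw [← hL, ← hR]
  refine integral_congr_ae (ae_of_all _ fun ξ => ?_)
  simp only
  have h1 : B * (Complex.I • A) = (Complex.I • A) * B := by
    rw [mul_smul_comm, smul_mul_assoc, h]
  rw [mul_smul_comm, smul_mul_assoc, ex_comm h1]

theorem Phi_conj (hA : Herm A) (hf : Test f) {S S' : E →L[ℂ] E} (h : S' * S = 1)
    (h' : S * S' = 1) : S * Phi A f * S' = Phi (S * A * S') f := by
  have hL := ((((ContinuousLinearMap.mul ℂ (E →L[ℂ] E)).flip S').comp
    (ContinuousLinearMap.mul ℂ (E →L[ℂ] E) S))).integral_comp_comm (Phi_integrable hA hf)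
  simp only [ContinuousLinearMap.mul_apply', ContinuousLinearMap.flip_apply,
    ContinuousLinearMap.comp_apply] at hL
  unfold Phi
  rw [← hL]
  refine integral_congr_ae (ae_of_all _ fun ξ => ?_)
  simp only
  have h1 : S * (Complex.I • A) * S' = Complex.I • (S * A * S') := by
    rw [mul_smul_comm, smul_mul_assoc]
  rw [mul_smul_comm, smul_mul_assoc, ex_conj h h', h1]

theorem Phi_neg (A : E →L[ℂ] E) (f : ℝ → ℂ) : Phi (-A) f = Phi A (fun x => f (-x)) := by
  have h0 : ∀ ξ : ℝ, 𝓕 (fun x => f (-x)) ξ = 𝓕 f (-ξ) := fun ξ =>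
    Real.fourier_comp_linearIsometry (LinearIsometryEquiv.neg ℝ (E := ℝ)) f ξ
  unfold Phi
  have h1 := integral_neg_eq_self (fun ξ : ℝ => (𝓕 f ξ) • ex (2 * Real.pi * ξ) (Complex.I • (-A)))
    (μ := volume)
  rw [← h1]
  refine integral_congr_ae (ae_of_all _ fun ξ => ?_)
  simp only
  rw [h0, smul_neg, ex_neg_op]
  congr 2
  ring

theorem Phi_approx (hA : Herm A) {χ : ℝ → ℂ} (hχ : Test χ) (h0 : χ 0 = 1) :
    Tendsto (fun n : ℕ => Phi A (fun x => χ (x / ((n : ℝ) + 1)))) atTop (𝓝 1) := by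
  have h1 : ∀ n : ℕ, Phi A (fun x => χ (x / ((n : ℝ) + 1))) =
      ∫ ξ : ℝ, (𝓕 χ ξ) • ex (2 * Real.pi * (ξ / ((n : ℝ) + 1))) (Complex.I • A) := by
    intro n
    have hR : (0 : ℝ) < (n : ℝ) + 1 := by positivity
    have h2 := Measure.integral_comp_mul_left
      (fun ξ : ℝ => (𝓕 χ ξ) • ex (2 * Real.pi * (ξ / ((n : ℝ) + 1))) (Complex.I • A))
      ((n : ℝ) + 1)
    have h3 : (∫ ξ : ℝ, (𝓕 χ ξ) • ex (2 * Real.pi * (ξ / ((n : ℝ) + 1))) (Complex.I • A)) =
        ((n : ℝ) + 1) • ∫ ξ : ℝ, (𝓕 χ (((n : ℝ) + 1) * ξ)) •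
          ex (2 * Real.pi * ((((n : ℝ) + 1) * ξ) / ((n : ℝ) + 1))) (Complex.I • A) := by
      rw [h2, smul_smul, abs_of_pos (inv_pos.2 hR), mul_inv_cancel₀ hR.ne', one_smul]
    rw [h3, ← integral_smul]
    unfold Phi
    refine integral_congr_ae (ae_of_all _ fun ξ => ?_)
    simp only
    rw [hχ.fourier_dilate hR, mul_div_cancel_left₀ _ hR.ne', mul_smul, ← Complex.coe_smul]
  have h2 : Tendsto (fun n : ℕ => ∫ ξ : ℝ, (𝓕 χ ξ) •
      ex (2 * Real.pi * (ξ / ((n : ℝ) + 1))) (Complex.I • A)) atTop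
      (𝓝 (∫ ξ : ℝ, (𝓕 χ ξ) • (1 : E →L[ℂ] E))) := by
    have hcont : Continuous (fun s : ℝ => ex s (Complex.I • A)) :=
      continuous_iff_continuousAt.2 fun t => (ex_hasDerivAt (Complex.I • A) t).continuousAt
    refine tendsto_integral_of_dominated_convergence (fun ξ => ‖𝓕 χ ξ‖) (fun n => ?_)
      hχ.integrable_fourier.norm (fun n => ?_) (ae_of_all _ fun ξ => ?_)
    · exact hχ.integrable_fourier.aestronglyMeasurable.smul
        (hcont.comp (by fun_prop)).aestronglyMeasurable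
    · refine ae_of_all _ fun ξ => ?_
      rw [norm_smul]
      exact mul_le_of_le_one_right (norm_nonneg _) (Skew.norm_ex_le hA _)
    · refine Tendsto.const_smul ?_ _
      have h3 : Tendsto (fun n : ℕ => 2 * Real.pi * (ξ / ((n : ℝ) + 1))) atTop (𝓝 0) := by
        have h4 : Tendsto (fun n : ℕ => ξ / ((n : ℝ) + 1)) atTop (𝓝 0) :=
          tendsto_const_nhds.div_atTop
            (tendsto_atTop_add_const_right _ _ tendsto_natCast_atTop_atTop)
        simpa using h4.const_mul (2 * Real.pi)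
      have h5 := (hcont.tendsto 0).comp h3
      rw [ex_zero] at h5
      exact h5
  rw [integral_smul_const, hχ.integral_fourier, h0, one_smul] at h2
  exact h2.congr fun n => (h1 n).symm

theorem eq_zero_of_Phi (hA : Herm A) {y : E} (h : ∀ f : ℝ → ℂ, Test f → Phi A f y = 0) :
    y = 0 := by
  obtain ⟨χ, -, -, hχ, -, -, h1, -⟩ := exists_cutoff 0 0 (δ := 1) one_pos
  have h0 : ((χ 0 : ℝ) : ℂ) = 1 := by
    rw [h1 0 (by norm_num) (by norm_num)]
    simp
  have h2 := Phi_approx hA hχ h0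
  have h3 := ((ContinuousLinearMap.apply ℂ E y).continuous.tendsto _).comp h2
  have h4 : Tendsto (fun _ : ℕ => (0 : E)) atTop (𝓝 y) := by
    refine h3.congr fun n => ?_
    simp only [Function.comp_apply, ContinuousLinearMap.apply_apply]
    refine h _ ?_
    have h5 : ((n : ℝ) + 1)⁻¹ ≠ 0 := by positivity
    have h6 := hχ.comp_affine h5 0
    refine (congrArg Test (funext fun x => ?_)).mp h6
    rw [add_zero, div_eq_inv_mul]
  exact tendsto_nhds_unique h4 tendsto_const_nhds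

/-- closed invariant subspaces are invariant under the one-parameter group -/
theorem ex_mem {D : E →L[ℂ] E} {F : Submodule ℂ E} (hF : IsClosed (F : Set E))
    (hD : ∀ y ∈ F, D y ∈ F) (t : ℝ) {y : E} (hy : y ∈ F) : ex t D y ∈ F := by
  have h1 := (ContinuousLinearMap.apply ℂ E y).hasSum (ex_hasSum t D)
  have hpow : ∀ n : ℕ, (((t : ℂ) • D) ^ n) y ∈ F := by
    intro n
    induction n with
    | zero => simpa using hy
    | succ n ih =>
      rw [pow_succ', mul_apply_eq_comp]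
      exact F.smul_mem _ (hD _ ih)
  refine hF.mem_of_tendsto h1 (Filter.Eventually.of_forall fun s => F.sum_mem fun n _ => ?_)
  exact F.smul_mem _ (hpow n)

theorem Phi_mem (hA : Herm A) (hf : Test f) {F : Submodule ℂ E} (hF : IsClosed (F : Set E))
    (hAF : ∀ y ∈ F, A y ∈ F) {y : E} (hy : y ∈ F) : Phi A f y ∈ F := by
  have hIAF : ∀ y ∈ F, (Complex.I • A) y ∈ F := fun y hy => F.smul_mem _ (hAF y hy)
  have : CompleteSpace F := hF.completeSpace_coe
  let G : ℝ → F := fun ξ => ⟨(𝓕 f ξ) • ex (2 * Real.pi * ξ) (Complex.I • A) y,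
    F.smul_mem _ (ex_mem hF hIAF _ hy)⟩
  have hGc : Continuous G := by
    refine Continuous.subtype_mk (hf.continuous_fourier.smul ?_) _
    exact (ContinuousLinearMap.apply ℂ E y).continuous.comp (phi_cont A)
  have hGi : Integrable G := by
    refine (hf.integrable_fourier.norm.mul_const ‖y‖).mono' hGc.aestronglyMeasurable
      (ae_of_all _ fun ξ => ?_)
    change ‖(𝓕 f ξ) • ex (2 * Real.pi * ξ) (Complex.I • A) y‖ ≤ _
    rw [norm_smul, Skew.norm_ex hA]
  have h1 := F.subtypeL.integral_comp_comm hGi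
  have h2 := (ContinuousLinearMap.apply ℂ E y).integral_comp_comm (Phi_integrable hA hf)
  have h3 : Phi A f y = F.subtypeL (∫ ξ, G ξ) := by
    rw [← h1]
    exact h2.symm
  rw [h3]
  exact (∫ ξ, G ξ).2

theorem test_mul_pow {u : ℝ → ℂ} (hf : Test f) (hu : Test u) (n : ℕ) :
    Test (fun t => f t * u t ^ n) := by
  induction n with
  | zero => simpa using hf
  | succ n ih =>
    have h := ih.mul hu
    refine (congrArg Test (funext fun x => ?_)).mp h
    ring

theorem norm_fourier_mul_pow_le {u : ℝ → ℂ} (hf : Test f) (hu : Test u) (n : ℕ) :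
    ∫ ξ : ℝ, ‖𝓕 (fun t => f t * u t ^ n) ξ‖ ≤ (∫ ξ : ℝ, ‖𝓕 f ξ‖) * (∫ ξ : ℝ, ‖𝓕 u ξ‖) ^ n := by
  induction n with
  | zero => simp
  | succ n ih =>
    have h := (test_mul_pow hf hu n).integral_norm_fourier_mul_le hu
    have e : (fun t => f t * u t ^ (n + 1)) = fun t => (f t * u t ^ n) * u t := by
      funext t; ring
    rw [e]
    refine h.trans ?_
    rw [pow_succ, ← mul_assoc]
    exact mul_le_mul_of_nonneg_right ih (integral_nonneg fun _ => norm_nonneg _)

theorem Phi_hasSum (hA : Herm A) {u : ℝ → ℂ} (hf : Test f) (hu : Test u) (hg : Test g)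
    (c : ℕ → ℂ) (hc : ∀ R : ℝ, Summable fun n => ‖c n‖ * R ^ n)
    (hsum : ∀ t, HasSum (fun n => c n * (f t * u t ^ n)) (g t)) :
    HasSum (fun n => c n • Phi A (fun t => f t * u t ^ n)) (Phi A g) := by
  have hT := fun n => test_mul_pow hf hu n
  have hint : ∀ n, Integrable (fun ξ : ℝ => (c n * 𝓕 (fun t => f t * u t ^ n) ξ) •
      ex (2 * Real.pi * ξ) (Complex.I • A)) := fun n =>
    phi_int hA ((hT n).integrable_fourier.const_mul _)
  have hbound : ∀ n, ∫ ξ : ℝ, ‖(c n * 𝓕 (fun t => f t * u t ^ n) ξ) •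
      ex (2 * Real.pi * ξ) (Complex.I • A)‖ ≤
        (∫ ξ : ℝ, ‖𝓕 f ξ‖) * (‖c n‖ * (∫ ξ : ℝ, ‖𝓕 u ξ‖) ^ n) := by
    intro n
    calc ∫ ξ : ℝ, ‖(c n * 𝓕 (fun t => f t * u t ^ n) ξ) •
          ex (2 * Real.pi * ξ) (Complex.I • A)‖
        ≤ ∫ ξ : ℝ, ‖c n‖ * ‖𝓕 (fun t => f t * u t ^ n) ξ‖ := by
          refine integral_mono (hint n).norm ((hT n).integrable_fourier.norm.const_mul _)
            fun ξ => ?_
          simp only
          rw [← norm_mul]
          exact phi_norm_smul_le hA _ ξ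
      _ = ‖c n‖ * ∫ ξ : ℝ, ‖𝓕 (fun t => f t * u t ^ n) ξ‖ := integral_const_mul _ _
      _ ≤ ‖c n‖ * ((∫ ξ : ℝ, ‖𝓕 f ξ‖) * (∫ ξ : ℝ, ‖𝓕 u ξ‖) ^ n) :=
          mul_le_mul_of_nonneg_left (norm_fourier_mul_pow_le hf hu n) (norm_nonneg _)
      _ = (∫ ξ : ℝ, ‖𝓕 f ξ‖) * (‖c n‖ * (∫ ξ : ℝ, ‖𝓕 u ξ‖) ^ n) := by ring
  have hS : Summable fun n => ∫ ξ : ℝ, ‖(c n * 𝓕 (fun t => f t * u t ^ n) ξ) •
      ex (2 * Real.pi * ξ) (Complex.I • A)‖ :=
    Summable.of_nonneg_of_le (fun n => integral_nonneg fun _ => norm_nonneg _) hbound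
      ((hc _).mul_left _)
  have h1 := hasSum_integral_of_summable_integral_norm hint hS
  have h2 : (∫ ξ : ℝ, ∑' n, (c n * 𝓕 (fun t => f t * u t ^ n) ξ) •
      ex (2 * Real.pi * ξ) (Complex.I • A)) = Phi A g := by
    unfold Phi
    refine integral_congr_ae (ae_of_all _ fun ξ => ?_)
    exact ((hf.fourier_series hu hg c hc hsum ξ).smul_const _).tsum_eq
  rw [h2] at h1
  have h3 : ∀ n, (∫ ξ : ℝ, (c n * 𝓕 (fun t => f t * u t ^ n) ξ) •
      ex (2 * Real.pi * ξ) (Complex.I • A)) = c n • Phi A (fun t => f t * u t ^ n) := by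
    intro n
    unfold Phi
    rw [← integral_smul]
    refine integral_congr_ae (ae_of_all _ fun ξ => ?_)
    exact mul_smul _ _ _
  exact (funext h3) ▸ h1

end Pool.Agent.Helper61.HP
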