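import Pool.Agent.Helper61.HO.TriplePhi
import Pool.Agent.Helper61.HO.SpNorm

/-!
# HO-21  The operator `L = Lop b b'` is positive on `𝔅`

PROOF of `skew_sq_dissip`. For a norming functional `φ` of `y` and skew `P`: `Re φ(ex s P y + ex (-s) P y - 2 y) ≤ 0`, and the
left side is `s² Re φ(P (P y)) + O(s³)` (`ex_taylor_two`).

PROOF of `Lop_dissip`. Let `P = adL (b - b')` (skew: `Pr.skew`, `skew_adL`) and `Q = adL (i (b + b'))`
(skew: `b + b' ∈ 𝔥`). For `y ∈ 𝔅`: `lie b y = 0` (`IsAb.comm`). `P y = - lie b' y`, `P (P y) = - lie b (lie b' y) + lie b' (lie b' y)`;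
`Q y = i lie b' y`, `Q (Q y) = - lie b (lie b' y) - lie b' (lie b' y)`; the sum is `- 2 lie b (lie b' y)
= - 2 lie (lie b b') y = - 4 L y` (Jacobi, `lie b y = 0`). So `Re φ(L y) ≥ 0` for norming `φ` of `y ∈ 𝔅`.

PROOF of `Lop_contr`. Let `u s = ‖ex (-s) L y‖`, `y_s = ex (-s) L y ∈ 𝔅` (`ex_mem`, `IsAb.Lop_mem`). For `t > 0` and a
norming functional `φ` of `y_s`: `‖y_s‖ = Re φ(y_s) ≤ Re φ(y_s + t L y_s) ≤ ‖y_s + t L y_s‖ ≤ ‖ex t L y_s‖ + C t² =
u (s - t) + C t²` (`ex_taylor`; `C` uniform for `s`, `t` in a bounded interval). So with `t = s / n`: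
`u s ≤ u 0 + n C (s/n)² → u 0`.

PROOF of `phi_neg_zero`. `f` vanishes for `x ≥ - δ` and for `x ≤ - M`, `M > δ`. `z = Phi L f y ∈ 𝔅` (`phi_mem_ab`) is in
the spectral subspace of `[-M, -δ]` (`SpIn.of_support`). Let `m = (M + δ)/2`, `ρ = (M - δ)/2`, `r' = ρ + δ/2`.
`SpIn.growth`: `‖(L + m)^n z‖ ≤ C r'^n`. `ex s L z = exp(- s m) ex s (L + m) z`, `‖ex s (L + m) z‖ ≤ ∑ s^n / n! C r'^n = C exp(s r')`,
so `‖ex s L z‖ ≤ C exp(- s δ / 2) → 0` for `s → ∞` (`m - r' = δ / 2`). But `z = ex (-s) L (ex s L z)` and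
`ex s L z ∈ 𝔅`, so `‖z‖ ≤ ‖ex s L z‖` by `Lop_contr`. So `z = 0`.
-/

set_option autoImplicit false

open Filter Topology MeasureTheory

namespace Pool.Agent.Helper61.HP

universe u

theorem skew_sq_dissip {E : Type u} [NormedAddCommGroup E] [NormedSpace ℂ E] [CompleteSpace E]
    {P : E →L[ℂ] E} (hP : Skew P) {φ : StrongDual ℂ E} {y : E} (hφ : Norming φ y) :
    (φ (P (P y))).re ≤ 0 := by
  have hbound : ∀ t : ℝ, 0 < t → t ≤ 1 →
      (φ (P (P y))).re ≤ t * (2 * (‖P‖ ^ 3 * Real.exp ‖P‖ * ‖y‖)) := by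
    intro t ht ht1
    set R : E →L[ℂ] E := ex t P - 1 - (t : ℂ) • P - ((t ^ 2 / 2 : ℝ) : ℂ) • (P * P) with hR
    have hRn : ‖R‖ ≤ t ^ 3 * ‖P‖ ^ 3 * Real.exp ‖P‖ := by
      have h0 := ex_taylor_two P t
      rw [abs_of_pos ht] at h0
      refine h0.trans ?_
      have h2 : t * ‖P‖ ≤ ‖P‖ := by
        have := mul_le_mul_of_nonneg_right ht1 (norm_nonneg P)
        rwa [one_mul] at this
      exact mul_le_mul_of_nonneg_left (Real.exp_le_exp.mpr h2) (by positivity)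
    have hRy : ‖φ (R y)‖ ≤ t ^ 3 * ‖P‖ ^ 3 * Real.exp ‖P‖ * ‖y‖ :=
      (hφ.abs_le (R y)).trans ((R.le_opNorm y).trans
        (mul_le_mul_of_nonneg_right hRn (norm_nonneg y)))
    have hex : R y = ex t P y - y - (t : ℂ) • P y - ((t ^ 2 / 2 : ℝ) : ℂ) • P (P y) := by
      rw [hR]
      simp only [sub_apply, smul_apply, one_apply_eq_self, mul_apply_eq_comp]
    have h1 : (φ (ex t P y)).re ≤ ‖y‖ := by
      have := hφ.re_le (ex t P y)
      rwa [hP.norm_ex t y] at this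
    have h2 : (φ y).re = ‖y‖ := by
      rw [hφ.2]
      exact Complex.ofReal_re _
    have h3 : (φ (P y)).re = 0 := hP y φ hφ
    have h4 : (φ (R y)).re = (φ (ex t P y)).re - ‖y‖ - t * (φ (P y)).re -
        (t ^ 2 / 2) * (φ (P (P y))).re := by
      rw [hex]
      simp only [map_sub, map_smul, Complex.sub_re, smul_eq_mul, Complex.re_ofReal_mul, h2]
    rw [h3] at h4
    have h5 : -(φ (R y)).re ≤ t ^ 3 * ‖P‖ ^ 3 * Real.exp ‖P‖ * ‖y‖ := by
      have := Complex.abs_re_le_norm (φ (R y))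
      have h6 := neg_abs_le (φ (R y)).re
      linarith
    have h7 : (t ^ 2 / 2) * (φ (P (P y))).re ≤
        (t ^ 2 / 2) * (t * (2 * (‖P‖ ^ 3 * Real.exp ‖P‖ * ‖y‖))) := by
      have e : (t ^ 2 / 2) * (t * (2 * (‖P‖ ^ 3 * Real.exp ‖P‖ * ‖y‖))) =
          t ^ 3 * ‖P‖ ^ 3 * Real.exp ‖P‖ * ‖y‖ := by ring
      rw [e]
      linarith
    exact le_of_mul_le_mul_left h7 (by positivity)
  have hlim : Tendsto (fun t : ℝ => t * (2 * (‖P‖ ^ 3 * Real.exp ‖P‖ * ‖y‖))) (𝓝[>] 0)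
      (𝓝 (0 * (2 * (‖P‖ ^ 3 * Real.exp ‖P‖ * ‖y‖)))) := by
    have hc : Continuous fun t : ℝ => t * (2 * (‖P‖ ^ 3 * Real.exp ‖P‖ * ‖y‖)) := by fun_prop
    exact (hc.tendsto 0).mono_left nhdsWithin_le_nhds
  rw [zero_mul] at hlim
  refine ge_of_tendsto hlim ?_
  filter_upwards [Ioc_mem_nhdsGT (zero_lt_one' ℝ)] with t ht
  exact hbound t ht.1 ht.2

variable {E : Type u} [NormedAddCommGroup E] [NormedSpace ℂ E] [CompleteSpace E]
  {𝔥 : Set (E →L[ℂ] E)} {h b b' : E →L[ℂ] E} {ε : ℝ} {𝔅 : Submodule ℂ (E →L[ℂ] E)}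

private theorem hop_lie_smul (c d : ℂ) (x w : E →L[ℂ] E) :
    lie (c • x) (d • w) = (c * d) • lie x w := by
  unfold lie
  rw [smul_mul_assoc, mul_smul_comm, smul_mul_assoc, mul_smul_comm, smul_smul, smul_smul,
    mul_comm d c, smul_sub]

theorem Lop_dissip (hh : HLie 𝔥) (hB : IsAb 𝔥 h ε 𝔅) (hb : b ∈ 𝔅) (hbb : Pr 𝔥 b b')
    {y : E →L[ℂ] E} (hy : y ∈ 𝔅) {φ : StrongDual ℂ (E →L[ℂ] E)} (hφ : Norming φ y) :
    0 ≤ (φ (Lop b b' y)).re := by
  have hc : b * y = y * b := hB.comm b hb y hy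
  have hP : Skew (adL (b - b')) := skew_adL (Pr.skew hh hbb)
  have hQ : Skew (adL (Complex.I • (b + b'))) :=
    skew_adL (hh.herm _ (Pr.add_mem hh hbb))
  have e1 : lie (b - b') y = -lie b' y := by
    simp only [lie, sub_mul, mul_sub, hc]
    abel
  have e2 : lie (Complex.I • (b + b')) y = Complex.I • lie b' y := by
    simp only [lie, add_mul, mul_add, hc, smul_mul_assoc, mul_smul_comm, smul_sub, smul_add]
    abel
  have e3 : lie b (lie b' y) = lie (lie b b') y := by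
    have h1 : lie b (lie b' y) - lie (lie b b') y = b' * (b * y - y * b) - (b * y - y * b) * b' := by
      simp only [lie]
      noncomm_ring
    rw [hc, sub_self, mul_zero, zero_mul, sub_zero] at h1
    exact sub_eq_zero.1 h1
  have e4 : adL (b - b') (adL (b - b') y) +
      adL (Complex.I • (b + b')) (adL (Complex.I • (b + b')) y) =
      (-4 : ℂ) • Lop b b' y := by
    rw [adL_apply (b - b') y, adL_apply (Complex.I • (b + b')) y, e1, e2, adL_apply, adL_apply,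
      Lop_apply, ← e3, smul_smul]
    have h1 : lie (b - b') (-lie b' y) = -lie b (lie b' y) + lie b' (lie b' y) := by
      simp only [lie]
      noncomm_ring
    have h2 : lie (Complex.I • (b + b')) (Complex.I • lie b' y) =
        -(lie b (lie b' y) + lie b' (lie b' y)) := by
      have h3 : lie (Complex.I • (b + b')) (Complex.I • lie b' y) =
          (Complex.I * Complex.I) • lie (b + b') (lie b' y) := hop_lie_smul _ _ _ _
      rw [h3, Complex.I_mul_I, neg_one_smul]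
      congr 1
      simp only [lie]
      noncomm_ring
    rw [h1, h2]
    have h4 : (-4 : ℂ) * (1 / 2) = -2 := by norm_num
    rw [h4, neg_smul, two_smul]
    abel
  have h1 := skew_sq_dissip hP hφ
  have h2 := skew_sq_dissip hQ hφ
  have h3 : (φ (adL (b - b') (adL (b - b') y))).re +
      (φ (adL (Complex.I • (b + b')) (adL (Complex.I • (b + b')) y))).re =
      -4 * (φ (Lop b b' y)).re := by
    rw [← Complex.add_re, ← map_add, e4, map_smul, smul_eq_mul]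
    have h5 : (-4 : ℂ) = ((-4 : ℝ) : ℂ) := by norm_num
    rw [h5, Complex.re_ofReal_mul]
  linarith

/-- one small step -/
private theorem hop_step (hh : HLie 𝔥) (hB : IsAb 𝔥 h ε 𝔅) (hb : b ∈ 𝔅) (hbb : Pr 𝔥 b b') :
    ∃ C : ℝ, 0 ≤ C ∧ ∀ t : ℝ, 0 ≤ t → t ≤ 1 → ∀ w ∈ 𝔅,
      (1 - C * t ^ 2) * ‖ex (-t) (Lop b b') w‖ ≤ ‖w‖ := by
  set L := Lop b b' with hL
  refine ⟨‖L‖ ^ 2 * Real.exp ‖L‖, by positivity, fun t ht ht1 w hw => ?_⟩
  have hz : ex (-t) L w ∈ 𝔅 :=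
    ex_mem hB.closed (fun y hy => hB.Lop_mem hb hbb hy) (-t) hw
  set z := ex (-t) L w with hzdef
  have hw' : ex t L z = w := by
    rw [hzdef, ← mul_apply_eq_comp, ex_mul_neg, one_apply_eq_self]
  set T : (E →L[ℂ] E) →L[ℂ] (E →L[ℂ] E) := ex t L - 1 - (t : ℂ) • L with hT
  have hTn : ‖T‖ ≤ t ^ 2 * ‖L‖ ^ 2 * Real.exp ‖L‖ := by
    have h0 := ex_taylor L t
    rw [abs_of_nonneg ht] at h0
    refine h0.trans ?_
    have h2 : t * ‖L‖ ≤ ‖L‖ := by
      have := mul_le_mul_of_nonneg_right ht1 (norm_nonneg L)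
      rwa [one_mul] at this
    exact mul_le_mul_of_nonneg_left (Real.exp_le_exp.mpr h2) (by positivity)
  have hTz : ‖T z‖ ≤ t ^ 2 * ‖L‖ ^ 2 * Real.exp ‖L‖ * ‖z‖ :=
    (T.le_opNorm z).trans (mul_le_mul_of_nonneg_right hTn (norm_nonneg z))
  have hex : w = z + (t : ℂ) • L z + T z := by
    rw [hT]
    simp only [sub_apply, smul_apply, one_apply_eq_self]
    rw [hw']
    abel
  obtain ⟨φ, hφ⟩ := exists_norming z
  have h1 : ‖z‖ ≤ ‖z + (t : ℂ) • L z‖ := by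
    have h2 := Lop_dissip hh hB hb hbb hz hφ
    have h3 := hφ.re_le (z + (t : ℂ) • L z)
    have h4 : (φ (z + (t : ℂ) • L z)).re = ‖z‖ + t * (φ (L z)).re := by
      rw [map_add, map_smul, Complex.add_re, smul_eq_mul, Complex.re_ofReal_mul, hφ.2,
        Complex.ofReal_re]
    have h5 : 0 ≤ t * (φ (L z)).re := mul_nonneg ht h2
    linarith
  have h6 : ‖z + (t : ℂ) • L z‖ ≤ ‖w‖ + ‖T z‖ := by
    have h7 : z + (t : ℂ) • L z = w - T z := by
      rw [hex]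
      abel
    rw [h7]
    exact norm_sub_le _ _
  have h8 : (1 - ‖L‖ ^ 2 * Real.exp ‖L‖ * t ^ 2) * ‖z‖ =
      ‖z‖ - t ^ 2 * ‖L‖ ^ 2 * Real.exp ‖L‖ * ‖z‖ := by ring
  rw [h8]
  linarith

theorem Lop_contr (hh : HLie 𝔥) (hB : IsAb 𝔥 h ε 𝔅) (hb : b ∈ 𝔅) (hbb : Pr 𝔥 b b')
    {y : E →L[ℂ] E} (hy : y ∈ 𝔅) {s : ℝ} (hs : 0 ≤ s) : ‖ex (-s) (Lop b b') y‖ ≤ ‖y‖ := by
  obtain ⟨C, hC, hstep⟩ := hop_step hh hB hb hbb
  have hmem : ∀ t : ℝ, ∀ w ∈ 𝔅, ex t (Lop b b') w ∈ 𝔅 := fun t w hw =>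
    ex_mem hB.closed (fun y hy => hB.Lop_mem hb hbb hy) t hw
  have hiter : ∀ (t : ℝ), 0 ≤ t → t ≤ 1 → 0 ≤ 1 - C * t ^ 2 → ∀ k : ℕ,
      (1 - C * t ^ 2) ^ k * ‖ex (-((k : ℝ) * t)) (Lop b b') y‖ ≤ ‖y‖ := by
    intro t ht ht1 hpos k
    induction k with
    | zero =>
      rw [Nat.cast_zero, zero_mul, neg_zero, ex_zero, pow_zero, one_mul, one_apply_eq_self]
    | succ k ih =>
      have h1 : -(((k + 1 : ℕ) : ℝ) * t) = -t + -((k : ℝ) * t) := by push_cast; ring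
      rw [h1, ex_add, mul_apply_eq_comp, pow_succ]
      have h2 := hstep t ht ht1 _ (hmem (-((k : ℝ) * t)) y hy)
      calc (1 - C * t ^ 2) ^ k * (1 - C * t ^ 2) *
            ‖ex (-t) (Lop b b') (ex (-((k : ℝ) * t)) (Lop b b') y)‖
          = (1 - C * t ^ 2) ^ k * ((1 - C * t ^ 2) *
            ‖ex (-t) (Lop b b') (ex (-((k : ℝ) * t)) (Lop b b') y)‖) := by ring
        _ ≤ (1 - C * t ^ 2) ^ k * ‖ex (-((k : ℝ) * t)) (Lop b b') y‖ :=
            mul_le_mul_of_nonneg_left h2 (pow_nonneg hpos k)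
        _ ≤ ‖y‖ := ih
  have hlim : Tendsto (fun n : ℕ => (1 - C * s ^ 2 / (n : ℝ)) * ‖ex (-s) (Lop b b') y‖) atTop
      (𝓝 ((1 - 0) * ‖ex (-s) (Lop b b') y‖)) := by
    refine Tendsto.mul_const _ ?_
    exact tendsto_const_nhds.sub (tendsto_const_div_atTop_nhds_zero_nat (C * s ^ 2))
  rw [sub_zero, one_mul] at hlim
  refine le_of_tendsto hlim ?_
  filter_upwards [eventually_ge_atTop (⌈s⌉₊ + ⌈C * s ^ 2⌉₊ + 1)] with n hn
  have hn' : ((⌈s⌉₊ + ⌈C * s ^ 2⌉₊ + 1 : ℕ) : ℝ) ≤ (n : ℝ) := by exact_mod_cast hn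
  push_cast at hn'
  have hs1 : s ≤ (⌈s⌉₊ : ℝ) := Nat.le_ceil _
  have hs2 : C * s ^ 2 ≤ (⌈C * s ^ 2⌉₊ : ℝ) := Nat.le_ceil _
  have hs0 : (0 : ℝ) ≤ (⌈s⌉₊ : ℝ) := Nat.cast_nonneg _
  have hs3 : (0 : ℝ) ≤ (⌈C * s ^ 2⌉₊ : ℝ) := Nat.cast_nonneg _
  have hn1 : (1 : ℝ) ≤ (n : ℝ) := by linarith
  have hn0 : (0 : ℝ) < (n : ℝ) := by linarith
  have ht0 : 0 ≤ s / (n : ℝ) := div_nonneg hs hn0.le
  have ht1 : s / (n : ℝ) ≤ 1 := by
    rw [div_le_one hn0]
    linarith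
  have hx : C * (s / (n : ℝ)) ^ 2 ≤ 1 := by
    have h1 : C * (s / (n : ℝ)) ^ 2 = (C * s ^ 2) / (n : ℝ) ^ 2 := by
      rw [div_pow]
      ring
    rw [h1, div_le_one (by positivity)]
    have h2 : (n : ℝ) * 1 ≤ (n : ℝ) * (n : ℝ) := mul_le_mul_of_nonneg_left hn1 hn0.le
    rw [pow_two]
    linarith
  have hx0 : 0 ≤ C * (s / (n : ℝ)) ^ 2 := by positivity
  have h3 := hiter (s / (n : ℝ)) ht0 ht1 (by linarith) n
  have h4 : (n : ℝ) * (s / (n : ℝ)) = s := by field_simp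
  rw [h4] at h3
  refine le_trans (mul_le_mul_of_nonneg_right ?_ (norm_nonneg _)) h3
  have h5 : 1 + (n : ℝ) * (-(C * (s / (n : ℝ)) ^ 2)) ≤ (1 + -(C * (s / (n : ℝ)) ^ 2)) ^ n :=
    one_add_mul_le_pow (by linarith) n
  have h6 : 1 + (n : ℝ) * (-(C * (s / (n : ℝ)) ^ 2)) = 1 - C * s ^ 2 / (n : ℝ) := by
    field_simp
    ring
  have h7 : 1 + -(C * (s / (n : ℝ)) ^ 2) = 1 - C * (s / (n : ℝ)) ^ 2 := by ring
  rw [h6, h7] at h5
  exact h5

/-- the exponential of a scalar -/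
private theorem hop_ex_scalar {F : Type u} [NormedAddCommGroup F] [NormedSpace ℂ F]
    [CompleteSpace F] (s c : ℝ) (z : F) :
    ex s ((c : ℂ) • (1 : F →L[ℂ] F)) z = ((Real.exp (s * c) : ℝ) : ℂ) • z := by
  have h1 : ex s ((c : ℂ) • (1 : F →L[ℂ] F)) =
      ((Real.exp (s * c) : ℝ) : ℂ) • (1 : F →L[ℂ] F) := by
    unfold ex
    rw [smul_smul, ← Algebra.algebraMap_eq_smul_one, ← NormedSpace.algebraMap_exp_comm,
      ← Complex.exp_eq_exp_ℂ, Algebra.algebraMap_eq_smul_one]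
    push_cast
    rfl
  rw [h1]
  simp only [smul_apply, one_apply_eq_self]

private theorem hop_comm_scalar {F : Type u} [NormedAddCommGroup F] [NormedSpace ℂ F]
    (A : F →L[ℂ] F) (c : ℂ) : A * (c • (1 : F →L[ℂ] F)) = (c • (1 : F →L[ℂ] F)) * A := by
  rw [mul_smul_comm, smul_mul_assoc, mul_one, one_mul]

/-- operators with geometric growth on a vector -/
private theorem hop_ex_growth {F : Type u} [NormedAddCommGroup F] [NormedSpace ℂ F]
    [CompleteSpace F] (A : F →L[ℂ] F) (z : F) {C r : ℝ}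
    (h : ∀ n : ℕ, ‖(A ^ n) z‖ ≤ C * r ^ n) {s : ℝ} (hs : 0 ≤ s) :
    ‖ex s A z‖ ≤ C * Real.exp (s * r) := by
  have h1 : HasSum (fun n : ℕ => (((n.factorial : ℂ)⁻¹) • ((s : ℂ) • A) ^ n) z) (ex s A z) :=
    (ContinuousLinearMap.apply ℂ F z).hasSum (ex_hasSum s A)
  have h2 : HasSum (fun n : ℕ => C * ((s * r) ^ n / (n.factorial : ℝ)))
      (C * Real.exp (s * r)) := by
    have h3 := NormedSpace.expSeries_div_hasSum_exp (s * r : ℝ)
    rw [← Real.exp_eq_exp_ℝ] at h3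
    exact h3.mul_left C
  refine h1.norm_le_of_bounded h2 fun n => ?_
  have h4 : (((n.factorial : ℂ)⁻¹) • ((s : ℂ) • A) ^ n) z =
      ((n.factorial : ℂ)⁻¹ * (s : ℂ) ^ n) • ((A ^ n) z) := by
    rw [smul_pow, smul_smul, smul_apply]
  rw [h4, norm_smul, norm_mul, norm_inv, Complex.norm_natCast, norm_pow, Complex.norm_real,
    Real.norm_of_nonneg hs]
  calc (n.factorial : ℝ)⁻¹ * s ^ n * ‖(A ^ n) z‖
      ≤ (n.factorial : ℝ)⁻¹ * s ^ n * (C * r ^ n) :=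
        mul_le_mul_of_nonneg_left (h n) (by positivity)
    _ = C * ((s * r) ^ n / (n.factorial : ℝ)) := by
        rw [mul_pow]
        ring

theorem phi_neg_zero (hh : HLie 𝔥) (hB : IsAb 𝔥 h ε 𝔅) (hb : b ∈ 𝔅) (hbb : Pr 𝔥 b b')
    {y : E →L[ℂ] E} (hy : y ∈ 𝔅) {f : ℝ → ℂ} (hf : Test f) {δ : ℝ} (hδ : 0 < δ)
    (hs : ∀ x, -δ ≤ x → f x = 0) : Phi (Lop b b') f y = 0 := by
  have hL : Herm (Lop b b') := herm_Lop hh hbb
  have hmem : ∀ t : ℝ, ∀ w ∈ 𝔅, ex t (Lop b b') w ∈ 𝔅 := fun t w hw =>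
    ex_mem hB.closed (fun y hy => hB.Lop_mem hb hbb hy) t hw
  obtain ⟨R, hR⟩ : ∃ R : ℝ, ∀ x : ℝ, R < |x| → f x = 0 := by
    obtain ⟨R, hR⟩ := hf.2.isCompact.isBounded.subset_closedBall (0 : ℝ)
    refine ⟨R, fun x hx => ?_⟩
    by_contra hne
    have h1 : x ∈ tsupport f := subset_tsupport f hne
    have h2 := hR h1
    rw [Metric.mem_closedBall, Real.dist_eq, sub_zero] at h2
    linarith
  set M : ℝ := max R (δ + 1) with hM
  have hM1 : δ + 1 ≤ M := le_max_right _ _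
  have hM2 : R ≤ M := le_max_left _ _
  set z := Phi (Lop b b') f y with hz
  have hzB : z ∈ 𝔅 := phi_mem_ab hh hB hb hbb hf hy
  have hsp : SpIn (Lop b b') (-((M + δ) / 2) - (M - δ) / 2) (-((M + δ) / 2) + (M - δ) / 2) z := by
    refine SpIn.of_support hL hf (fun x hx => ?_) y
    rw [Set.mem_Icc, not_and_or, not_le, not_le] at hx
    rcases hx with hx | hx
    · refine hR x ?_
      have h1 : x < -M := by linarith
      have h2 : M < -x := by linarith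
      exact lt_of_le_of_lt hM2 (lt_of_lt_of_le h2 (neg_le_abs x))
    · exact hs x (by linarith)
  obtain ⟨C, hC⟩ := hsp.growth hL (by linarith) (r' := (M - δ) / 2 + δ / 2) (by linarith)
  have hbound : ∀ s : ℝ, 0 ≤ s → ‖z‖ ≤ C * Real.exp (-(s * (δ / 2))) := by
    intro s hs0
    set A' : (E →L[ℂ] E) →L[ℂ] (E →L[ℂ] E) :=
      Lop b b' - ((-((M + δ) / 2) : ℝ) : ℂ) • (1 : (E →L[ℂ] E) →L[ℂ] (E →L[ℂ] E)) with hA'
    have hcomm : A' * (((-((M + δ) / 2) : ℝ) : ℂ) • (1 : (E →L[ℂ] E) →L[ℂ] (E →L[ℂ] E))) =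
        (((-((M + δ) / 2) : ℝ) : ℂ) • (1 : (E →L[ℂ] E) →L[ℂ] (E →L[ℂ] E))) * A' :=
      hop_comm_scalar A' _
    have hLsum : Lop b b' = A' +
        ((-((M + δ) / 2) : ℝ) : ℂ) • (1 : (E →L[ℂ] E) →L[ℂ] (E →L[ℂ] E)) := by
      rw [hA', sub_add_cancel]
    have h1 : ex s (Lop b b') z = ((Real.exp (s * (-((M + δ) / 2))) : ℝ) : ℂ) • ex s A' z := by
      rw [hLsum, ex_add_op hcomm, mul_apply_eq_comp, hop_ex_scalar, map_smul]
    have h2 : ‖ex s A' z‖ ≤ C * Real.exp (s * ((M - δ) / 2 + δ / 2)) :=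
      hop_ex_growth A' z hC hs0
    have h3 : ‖ex s (Lop b b') z‖ ≤ C * Real.exp (-(s * (δ / 2))) := by
      rw [h1, norm_smul, Complex.norm_real, Real.norm_of_nonneg (Real.exp_pos _).le]
      calc Real.exp (s * (-((M + δ) / 2))) * ‖ex s A' z‖
          ≤ Real.exp (s * (-((M + δ) / 2))) * (C * Real.exp (s * ((M - δ) / 2 + δ / 2))) :=
            mul_le_mul_of_nonneg_left h2 (Real.exp_pos _).le
        _ = C * (Real.exp (s * (-((M + δ) / 2))) * Real.exp (s * ((M - δ) / 2 + δ / 2))) := by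
            ring
        _ = C * Real.exp (-(s * (δ / 2))) := by
            rw [← Real.exp_add]
            congr 2
            ring
    have h4 := Lop_contr hh hB hb hbb (hmem s z hzB) hs0
    rw [← mul_apply_eq_comp, ex_neg_mul, one_apply_eq_self] at h4
    exact h4.trans h3
  have hlim : Tendsto (fun s : ℝ => C * Real.exp (-(s * (δ / 2)))) atTop (𝓝 (C * 0)) := by
    refine Tendsto.const_mul _ ?_
    exact Real.tendsto_exp_neg_atTop_nhds_zero.comp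
      (tendsto_id.atTop_mul_const (by linarith : (0 : ℝ) < δ / 2))
  rw [mul_zero] at hlim
  have h0 : ‖z‖ ≤ 0 := by
    refine ge_of_tendsto hlim ?_
    filter_upwards [eventually_ge_atTop (0 : ℝ)] with s hs0
    exact hbound s hs0
  exact norm_le_zero_iff.1 h0

end Pool.Agent.Helper61.HP
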