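import Pool.Agent.Helper61.HO.HermNorm
import Pool.Agent.Helper61.HO.AdApi
import Pool.Agent.Helper61.HP.ULimApi

/-!
# HO-09  The star operation of a complexified hermitian Lie algebra

`Pr 𝔥 K L`: `K = A + i B`, `L = A - i B`, `A`, `B ∈ 𝔥`.

PROOFS. `Pr.smul`: `(a + b i)(A + i B) = (a A - b B) + i (b A + a B)`. `Pr.lie`: with `C(A, B) = i [A, B] ∈ 𝔥`:
`[A + i B, A' + i B'] = [A, A'] - [B, B'] + i ([A, B'] + [B, A']) = X + i Y` with
`X = C(A, B') + C(B, A')` and `Y = - C(A, A') + C(B, B')`; and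
`[L', L] = X - i Y`. `Pr.conj`: for `A ∈ 𝔥` the operator `K ↦ ex t (iA) K ex (-t) (iA)` maps `𝔥` to `𝔥`:
`ex t (adL (i A)) H = ∑ t^n / n! (adL (i A))^n H`, `adL (i A) H = i [A, H] ∈ 𝔥`, `𝔥` is closed in norm
(`isULim_of_tendsto`). `Pr.norm_le`: `pair_norm_le`. `Pr.unique`: `pair_unique`.
`Pr.tendsto`: `Pr (K n) (L n)`, `K n → K`: the differences satisfy `Pr`, `‖L n - L m‖ ≤ 6 ‖K n - K m‖`, so `L n` converges,
and the real and imaginary parts `(K n + L n) / 2`, `(K n - L n) / (2 i)` converge to elements of `𝔥`.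
`Pr.ulim`: the same with ultralimits.
`Pr.self`: `Pr K K` gives `B = 0` (`K = A + i B = A - i B`), so `K = A ∈ 𝔥`.
`hherm`: `{H | Herm H}` is an `HLie`; `i [A, B]`: `i (i [A, B]) = - [A, B] = [i A, i B]` is skew.
`hann`: `Ann S` is an `HLie`.
-/

set_option autoImplicit false

open Filter Topology

namespace Pool.Agent.Helper61.HP

universe u

variable {E : Type u} [NormedAddCommGroup E] [NormedSpace ℂ E] [CompleteSpace E]
  {𝔥 : Set (E →L[ℂ] E)} {A B K L K' L' : E →L[ℂ] E}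

private theorem herm_lie {A B : E →L[ℂ] E} (hA : Herm A) (hB : Herm B) :
    Herm (Complex.I • (A * B - B * A)) := by
  have h1 := Skew.lie hA hB
  have h2 : Complex.I • (Complex.I • (A * B - B * A)) =
      (Complex.I • A) * (Complex.I • B) - (Complex.I • B) * (Complex.I • A) := by
    simp only [smul_mul_assoc, mul_smul_comm, smul_sub]
  unfold Herm
  rw [h2]
  exact h1

private theorem herm_ulim {D : ℕ → E →L[ℂ] E} {L : E →L[ℂ] E} (h : ∀ n, Herm (D n))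
    (hL : IsULim D L) : Herm L :=
  Skew.ulim h (hL.smul Complex.I)

theorem hherm : HLie {H : E →L[ℂ] E | Herm H} where
  herm := fun _ hA => hA
  zero := Herm.zero
  add := fun _ hA _ hB => Herm.add hA hB
  smul := fun t _ hA => Herm.smul hA t
  lie := fun _ hA _ hB => herm_lie hA hB
  ulim := fun _ _ hA hL => herm_ulim hA hL

private theorem ulim_zero {D : ℕ → E →L[ℂ] E} {L : E →L[ℂ] E} (h : ∀ n, D n = 0)
    (hL : IsULim D L) : L = 0 := by
  have h1 : D = fun _ => 0 := funext h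
  rw [h1] at hL
  exact hL.unique (isULim_const 0)

theorem hann (S : E →L[ℂ] E) : HLie (Ann S) where
  herm := fun _ hA => hA.1
  zero := ⟨Herm.zero, zero_mul _, mul_zero _⟩
  add := by
    rintro A ⟨hA1, hA2, hA3⟩ B ⟨hB1, hB2, hB3⟩
    refine ⟨hA1.add hB1, ?_, ?_⟩
    · rw [add_mul, hA2, hB2, add_zero]
    · rw [mul_add, hA3, hB3, add_zero]
  smul := by
    rintro t A ⟨hA1, hA2, hA3⟩
    refine ⟨hA1.smul t, ?_, ?_⟩
    · rw [smul_mul_assoc, hA2, smul_zero]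
    · rw [mul_smul_comm, hA3, smul_zero]
  lie := by
    rintro A ⟨hA1, hA2, hA3⟩ B ⟨hB1, hB2, hB3⟩
    refine ⟨herm_lie hA1 hB1, ?_, ?_⟩
    · rw [smul_mul_assoc, sub_mul, mul_assoc, mul_assoc, hA2, hB2, mul_zero, mul_zero, sub_zero,
        smul_zero]
    · rw [mul_smul_comm, mul_sub, ← mul_assoc, ← mul_assoc, hA3, hB3, zero_mul, zero_mul, sub_zero,
        smul_zero]
  ulim := by
    intro A L hA hL
    refine ⟨herm_ulim (fun n => (hA n).1) hL, ?_, ?_⟩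
    · exact ulim_zero (fun n => (hA n).2.1) (hL.mul_right S)
    · exact ulim_zero (fun n => (hA n).2.2) (hL.mul_left S)

theorem HLie.neg (hh : HLie 𝔥) (hA : A ∈ 𝔥) : -A ∈ 𝔥 := by
  have h1 := hh.smul (-1) A hA
  have h2 : (((-1 : ℝ) : ℂ)) • A = -A := by
    rw [Complex.ofReal_neg, Complex.ofReal_one, neg_smul, one_smul]
  rwa [h2] at h1

theorem HLie.sub (hh : HLie 𝔥) (hA : A ∈ 𝔥) (hB : B ∈ 𝔥) : A - B ∈ 𝔥 := by
  rw [sub_eq_add_neg]
  exact hh.add A hA (-B) (hh.neg hB)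

theorem HLie.isClosed (hh : HLie 𝔥) : IsClosed 𝔥 := by
  refine IsSeqClosed.isClosed ?_
  intro D L hD hL
  exact hh.ulim D L hD (isULim_of_tendsto hL)

private theorem conj_pow (hh : HLie 𝔥) (hA : A ∈ 𝔥) (hB : B ∈ 𝔥) (t : ℝ) (n : ℕ) :
    (((t : ℂ) • adL (Complex.I • A)) ^ n) B ∈ 𝔥 := by
  induction n with
  | zero =>
    rw [pow_zero]
    exact hB
  | succ n ih =>
    rw [pow_succ']
    have h1 := hh.smul t _ (hh.lie A hA _ ih)
    have h2 : (((t : ℂ) • adL (Complex.I • A)) * ((t : ℂ) • adL (Complex.I • A)) ^ n) B =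
        (t : ℂ) • (Complex.I • (A * (((t : ℂ) • adL (Complex.I • A)) ^ n) B -
          (((t : ℂ) • adL (Complex.I • A)) ^ n) B * A)) := by
      rw [ContinuousLinearMap.mul_apply, ContinuousLinearMap.smul_apply, adL_apply]
      unfold Pool.Agent.Helper61.HP.lie
      rw [smul_mul_assoc, mul_smul_comm, ← smul_sub]
    rw [h2]
    exact h1

theorem HLie.conj (hh : HLie 𝔥) (hA : A ∈ 𝔥) (hB : B ∈ 𝔥) (t : ℝ) :
    ex t (Complex.I • A) * B * ex (-t) (Complex.I • A) ∈ 𝔥 := by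
  rw [← ex_adL]
  have h1 := (ContinuousLinearMap.apply ℂ (E →L[ℂ] E) B).hasSum (ex_hasSum t (adL (Complex.I • A)))
  refine hh.isClosed.mem_of_tendsto h1 (Filter.Eventually.of_forall fun s => ?_)
  classical
  induction s using Finset.induction_on with
  | empty =>
    rw [Finset.sum_empty]
    exact hh.zero
  | insert a s ha ih =>
    rw [Finset.sum_insert ha]
    refine hh.add _ ?_ _ ih
    have h2 := hh.smul (((a.factorial : ℝ))⁻¹) _ (conj_pow hh hA hB t a)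
    have h3 : (((((a.factorial : ℝ))⁻¹ : ℝ)) : ℂ) = ((a.factorial : ℂ))⁻¹ := by
      push_cast
      rfl
    rw [h3] at h2
    exact h2

theorem Pr.of_mem (hh : HLie 𝔥) (hA : A ∈ 𝔥) : Pr 𝔥 A A :=
  ⟨A, hA, 0, hh.zero, by rw [smul_zero, add_zero], by rw [smul_zero, sub_zero]⟩

theorem Pr.zero (hh : HLie 𝔥) : Pr 𝔥 (0 : E →L[ℂ] E) 0 := Pr.of_mem hh hh.zero

theorem Pr.symm (hh : HLie 𝔥) (h : Pr 𝔥 K L) : Pr 𝔥 L K := by
  obtain ⟨A, hA, B, hB, hK, hL⟩ := h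
  refine ⟨A, hA, -B, hh.neg hB, ?_, ?_⟩
  · rw [hL, smul_neg, sub_eq_add_neg]
  · rw [hK, smul_neg, sub_neg_eq_add]

theorem Pr.add (hh : HLie 𝔥) (h : Pr 𝔥 K L) (h' : Pr 𝔥 K' L') : Pr 𝔥 (K + K') (L + L') := by
  obtain ⟨A, hA, B, hB, hK, hL⟩ := h
  obtain ⟨A', hA', B', hB', hK', hL'⟩ := h'
  refine ⟨A + A', hh.add A hA A' hA', B + B', hh.add B hB B' hB', ?_, ?_⟩
  · rw [hK, hK']
    module
  · rw [hL, hL']
    module

theorem Pr.sub (hh : HLie 𝔥) (h : Pr 𝔥 K L) (h' : Pr 𝔥 K' L') : Pr 𝔥 (K - K') (L - L') := by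
  obtain ⟨A, hA, B, hB, hK, hL⟩ := h
  obtain ⟨A', hA', B', hB', hK', hL'⟩ := h'
  refine ⟨A - A', hh.sub hA hA', B - B', hh.sub hB hB', ?_, ?_⟩
  · rw [hK, hK']
    module
  · rw [hL, hL']
    module

theorem Pr.smul (hh : HLie 𝔥) (h : Pr 𝔥 K L) (c : ℂ) :
    Pr 𝔥 (c • K) ((starRingEnd ℂ c) • L) := by
  obtain ⟨A, hA, B, hB, hK, hL⟩ := h
  refine ⟨(c.re : ℂ) • A - (c.im : ℂ) • B, hh.sub (hh.smul _ A hA) (hh.smul _ B hB),
    (c.im : ℂ) • A + (c.re : ℂ) • B, hh.add _ (hh.smul _ A hA) _ (hh.smul _ B hB), ?_, ?_⟩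
  · have h2 : ((c.re : ℂ) + (c.im : ℂ) * Complex.I) * Complex.I =
        (c.re : ℂ) * Complex.I - (c.im : ℂ) := by
      rw [add_mul, mul_assoc, Complex.I_mul_I]
      ring
    have h3 : c • K = ((c.re : ℂ) + (c.im : ℂ) * Complex.I) • K := by
      rw [Complex.re_add_im]
    rw [h3, hK, smul_add, smul_smul, h2]
    rw [add_smul, sub_smul, smul_add, smul_smul, smul_smul, mul_comm Complex.I, mul_comm Complex.I]
    abel
  · have h1 : starRingEnd ℂ c = (c.re : ℂ) - (c.im : ℂ) * Complex.I := by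
      conv_lhs => rw [← Complex.re_add_im c]
      rw [map_add, map_mul, Complex.conj_ofReal, Complex.conj_ofReal, Complex.conj_I]
      ring
    have h2 : ((c.re : ℂ) - (c.im : ℂ) * Complex.I) * Complex.I =
        (c.re : ℂ) * Complex.I + (c.im : ℂ) := by
      rw [sub_mul, mul_assoc, Complex.I_mul_I]
      ring
    rw [hL, h1, smul_sub, smul_smul, h2]
    rw [add_smul, sub_smul, smul_add, smul_smul, smul_smul, mul_comm Complex.I, mul_comm Complex.I]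
    abel

theorem Pr.lie (hh : HLie 𝔥) (h : Pr 𝔥 K L) (h' : Pr 𝔥 K' L') :
    Pr 𝔥 (lie K K') (lie L' L) := by
  obtain ⟨A, hA, B, hB, hK, hL⟩ := h
  obtain ⟨A', hA', B', hB', hK', hL'⟩ := h'
  have hI := Complex.I_mul_I
  refine ⟨Complex.I • (A * B' - B' * A) + Complex.I • (B * A' - A' * B),
    hh.add _ (hh.lie A hA B' hB') _ (hh.lie B hB A' hA'),
    Complex.I • (B * B' - B' * B) - Complex.I • (A * A' - A' * A),
    hh.sub (hh.lie B hB B' hB') (hh.lie A hA A' hA'), ?_, ?_⟩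
  · rw [hK, hK']
    unfold Pool.Agent.Helper61.HP.lie
    simp only [mul_add, add_mul, smul_mul_assoc, mul_smul_comm, smul_sub, smul_add, smul_smul, hI]
    module
  · rw [hL, hL']
    unfold Pool.Agent.Helper61.HP.lie
    simp only [mul_sub, sub_mul, smul_mul_assoc, mul_smul_comm, smul_sub, smul_add, smul_smul, hI]
    module

theorem Pr.unique (hh : HLie 𝔥) (h : Pr 𝔥 K L) (h' : Pr 𝔥 K L') : L = L' := by
  obtain ⟨A, hA, B, hB, hK, hL⟩ := h
  obtain ⟨A', hA', B', hB', hK', hL'⟩ := h'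
  obtain ⟨h1, h2⟩ := pair_unique (hh.herm A hA) (hh.herm B hB) (hh.herm A' hA') (hh.herm B' hB')
    (hK.symm.trans hK')
  rw [hL, hL', h1, h2]

theorem Pr.self (hh : HLie 𝔥) (h : Pr 𝔥 K K) : K ∈ 𝔥 := by
  obtain ⟨A, hA, B, hB, hK, hL⟩ := h
  have h1 : K = A := by
    have h2 : K + K = A + A := by
      nth_rewrite 1 [hK]
      rw [hL]
      abel
    have h3 : (2 : ℂ) • K = (2 : ℂ) • A := by rw [two_smul, two_smul, h2]
    exact smul_right_injective _ (two_ne_zero (α := ℂ)) h3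
  rw [h1]
  exact hA

theorem Pr.norm_le (hh : HLie 𝔥) (h : Pr 𝔥 K L) : ‖L‖ ≤ 6 * ‖K‖ := by
  obtain ⟨A, hA, B, hB, hK, hL⟩ := h
  obtain ⟨h1, h2⟩ := pair_norm_le (hh.herm A hA) (hh.herm B hB)
  rw [← hK] at h1 h2
  have h3 : ‖L‖ ≤ ‖A‖ + ‖B‖ := by
    rw [hL]
    refine (norm_sub_le _ _).trans ?_
    rw [norm_smul, Complex.norm_I, one_mul]
  linarith

theorem Pr.skew (hh : HLie 𝔥) (h : Pr 𝔥 K L) : Skew (K - L) := by
  obtain ⟨A, hA, B, hB, hK, hL⟩ := h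
  have h1 : Skew (Complex.I • B) := hh.herm B hB
  have h2 : K - L = Complex.I • B + Complex.I • B := by
    rw [hK, hL]
    abel
  rw [h2]
  exact h1.add h1

theorem Pr.add_mem (hh : HLie 𝔥) (h : Pr 𝔥 K L) : K + L ∈ 𝔥 := by
  obtain ⟨A, hA, B, hB, hK, hL⟩ := h
  have h2 : K + L = A + A := by
    rw [hK, hL]
    abel
  rw [h2]
  exact hh.add A hA A hA

theorem Pr.conj (hh : HLie 𝔥) (h : Pr 𝔥 K L) (hA : A ∈ 𝔥) (t : ℝ) :
    Pr 𝔥 (ex t (Complex.I • A) * K * ex (-t) (Complex.I • A))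
      (ex t (Complex.I • A) * L * ex (-t) (Complex.I • A)) := by
  obtain ⟨A', hA', B', hB', hK', hL'⟩ := h
  refine ⟨_, hh.conj hA hA' t, _, hh.conj hA hB' t, ?_, ?_⟩
  · rw [hK', mul_add, add_mul, mul_smul_comm, smul_mul_assoc]
  · rw [hL', mul_sub, sub_mul, mul_smul_comm, smul_mul_assoc]

theorem Pr.ulim (hh : HLie 𝔥) {k l : ℕ → E →L[ℂ] E} (h : ∀ n, Pr 𝔥 (k n) (l n))
    (hK : IsULim k K) (hL : IsULim l L) : Pr 𝔥 K L := by
  have h1 := (hK.add hL).smul (1 / 2)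
  have h2 := (hK.add hL.neg).smul (-(Complex.I / 2))
  have hI := Complex.I_mul_I
  have m1 : (1 / 2 : ℂ) • (K + L) ∈ 𝔥 := by
    refine hh.ulim _ _ (fun n => ?_) h1
    obtain ⟨A, hA, B, hB, hk, hl⟩ := h n
    have e : (1 / 2 : ℂ) • (k n + l n) = A := by
      rw [hk, hl]
      module
    rw [e]
    exact hA
  have m2 : (-(Complex.I / 2)) • (K + -L) ∈ 𝔥 := by
    refine hh.ulim _ _ (fun n => ?_) h2
    obtain ⟨A, hA, B, hB, hk, hl⟩ := h n
    have e : (-(Complex.I / 2)) • (k n + -l n) = B := by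
      have e1 : k n + -l n = (2 * Complex.I) • B := by
        rw [hk, hl]
        module
      rw [e1, smul_smul]
      have e2 : -(Complex.I / 2) * (2 * Complex.I) = 1 := by
        linear_combination -hI
      rw [e2, one_smul]
    rw [e]
    exact hB
  refine ⟨_, m1, _, m2, ?_, ?_⟩
  · rw [smul_smul]
    have e2 : Complex.I * -(Complex.I / 2) = 1 / 2 := by
      linear_combination (-1 / 2) * hI
    rw [e2]
    module
  · rw [smul_smul]
    have e2 : Complex.I * -(Complex.I / 2) = 1 / 2 := by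
      linear_combination (-1 / 2) * hI
    rw [e2]
    module

theorem Pr.tendsto (hh : HLie 𝔥) {k l : ℕ → E →L[ℂ] E} (h : ∀ n, Pr 𝔥 (k n) (l n))
    (hK : Tendsto k atTop (𝓝 K)) : ∃ L, Pr 𝔥 K L ∧ Tendsto l atTop (𝓝 L) := by
  have hc : CauchySeq l := by
    have h1 := hK.cauchySeq
    rw [Metric.cauchySeq_iff] at h1 ⊢
    intro ε hε
    obtain ⟨N, hN⟩ := h1 (ε / 6) (by positivity)
    refine ⟨N, fun m hm n hn => ?_⟩
    have h2 := hN m hm n hn
    rw [dist_eq_norm] at h2 ⊢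
    have h3 := Pr.norm_le hh (Pr.sub hh (h m) (h n))
    linarith
  obtain ⟨L, hL⟩ := cauchySeq_tendsto_of_complete hc
  exact ⟨L, Pr.ulim hh h (isULim_of_tendsto hK) (isULim_of_tendsto hL), hL⟩

end Pool.Agent.Helper61.HP
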