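import Pool.Agent.Helper61.HO.PrApi

/-!
# HO-10  The star operation and the functional calculus of `adL H`

PROOFS.
* `pr_closed`: the set of the pairs `(K, L)` with `Pr 𝔥 K L` is a closed real subspace of the Banach space
  `(E →L[ℂ] E) × (E →L[ℂ] E)` (`Pr.add`, `Pr.smul`, `Pr.tendsto`, `Pr.unique`).
* `pr_phi`: `Phi (adL H) f K = ∫ 𝓕 f ξ • ex (2 π ξ) (i adL H) K dξ`, `i adL H = adL (i H)`, so
  `ex s (i adL H) K = ex s (i H) * K * ex (-s) (i H)` (`ex_adL`). By `Pr.conj` and `Pr.smul` the pairs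
  `(𝓕 f ξ • ex (2πξ) (i adL H) K, conj (𝓕 f ξ) • ex (2πξ) (i adL H) L)` satisfy `Pr`; the integral of a closed real
  subspace valued function stays in it; and `conj (𝓕 f ξ) = 𝓕 (fun x => conj (f (-x))) ξ` (`Test.fourier_star`,
  `Test.fourier_comp_neg`).
* `pr_spin`: if `f` vanishes near `[-β, -α]`, then `g x = conj (f (-x))` vanishes near `[α, β]`, `Phi (adL H) g K = 0`, its
  star `Phi (adL H) f L` (`pr_phi`; `conj (g (-x)) = f x`) is `0` (`Pr.unique`, `Pr.zero`).
* `ysub`: the operators `K` with `∃ L, Pr 𝔥 K L` form a closed complex subspace which is invariant under `lie H`, `H ∈ 𝔥`.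
-/

set_option autoImplicit false

open Filter Topology

namespace Pool.Agent.Helper61.HP

universe u

variable {E : Type u} [NormedAddCommGroup E] [NormedSpace ℂ E] [CompleteSpace E]
  {𝔥 : Set (E →L[ℂ] E)} {H K L : E →L[ℂ] E} {f : ℝ → ℂ}

theorem pr_closed (hh : HLie 𝔥) :
    IsClosed {p : (E →L[ℂ] E) × (E →L[ℂ] E) | Pr 𝔥 p.1 p.2} := by
  refine IsSeqClosed.isClosed ?_
  intro x p hx hp
  have h1 : Tendsto (fun n => (x n).1) atTop (𝓝 p.1) := (continuous_fst.tendsto p).comp hp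
  have h2 : Tendsto (fun n => (x n).2) atTop (𝓝 p.2) := (continuous_snd.tendsto p).comp hp
  obtain ⟨L, hL, hL'⟩ := Pr.tendsto hh (k := fun n => (x n).1) (l := fun n => (x n).2)
    (fun n => hx n) h1
  have h3 : L = p.2 := tendsto_nhds_unique hL' h2
  show Pr 𝔥 p.1 p.2
  rw [← h3]
  exact hL

/-- the pairs as a real subspace -/
noncomputable def prSub (hh : HLie 𝔥) : Submodule ℝ ((E →L[ℂ] E) × (E →L[ℂ] E)) where
  carrier := {p | Pr 𝔥 p.1 p.2}
  add_mem' := fun ha hb => Pr.add hh ha hb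
  zero_mem' := Pr.zero hh
  smul_mem' := by
    intro c x hx
    have h := Pr.smul hh hx (c : ℂ)
    rw [Complex.conj_ofReal] at h
    have e1 : (c • x).1 = (c : ℂ) • x.1 := (Complex.coe_smul c x.1).symm
    have e2 : (c • x).2 = (c : ℂ) • x.2 := (Complex.coe_smul c x.2).symm
    show Pr 𝔥 (c • x).1 (c • x).2
    rw [e1, e2]
    exact h

/-- integrals of functions with values in a closed subspace -/
theorem prPhi_integral_mem {F : Type*} [NormedAddCommGroup F] [NormedSpace ℝ F]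
    [CompleteSpace F] (M : Submodule ℝ F) (hM : IsClosed (M : Set F)) {g : ℝ → F}
    (hg : MeasureTheory.Integrable g) (h : ∀ x, g x ∈ M) : ∫ x, g x ∈ M := by
  have _ : IsClosed (M : Set F) := hM
  have h1 := (M.mkQL).integral_comp_comm hg
  have h2 : ∀ x, M.mkQL (g x) = 0 := fun x => (Submodule.Quotient.mk_eq_zero M).2 (h x)
  simp only [h2, MeasureTheory.integral_zero] at h1
  exact (Submodule.Quotient.mk_eq_zero M).1 h1.symm

theorem pr_phi (hh : HLie 𝔥) (hH : H ∈ 𝔥) (h : Pr 𝔥 K L) (hf : Test f) :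
    Pr 𝔥 (Phi (adL H) f K) (Phi (adL H) (fun x => (starRingEnd ℂ) (f (-x))) L) := by
  have hHH := herm_adL (hh.herm H hH)
  have hf' : Test (fun x => (starRingEnd ℂ) (f (-x))) := Test.star hf.comp_neg
  have i1 := Phi_integrable hHH hf
  have i2 := Phi_integrable hHH hf'
  have j1 := (ContinuousLinearMap.apply ℂ (E →L[ℂ] E) K).integrable_comp i1
  have j2 := (ContinuousLinearMap.apply ℂ (E →L[ℂ] E) L).integrable_comp i2
  have e1 := (ContinuousLinearMap.apply ℂ (E →L[ℂ] E) K).integral_comp_comm i1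
  have e2 := (ContinuousLinearMap.apply ℂ (E →L[ℂ] E) L).integral_comp_comm i2
  have key := prPhi_integral_mem (prSub hh) (pr_closed hh) (j1.prodMk j2) (by
    intro ξ
    show Pr 𝔥 _ _
    have h1 := Pr.smul hh (Pr.conj hh h hH (2 * Real.pi * ξ)) (FourierTransform.fourier f ξ)
    have h2 : ∀ X : E →L[ℂ] E, ex (2 * Real.pi * ξ) (Complex.I • adL H) X =
        ex (2 * Real.pi * ξ) (Complex.I • H) * X * ex (-(2 * Real.pi * ξ)) (Complex.I • H) := by
      intro X
      rw [← adL_smul, ex_adL]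
    have h3 : FourierTransform.fourier (fun x => (starRingEnd ℂ) (f (-x))) ξ =
        (starRingEnd ℂ) (FourierTransform.fourier f ξ) := by
      rw [Test.fourier_star hf.comp_neg, Test.fourier_comp_neg hf, neg_neg]
    simp only [ContinuousLinearMap.apply_apply, ContinuousLinearMap.smul_apply, h2, h3]
    exact h1)
  have h1 := key
  change Pr 𝔥 (Prod.fst _) (Prod.snd _) at h1
  rw [fst_integral (j1.prodMk j2), snd_integral (j1.prodMk j2)] at h1
  have r1 : Phi (adL H) f K = ∫ ξ, (ContinuousLinearMap.apply ℂ (E →L[ℂ] E) K)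
      ((FourierTransform.fourier f ξ) • ex (2 * Real.pi * ξ) (Complex.I • adL H)) := e1.symm
  have r2 : Phi (adL H) (fun x => (starRingEnd ℂ) (f (-x))) L =
      ∫ ξ, (ContinuousLinearMap.apply ℂ (E →L[ℂ] E) L)
      ((FourierTransform.fourier (fun x => (starRingEnd ℂ) (f (-x))) ξ) •
        ex (2 * Real.pi * ξ) (Complex.I • adL H)) := e2.symm
  rw [r1, r2]
  exact h1

theorem pr_spin (hh : HLie 𝔥) (hH : H ∈ 𝔥) (h : Pr 𝔥 K L) {α β : ℝ}
    (hK : SpIn (adL H) α β K) : SpIn (adL H) (-β) (-α) L := by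
  intro f hf hv
  have hg : Test (fun x => (starRingEnd ℂ) (f (-x))) := Test.star hf.comp_neg
  have hvg : VanNear (fun x => (starRingEnd ℂ) (f (-x))) (Set.Icc α β) := by
    intro x hx
    have h1 := hv (-x) ⟨by linarith [hx.2], by linarith [hx.1]⟩
    have h2 : Tendsto (fun y : ℝ => -y) (𝓝 x) (𝓝 (-x)) := continuous_neg.tendsto x
    filter_upwards [h2.eventually h1] with y hy
    rw [hy, map_zero]
  have h0 := hK _ hg hvg
  have h1 := pr_phi hh hH h hg
  rw [h0] at h1
  simp only [neg_neg, Complex.conj_conj] at h1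
  exact (Pr.unique hh h1 (Pr.zero hh))

/-- the complexification of `𝔥` as a closed subspace -/
theorem exists_ysub (hh : HLie 𝔥) : ∃ Y : Submodule ℂ (E →L[ℂ] E),
    IsClosed (Y : Set (E →L[ℂ] E)) ∧ ∀ K, K ∈ Y ↔ ∃ L, Pr 𝔥 K L := by
  refine ⟨{ carrier := {K | ∃ L, Pr 𝔥 K L}
            add_mem' := ?_
            zero_mem' := ⟨0, Pr.zero hh⟩
            smul_mem' := ?_ }, ?_, fun K => Iff.rfl⟩
  · rintro a b ⟨L, hL⟩ ⟨L', hL'⟩
    exact ⟨_, Pr.add hh hL hL'⟩
  · rintro c a ⟨L, hL⟩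
    exact ⟨_, Pr.smul hh hL c⟩
  · refine IsSeqClosed.isClosed ?_
    intro x p hx hp
    choose l hl using hx
    obtain ⟨L, hL, -⟩ := Pr.tendsto hh hl hp
    exact ⟨L, hL⟩

end Pool.Agent.Helper61.HP
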