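import Pool.Agent.Helper61.HO.CubSplit

/-!
# HO-38  Infinite orthogonal sequences of Cubs, first case

PROOF. Call `R` good if it is a Cub with vectors `x ≠ 0`, `R x = x` and `x ≠ 0`, `R x = - x`, and `Eig R 1` infinite-dimensional.
STEP: if `R` is good, there are a Cub `T` and a good `R'` with `T R' = 0 = R' T`, and such that `T`, `R'` are parts of `R`
(`R T = T T = T R`, `R R' = R' R' = R' R`). By `cub_split` `R = S' + S''`; `Eig R 1 ⊆ Eig S' 1 + Eig S'' 1` (for `R x = x`:
`x = R x = R (R x) = S' (S' x) + S'' (S'' x)` and `S' (S' (S' x)) = S' x = S' (R x) = S' (S' x)`, so `S' (S' x)` is in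
`Eig S' 1`), so one of the two eigenspaces is infinite-dimensional; call this one `R'`, the other one `T`. `R' ≠ 1`, `R' ≠ -1`,
because `R' T = 0`, `T ≠ 0`; so `NP.signs` gives the vectors.
RECURSION: `R 0 = S`, `T n`, `R (n+1)` from `R n`. By induction on `n - m` and `Cub.part`: for `m < n`: `T m R n = 0 = R n T m`
(`T m R (m+1) = 0`, and `R (n+1)` is a part of `R n`), and `T n` is a part of `R n`, so `T m T n = 0 = T n T m`.
-/

set_option autoImplicit false

open Filter Topology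

namespace Pool.Agent.Helper61.HP

universe u

variable {E : Type u} [NormedAddCommGroup E] [NormedSpace ℂ E] [CompleteSpace E]
  [TopologicalSpace.SeparableSpace E] {S : E →L[ℂ] E}

/-- the Cubs which can be split again and again -/
private def GoodC (R : E →L[ℂ] E) : Prop :=
  Cub R ∧ (∃ x, x ≠ 0 ∧ R x = x) ∧ (∃ x, x ≠ 0 ∧ R x = -x) ∧ ¬ FiniteDimensional ℂ (Eig R 1)

private lemma mem_Eig_one {R : E →L[ℂ] E} {x : E} : x ∈ Eig R 1 ↔ R x = x := by
  simp [Eig, sub_eq_zero]

private lemma eig_le {R A B : E →L[ℂ] E} (hA : Cub A) (hB : Cub B) (hR : R = A + B)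
    (hAB : A * B = 0) (hBA : B * A = 0) : Eig R 1 ≤ Eig A 1 ⊔ Eig B 1 := by
  intro x hx
  rw [mem_Eig_one] at hx
  have e1 : ∀ y, A (B y) = 0 := fun y => by
    have := congrArg (fun f : E →L[ℂ] E => f y) hAB
    simpa using this
  have e2 : ∀ y, B (A y) = 0 := fun y => by
    have := congrArg (fun f : E →L[ℂ] E => f y) hBA
    simpa using this
  have hx' : A x + B x = x := by
    rw [hR] at hx
    simpa using hx
  have a1 : A x = A (A x) := by
    conv_lhs => rw [← hx']
    rw [map_add, e1, add_zero]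
  have b1 : B x = B (B x) := by
    conv_lhs => rw [← hx']
    rw [map_add, e2, zero_add]
  rw [← hx']
  refine Submodule.add_mem_sup ?_ ?_
  · rw [mem_Eig_one]; exact a1.symm
  · rw [mem_Eig_one]; exact b1.symm

private lemma good_of {R T : E →L[ℂ] E} (hNP : NP E) (hR : Cub R) (hT : Cub T)
    (h : R * T = 0) (hinf : ¬ FiniteDimensional ℂ (Eig R 1)) : GoodC R := by
  have h1 : R ≠ 1 := by
    rintro rfl
    rw [one_mul] at h
    exact hT.ne h
  have h2 : R ≠ -1 := by
    rintro rfl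
    rw [neg_mul, one_mul, neg_eq_zero] at h
    exact hT.ne h
  obtain ⟨a, b, -⟩ := NP.signs hNP hR h1 h2
  exact ⟨hR, a, b, hinf⟩

private lemma step_one (hN : Nice E) (htr : Transitive E) (hNP : NP E) (R : E →L[ℂ] E)
    (hR : GoodC R) : ∃ T R' : E →L[ℂ] E, Cub T ∧ GoodC R' ∧ T * R' = 0 ∧ R' * T = 0 ∧
      R * T = T * T ∧ T * R = T * T ∧ R * R' = R' * R' ∧ R' * R = R' * R' := by
  obtain ⟨hc, hp, hm, hinf⟩ := hR
  obtain ⟨A, B, hA, hB, hAB, h1, h2⟩ := cub_split hN htr hc hp hm hinf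
  have r1 : R * A = A * A := by rw [hAB, add_mul, h2, add_zero]
  have r2 : A * R = A * A := by rw [hAB, mul_add, h1, add_zero]
  have r3 : R * B = B * B := by rw [hAB, add_mul, h1, zero_add]
  have r4 : B * R = B * B := by rw [hAB, mul_add, h2, zero_add]
  have hle := eig_le hA hB hAB h1 h2
  by_cases hfA : FiniteDimensional ℂ (Eig A 1)
  · have hfB : ¬ FiniteDimensional ℂ (Eig B 1) := by
      intro hfB
      exact hinf (Submodule.finiteDimensional_of_le hle)
    exact ⟨A, B, hA, good_of hNP hB hA h2 hfB, h1, h2, r1, r2, r3, r4⟩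
  · exact ⟨B, A, hB, good_of hNP hA hB h1 hfA, h2, h1, r3, r4, r1, r2⟩

theorem seq_inf (hN : Nice E) (htr : Transitive E) (hNP : NP E) (hS : Cub S)
    (hp : ∃ x, x ≠ 0 ∧ S x = x) (hm : ∃ x, x ≠ 0 ∧ S x = -x)
    (hinf : ¬ FiniteDimensional ℂ (Eig S 1)) :
    ∃ T : ℕ → (E →L[ℂ] E), (∀ n, Cub (T n)) ∧ ∀ m n, m ≠ n → T m * T n = 0 := by
  choose! nT nR hs using step_one (E := E) hN htr hNP
  let R : ℕ → (E →L[ℂ] E) := fun n => Nat.rec S (fun _ X => nR X) n
  have hRs : ∀ n, R (n + 1) = nR (R n) := fun n => rfl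
  have hg : ∀ n, GoodC (R n) := by
    intro n
    induction n with
    | zero => exact ⟨hS, hp, hm, hinf⟩
    | succ n ih => rw [hRs]; exact (hs _ ih).2.1
  have key : ∀ m k, nT (R m) * R (m + 1 + k) = 0 ∧ R (m + 1 + k) * nT (R m) = 0 := by
    intro m k
    induction k with
    | zero =>
      obtain ⟨-, -, a, b, -⟩ := hs _ (hg m)
      exact ⟨a, b⟩
    | succ k ih =>
      obtain ⟨-, -, -, -, -, -, a, b⟩ := hs _ (hg (m + 1 + k))
      have hp := Cub.part (X := nT (R m)) (hg (m + 1 + k)).1 (hg (m + 1 + k + 1)).1 a b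
      exact ⟨hp.1 ih.1, hp.2 ih.2⟩
  refine ⟨fun n => nT (R n), fun n => (hs _ (hg n)).1, ?_⟩
  intro m n hmn
  rcases lt_or_gt_of_ne hmn with h | h
  · obtain ⟨k, rfl⟩ := Nat.exists_eq_add_of_lt h
    obtain ⟨hT, -, -, -, a, b, -⟩ := hs _ (hg (m + k + 1))
    have hp := Cub.part (X := nT (R m)) (hg (m + k + 1)).1 hT a b
    apply hp.1
    have := (key m k).1
    rwa [show m + 1 + k = m + k + 1 by omega] at this
  · obtain ⟨k, rfl⟩ := Nat.exists_eq_add_of_lt h
    obtain ⟨hT, -, -, -, a, b, -⟩ := hs _ (hg (n + k + 1))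
    have hp := Cub.part (X := nT (R n)) (hg (n + k + 1)).1 hT a b
    apply hp.2
    have := (key n k).2
    rwa [show n + 1 + k = n + k + 1 by omega] at this

end Pool.Agent.Helper61.HP
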