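import Pool.Agent.Helper61.HP.SkewExp

/-!
# HO-15  The operator `∑ P^(2n) / (2n+1)!` is a contraction for skew `P`

`X` is any complex Banach space (here called `E`; it will be applied to the Banach space of operators).

PROOF. `C = ∑ P^(2n) / (2n+1)!` converges absolutely. `C P = sinh P = (ex 1 P - ex (-1) P) / 2` (series), norm `≤ 1`.
`C = ∫_0^1 cosh(u P) du` with `cosh(u P) = (ex u P + ex (-u) P) / 2 = ∑ u^(2n) P^(2n) / (2n)!` (norm `≤ 1`), so `‖C‖ ≤ 1`.
(Or, without integrals: `F s = ∑ s^(2n+1) P^(2n) / (2n+1)!` has derivative `cosh(s P)` of norm `≤ 1` and `F 0 = 0`, so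
`‖F 1‖ ≤ 1` by the mean value inequality.)
`sine_abs`: `C Q = - C P h - C R`.
-/

set_option autoImplicit false

open Filter Topology

namespace Pool.Agent.Helper61.HP

universe u

variable {E : Type u} [NormedAddCommGroup E] [NormedSpace ℂ E] [CompleteSpace E]

/-- the even part of the exponential series -/
theorem sineAbs_even (P : E →L[ℂ] E) (u : ℝ) :
    HasSum (fun n : ℕ => (((2 * n).factorial : ℂ)⁻¹) • ((u : ℂ) • P) ^ (2 * n))
      ((1 / 2 : ℂ) • (ex u P + ex (-u) P)) := by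
  have h1 := ((ex_hasSum u P).add (ex_hasSum (-u) P)).const_smul (1 / 2 : ℂ)
  have hinj : Function.Injective (fun n : ℕ => 2 * n) := fun a b h => by simpa using h
  have h2 : ∀ x ∉ Set.range (fun n : ℕ => 2 * n), (1 / 2 : ℂ) •
      (((x.factorial : ℂ)⁻¹) • ((u : ℂ) • P) ^ x +
        ((x.factorial : ℂ)⁻¹) • (((-u : ℝ) : ℂ) • P) ^ x) = 0 := by
    intro x hx
    have hodd : Odd x := by
      rw [← Nat.not_even_iff_odd]
      rintro ⟨k, hk⟩
      exact hx ⟨k, by simp only; omega⟩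
    rw [Complex.ofReal_neg, neg_smul, hodd.neg_pow, smul_neg, add_neg_cancel, smul_zero]
  rw [← hinj.hasSum_iff h2] at h1
  convert h1 using 1
  funext n
  simp only [Function.comp]
  rw [Complex.ofReal_neg, neg_smul, (even_two_mul n).neg_pow, ← two_smul ℂ, smul_smul]
  norm_num

/-- the odd part of the exponential series -/
theorem sineAbs_odd (P : E →L[ℂ] E) :
    HasSum (fun n : ℕ => (((2 * n + 1).factorial : ℂ)⁻¹) • P ^ (2 * n + 1))
      ((1 / 2 : ℂ) • (ex 1 P - ex (-1) P)) := by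
  have h1 := ((ex_hasSum 1 P).sub (ex_hasSum (-1) P)).const_smul (1 / 2 : ℂ)
  have hinj : Function.Injective (fun n : ℕ => 2 * n + 1) := fun a b h => by simpa using h
  have h2 : ∀ x ∉ Set.range (fun n : ℕ => 2 * n + 1), (1 / 2 : ℂ) •
      (((x.factorial : ℂ)⁻¹) • (((1 : ℝ) : ℂ) • P) ^ x -
        ((x.factorial : ℂ)⁻¹) • (((-1 : ℝ) : ℂ) • P) ^ x) = 0 := by
    intro x hx
    have heven : Even x := by
      rw [← Nat.not_odd_iff_even]
      rintro ⟨k, hk⟩
      exact hx ⟨k, by simp only; omega⟩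
    rw [Complex.ofReal_neg, neg_smul, heven.neg_pow, sub_self, smul_zero]
  rw [← hinj.hasSum_iff h2] at h1
  convert h1 using 1
  funext n
  simp only [Function.comp]
  rw [Complex.ofReal_neg, neg_smul, (odd_two_mul_add_one n).neg_pow, smul_neg, sub_neg_eq_add,
    ← two_smul ℂ, smul_smul, Complex.ofReal_one, one_smul]
  norm_num

theorem sineAbs_cosh_le {P : E →L[ℂ] E} (hP : Skew P) (u : ℝ) :
    ‖(1 / 2 : ℂ) • (ex u P + ex (-u) P)‖ ≤ 1 := by
  rw [norm_smul]
  have h1 := hP.norm_ex_le u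
  have h2 := hP.norm_ex_le (-u)
  have h3 := norm_add_le (ex u P) (ex (-u) P)
  have h4 : ‖(1 / 2 : ℂ)‖ = 1 / 2 := by norm_num
  rw [h4]
  linarith

theorem sineAbs_sinh_le {P : E →L[ℂ] E} (hP : Skew P) :
    ‖(1 / 2 : ℂ) • (ex 1 P - ex (-1) P)‖ ≤ 1 := by
  rw [norm_smul]
  have h1 := hP.norm_ex_le 1
  have h2 := hP.norm_ex_le (-1)
  have h3 := norm_sub_le (ex 1 P) (ex (-1) P)
  have h4 : ‖(1 / 2 : ℂ)‖ = 1 / 2 := by norm_num
  rw [h4]
  linarith

theorem sineAbs_norm_pow_le (P : E →L[ℂ] E) (k : ℕ) : ‖P ^ k‖ ≤ ‖P‖ ^ k := by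
  rcases k with _ | k
  · rw [pow_zero, pow_zero]
    exact ContinuousLinearMap.norm_id_le
  · exact norm_pow_le' P (Nat.succ_pos k)

theorem sineAbs_integral (P : E →L[ℂ] E) :
    HasSum (fun n : ℕ => (((2 * n + 1).factorial : ℂ)⁻¹) • P ^ (2 * n))
      (∫ u in (0 : ℝ)..1, (1 / 2 : ℂ) • (ex u P + ex (-u) P)) := by
  have key := intervalIntegral.hasSum_integral_of_dominated_convergence (μ := MeasureTheory.volume)
    (a := (0 : ℝ)) (b := 1)
    (F := fun (n : ℕ) (u : ℝ) => (((2 * n).factorial : ℂ)⁻¹) • ((u : ℂ) • P) ^ (2 * n))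
    (f := fun u : ℝ => (1 / 2 : ℂ) • (ex u P + ex (-u) P))
    (fun n _ => ‖P‖ ^ (2 * n) / (2 * n).factorial) ?_ ?_ ?_ ?_ ?_
  · suffices hs : (fun n : ℕ => (((2 * n + 1).factorial : ℂ)⁻¹) • P ^ (2 * n)) =
        fun n : ℕ => ∫ u in (0 : ℝ)..1, (((2 * n).factorial : ℂ)⁻¹) • ((u : ℂ) • P) ^ (2 * n) by
      rw [hs]
      exact key
    funext n
    have e1 : ∀ u : ℝ, (((2 * n).factorial : ℂ)⁻¹) • ((u : ℂ) • P) ^ (2 * n) =
        (u ^ (2 * n)) • ((((2 * n).factorial : ℂ)⁻¹) • P ^ (2 * n)) := by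
      intro u
      rw [smul_pow, smul_comm, ← Complex.coe_smul]
      push_cast
      rfl
    simp only [e1]
    rw [intervalIntegral.integral_smul_const, integral_pow, ← Complex.coe_smul, smul_smul]
    congr 1
    rw [Nat.factorial_succ]
    push_cast
    have h0 : (2 * (n : ℂ) + 1) ≠ 0 := by
      have : ((2 * n + 1 : ℕ) : ℂ) ≠ 0 := Nat.cast_ne_zero.mpr (by omega)
      push_cast at this
      exact this
    have h1 : (((2 * n).factorial : ℕ) : ℂ) ≠ 0 := Nat.cast_ne_zero.mpr (Nat.factorial_ne_zero _)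
    field_simp
    simp
  · intro n
    apply Continuous.aestronglyMeasurable
    fun_prop
  · intro n
    refine Filter.Eventually.of_forall fun u hu => ?_
    rw [Set.uIoc_of_le zero_le_one] at hu
    have hu1 : ‖(u : ℂ)‖ ≤ 1 := by
      rw [Complex.norm_real, Real.norm_eq_abs, abs_of_pos hu.1]
      exact hu.2
    rw [norm_smul, norm_inv, Complex.norm_natCast, smul_pow, norm_smul, norm_pow]
    rw [div_eq_inv_mul]
    refine mul_le_mul_of_nonneg_left ?_ (by positivity)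
    calc ‖(u : ℂ)‖ ^ (2 * n) * ‖P ^ (2 * n)‖ ≤ 1 * ‖P‖ ^ (2 * n) :=
          mul_le_mul (pow_le_one₀ (norm_nonneg _) hu1) (sineAbs_norm_pow_le P _) (norm_nonneg _)
            zero_le_one
      _ = ‖P‖ ^ (2 * n) := one_mul _
  · refine Filter.Eventually.of_forall fun u _ => ?_
    exact (Real.summable_pow_div_factorial ‖P‖).comp_injective
      (i := fun n : ℕ => 2 * n) (fun a b h => by simpa using h)
  · exact intervalIntegrable_const
  · exact Filter.Eventually.of_forall fun u _ => sineAbs_even P u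

theorem exists_sinhc {P : E →L[ℂ] E} (hP : Skew P) :
    ∃ C : E →L[ℂ] E, HasSum (fun n : ℕ => (((2 * n + 1).factorial : ℂ)⁻¹) • P ^ (2 * n)) C ∧
      ‖C‖ ≤ 1 ∧ ‖C * P‖ ≤ 1 := by
  refine ⟨∫ u in (0 : ℝ)..1, (1 / 2 : ℂ) • (ex u P + ex (-u) P), sineAbs_integral P, ?_, ?_⟩
  · have h1 := intervalIntegral.norm_integral_le_of_norm_le_const (a := (0 : ℝ)) (b := 1) (C := 1)
      (f := fun u : ℝ => (1 / 2 : ℂ) • (ex u P + ex (-u) P))
      (fun u _ => sineAbs_cosh_le hP u)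
    simpa using h1
  · have h1 := (sineAbs_integral P).mul_right P
    have h2 := sineAbs_odd P
    have h3 : (fun n : ℕ => (((2 * n + 1).factorial : ℂ)⁻¹) • P ^ (2 * n) * P) =
        (fun n : ℕ => (((2 * n + 1).factorial : ℂ)⁻¹) • P ^ (2 * n + 1)) := by
      funext n
      rw [smul_mul_assoc, ← pow_succ]
    rw [h3] at h1
    rw [h1.unique h2]
    exact sineAbs_sinh_le hP

/-- if `Q = - (P h) - R`, then the vector `∑ P^(2n) Q / (2n+1)!` has norm at most `‖h‖ + ‖R‖` -/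
theorem sine_abs {P : E →L[ℂ] E} (hP : Skew P) {h Q R G : E} (hQ : Q = -(P h) - R)
    (hG : HasSum (fun n : ℕ => (((2 * n + 1).factorial : ℂ)⁻¹) • (P ^ (2 * n)) Q) G) :
    ‖G‖ ≤ ‖h‖ + ‖R‖ := by
  obtain ⟨C, hC, hC1, hC2⟩ := exists_sinhc hP
  have h1 := (ContinuousLinearMap.apply ℂ E Q).hasSum hC
  have h2 : G = C Q := by
    refine hG.unique ?_
    simpa using h1
  have h3 : C Q = -((C * P) h) - C R := by
    rw [hQ, map_sub, map_neg]
    rfl
  rw [h2, h3]
  calc ‖-((C * P) h) - C R‖ ≤ ‖-((C * P) h)‖ + ‖C R‖ := norm_sub_le _ _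
    _ ≤ ‖h‖ + ‖R‖ := by
        rw [norm_neg]
        refine add_le_add ?_ ?_
        · refine ((C * P).le_opNorm h).trans ?_
          exact mul_le_of_le_one_left (norm_nonneg _) hC2
        · refine (C.le_opNorm R).trans ?_
          exact mul_le_of_le_one_left (norm_nonneg _) hC1

end Pool.Agent.Helper61.HP
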