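import Pool.Agent.Helper61.HO.SineAbs
import Pool.Agent.Helper61.HO.PrApi

/-!
# HO-16  The sine bound

PROOF. Let `D = x 0 - x' 0` (skew), `P = adL D` (skew, `skew_adL`), `Q n = x n + x' n`. `[D, x n + x' n] = [x 0, x' n] -
[x' 0, x n] = 2 [x n, x' 0]` (`hc`, `hc'`, `hτ`), and `[D, [x n, x' 0]] = - [[x n, x' 0], x 0] + [[x n, x' 0], x' 0] =
- 2 x (n+1) - 2 x' (n+1)`. So `P^2 (Q n) = - 4 Q (n+1)` and `P^(2n) (Q 0) = (-4)^n Q n`. So
`∑ P^(2n) (Q 0) / (2n+1)! = G + G'`. Finally `P h = [D, h] = [x 0, h] - [x' 0, h]`, and with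
`R = ([h, x 0] - x 0) + ([x' 0, h] - x' 0)` we get `P h = - Q 0 - R`, i.e. `Q 0 = - (P h) - R`. Use `sine_abs` (in the
Banach space `E →L[ℂ] E`).
-/

set_option autoImplicit false

open Filter Topology

namespace Pool.Agent.Helper61.HP

universe u

variable {E : Type u} [NormedAddCommGroup E] [NormedSpace ℂ E] [CompleteSpace E]

omit [CompleteSpace E] in
private theorem sb_step {x x' : ℕ → E →L[ℂ] E}
    (hc : ∀ n, lie (x 0) (x n) = 0) (hc' : ∀ n, lie (x' 0) (x' n) = 0)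
    (hτ : ∀ n, lie (x n) (x' 0) = lie (x 0) (x' n))
    (h1 : ∀ n, lie (lie (x n) (x' 0)) (x 0) = (2 : ℂ) • x (n + 1))
    (h2 : ∀ n, lie (lie (x n) (x' 0)) (x' 0) = -((2 : ℂ) • x' (n + 1))) (n : ℕ) :
    adL (x 0 - x' 0) (adL (x 0 - x' 0) (x n + x' n)) = (-4 : ℂ) • (x (n + 1) + x' (n + 1)) := by
  have e1 : adL (x 0 - x' 0) (x n + x' n) = (2 : ℂ) • lie (x n) (x' 0) := by
    rw [adL_apply]
    have a := hc n
    have b := hc' n
    have c := hτ n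
    have d : lie (x 0 - x' 0) (x n + x' n) =
        lie (x 0) (x n) + lie (x 0) (x' n) + lie (x n) (x' 0) - lie (x' 0) (x' n) := by
      simp only [lie]; noncomm_ring
    rw [d, a, b, ← c]
    rw [two_smul]; abel
  have e2 : lie (x 0 - x' 0) (lie (x n) (x' 0)) = (-2 : ℂ) • (x (n + 1) + x' (n + 1)) := by
    have d : lie (x 0 - x' 0) (lie (x n) (x' 0)) =
        -lie (lie (x n) (x' 0)) (x 0) + lie (lie (x n) (x' 0)) (x' 0) := by
      simp only [lie]; noncomm_ring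
    rw [d, h1, h2]
    rw [smul_add, neg_smul, neg_smul]
  rw [e1, map_smul, adL_apply, e2, smul_smul]
  norm_num

theorem sine_bound {x x' : ℕ → E →L[ℂ] E} (hs : Skew (x 0 - x' 0))
    (hc : ∀ n, lie (x 0) (x n) = 0) (hc' : ∀ n, lie (x' 0) (x' n) = 0)
    (hτ : ∀ n, lie (x n) (x' 0) = lie (x 0) (x' n))
    (h1 : ∀ n, lie (lie (x n) (x' 0)) (x 0) = (2 : ℂ) • x (n + 1))
    (h2 : ∀ n, lie (lie (x n) (x' 0)) (x' 0) = -((2 : ℂ) • x' (n + 1)))
    (h : E →L[ℂ] E) {G G' : E →L[ℂ] E}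
    (hG : HasSum (fun n : ℕ => ((-4 : ℂ) ^ n * ((2 * n + 1).factorial : ℂ)⁻¹) • x n) G)
    (hG' : HasSum (fun n : ℕ => ((-4 : ℂ) ^ n * ((2 * n + 1).factorial : ℂ)⁻¹) • x' n) G') :
    ‖G + G'‖ ≤ ‖h‖ + ‖(lie h (x 0) - x 0) + (lie (x' 0) h - x' 0)‖ := by
  set P : (E →L[ℂ] E) →L[ℂ] (E →L[ℂ] E) := adL (x 0 - x' 0) with hP
  have hPs : Skew P := skew_adL hs
  have hpow : ∀ n : ℕ, (P ^ (2 * n)) (x 0 + x' 0) = ((-4 : ℂ) ^ n) • (x n + x' n) := by
    intro n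
    induction n with
    | zero => simp
    | succ n ih =>
      have e : P ^ (2 * (n + 1)) = P * (P * P ^ (2 * n)) := by
        rw [show 2 * (n + 1) = 2 * n + 1 + 1 by ring, pow_succ', pow_succ']
      rw [e, mul_apply_eq_comp, mul_apply_eq_comp, ih, map_smul, map_smul,
        sb_step hc hc' hτ h1 h2 n, smul_smul, pow_succ]
  have hQ : x 0 + x' 0 = -(P h) - ((lie h (x 0) - x 0) + (lie (x' 0) h - x' 0)) := by
    rw [hP, adL_apply]
    simp only [lie]; noncomm_ring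
  refine sine_abs hPs hQ ?_
  have hsum := hG.add hG'
  have hfun : (fun n : ℕ => (((2 * n + 1).factorial : ℂ)⁻¹) • (P ^ (2 * n)) (x 0 + x' 0)) =
      (fun n : ℕ => ((-4 : ℂ) ^ n * ((2 * n + 1).factorial : ℂ)⁻¹) • x n +
        ((-4 : ℂ) ^ n * ((2 * n + 1).factorial : ℂ)⁻¹) • x' n) := by
    funext n
    rw [hpow, smul_smul, ← smul_add, mul_comm]
  rw [hfun]
  exact hsum

end Pool.Agent.Helper61.HP
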