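import Mathlib

/-!
# HO-27  Nilpotent `sl₂` triples in associative algebras (Mathlib only)

`h e - e h = 2 e`, `h f - f h = - 2 f`, `e f - f e = h`.

PROOF of `sl2_poly`. `h e^k = e^k h + 2 k e^k`, `h f^k = f^k h - 2 k f^k`. Let `v` be an element with `e v = 0`.
(1) `e f^(m+1) v = (m+1) f^m (h - m) v`: induction, `e f^(m+1) v = f (e f^m v) + h f^m v
  = m f^m (h - (m-1)) v + f^m (h - 2 m) v`.
(2) `e^m f^m v = m! ∏_(i<m) (h - i) v` for all `v` with `e v = 0`: `e^(m+1) f^(m+1) v = (m+1) e^m f^m (h - m) v` and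
  `e (h - m) v = (h - 2 - m) e v = 0`.
(3) `f^n = 0` gives `∏_(i<n) (h - i) v = 0` if `e v = 0`.
(4) If `e^k v = 0`, then `∏_(l<k) ∏_(i<n) (h + 2 l - i) v = 0`: `k = 0`: `v = 0`. If `e^(k+1) v = 0`, put `u = e^k v`, `e u = 0`,
  so `0 = ∏_i (h - i) e^k v = e^k ∏_i (h + 2 k - i) v`; apply the induction hypothesis to `∏_i (h + 2 k - i) v`.
(5) `v = 1`, `k = n`.
All the factors are polynomials in `h`, so they commute (`Polynomial.aeval`).

`pow_eq_zero_of_ad`: `S w^m - w^m S = c m w^m`, so `|c| m ‖w^m‖ ≤ 2 ‖S‖ ‖w^m‖`.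
-/

set_option autoImplicit false

open Polynomial

namespace Pool.Agent.Helper61.HP

theorem pow_eq_zero_of_ad {R : Type*} [NormedRing R] [NormedAlgebra ℂ R] {S w : R} {c : ℂ}
    (hc : c ≠ 0) (h : S * w - w * S = c • w) : ∃ n : ℕ, w ^ n = 0 := by
  by_contra hne
  push Not at hne
  have key : ∀ m : ℕ, S * w ^ m - w ^ m * S = ((m : ℂ) * c) • w ^ m := by
    intro m
    induction m with
    | zero => simp
    | succ m ih =>
      have h1 : S * w ^ (m + 1) - w ^ (m + 1) * S =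
          (S * w ^ m - w ^ m * S) * w + w ^ m * (S * w - w * S) := by
        rw [pow_succ]
        noncomm_ring
      rw [h1, ih, h, smul_mul_assoc, mul_smul_comm, ← pow_succ, ← add_smul]
      push_cast
      ring_nf
  obtain ⟨m, hm⟩ := exists_nat_gt (2 * ‖S‖ / ‖c‖)
  have hcpos : 0 < ‖c‖ := norm_pos_iff.mpr hc
  have hw : 0 < ‖w ^ m‖ := norm_pos_iff.mpr (hne m)
  have h2 : ‖((m : ℂ) * c) • w ^ m‖ ≤ 2 * ‖S‖ * ‖w ^ m‖ := by
    rw [← key m]
    calc ‖S * w ^ m - w ^ m * S‖ ≤ ‖S * w ^ m‖ + ‖w ^ m * S‖ := norm_sub_le _ _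
      _ ≤ ‖S‖ * ‖w ^ m‖ + ‖w ^ m‖ * ‖S‖ := add_le_add (norm_mul_le _ _) (norm_mul_le _ _)
      _ = 2 * ‖S‖ * ‖w ^ m‖ := by ring
  rw [norm_smul, norm_mul, Complex.norm_natCast] at h2
  have h3 : (m : ℝ) * ‖c‖ ≤ 2 * ‖S‖ := le_of_mul_le_mul_right h2 hw
  rw [div_lt_iff₀ hcpos] at hm
  linarith

private theorem aeval_semiconj {R : Type*} [Ring R] [Algebra ℂ R] {a b x : R} (h : a * x = x * b)
    (P : ℂ[X]) : aeval a P * x = x * aeval b P := by
  have hpow : ∀ k : ℕ, a ^ k * x = x * b ^ k := by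
    intro k
    induction k with
    | zero => simp
    | succ k ih => rw [pow_succ, mul_assoc, h, ← mul_assoc, ih, mul_assoc, ← pow_succ]
  induction P using Polynomial.induction_on' with
  | add p q hp hq => rw [map_add, map_add, add_mul, mul_add, hp, hq]
  | monomial k c =>
    rw [aeval_monomial, aeval_monomial, mul_assoc, hpow, ← mul_assoc, ← mul_assoc,
      Algebra.commutes]

private theorem sl2_hf {R : Type*} [Ring R] [Algebra ℂ R] {f h : R}
    (hf : h * f - f * h = -((2 : ℂ) • f)) (m : ℕ) :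
    h * f ^ m = f ^ m * (h - (2 * (m : ℂ)) • (1 : R)) := by
  induction m with
  | zero => simp
  | succ m ih =>
    have h1 : h * f = f * h - (2 : ℂ) • f := by
      rw [sub_eq_iff_eq_add] at hf
      rw [hf]
      abel
    rw [pow_succ, ← mul_assoc, ih, mul_assoc, mul_assoc, sub_mul, h1, smul_mul_assoc, one_mul]
    congr 1
    rw [mul_sub, mul_smul_comm, mul_one]
    have h2 : (2 * ((m + 1 : ℕ) : ℂ)) • f = (2 : ℂ) • f + (2 * (m : ℂ)) • f := by
      rw [← add_smul]
      push_cast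
      ring_nf
    rw [h2]
    abel

private theorem sl2_he {R : Type*} [Ring R] [Algebra ℂ R] {e h : R}
    (he : h * e - e * h = (2 : ℂ) • e) (m : ℕ) :
    h * e ^ m = e ^ m * (h + (2 * (m : ℂ)) • (1 : R)) := by
  induction m with
  | zero => simp
  | succ m ih =>
    have h1 : h * e = e * h + (2 : ℂ) • e := by
      rw [sub_eq_iff_eq_add] at he
      rw [he]
      abel
    rw [pow_succ, ← mul_assoc, ih, mul_assoc, mul_assoc, add_mul, h1, smul_mul_assoc, one_mul]
    congr 1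
    rw [mul_add, mul_smul_comm, mul_one]
    have h2 : (2 * ((m + 1 : ℕ) : ℂ)) • e = (2 : ℂ) • e + (2 * (m : ℂ)) • e := by
      rw [← add_smul]
      push_cast
      ring_nf
    rw [h2]
    abel

private theorem sl2_step {R : Type*} [Ring R] [Algebra ℂ R] {e f h : R}
    (hf : h * f - f * h = -((2 : ℂ) • f)) (hef : e * f - f * e = h) (m : ℕ) {v : R}
    (hv : e * v = 0) :
    e * (f ^ (m + 1) * v) = ((m : ℂ) + 1) • (f ^ m * ((h - (m : ℂ) • (1 : R)) * v)) := by
  have h0 : e * f = f * e + h := by rw [← hef]; abel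
  induction m with
  | zero =>
    rw [zero_add, pow_one, ← mul_assoc, h0, add_mul, mul_assoc, hv]
    simp
  | succ m ih =>
    have h1 : e * (f ^ (m + 1 + 1) * v) = f * (e * (f ^ (m + 1) * v)) + h * f ^ (m + 1) * v := by
      rw [pow_succ' f (m + 1)]
      rw [mul_assoc f, ← mul_assoc e, h0]
      noncomm_ring
    rw [h1, ih, sl2_hf hf, mul_smul_comm, ← mul_assoc, ← pow_succ']
    have h2 : ((m : ℂ) + 1) • (f ^ (m + 1) * ((h - (m : ℂ) • (1 : R)) * v)) +
        f ^ (m + 1) * (h - (2 * ((m + 1 : ℕ) : ℂ)) • (1 : R)) * v =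
        f ^ (m + 1) * ((((m : ℂ) + 1) • (h - (m : ℂ) • (1 : R)) +
          (h - (2 * ((m + 1 : ℕ) : ℂ)) • (1 : R))) * v) := by
      rw [add_mul, mul_add, smul_mul_assoc, mul_smul_comm, mul_assoc (f ^ (m + 1))]
    rw [h2, ← mul_smul_comm, ← smul_mul_assoc]
    congr 2
    rw [smul_sub, smul_sub, smul_smul, smul_smul]
    have h3 : (((m + 1 : ℕ) : ℂ) + 1) • h = ((m : ℂ) + 1) • h + h := by
      nth_rewrite 3 [← one_smul ℂ h]
      rw [← add_smul]
      push_cast
      ring_nf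
    rw [h3]
    have h4 : ((((m + 1 : ℕ) : ℂ) + 1) * ((m + 1 : ℕ) : ℂ)) • (1 : R) =
        (((m : ℂ) + 1) * (m : ℂ)) • (1 : R) + (2 * ((m + 1 : ℕ) : ℂ)) • (1 : R) := by
      rw [← add_smul]
      push_cast
      ring_nf
    rw [h4]
    abel

private theorem sl2_shift {R : Type*} [Ring R] [Algebra ℂ R] {e h : R}
    (he : h * e - e * h = (2 : ℂ) • e) (k : ℕ) {n : ℕ} :
    aeval h (∏ i ∈ Finset.range n, (X - C (i : ℂ))) * e ^ k =
      e ^ k * aeval h (∏ i ∈ Finset.range n, (X - C (((i : ℤ) - 2 * (k : ℤ) : ℤ) : ℂ))) := by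
  rw [aeval_semiconj (sl2_he he k)]
  congr 1
  have h1 : h + (2 * (k : ℂ)) • (1 : R) = aeval h (X + C (2 * (k : ℂ))) := by
    rw [map_add, aeval_X, aeval_C, Algebra.algebraMap_eq_smul_one]
  rw [h1, ← aeval_comp, Polynomial.prod_comp]
  congr 1
  refine Finset.prod_congr rfl fun i _ => ?_
  rw [sub_comp, X_comp, C_comp]
  push_cast
  rw [C_sub, C_mul]
  ring

theorem sl2_raise {R : Type*} [Ring R] [Algebra ℂ R] {e f h : R} (he : h * e - e * h = (2 : ℂ) • e)
    (hf : h * f - f * h = -((2 : ℂ) • f)) (hef : e * f - f * e = h) (m : ℕ) {v : R}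
    (hv : e * v = 0) :
    e ^ m * f ^ m * v =
      (m.factorial : ℂ) • (aeval h (∏ i ∈ Finset.range m, (X - C (i : ℂ))) * v) := by
  induction m generalizing v with
  | zero => simp
  | succ m ih =>
    have h1 : e * (f ^ (m + 1) * v) = ((m : ℂ) + 1) • (f ^ m * ((h - (m : ℂ) • (1 : R)) * v)) :=
      sl2_step hf hef m hv
    have h2 : e * ((h - (m : ℂ) • (1 : R)) * v) = 0 := by
      have h3 : e * h = h * e - (2 : ℂ) • e := by rw [← he]; noncomm_ring
      rw [sub_mul, mul_sub, ← mul_assoc, h3, smul_mul_assoc, one_mul, mul_smul_comm, hv, sub_mul,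
        mul_assoc, hv, smul_mul_assoc, hv]
      simp
    have h4 := ih h2
    have h5 : e ^ (m + 1) * f ^ (m + 1) * v = e ^ m * (e * (f ^ (m + 1) * v)) := by
      rw [pow_succ]
      noncomm_ring
    rw [h5, h1, mul_smul_comm, ← mul_assoc, h4, smul_smul, Finset.prod_range_succ, map_mul]
    have h6 : aeval h (X - C (m : ℂ)) = h - (m : ℂ) • (1 : R) := by
      rw [map_sub, aeval_X, aeval_C, Algebra.algebraMap_eq_smul_one]
    rw [h6, Nat.factorial_succ, mul_assoc]
    push_cast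
    rfl

theorem sl2_poly {R : Type*} [Ring R] [Algebra ℂ R] {e f h : R} (he : h * e - e * h = (2 : ℂ) • e)
    (hf : h * f - f * h = -((2 : ℂ) • f)) (hef : e * f - f * e = h) {n : ℕ} (hen : e ^ n = 0)
    (hfn : f ^ n = 0) :
    aeval h (∏ k ∈ Finset.range n, ∏ i ∈ Finset.range n,
      (X - C (((i : ℤ) - 2 * (k : ℤ) : ℤ) : ℂ))) = 0 := by
  have h3 : ∀ v : R, e * v = 0 →
      aeval h (∏ i ∈ Finset.range n, (X - C (i : ℂ))) * v = 0 := by
    intro v hv
    have h4 := sl2_raise he hf hef n hv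
    rw [hfn, mul_zero, zero_mul] at h4
    have h5 : (n.factorial : ℂ) ≠ 0 := by exact_mod_cast n.factorial_ne_zero
    exact (smul_eq_zero_iff_right h5).mp h4.symm
  have h6 : ∀ (k : ℕ) (v : R), e ^ k * v = 0 →
      aeval h (∏ l ∈ Finset.range k, ∏ i ∈ Finset.range n,
        (X - C (((i : ℤ) - 2 * (l : ℤ) : ℤ) : ℂ))) * v = 0 := by
    intro k
    induction k with
    | zero =>
      intro v hv
      simpa using hv
    | succ k ih =>
      intro v hv
      have h7 : e * (e ^ k * v) = 0 := by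
        rw [← mul_assoc, ← pow_succ']
        exact hv
      have h8 := h3 _ h7
      rw [← mul_assoc, sl2_shift he k, mul_assoc] at h8
      have h9 := ih _ h8
      rw [← mul_assoc, ← map_mul] at h9
      rw [Finset.prod_range_succ]
      exact h9
  have h10 := h6 n 1 (by rw [hen, zero_mul])
  rwa [mul_one] at h10

end Pool.Agent.Helper61.HP
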