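import Pool.Agent.Helper61.HO.PhiAlg

/-!
# HO-04  Spectral subspaces

PROOFS. `A` hermitian.
* `zero, add, smul, sub`: `Phi A f` is linear. `SpIn.closed`: `Phi A f` is continuous. `mono`: `VanNear` is monotone.
* `SpIn.op`: `B` commutes with `A`: `Phi_comm`. Special cases: `A y`, `Phi A g y`.
* `Phi_eq_of_near`: `f - g` vanishes near `[α, β]`. `Phi_eq_self`: if `χ = 1` near `[α, β]`, then for every test function
  `g`: `Phi g (Phi χ y - y) = Phi (g χ - g) y = 0` (`Phi_mul`), so `Phi χ y = y` by `eq_zero_of_Phi`.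
* `SpIn.of_support`: if `f` vanishes outside `[γ, δ]`, then `g f = 0` whenever `g` vanishes near `[γ, δ]`, so
  `Phi g (Phi f y) = Phi (g f) y = 0`.
* `SpIn.inter`: let `a = max α α' ≤ b = min β β'`, `f` vanishes near `[a, b]`. `Test.split`: `f = f₁ + f₂`, `f₁ = 0` for
  `x ≥ a - δ`, `f₂ = 0` for `x ≤ b + δ`. `a` is `α` or `α'`, so `f₁` vanishes near `[α, β]` or near `[α', β']`.
* `SpIn.disjoint`: `β < α'`; every test `f` is `f₁ + f₂` (`Test.split_gap` with `β < (β + α') / 2 < α'`: choose two numbers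
  `β < β₁ < α₁ < α'`), `f₂ = 0` for `x ≤ β₁` vanishes near `[α, β]`, `f₁ = 0` for `x ≥ α₁` vanishes near `[α', β']`; so
  `Phi f y = 0` for all test `f`; `eq_zero_of_Phi`.
* `SpIn.of_norm`: `y ∈ [-M, M]` for `M ≥ ‖A‖`: let `f` vanish near `[-M, M]`, so for `|x| ≤ M + δ =: ρ` (`Test.margin`).
  `f_n x = f x / x^n` is a test function (`Test.div_sub` iterated), `Phi f = A^n Phi f_n` (`Phi_id_mul`), and
  `‖Phi f_n‖ ≤ ∫ ‖𝓕 f_n‖ ≤ C n² ρ^(-n)` (`integral_norm_fourier_le`), so `‖Phi f‖ ≤ M^n C n² ρ^(-n) → 0`.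
* `SpIn.neg`: `Phi_neg`.
* `SpIn.empty`: `β < α` (the interval is empty): `Phi f y = 0` for all `f`.
-/

set_option autoImplicit false

open Filter Topology MeasureTheory

namespace Pool.Agent.Helper61.HP

universe u

variable {E : Type u} [NormedAddCommGroup E] [NormedSpace ℂ E] [CompleteSpace E]
  {A : E →L[ℂ] E} {f g : ℝ → ℂ} {α β α' β' : ℝ} {x y : E}

private theorem Phi_zero_fun (hA : Herm A) : Phi A (fun _ => 0) = 0 := by
  have h := Phi_smul hA Test.zero 0
  simp only [mul_zero, zero_smul] at h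
  exact h

private theorem Phi_sub_fun (hA : Herm A) (hf : Test f) (hg : Test g) :
    Phi A (fun x => f x - g x) = Phi A f - Phi A g := by
  have h := Phi_add hA hf (Test.smul (-1) hg)
  rw [Phi_smul hA hg] at h
  have e : (fun x => f x - g x) = fun x => f x + (-1) * g x := by
    funext x
    ring
  rw [e, h, neg_smul, one_smul, sub_eq_add_neg]

theorem SpIn.zero (A : E →L[ℂ] E) (α β : ℝ) : SpIn A α β (0 : E) := by
  intro f _ _
  exact map_zero _

theorem SpIn.add (hx : SpIn A α β x) (hy : SpIn A α β y) : SpIn A α β (x + y) := by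
  intro f hf hv
  rw [map_add, hx f hf hv, hy f hf hv, add_zero]

theorem SpIn.sub (hx : SpIn A α β x) (hy : SpIn A α β y) : SpIn A α β (x - y) := by
  intro f hf hv
  rw [map_sub, hx f hf hv, hy f hf hv, sub_zero]

theorem SpIn.smul (c : ℂ) (hx : SpIn A α β x) : SpIn A α β (c • x) := by
  intro f hf hv
  rw [map_smul, hx f hf hv, smul_zero]

theorem SpIn.closed (A : E →L[ℂ] E) (α β : ℝ) : IsClosed {y : E | SpIn A α β y} := by
  have e : {y : E | SpIn A α β y} =
      ⋂ (f : ℝ → ℂ) (_ : Test f) (_ : VanNear f (Set.Icc α β)), {y : E | Phi A f y = 0} := by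
    ext y
    simp only [SpIn, Set.mem_ofPred_eq, Set.mem_iInter]
  rw [e]
  refine isClosed_iInter fun f => isClosed_iInter fun _ => isClosed_iInter fun _ => ?_
  exact isClosed_eq (Phi A f).continuous continuous_const

theorem SpIn.mono (hy : SpIn A α β y) (h1 : α' ≤ α) (h2 : β ≤ β') : SpIn A α' β' y := by
  intro f hf hv
  exact hy f hf fun x hx => hv x ⟨h1.trans hx.1, hx.2.trans h2⟩

theorem SpIn.op (hA : Herm A) (hy : SpIn A α β y) {B : E →L[ℂ] E} (h : B * A = A * B) :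
    SpIn A α β (B y) := by
  intro f hf hv
  have h1 := congrArg (fun T : E →L[ℂ] E => T y) (Phi_comm hA hf h)
  have h2 : B (Phi A f y) = Phi A f (B y) := h1
  rw [← h2, hy f hf hv, map_zero]

theorem SpIn.phi (hA : Herm A) (hy : SpIn A α β y) (hf : Test f) : SpIn A α β (Phi A f y) :=
  hy.op hA (Phi_comm hA hf rfl).symm

theorem Phi_eq_of_near (hA : Herm A) (hy : SpIn A α β y) (hf : Test f) (hg : Test g)
    (h : ∀ x ∈ Set.Icc α β, ∀ᶠ z in 𝓝 x, f z = g z) : Phi A f y = Phi A g y := by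
  have h1 := hy (fun x => f x - g x) (hf.sub hg) fun x hx => by
    filter_upwards [h x hx] with z hz
    rw [hz, sub_self]
  rw [Phi_sub_fun hA hf hg] at h1
  exact sub_eq_zero.mp h1

theorem Phi_eq_self (hA : Herm A) (hy : SpIn A α β y) (hf : Test f)
    (h : ∀ x ∈ Set.Icc α β, ∀ᶠ z in 𝓝 x, f z = 1) : Phi A f y = y := by
  rw [← sub_eq_zero]
  refine eq_zero_of_Phi hA fun g hg => ?_
  have h1 : Phi A (fun x => g x * f x) y = Phi A g y :=
    Phi_eq_of_near hA hy (hg.mul hf) hg fun x hx => by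
      filter_upwards [h x hx] with z hz
      rw [hz, mul_one]
  have h2 : Phi A (fun x => g x * f x) y = Phi A g (Phi A f y) := by
    rw [Phi_mul hA hg hf]
    rfl
  rw [map_sub, ← h2, h1, sub_self]

theorem SpIn.of_support (hA : Herm A) (hf : Test f) (h : ∀ x, x ∉ Set.Icc α β → f x = 0) (y : E) :
    SpIn A α β (Phi A f y) := by
  intro g hg hv
  have h2 : Phi A (fun x => g x * f x) y = Phi A g (Phi A f y) := by
    rw [Phi_mul hA hg hf]
    rfl
  have e : (fun x => g x * f x) = fun _ => 0 := by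
    funext x
    by_cases hx : x ∈ Set.Icc α β
    · rw [(hv x hx).self_of_nhds, zero_mul]
    · rw [h x hx, mul_zero]
  rw [← h2, e, Phi_zero_fun hA]
  rfl

theorem SpIn.inter (hy : SpIn A α β y) (hy' : SpIn A α' β' y) (hA : Herm A)
    (h : max α α' ≤ min β β') : SpIn A (max α α') (min β β') y := by
  intro f hf hv
  obtain ⟨δ, f₁, f₂, hδ, hf₁, hf₂, hsum, h1, h2⟩ := Test.split hf hv h
  have e : f = fun x => f₁ x + f₂ x := funext hsum
  have k1 : Phi A f₁ y = 0 := by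
    have van : ∀ s : ℝ, s = max α α' → ∀ t : ℝ, VanNear f₁ (Set.Icc s t) := by
      intro s hs t x hx
      have hx1 : max α α' - δ < x := by
        have := hx.1
        rw [hs] at this
        linarith
      filter_upwards [eventually_gt_nhds hx1] with z hz
      exact h1 z hz.le
    rcases max_choice α α' with hm | hm
    · exact hy f₁ hf₁ (van α hm.symm β)
    · exact hy' f₁ hf₁ (van α' hm.symm β')
  have k2 : Phi A f₂ y = 0 := by
    have van : ∀ s : ℝ, s = min β β' → ∀ t : ℝ, VanNear f₂ (Set.Icc t s) := by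
      intro s hs t x hx
      have hx1 : x < min β β' + δ := by
        have := hx.2
        rw [hs] at this
        linarith
      filter_upwards [eventually_lt_nhds hx1] with z hz
      exact h2 z hz.le
    rcases min_choice β β' with hm | hm
    · exact hy f₂ hf₂ (van β hm.symm α)
    · exact hy' f₂ hf₂ (van β' hm.symm α')
  rw [e, Phi_add hA hf₁ hf₂, _root_.add_apply, k1, k2, add_zero]

theorem SpIn.disjoint (hy : SpIn A α β y) (hy' : SpIn A α' β' y) (hA : Herm A) (h : β < α') :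
    y = 0 := by
  refine eq_zero_of_Phi hA fun f hf => ?_
  obtain ⟨b, hb1, hb2⟩ := exists_between h
  obtain ⟨a, ha1, ha2⟩ := exists_between hb2
  obtain ⟨f₁, f₂, hf₁, hf₂, hsum, h1, h2⟩ := Test.split_gap hf (α := b) (β := a) ha1
  have e : f = fun x => f₁ x + f₂ x := funext hsum
  have k1 : Phi A f₁ y = 0 := hy' f₁ hf₁ fun x hx => by
    filter_upwards [eventually_gt_nhds (lt_of_lt_of_le ha2 hx.1)] with z hz
    exact h1 z hz.le
  have k2 : Phi A f₂ y = 0 := hy f₂ hf₂ fun x hx => by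
    filter_upwards [eventually_lt_nhds (lt_of_le_of_lt hx.2 hb1)] with z hz
    exact h2 z hz.le
  rw [e, Phi_add hA hf₁ hf₂, _root_.add_apply, k1, k2, add_zero]

theorem SpIn.empty (hy : SpIn A α β y) (hA : Herm A) (h : β < α) : y = 0 := by
  refine eq_zero_of_Phi hA fun f hf => hy f hf fun x hx => ?_
  exact absurd (hx.1.trans hx.2) (not_le.mpr h)

/-- derivative of `f / x ^ n` -/
private theorem hasDerivAt_div_pow {h h' : ℝ → ℂ} {ρ : ℝ} (hρ : 0 < ρ)
    (hd : ∀ x, HasDerivAt h (h' x) x) (h0 : ∀ x, |x| < ρ → h x = 0)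
    (h0' : ∀ x, |x| < ρ → h' x = 0) (n : ℕ) (x : ℝ) :
    HasDerivAt (fun x : ℝ => h x / (x : ℂ) ^ n)
      (h' x / (x : ℂ) ^ n - n * (h x / (x : ℂ) ^ (n + 1))) x := by
  by_cases hx : |x| < ρ
  · have e : (fun x : ℝ => h x / (x : ℂ) ^ n) =ᶠ[𝓝 x] fun _ => 0 := by
      have h2 : ∀ᶠ y in 𝓝 x, |y| < ρ :=
        continuous_abs.continuousAt.eventually_lt continuousAt_const hx
      filter_upwards [h2] with y hy
      rw [h0 y hy, zero_div]
    rw [h0 x hx, h0' x hx, zero_div, zero_div, mul_zero, sub_zero]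
    exact (hasDerivAt_const x (0 : ℂ)).congr_of_eventuallyEq e
  · have hx0 : (x : ℂ) ≠ 0 := by
      intro h1
      apply hx
      have h2 : x = 0 := by exact_mod_cast h1
      rw [h2, abs_zero]
      exact hρ
    have h1 : HasDerivAt (fun x : ℝ => (x : ℂ)) 1 x := Complex.ofRealCLM.hasDerivAt
    have h2 := h1.pow n
    have h3 := (hd x).div h2 (pow_ne_zero n hx0)
    refine h3.congr_deriv ?_
    cases n with
    | zero => simp
    | succ n =>
      simp only [Nat.add_sub_cancel, mul_one, Pi.pow_apply]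
      field_simp
      ring

private theorem test_div_pow {f : ℝ → ℂ} (hf : Test f) {δ : ℝ} (hδ : 0 < δ)
    (h : ∀ x, |x| ≤ δ → f x = 0) (n : ℕ) : Test (fun x => f x / (x : ℂ) ^ n) := by
  induction n with
  | zero => simpa using hf
  | succ n ih =>
    have h1 := Test.div_sub ih (s := 0) hδ fun x hx => by
      rw [sub_zero] at hx
      rw [h x hx, zero_div]
    refine (congrArg Test (funext fun x => ?_)).mp h1
    rw [Complex.ofReal_zero, sub_zero, pow_succ, div_div]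

private theorem Phi_div_pow (hA : Herm A) {f : ℝ → ℂ} (hf : Test f) {δ : ℝ} (hδ : 0 < δ)
    (h : ∀ x, |x| ≤ δ → f x = 0) (n : ℕ) :
    Phi A f = A ^ n * Phi A (fun x => f x / (x : ℂ) ^ n) := by
  induction n with
  | zero => simp
  | succ n ih =>
    rw [ih, pow_succ, mul_assoc, ← Phi_id_mul hA (test_div_pow hf hδ h (n + 1))]
    congr 2
    funext x
    by_cases hx : (x : ℂ) = 0
    · have h2 : x = 0 := by exact_mod_cast hx
      have h3 : f x = 0 := h x (by rw [h2, abs_zero]; exact hδ.le)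
      rw [h3, zero_div, zero_div, mul_zero]
    · rw [pow_succ]
      field_simp

private theorem norm_div_pow_le {h : ℝ → ℂ} {ρ K : ℝ} (hρ : 0 < ρ) (hK : 0 ≤ K)
    (h0 : ∀ x, |x| < ρ → h x = 0) (hb : ∀ x, ‖h x‖ ≤ K) (n : ℕ) (x : ℝ) :
    ‖h x / (x : ℂ) ^ n‖ ≤ K * ρ⁻¹ ^ n := by
  by_cases hx : |x| < ρ
  · rw [h0 x hx, zero_div, norm_zero]
    positivity
  · rw [norm_div, norm_pow, Complex.norm_real, Real.norm_eq_abs, div_eq_mul_inv, ← inv_pow]
    have h1 : |x|⁻¹ ≤ ρ⁻¹ := inv_anti₀ hρ (not_lt.mp hx)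
    have h2 : |x|⁻¹ ^ n ≤ ρ⁻¹ ^ n := pow_le_pow_left₀ (inv_nonneg.mpr (abs_nonneg x)) h1 n
    exact mul_le_mul (hb x) h2 (by positivity) hK

private theorem norm_opPow_le (A : E →L[ℂ] E) (n : ℕ) : ‖A ^ n‖ ≤ ‖A‖ ^ n := by
  induction n with
  | zero =>
    rw [pow_zero, pow_zero]
    exact ContinuousLinearMap.norm_id_le (𝕜 := ℂ) (E := E)
  | succ m ih =>
    rw [pow_succ, pow_succ]
    exact (norm_mul_le _ _).trans (mul_le_mul_of_nonneg_right ih (norm_nonneg _))

theorem SpIn.of_norm (hA : Herm A) {M : ℝ} (hM : ‖A‖ ≤ M) (y : E) : SpIn A (-M) M y := by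
  have hM0 : 0 ≤ M := (norm_nonneg _).trans hM
  intro f hf hv
  obtain ⟨δ, hδ, hm⟩ := Test.margin hv (by linarith)
  set ρ := M + δ with hρd
  have hρ : 0 < ρ := by positivity
  have hf0 : ∀ x, |x| ≤ ρ → f x = 0 := by
    intro x hx
    rw [abs_le] at hx
    exact hm x (by linarith [hx.1]) (by linarith [hx.2])
  have hd1 : ∀ x, HasDerivAt f (deriv f x) x := fun x =>
    ((hf.1.differentiable (by simp)) x).hasDerivAt
  have hder : ∀ g : ℝ → ℂ, Test g → Test (deriv g) := fun g hg =>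
    ⟨(contDiff_infty_iff_deriv.1 hg.1).2, hg.2.deriv⟩
  have hf1 : Test (deriv f) := hder f hf
  have hd2 : ∀ x, HasDerivAt (deriv f) (deriv (deriv f) x) x := fun x =>
    ((hf1.1.differentiable (by simp)) x).hasDerivAt
  have hf2 : Test (deriv (deriv f)) := hder _ hf1
  have v0 : ∀ x, |x| < ρ → f x = 0 := fun x hx => hf0 x hx.le
  have ev : ∀ x : ℝ, |x| < ρ → ∀ᶠ z in 𝓝 x, |z| < ρ := fun x hx =>
    continuous_abs.continuousAt.eventually_lt continuousAt_const hx
  have v1 : ∀ x, |x| < ρ → deriv f x = 0 := by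
    intro x hx
    have e : f =ᶠ[𝓝 x] fun _ => 0 := by
      filter_upwards [ev x hx] with z hz
      exact v0 z hz
    rw [e.deriv_eq, deriv_const]
  have v2 : ∀ x, |x| < ρ → deriv (deriv f) x = 0 := by
    intro x hx
    have e : deriv f =ᶠ[𝓝 x] fun _ => 0 := by
      filter_upwards [ev x hx] with z hz
      exact v1 z hz
    rw [e.deriv_eq, deriv_const]
  obtain ⟨K0, hK0⟩ := hf.2.exists_bound_of_continuous hf.1.continuous
  obtain ⟨K1, hK1⟩ := hf1.2.exists_bound_of_continuous hf1.1.continuous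
  obtain ⟨K2, hK2⟩ := hf2.2.exists_bound_of_continuous hf2.1.continuous
  obtain ⟨R, hR0, hR⟩ : ∃ R : ℝ, 0 ≤ R ∧ ∀ x, R < |x| → f x = 0 := by
    obtain ⟨R, hR⟩ := hf.2.isCompact.isBounded.exists_norm_le
    refine ⟨max R 0, le_max_right _ _, fun x hx => ?_⟩
    by_contra hne
    have h1 := hR x (subset_tsupport f hne)
    rw [Real.norm_eq_abs] at h1
    exact absurd (lt_of_le_of_lt (le_max_left R 0) hx) (not_lt.mpr h1)
  set K := max K0 (max K1 K2) with hKd
  have hKn : 0 ≤ K := (norm_nonneg (f 0)).trans ((hK0 0).trans (le_max_left _ _))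
  have b0 : ∀ x, ‖f x‖ ≤ K := fun x => (hK0 x).trans (le_max_left _ _)
  have b1 : ∀ x, ‖deriv f x‖ ≤ K := fun x =>
    (hK1 x).trans ((le_max_left _ _).trans (le_max_right _ _))
  have b2 : ∀ x, ‖deriv (deriv f) x‖ ≤ K := fun x =>
    (hK2 x).trans ((le_max_right _ _).trans (le_max_right _ _))
  have key : ∀ n : ℕ, ‖Phi A f y‖ ≤
      (R * (K * (2 + 2 * ρ⁻¹ + ρ⁻¹ ^ 2)) * ‖y‖) * (((n : ℝ) + 1) ^ 2 * (M * ρ⁻¹) ^ n) := by
    intro n
    have hTn := test_div_pow hf hρ hf0 n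
    have hder1 : deriv (fun x : ℝ => f x / (x : ℂ) ^ n) =
        fun x : ℝ => deriv f x / (x : ℂ) ^ n - n * (f x / (x : ℂ) ^ (n + 1)) :=
      funext fun x => (hasDerivAt_div_pow hρ hd1 v0 v1 n x).deriv
    have hder2 : ∀ x : ℝ, deriv (deriv (fun x : ℝ => f x / (x : ℂ) ^ n)) x =
        (deriv (deriv f) x / (x : ℂ) ^ n - n * (deriv f x / (x : ℂ) ^ (n + 1))) -
          n * (deriv f x / (x : ℂ) ^ (n + 1) -
            ((n + 1 : ℕ) : ℂ) * (f x / (x : ℂ) ^ (n + 1 + 1))) := by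
      intro x
      rw [hder1]
      exact ((hasDerivAt_div_pow hρ hd2 v1 v2 n x).sub
        ((hasDerivAt_div_pow hρ hd1 v0 v1 (n + 1) x).const_mul (n : ℂ))).deriv
    have hbd : ∀ x : ℝ, ‖f x / (x : ℂ) ^ n‖ +
        ‖deriv (deriv (fun x : ℝ => f x / (x : ℂ) ^ n)) x‖ ≤
          (K * (2 + 2 * ρ⁻¹ + ρ⁻¹ ^ 2)) * (((n : ℝ) + 1) ^ 2 * ρ⁻¹ ^ n) := by
      intro x
      rw [hder2]
      have c0 := norm_div_pow_le hρ hKn v0 b0 n x
      have c1 := norm_div_pow_le hρ hKn v1 b1 (n + 1) x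
      have c2 := norm_div_pow_le hρ hKn v2 b2 n x
      have c3 := norm_div_pow_le hρ hKn v0 b0 (n + 1 + 1) x
      have t1 : ‖(deriv (deriv f) x / (x : ℂ) ^ n - n * (deriv f x / (x : ℂ) ^ (n + 1))) -
          n * (deriv f x / (x : ℂ) ^ (n + 1) -
            ((n + 1 : ℕ) : ℂ) * (f x / (x : ℂ) ^ (n + 1 + 1)))‖ ≤
          (‖deriv (deriv f) x / (x : ℂ) ^ n‖ + n * ‖deriv f x / (x : ℂ) ^ (n + 1)‖) +
            n * (‖deriv f x / (x : ℂ) ^ (n + 1)‖ +
              ((n : ℝ) + 1) * ‖f x / (x : ℂ) ^ (n + 1 + 1)‖) := by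
        refine (norm_sub_le _ _).trans (add_le_add ((norm_sub_le _ _).trans ?_) ?_)
        · rw [norm_mul, Complex.norm_natCast]
        · rw [norm_mul, Complex.norm_natCast]
          refine mul_le_mul_of_nonneg_left ((norm_sub_le _ _).trans ?_) (Nat.cast_nonneg _)
          rw [norm_mul, Complex.norm_natCast]
          push_cast
          exact le_refl _
      have hn : (0 : ℝ) ≤ n := Nat.cast_nonneg n
      have hp : 0 ≤ ρ⁻¹ := (inv_pos.mpr hρ).le
      have t2 : ‖f x / (x : ℂ) ^ n‖ +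
          ((‖deriv (deriv f) x / (x : ℂ) ^ n‖ + n * ‖deriv f x / (x : ℂ) ^ (n + 1)‖) +
            n * (‖deriv f x / (x : ℂ) ^ (n + 1)‖ +
              ((n : ℝ) + 1) * ‖f x / (x : ℂ) ^ (n + 1 + 1)‖)) ≤
          K * ρ⁻¹ ^ n + ((K * ρ⁻¹ ^ n + n * (K * ρ⁻¹ ^ (n + 1))) +
            n * (K * ρ⁻¹ ^ (n + 1) + ((n : ℝ) + 1) * (K * ρ⁻¹ ^ (n + 1 + 1)))) := by
        gcongr
      have t3 : K * ρ⁻¹ ^ n + ((K * ρ⁻¹ ^ n + n * (K * ρ⁻¹ ^ (n + 1))) +
            n * (K * ρ⁻¹ ^ (n + 1) + ((n : ℝ) + 1) * (K * ρ⁻¹ ^ (n + 1 + 1)))) =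
          (K * ρ⁻¹ ^ n) * (2 + 2 * n * ρ⁻¹ + n * (n + 1) * ρ⁻¹ ^ 2) := by
        ring
      have t4 : (2 + 2 * n * ρ⁻¹ + n * (n + 1) * ρ⁻¹ ^ 2) ≤
          (2 + 2 * ρ⁻¹ + ρ⁻¹ ^ 2) * ((n : ℝ) + 1) ^ 2 := by
        have q1 : (2 : ℝ) ≤ 2 * ((n : ℝ) + 1) ^ 2 := by nlinarith
        have q2 : (n : ℝ) ≤ ((n : ℝ) + 1) ^ 2 := by nlinarith
        have q3 : (n : ℝ) * (n + 1) ≤ ((n : ℝ) + 1) ^ 2 := by nlinarith
        have q4 : 2 * n * ρ⁻¹ ≤ 2 * ρ⁻¹ * ((n : ℝ) + 1) ^ 2 := by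
          have := mul_le_mul_of_nonneg_left q2 hp
          linarith
        have q5 : n * (n + 1) * ρ⁻¹ ^ 2 ≤ ρ⁻¹ ^ 2 * ((n : ℝ) + 1) ^ 2 := by
          have := mul_le_mul_of_nonneg_left q3 (sq_nonneg ρ⁻¹)
          linarith
        linarith
      have hKρ : 0 ≤ K * ρ⁻¹ ^ n := by positivity
      calc _ ≤ (K * ρ⁻¹ ^ n) * (2 + 2 * n * ρ⁻¹ + n * (n + 1) * ρ⁻¹ ^ 2) := by
            rw [← t3]
            exact (add_le_add_right t1 _).trans t2
        _ ≤ (K * ρ⁻¹ ^ n) * ((2 + 2 * ρ⁻¹ + ρ⁻¹ ^ 2) * ((n : ℝ) + 1) ^ 2) :=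
            mul_le_mul_of_nonneg_left t4 hKρ
        _ = _ := by ring
    have h1 := (norm_Phi_le hA hTn).trans (Test.integral_norm_fourier_le hTn hR0
      (fun x hx => by rw [hR x hx, zero_div]) hbd)
    have h2 : ‖Phi A f‖ ≤ M ^ n *
        (R * ((K * (2 + 2 * ρ⁻¹ + ρ⁻¹ ^ 2)) * (((n : ℝ) + 1) ^ 2 * ρ⁻¹ ^ n))) := by
      rw [Phi_div_pow hA hf hρ hf0 n]
      refine (norm_mul_le _ _).trans (mul_le_mul ?_ h1 (norm_nonneg _) (pow_nonneg hM0 n))
      exact (norm_opPow_le A n).trans (pow_le_pow_left₀ (norm_nonneg _) hM n)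
    refine ((Phi A f).le_opNorm y).trans ((mul_le_mul_of_nonneg_right h2 (norm_nonneg y)).trans ?_)
    rw [mul_pow]
    apply le_of_eq
    ring
  have hr : |M * ρ⁻¹| < 1 := by
    rw [abs_of_nonneg (by positivity), ← div_eq_mul_inv, div_lt_one hρ]
    linarith
  have lim : Tendsto (fun n : ℕ => ((n : ℝ) + 1) ^ 2 * (M * ρ⁻¹) ^ n) atTop (𝓝 0) := by
    have l2 := tendsto_pow_const_mul_const_pow_of_abs_lt_one 2 hr
    have l1 := tendsto_pow_const_mul_const_pow_of_abs_lt_one 1 hr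
    have l0 := tendsto_pow_const_mul_const_pow_of_abs_lt_one 0 hr
    have l := (l2.add (l1.const_mul 2)).add l0
    simp only [mul_zero, add_zero] at l
    refine l.congr fun n => ?_
    ring
  have lim2 := lim.const_mul (R * (K * (2 + 2 * ρ⁻¹ + ρ⁻¹ ^ 2)) * ‖y‖)
  rw [mul_zero] at lim2
  have h3 := ge_of_tendsto' lim2 key
  exact norm_le_zero_iff.mp h3

theorem SpIn.neg (hy : SpIn A α β y) : SpIn (-A) (-β) (-α) y := by
  intro f hf hv
  rw [Phi_neg]
  refine hy _ hf.comp_neg fun x hx => ?_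
  have h1 := hv (-x) ⟨neg_le_neg hx.2, neg_le_neg hx.1⟩
  exact (continuous_neg.tendsto x).eventually h1

/-- if `y` is not in the spectral subspace of `[-a, a]`, then one of the two parts is nonzero -/
theorem exists_part (hA : Herm A) {a c : ℝ} (ha : 0 ≤ a) (hy : SpIn A (-c) c y)
    (hn : ¬ SpIn A (-a) a y) :
    (∃ f, Test f ∧ Phi A f y ≠ 0 ∧ SpIn A a c (Phi A f y)) ∨
      (∃ f, Test f ∧ Phi A f y ≠ 0 ∧ SpIn A (-c) (-a) (Phi A f y)) := by
  have hac : a ≤ c := by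
    by_contra h
    rw [not_le] at h
    exact hn (hy.mono (by linarith) h.le)
  have bd : ∀ g : ℝ → ℂ, Test g → ∃ R : ℝ, ∀ x, R < |x| → g x = 0 := by
    intro g hg
    obtain ⟨R, hR⟩ := hg.2.isCompact.isBounded.exists_norm_le
    refine ⟨R, fun x hx => ?_⟩
    by_contra hne
    have h1 := hR x (subset_tsupport g hne)
    rw [Real.norm_eq_abs] at h1
    exact absurd hx (not_lt.mpr h1)
  have hn' : ∃ f : ℝ → ℂ, Test f ∧ VanNear f (Set.Icc (-a) a) ∧ Phi A f y ≠ 0 := by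
    by_contra h
    apply hn
    intro f hf hv
    by_contra h1
    exact h ⟨f, hf, hv, h1⟩
  obtain ⟨f, hf, hv, hne⟩ := hn'
  obtain ⟨δ, f₁, f₂, hδ, hf₁, hf₂, hsum, h1, h2⟩ := Test.split hf hv (by linarith)
  have e : f = fun x => f₁ x + f₂ x := funext hsum
  by_cases hz : Phi A f₂ y = 0
  · right
    have hz1 : Phi A f₁ y ≠ 0 := by
      intro h3
      apply hne
      rw [e, Phi_add hA hf₁ hf₂, _root_.add_apply, h3, hz, add_zero]
    refine ⟨f₁, hf₁, hz1, ?_⟩
    obtain ⟨R, hR⟩ := bd f₁ hf₁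
    have s1 : SpIn A (-(max R c)) (-a) (Phi A f₁ y) := by
      refine SpIn.of_support hA hf₁ (fun x hx => ?_) y
      rw [Set.mem_Icc, not_and_or, not_le, not_le] at hx
      rcases hx with hx | hx
      · refine hR x ?_
        have h4 : max R c < -x := by linarith
        exact lt_of_le_of_lt (le_max_left R c) (lt_of_lt_of_le h4 (neg_le_abs x))
      · exact h1 x (by linarith)
    have s2 := s1.inter (hy.phi hA hf₁) hA (by
      rw [max_le_iff]
      constructor
      · rw [le_min_iff]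
        have := le_max_right R c
        constructor <;> linarith
      · rw [le_min_iff]
        constructor <;> linarith)
    exact s2.mono (le_max_right _ _) (min_le_left _ _)
  · left
    refine ⟨f₂, hf₂, hz, ?_⟩
    obtain ⟨R, hR⟩ := bd f₂ hf₂
    have s1 : SpIn A a (max R c) (Phi A f₂ y) := by
      refine SpIn.of_support hA hf₂ (fun x hx => ?_) y
      rw [Set.mem_Icc, not_and_or, not_le, not_le] at hx
      rcases hx with hx | hx
      · exact h2 x (by linarith)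
      · exact hR x (lt_of_le_of_lt (le_max_left R c) (lt_of_lt_of_le hx (le_abs_self x)))
    have s2 := s1.inter (hy.phi hA hf₂) hA (by
      rw [max_le_iff]
      constructor
      · rw [le_min_iff]
        have := le_max_right R c
        constructor <;> linarith
      · rw [le_min_iff]
        have := le_max_right R c
        constructor <;> linarith)
    exact s2.mono (le_max_left _ _) (min_le_right _ _)

end Pool.Agent.Helper61.HP
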