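import Pool.Agent.Helper61.HP.Stmt

/-!
# Definition used in the statement of `MP_cc72b1_an.OneParameterGroup`
-/

set_option autoImplicit false

namespace Pool.Agent.Helper61.HP

universe u

/-- the bounded operator `D` generates a (norm continuous) one-parameter group of isometries:
all the operators `exp (t D)`, `t` real, preserve the norm -/
def GeneratesIsometries {E : Type u} [NormedAddCommGroup E] [NormedSpace ℂ E]
    (D : E →L[ℂ] E) : Prop :=
  ∀ (t : ℝ) (x : E), ‖NormedSpace.exp ((t : ℂ) • D) x‖ = ‖x‖

end Pool.Agent.Helper61.HP
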