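import Pool.Agent.Helper61.HO.Defs

/-!
# HO-01  Test functions

PROOFS. Sums, products: `ContDiff` rules and `HasCompactSupport.add`, `.mul_right`, ... `Test.comp_affine`: composition
with the homeomorphism `x ↦ a x + b` (`HasCompactSupport.comp_isClosedEmbedding` or `comp_homeomorph`).
`exists_cutoff`: `ContDiffBump`/`exists_contDiff_zero_one...` or the product of two `Real.smoothTransition`:
`χ x = smoothTransition ((x - (α - 2 δ)) / δ) * smoothTransition (((β + 2 δ) - x) / δ)`.
`Test.margin`: compactness of `[α, β]` (or only the two endpoints and the points between: the open set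
`{x | ∀ᶠ y in 𝓝 x, f y = 0}` contains `[α, β]`, hence a neighbourhood `(α - 2 δ, β + 2 δ)` of it by
`IsCompact.exists_thickening_subset_open`).
`Test.split`: with `δ` from `margin` (`f = 0` on `(α - 2 δ, β + 2 δ)`) let `θ x = smoothTransition ((x - (α - δ)) / (β - α + 2 δ))`
(`θ = 0` for `x ≤ α - δ`, `θ = 1` for `x ≥ β + δ`), `f₂ = f θ`, `f₁ = f (1 - θ)`; between `α - 2 δ` and `β + 2 δ` both
are `0` because `f` is.
`test_split_gap`: `θ x = smoothTransition ((x - α) / (β - α))` for `α < β`, `f₁ = f (1 - θ)`, `f₂ = f θ`.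
`Test.div_id`: if `f` vanishes near `s`, then `f x / (x - s)` (which is `0` near `s`) is smooth.
`PT.test`: `√t` is smooth and positive on `(0, ∞)`, `F` vanishes for `t ≤ δ`.
-/

set_option autoImplicit false

open Filter Topology

namespace Pool.Agent.Helper61.HP

theorem Test.add {f g : ℝ → ℂ} (hf : Test f) (hg : Test g) : Test (fun x => f x + g x) := by
  exact ⟨hf.1.add hg.1, hf.2.add hg.2⟩

theorem Test.sub {f g : ℝ → ℂ} (hf : Test f) (hg : Test g) : Test (fun x => f x - g x) := by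
  exact ⟨hf.1.sub hg.1, hf.2.comp₂_left (m := fun a b : ℂ => a - b) hg.2 (sub_zero 0)⟩

theorem Test.smul (c : ℂ) {f : ℝ → ℂ} (hf : Test f) : Test (fun x => c * f x) := by
  exact ⟨contDiff_const.mul hf.1, hf.2.mul_left (f := fun _ => c)⟩

theorem Test.zero : Test (fun _ => 0) := by
  exact ⟨contDiff_const, HasCompactSupport.zero⟩

/-- product with a smooth function -/
theorem Test.mul_left {f g : ℝ → ℂ} (hf : Test f) (hg : ContDiff ℝ (⊤ : ℕ∞) g) :
    Test (fun x => g x * f x) := by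
  exact ⟨hg.mul hf.1, hf.2.mul_left (f := g)⟩

theorem Test.mul {f g : ℝ → ℂ} (hf : Test f) (hg : Test g) : Test (fun x => f x * g x) := by
  exact ⟨hf.1.mul hg.1, hf.2.mul_right⟩

theorem Test.pow {f : ℝ → ℂ} (hf : Test f) {n : ℕ} (hn : n ≠ 0) : Test (fun x => f x ^ n) := by
  exact ⟨hf.1.pow n, hf.2.comp_left (g := fun z : ℂ => z ^ n) (zero_pow hn)⟩

theorem Test.id_mul {f : ℝ → ℂ} (hf : Test f) : Test (fun x => (x : ℂ) * f x) := by
  exact hf.mul_left Complex.ofRealCLM.contDiff

/-- product with a power of `x - s` -/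
theorem Test.pow_mul {f : ℝ → ℂ} (hf : Test f) (s : ℝ) (n : ℕ) :
    Test (fun x => ((x : ℂ) - (s : ℂ)) ^ n * f x) := by
  exact hf.mul_left ((Complex.ofRealCLM.contDiff.sub contDiff_const).pow n)

theorem Test.star {f : ℝ → ℂ} (hf : Test f) : Test (fun x => (starRingEnd ℂ) (f x)) := by
  exact ⟨Complex.conjCLE.contDiff.comp hf.1,
    hf.2.comp_left (g := fun z : ℂ => (starRingEnd ℂ) z) (map_zero _)⟩

theorem Test.comp_affine {f : ℝ → ℂ} (hf : Test f) {a : ℝ} (ha : a ≠ 0) (b : ℝ) :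
    Test (fun x => f (a * x + b)) := by
  refine ⟨hf.1.comp ((contDiff_const.mul contDiff_id).add contDiff_const), ?_⟩
  exact hf.2.comp_homeomorph ((Homeomorph.mulLeft₀ a ha).trans (Homeomorph.addRight b))

theorem Test.comp_neg {f : ℝ → ℂ} (hf : Test f) : Test (fun x => f (-x)) := by
  have h := hf.comp_affine (a := -1) (by norm_num) 0
  have e : (fun x : ℝ => f (-1 * x + 0)) = fun x => f (-x) := by
    funext x
    congr 1
    ring
  rw [e] at h
  exact h

/-- smooth cut-off functions -/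
theorem exists_cutoff (α β : ℝ) {δ : ℝ} (hδ : 0 < δ) :
    ∃ χ : ℝ → ℝ, ContDiff ℝ (⊤ : ℕ∞) χ ∧ HasCompactSupport χ ∧ Test (fun x => (χ x : ℂ)) ∧
      (∀ x, 0 ≤ χ x) ∧ (∀ x, χ x ≤ 1) ∧ (∀ x, α - δ ≤ x → x ≤ β + δ → χ x = 1) ∧
      (∀ x, x ≤ α - 2 * δ → χ x = 0) ∧ (∀ x, β + 2 * δ ≤ x → χ x = 0) := by
  have hc : ContDiff ℝ (⊤ : ℕ∞) (fun x : ℝ => Real.smoothTransition ((x - (α - 2 * δ)) / δ) *
      Real.smoothTransition (((β + 2 * δ) - x) / δ)) := by
    refine ContDiff.mul ?_ ?_
    · exact Real.smoothTransition.contDiff.comp ((contDiff_id.sub contDiff_const).div_const δ)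
    · exact Real.smoothTransition.contDiff.comp ((contDiff_const.sub contDiff_id).div_const δ)
  have hl : ∀ x : ℝ, x ≤ α - 2 * δ → Real.smoothTransition ((x - (α - 2 * δ)) / δ) *
      Real.smoothTransition (((β + 2 * δ) - x) / δ) = 0 := by
    intro x hx
    rw [Real.smoothTransition.zero_of_nonpos (div_nonpos_of_nonpos_of_nonneg (by linarith) hδ.le),
      zero_mul]
  have hr : ∀ x : ℝ, β + 2 * δ ≤ x → Real.smoothTransition ((x - (α - 2 * δ)) / δ) *
      Real.smoothTransition (((β + 2 * δ) - x) / δ) = 0 := by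
    intro x hx
    rw [Real.smoothTransition.zero_of_nonpos (x := ((β + 2 * δ) - x) / δ)
      (div_nonpos_of_nonpos_of_nonneg (by linarith) hδ.le), mul_zero]
  have hs : HasCompactSupport (fun x : ℝ => Real.smoothTransition ((x - (α - 2 * δ)) / δ) *
      Real.smoothTransition (((β + 2 * δ) - x) / δ)) := by
    refine HasCompactSupport.intro (isCompact_Icc (a := α - 2 * δ) (b := β + 2 * δ)) ?_
    intro x hx
    rw [Set.mem_Icc, not_and_or, not_le, not_le] at hx
    rcases hx with hx | hx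
    · exact hl x hx.le
    · exact hr x hx.le
  refine ⟨_, hc, hs, ⟨Complex.ofRealCLM.contDiff.comp hc,
    hs.comp_left (g := fun r : ℝ => (r : ℂ)) Complex.ofReal_zero⟩, ?_, ?_, ?_, hl, hr⟩
  · intro x
    exact mul_nonneg (Real.smoothTransition.nonneg _) (Real.smoothTransition.nonneg _)
  · intro x
    exact mul_le_one₀ (Real.smoothTransition.le_one _) (Real.smoothTransition.nonneg _)
      (Real.smoothTransition.le_one _)
  · intro x h1 h2
    rw [Real.smoothTransition.one_of_one_le, Real.smoothTransition.one_of_one_le, mul_one]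
    · rw [le_div_iff₀ hδ]
      linarith
    · rw [le_div_iff₀ hδ]
      linarith

theorem Test.margin {f : ℝ → ℂ} {α β : ℝ} (hv : VanNear f (Set.Icc α β)) (hαβ : α ≤ β) :
    ∃ δ : ℝ, 0 < δ ∧ ∀ x, α - δ ≤ x → x ≤ β + δ → f x = 0 := by
  obtain ⟨δ, hδ, hsub⟩ := (isCompact_Icc (a := α) (b := β)).exists_thickening_subset_open
    (t := {x : ℝ | ∀ᶠ y in 𝓝 x, f y = 0}) isOpen_setOfPred_eventually_nhds
    (fun x hx => hv x hx)
  refine ⟨δ / 2, half_pos hδ, fun x h1 h2 => ?_⟩
  have hx : x ∈ Metric.thickening δ (Set.Icc α β) := by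
    rw [Metric.mem_thickening_iff]
    rcases le_total x α with h | h
    · refine ⟨α, ⟨le_refl _, hαβ⟩, ?_⟩
      rw [Real.dist_eq, abs_lt]
      constructor <;> linarith
    · rcases le_total x β with h' | h'
      · refine ⟨x, ⟨h, h'⟩, ?_⟩
        rw [dist_self]
        exact hδ
      · refine ⟨β, ⟨hαβ, le_refl _⟩, ?_⟩
        rw [Real.dist_eq, abs_lt]
        constructor <;> linarith
  exact (hsub hx).self_of_nhds

theorem Test.split {f : ℝ → ℂ} (hf : Test f) {α β : ℝ} (hv : VanNear f (Set.Icc α β))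
    (hαβ : α ≤ β) :
    ∃ (δ : ℝ) (f₁ f₂ : ℝ → ℂ), 0 < δ ∧ Test f₁ ∧ Test f₂ ∧ (∀ x, f x = f₁ x + f₂ x) ∧
      (∀ x, α - δ ≤ x → f₁ x = 0) ∧ (∀ x, x ≤ β + δ → f₂ x = 0) := by
  obtain ⟨δ, hδ, h0⟩ := Test.margin hv hαβ
  have hp : 0 < β - α + δ := by linarith
  have hθ : ContDiff ℝ (⊤ : ℕ∞) (fun x : ℝ =>
      ((Real.smoothTransition ((x - (α - δ / 2)) / (β - α + δ)) : ℝ) : ℂ)) :=
    Complex.ofRealCLM.contDiff.comp
      (Real.smoothTransition.contDiff.comp ((contDiff_id.sub contDiff_const).div_const _))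
  refine ⟨δ / 2,
    fun x => (1 - ((Real.smoothTransition ((x - (α - δ / 2)) / (β - α + δ)) : ℝ) : ℂ)) * f x,
    fun x => ((Real.smoothTransition ((x - (α - δ / 2)) / (β - α + δ)) : ℝ) : ℂ) * f x,
    half_pos hδ, hf.mul_left (contDiff_const.sub hθ), hf.mul_left hθ, ?_, ?_, ?_⟩
  · intro x
    ring
  · intro x hx
    rcases le_total x (β + δ / 2) with h | h
    · have h2 := h0 x (by linarith) (by linarith)
      simp only [h2, mul_zero]
    · have h2 : Real.smoothTransition ((x - (α - δ / 2)) / (β - α + δ)) = 1 := by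
        apply Real.smoothTransition.one_of_one_le
        rw [le_div_iff₀ hp]
        linarith
      simp only [h2, Complex.ofReal_one, sub_self, zero_mul]
  · intro x hx
    rcases le_total (α - δ / 2) x with h | h
    · have h2 := h0 x (by linarith) (by linarith)
      simp only [h2, mul_zero]
    · have h2 : Real.smoothTransition ((x - (α - δ / 2)) / (β - α + δ)) = 0 :=
        Real.smoothTransition.zero_of_nonpos
          (div_nonpos_of_nonpos_of_nonneg (by linarith) hp.le)
      simp only [h2, Complex.ofReal_zero, zero_mul]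

/-- an arbitrary test function is the sum of one vanishing for `x ≥ β` and one vanishing for
`x ≤ α`, if `α < β` -/
theorem Test.split_gap {f : ℝ → ℂ} (hf : Test f) {α β : ℝ} (hαβ : α < β) :
    ∃ f₁ f₂ : ℝ → ℂ, Test f₁ ∧ Test f₂ ∧ (∀ x, f x = f₁ x + f₂ x) ∧
      (∀ x, β ≤ x → f₁ x = 0) ∧ (∀ x, x ≤ α → f₂ x = 0) := by
  have hp : 0 < β - α := by linarith
  have hθ : ContDiff ℝ (⊤ : ℕ∞) (fun x : ℝ =>
      ((Real.smoothTransition ((x - α) / (β - α)) : ℝ) : ℂ)) :=
    Complex.ofRealCLM.contDiff.comp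
      (Real.smoothTransition.contDiff.comp ((contDiff_id.sub contDiff_const).div_const _))
  refine ⟨fun x => (1 - ((Real.smoothTransition ((x - α) / (β - α)) : ℝ) : ℂ)) * f x,
    fun x => ((Real.smoothTransition ((x - α) / (β - α)) : ℝ) : ℂ) * f x,
    hf.mul_left (contDiff_const.sub hθ), hf.mul_left hθ, ?_, ?_, ?_⟩
  · intro x
    ring
  · intro x hx
    have h2 : Real.smoothTransition ((x - α) / (β - α)) = 1 := by
      apply Real.smoothTransition.one_of_one_le
      rw [le_div_iff₀ hp]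
      linarith
    simp only [h2, Complex.ofReal_one, sub_self, zero_mul]
  · intro x hx
    have h2 : Real.smoothTransition ((x - α) / (β - α)) = 0 :=
      Real.smoothTransition.zero_of_nonpos
        (div_nonpos_of_nonpos_of_nonneg (by linarith) hp.le)
    simp only [h2, Complex.ofReal_zero, zero_mul]

theorem Test.div_sub {f : ℝ → ℂ} (hf : Test f) {s δ : ℝ} (hδ : 0 < δ)
    (h : ∀ x, |x - s| ≤ δ → f x = 0) :
    Test (fun x => f x / ((x : ℂ) - (s : ℂ))) := by
  refine ⟨contDiff_iff_contDiffAt.mpr fun x => ?_, ?_⟩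
  · by_cases hx : |x - s| < δ
    · have h1 : (fun x : ℝ => f x / ((x : ℂ) - (s : ℂ))) =ᶠ[𝓝 x] fun _ => (0 : ℂ) := by
        have h2 : ∀ᶠ y in 𝓝 x, |y - s| < δ :=
          (continuous_abs.comp (continuous_id.sub continuous_const)).continuousAt.eventually_lt
            continuousAt_const hx
        filter_upwards [h2] with y hy
        rw [h y hy.le, zero_div]
      exact contDiffAt_const.congr_of_eventuallyEq h1
    · have hxs : (x : ℂ) - (s : ℂ) ≠ 0 := by
        intro h0
        apply hx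
        have h1 : x = s := by exact_mod_cast sub_eq_zero.mp h0
        rw [h1, sub_self, abs_zero]
        exact hδ
      have hg : ContDiff ℝ (⊤ : ℕ∞) (fun x : ℝ => (x : ℂ) - (s : ℂ)) :=
        Complex.ofRealCLM.contDiff.sub contDiff_const
      have e : (fun x : ℝ => f x / ((x : ℂ) - (s : ℂ))) =
          fun x : ℝ => f x * ((x : ℂ) - (s : ℂ))⁻¹ := by
        funext y
        rw [div_eq_mul_inv]
      rw [e]
      exact (hf.1.contDiffAt).mul ((hg.contDiffAt).inv hxs)
  · have h1 := hf.2.mul_right (f' := fun x : ℝ => ((x : ℂ) - (s : ℂ))⁻¹)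
    have e : (fun x : ℝ => f x / ((x : ℂ) - (s : ℂ))) = f * fun x : ℝ => ((x : ℂ) - (s : ℂ))⁻¹ := by
      funext x
      rw [Pi.mul_apply, div_eq_mul_inv]
    rw [e]
    exact h1

theorem PT.test {F : ℝ → ℝ} (hF : PT F) :
    Test (fun t => ((F t / Real.sqrt t : ℝ) : ℂ)) := by
  obtain ⟨h1, h2, δ, hδ, h3⟩ := hF
  have hc : ContDiff ℝ (⊤ : ℕ∞) (fun t => F t / Real.sqrt t) := by
    refine contDiff_iff_contDiffAt.mpr fun x => ?_
    by_cases hx : x < δ
    · have h4 : (fun t => F t / Real.sqrt t) =ᶠ[𝓝 x] fun _ => (0 : ℝ) := by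
        filter_upwards [eventually_lt_nhds hx] with y hy
        rw [h3 y hy.le, zero_div]
      exact contDiffAt_const.congr_of_eventuallyEq h4
    · have hx0 : 0 < x := by linarith [not_lt.mp hx]
      exact (h1.contDiffAt).div (contDiffAt_id.sqrt hx0.ne') (Real.sqrt_pos.mpr hx0).ne'
  have hs : HasCompactSupport (fun t => F t / Real.sqrt t) := by
    have h4 := h2.mul_right (f' := fun t : ℝ => (Real.sqrt t)⁻¹)
    have e : (fun t => F t / Real.sqrt t) = F * fun t : ℝ => (Real.sqrt t)⁻¹ := by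
      funext x
      rw [Pi.mul_apply, div_eq_mul_inv]
    rw [e]
    exact h4
  exact ⟨Complex.ofRealCLM.contDiff.comp hc,
    hs.comp_left (g := fun r : ℝ => (r : ℂ)) Complex.ofReal_zero⟩

theorem PT.test' {F : ℝ → ℝ} (hF : PT F) :
    Test (fun t => ((F (-t) / Real.sqrt (-t) : ℝ) : ℂ)) := by
  exact (PT.test hF).comp_neg

theorem PT.mul {F G : ℝ → ℝ} (hF : PT F) (hG : PT G) : PT (fun t => F t * G t) := by
  obtain ⟨h1, h2, δ, hδ, h3⟩ := hF
  refine ⟨h1.mul hG.1, h2.mul_right, δ, hδ, fun t ht => ?_⟩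
  show F t * G t = 0
  rw [h3 t ht, zero_mul]

theorem PT.smul (c : ℝ) {F : ℝ → ℝ} (hF : PT F) : PT (fun t => c * F t) := by
  obtain ⟨h1, h2, δ, hδ, h3⟩ := hF
  refine ⟨contDiff_const.mul h1, h2.mul_left (f := fun _ => c), δ, hδ, fun t ht => ?_⟩
  show c * F t = 0
  rw [h3 t ht, mul_zero]

theorem PT.pow {F : ℝ → ℝ} (hF : PT F) {n : ℕ} (hn : n ≠ 0) : PT (fun t => F t ^ n) := by
  obtain ⟨h1, h2, δ, hδ, h3⟩ := hF
  refine ⟨h1.pow n, h2.comp_left (g := fun z : ℝ => z ^ n) (zero_pow hn), δ, hδ,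
    fun t ht => ?_⟩
  show F t ^ n = 0
  rw [h3 t ht, zero_pow hn]

/-- composition with a smooth function which vanishes at `0` -/
theorem PT.comp {F φ : ℝ → ℝ} (hF : PT F) (hφ : ContDiff ℝ (⊤ : ℕ∞) φ) (h0 : φ 0 = 0) :
    PT (fun t => φ (F t)) := by
  obtain ⟨h1, h2, δ, hδ, h3⟩ := hF
  refine ⟨hφ.comp h1, h2.comp_left (g := φ) h0, δ, hδ, fun t ht => ?_⟩
  show φ (F t) = 0
  rw [h3 t ht, h0]

/-- bumps on compact subintervals of `(0, ∞)` -/
theorem exists_PT_bump {a b a' b' : ℝ} (ha' : 0 < a') (ha : a' < a) (hb : b < b') :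
    ∃ g : ℝ → ℝ, PT g ∧ (∀ t, 0 ≤ g t) ∧ (∀ t, g t ≤ 1) ∧ (∀ t, a ≤ t → t ≤ b → g t = 1) ∧
      (∀ t, t ≤ a' → g t = 0) ∧ (∀ t, b' ≤ t → g t = 0) := by
  have hpa : 0 < a - a' := by linarith
  have hpb : 0 < b' - b := by linarith
  have hc : ContDiff ℝ (⊤ : ℕ∞) (fun x : ℝ => Real.smoothTransition ((x - a') / (a - a')) *
      Real.smoothTransition ((b' - x) / (b' - b))) := by
    refine ContDiff.mul ?_ ?_
    · exact Real.smoothTransition.contDiff.comp ((contDiff_id.sub contDiff_const).div_const _)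
    · exact Real.smoothTransition.contDiff.comp ((contDiff_const.sub contDiff_id).div_const _)
  have hl : ∀ x : ℝ, x ≤ a' → Real.smoothTransition ((x - a') / (a - a')) *
      Real.smoothTransition ((b' - x) / (b' - b)) = 0 := by
    intro x hx
    rw [Real.smoothTransition.zero_of_nonpos (div_nonpos_of_nonpos_of_nonneg (by linarith) hpa.le),
      zero_mul]
  have hr : ∀ x : ℝ, b' ≤ x → Real.smoothTransition ((x - a') / (a - a')) *
      Real.smoothTransition ((b' - x) / (b' - b)) = 0 := by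
    intro x hx
    rw [Real.smoothTransition.zero_of_nonpos (x := (b' - x) / (b' - b))
      (div_nonpos_of_nonpos_of_nonneg (by linarith) hpb.le), mul_zero]
  have hs : HasCompactSupport (fun x : ℝ => Real.smoothTransition ((x - a') / (a - a')) *
      Real.smoothTransition ((b' - x) / (b' - b))) := by
    refine HasCompactSupport.intro (isCompact_Icc (a := a') (b := b')) ?_
    intro x hx
    rw [Set.mem_Icc, not_and_or, not_le, not_le] at hx
    rcases hx with hx | hx
    · exact hl x hx.le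
    · exact hr x hx.le
  refine ⟨_, ⟨hc, hs, a', ha', hl⟩, ?_, ?_, ?_, hl, hr⟩
  · intro x
    exact mul_nonneg (Real.smoothTransition.nonneg _) (Real.smoothTransition.nonneg _)
  · intro x
    exact mul_le_one₀ (Real.smoothTransition.le_one _) (Real.smoothTransition.nonneg _)
      (Real.smoothTransition.le_one _)
  · intro x h1 h2
    rw [Real.smoothTransition.one_of_one_le, Real.smoothTransition.one_of_one_le, mul_one]
    · rw [le_div_iff₀ hpb]
      linarith
    · rw [le_div_iff₀ hpa]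
      linarith

end Pool.Agent.Helper61.HP
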