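import Pool.Agent.Helper61.HO.LiePowers
import Pool.Agent.Helper61.HO.PrApi

/-!
# HO-19  Powers and exponentials in abelian triple systems

`L = Lop b b' = (1/2) adL (lie b b')`, `x n = L^n b`, `x' n = (-L)^n b'`.

PROOF of `ab_powers`. `x n ∈ 𝔅` (`L y = (1/2) lie (lie b b') y ∈ 𝔅` for `y ∈ 𝔅` by `IsAb.tri`). The star of `lie b b'` is
`lie b b'` itself (`Pr.lie`), so the star of `L y` is `(1/2) lie y' (lie b b') = - L y'`: `Pr 𝔥 (x n) (x' n)` by induction.
The `x n` commute (`IsAb.comm`), the `x' n` too: the star of `lie (x n) (x m) = 0` is `lie (x' m) (x' n)` (`Pr.unique`).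
Then `lie_powers` (bracket of the ring `E →L[ℂ] E`, `Ring.lie_def`).

PROOF of `ab_exp`. `ex s (i L) b = ∑ (i s)^n / n! x n`, `ex s (i L) b' = ∑ (i s)^n / n! L^n b' = ∑ (- i s)^n / n! x' n`
(`ex_hasSum`). First claim: `lie (ex s₁ (iL) b) (ex s₂ (iL) b')`: as `lie` is continuous bilinear, it suffices:
for fixed `n`, `lie (ex s₁ (iL) b) (x' n) = lie (L^n ex s₁ (iL) b) b'` (from `ab_powers`: `lie (x i) (x' n) = lie (x (i+n)) b'`, sum
over `i`), then sum over `n`: `∑ (- i s₂)^n / n! L^n ex s₁ (iL) b = ex (-s₂) (iL) ex s₁ (iL) b` (`ex_add`). Second claim: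
`lie (lie (x i) b') (x k) = 2 x (i+k+1) = 2 L (L^i L^k) b`: sum over `i` and then over `k`.
-/

set_option autoImplicit false

open Filter Topology

namespace Pool.Agent.Helper61.HP

universe u

variable {E : Type u} [NormedAddCommGroup E] [NormedSpace ℂ E] [CompleteSpace E]
  {𝔥 : Set (E →L[ℂ] E)} {h b b' : E →L[ℂ] E} {ε : ℝ} {𝔅 : Submodule ℂ (E →L[ℂ] E)}

private lemma tripleexp_congr {F : Type u} [NormedAddCommGroup F] {f g : ℕ → F} {a : F}
    (h : ∀ n, f n = g n) (hf : HasSum f a) : HasSum g a := by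
  rw [← funext h]
  exact hf

private lemma tripleexp_hasSum {F : Type u} [NormedAddCommGroup F] [NormedSpace ℂ F]
    [CompleteSpace F] (Λ : F →L[ℂ] F) (s : ℝ) (y : F) :
    HasSum (fun n : ℕ => (((n.factorial : ℂ)⁻¹) * ((s : ℂ) * Complex.I) ^ n) • (Λ ^ n) y)
      (ex s (Complex.I • Λ) y) := by
  have h := (ContinuousLinearMap.apply ℂ F y).hasSum (ex_hasSum s (Complex.I • Λ))
  have h2 : ∀ n : ℕ, (ContinuousLinearMap.apply ℂ F y)
      (((n.factorial : ℂ)⁻¹) • ((s : ℂ) • (Complex.I • Λ)) ^ n) =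
      (((n.factorial : ℂ)⁻¹) * ((s : ℂ) * Complex.I) ^ n) • (Λ ^ n) y := by
    intro n
    rw [smul_smul (s : ℂ) Complex.I Λ, smul_pow, smul_smul, map_smul]
    rfl
  exact tripleexp_congr h2 h

private lemma tripleexp_neg (s : ℝ) (n : ℕ) :
    (((n.factorial : ℂ)⁻¹) * ((s : ℂ) * Complex.I) ^ n) * (-1) ^ n =
      ((n.factorial : ℂ)⁻¹) * (((-s : ℝ) : ℂ) * Complex.I) ^ n := by
  have h1 : ((-s : ℝ) : ℂ) * Complex.I = ((s : ℂ) * Complex.I) * (-1) := by
    push_cast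
    ring
  rw [h1, mul_pow]
  ring

private lemma tripleexp_pow_neg {F : Type u} [NormedAddCommGroup F] [NormedSpace ℂ F]
    (Λ : F →L[ℂ] F) (n : ℕ) (y : F) : (Λ ^ n) y = ((-1 : ℂ) ^ n) • ((-Λ) ^ n) y := by
  have h2 : ((-Λ) ^ n : F →L[ℂ] F) = ((-1 : ℂ) ^ n) • Λ ^ n := by
    rw [← smul_pow, neg_smul, one_smul]
  rw [h2, smul_apply, smul_smul, ← mul_pow, neg_mul_neg, one_mul, one_pow,
    one_smul]

omit [CompleteSpace E] in
private lemma tripleexp_lie_neg (A B : E →L[ℂ] E) : lie A B = -lie B A := by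
  unfold lie
  abel

theorem Lop_apply (b b' y : E →L[ℂ] E) : Lop b b' y = (1 / 2 : ℂ) • lie (lie b b') y := by
  unfold Lop
  rw [smul_apply, adL_apply]

/-- the operator `lie b b'` belongs to `𝔥` -/
theorem lie_star_mem (hh : HLie 𝔥) (hbb : Pr 𝔥 b b') : lie b b' ∈ 𝔥 := by
  exact Pr.self hh (Pr.lie hh hbb (Pr.symm hh hbb))

theorem herm_Lop (hh : HLie 𝔥) (hbb : Pr 𝔥 b b') : Herm (Lop b b') := by
  have h1 : Lop b b' = adL (((1 / 2 : ℝ) : ℂ) • lie b b') := by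
    unfold Lop
    rw [adL_smul]
    norm_num
  rw [h1]
  exact herm_adL (hh.herm _ (hh.smul (1 / 2) _ (lie_star_mem hh hbb)))

theorem IsAb.Lop_mem (hB : IsAb 𝔥 h ε 𝔅) (hb : b ∈ 𝔅) (hbb : Pr 𝔥 b b') {y : E →L[ℂ] E}
    (hy : y ∈ 𝔅) : Lop b b' y ∈ 𝔅 := by
  rw [Lop_apply]
  exact 𝔅.smul_mem _ (hB.tri b hb b b' hbb y hy)

theorem ab_powers (hh : HLie 𝔥) (hB : IsAb 𝔥 h ε 𝔅) (hb : b ∈ 𝔅) (hbb : Pr 𝔥 b b') :
    (∀ n, ((Lop b b') ^ n) b ∈ 𝔅) ∧ (∀ n, Pr 𝔥 (((Lop b b') ^ n) b) (((-Lop b b') ^ n) b')) ∧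
    (∀ i j, lie (((Lop b b') ^ i) b) (((-Lop b b') ^ j) b') =
      lie (((Lop b b') ^ (i + j)) b) b') ∧
    (∀ i k, lie (lie (((Lop b b') ^ i) b) b') (((Lop b b') ^ k) b) =
      (2 : ℂ) • ((Lop b b') ^ (i + k + 1)) b) := by
  have hmem : ∀ n, ((Lop b b') ^ n) b ∈ 𝔅 := by
    intro n
    induction n with
    | zero => exact hb
    | succ n ih =>
      rw [pow_succ']
      exact hB.Lop_mem hb hbb ih
  have hT : Pr 𝔥 (lie b b') (lie b b') := Pr.lie hh hbb (Pr.symm hh hbb)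
  have hpr : ∀ n, Pr 𝔥 (((Lop b b') ^ n) b) (((-Lop b b') ^ n) b') := by
    intro n
    induction n with
    | zero => exact hbb
    | succ n ih =>
      rw [pow_succ', pow_succ']
      have h1 := Pr.smul hh (Pr.lie hh hT ih) (1 / 2 : ℂ)
      have h2 : ((Lop b b') * (Lop b b') ^ n) b =
          (1 / 2 : ℂ) • lie (lie b b') (((Lop b b') ^ n) b) := Lop_apply b b' _
      have h3 : ((-Lop b b') * (-Lop b b') ^ n) b' =
          (starRingEnd ℂ (1 / 2 : ℂ)) • lie (((-Lop b b') ^ n) b') (lie b b') := by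
        have h4 : ((-Lop b b') * (-Lop b b') ^ n) b' = -(Lop b b' (((-Lop b b') ^ n) b')) := rfl
        have h5 : (starRingEnd ℂ (1 / 2 : ℂ)) = 1 / 2 := by
          rw [map_div₀, map_one]
          congr 1
          exact Complex.conj_ofNat 2
        rw [h4, Lop_apply, h5, tripleexp_lie_neg (((-Lop b b') ^ n) b') (lie b b'), smul_neg]
      rw [h2, h3]
      exact h1
  have hsx : ∀ n, lie (lie b b') (((Lop b b') ^ n) b) = (2 : ℂ) • ((Lop b b') ^ (n + 1)) b := by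
    intro n
    rw [pow_succ']
    have h2 : ((Lop b b') * (Lop b b') ^ n) b =
        (1 / 2 : ℂ) • lie (lie b b') (((Lop b b') ^ n) b) := Lop_apply b b' _
    rw [h2, smul_smul]
    norm_num
  have hsx' : ∀ n, lie (lie b b') (((-Lop b b') ^ n) b') =
      -((2 : ℂ) • ((-Lop b b') ^ (n + 1)) b') := by
    intro n
    rw [pow_succ']
    have h4 : ((-Lop b b') * (-Lop b b') ^ n) b' = -(Lop b b' (((-Lop b b') ^ n) b')) := rfl
    rw [h4, Lop_apply, smul_neg, neg_neg, smul_smul]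
    norm_num
  have hc : ∀ m n, lie (((Lop b b') ^ m) b) (((Lop b b') ^ n) b) = 0 := by
    intro m n
    unfold lie
    rw [hB.comm _ (hmem m) _ (hmem n), sub_self]
  have hc' : ∀ m n, lie (((-Lop b b') ^ m) b') (((-Lop b b') ^ n) b') = 0 := by
    intro m n
    have h1 := Pr.lie hh (hpr n) (hpr m)
    have h2 : lie (((Lop b b') ^ n) b) (((Lop b b') ^ m) b) = 0 := hc n m
    rw [h2] at h1
    exact Pr.unique hh h1 (Pr.zero hh)
  letI : LieRing (E →L[ℂ] E) := LieRing.ofAssociativeRing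
  obtain ⟨r1, -, r3, -⟩ := lie_powers (b := b) (b' := b') (x := fun n => ((Lop b b') ^ n) b)
    (x' := fun n => ((-Lop b b') ^ n) b') rfl rfl hsx hsx' hc hc'
  exact ⟨hmem, hpr, r1, fun i k => r3 i 0 k⟩

theorem ab_exp (hh : HLie 𝔥) (hB : IsAb 𝔥 h ε 𝔅) (hb : b ∈ 𝔅) (hbb : Pr 𝔥 b b') :
    (∀ s₁ s₂ : ℝ, lie (ex s₁ (Complex.I • Lop b b') b) (ex s₂ (Complex.I • Lop b b') b') =
      lie (ex (s₁ - s₂) (Complex.I • Lop b b') b) b') ∧
    (∀ s₁ s₂ : ℝ, lie (lie (ex s₁ (Complex.I • Lop b b') b) b')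
        (ex s₂ (Complex.I • Lop b b') b) =
      (2 : ℂ) • Lop b b' (ex (s₁ + s₂) (Complex.I • Lop b b') b)) := by
  obtain ⟨-, -, r1, r3⟩ := ab_powers hh hB hb hbb
  have hcomm : ∀ (m n : ℕ) (y : E →L[ℂ] E),
      ((Lop b b') ^ m) (((Lop b b') ^ n) y) = ((Lop b b') ^ (n + m)) y := by
    intro m n y
    rw [add_comm n m, pow_add]
    rfl
  constructor
  · intro s₁ s₂
    -- one power
    have hn : ∀ n : ℕ, lie (ex s₁ (Complex.I • Lop b b') b) (((-Lop b b') ^ n) b') =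
        lie (((Lop b b') ^ n) (ex s₁ (Complex.I • Lop b b') b)) b' := by
      intro n
      have h1 := (adL (((-Lop b b') ^ n) b')).hasSum (tripleexp_hasSum (Lop b b') s₁ b)
      have h2 := ((adL b').comp ((Lop b b') ^ n)).hasSum (tripleexp_hasSum (Lop b b') s₁ b)
      have h3 : ∀ i : ℕ, (adL (((-Lop b b') ^ n) b')) ((((i.factorial : ℂ)⁻¹) *
          ((s₁ : ℂ) * Complex.I) ^ i) • ((Lop b b') ^ i) b) =
          ((adL b').comp ((Lop b b') ^ n)) ((((i.factorial : ℂ)⁻¹) *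
          ((s₁ : ℂ) * Complex.I) ^ i) • ((Lop b b') ^ i) b) := by
        intro i
        rw [ContinuousLinearMap.comp_apply, map_smul, map_smul, map_smul, hcomm, adL_apply,
          adL_apply, tripleexp_lie_neg (((-Lop b b') ^ n) b'), tripleexp_lie_neg b', r1 i n]
      have h4 := (tripleexp_congr h3 h1).unique h2
      rw [ContinuousLinearMap.comp_apply, adL_apply, adL_apply] at h4
      rw [tripleexp_lie_neg, h4, tripleexp_lie_neg b', neg_neg]
    have h1 := (adL (ex s₁ (Complex.I • Lop b b') b)).hasSum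
      (tripleexp_hasSum (Lop b b') s₂ b')
    have h2 := (-(adL b')).hasSum
      (tripleexp_hasSum (Lop b b') (-s₂) (ex s₁ (Complex.I • Lop b b') b))
    have h3 : ∀ n : ℕ, (adL (ex s₁ (Complex.I • Lop b b') b)) ((((n.factorial : ℂ)⁻¹) *
        ((s₂ : ℂ) * Complex.I) ^ n) • ((Lop b b') ^ n) b') =
        (-(adL b')) ((((n.factorial : ℂ)⁻¹) * (((-s₂ : ℝ) : ℂ) * Complex.I) ^ n) •
          ((Lop b b') ^ n) (ex s₁ (Complex.I • Lop b b') b)) := by
      intro n
      rw [tripleexp_pow_neg (Lop b b') n b', smul_smul, map_smul, map_smul, adL_apply, hn n,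
        tripleexp_neg, neg_apply, adL_apply, tripleexp_lie_neg b', neg_neg]
    have h4 := (tripleexp_congr h3 h1).unique h2
    rw [adL_apply, neg_apply, adL_apply, tripleexp_lie_neg b', neg_neg] at h4
    rw [h4]
    have h5 : ex (-s₂) (Complex.I • Lop b b') (ex s₁ (Complex.I • Lop b b') b) =
        ex (s₁ - s₂) (Complex.I • Lop b b') b := by
      have h6 : s₁ - s₂ = -s₂ + s₁ := by ring
      rw [h6, ex_add]
      rfl
    rw [h5]
  · intro s₁ s₂
    have hk : ∀ k : ℕ, lie (lie (ex s₁ (Complex.I • Lop b b') b) b') (((Lop b b') ^ k) b) =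
        (2 : ℂ) • ((Lop b b') ^ (k + 1)) (ex s₁ (Complex.I • Lop b b') b) := by
      intro k
      have h1 := ((adL (((Lop b b') ^ k) b)).comp (adL b')).hasSum
        (tripleexp_hasSum (Lop b b') s₁ b)
      have h2 := ((2 : ℂ) • ((Lop b b') ^ (k + 1))).hasSum (tripleexp_hasSum (Lop b b') s₁ b)
      have hll : ∀ y : E →L[ℂ] E, ((adL (((Lop b b') ^ k) b)).comp (adL b')) y =
          lie (lie y b') (((Lop b b') ^ k) b) := by
        intro y
        rw [ContinuousLinearMap.comp_apply, adL_apply, adL_apply, tripleexp_lie_neg b',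
          tripleexp_lie_neg]
        unfold lie
        noncomm_ring
      have h3 : ∀ i : ℕ, ((adL (((Lop b b') ^ k) b)).comp (adL b')) ((((i.factorial : ℂ)⁻¹) *
          ((s₁ : ℂ) * Complex.I) ^ i) • ((Lop b b') ^ i) b) =
          ((2 : ℂ) • ((Lop b b') ^ (k + 1))) ((((i.factorial : ℂ)⁻¹) *
          ((s₁ : ℂ) * Complex.I) ^ i) • ((Lop b b') ^ i) b) := by
        intro i
        rw [map_smul, map_smul, hll, r3 i k, smul_apply, hcomm]
        rfl
      have h4 := (tripleexp_congr h3 h1).unique h2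
      rw [hll, smul_apply] at h4
      exact h4
    have h1 := (adL (lie (ex s₁ (Complex.I • Lop b b') b) b')).hasSum
      (tripleexp_hasSum (Lop b b') s₂ b)
    have h2 := ((2 : ℂ) • (Lop b b')).hasSum
      (tripleexp_hasSum (Lop b b') s₂ (ex s₁ (Complex.I • Lop b b') b))
    have h3 : ∀ n : ℕ, (adL (lie (ex s₁ (Complex.I • Lop b b') b) b')) ((((n.factorial : ℂ)⁻¹) *
        ((s₂ : ℂ) * Complex.I) ^ n) • ((Lop b b') ^ n) b) =
        ((2 : ℂ) • (Lop b b')) ((((n.factorial : ℂ)⁻¹) * ((s₂ : ℂ) * Complex.I) ^ n) •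
          ((Lop b b') ^ n) (ex s₁ (Complex.I • Lop b b') b)) := by
      intro n
      rw [map_smul, map_smul, adL_apply, hk n, smul_apply, pow_succ']
      rfl
    have h4 := (tripleexp_congr h3 h1).unique h2
    rw [adL_apply, smul_apply] at h4
    rw [h4]
    have h5 : ex s₂ (Complex.I • Lop b b') (ex s₁ (Complex.I • Lop b b') b) =
        ex (s₁ + s₂) (Complex.I • Lop b b') b := by
      rw [add_comm s₁ s₂, ex_add]
      rfl
    rw [h5]

end Pool.Agent.Helper61.HP
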