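import Pool.Agent.Helper61.HO.TripleExp
import Pool.Agent.Helper61.HO.PrPhi

/-!
# HO-20  The triple product and the smooth calculus of `L = Lop b b'`

PROOFS. `Phi L f y = ∫ 𝓕 f ξ • ex (2 π ξ) (iL) y dξ` (`ContinuousLinearMap.integral_apply`, `Phi_integrable`, `herm_Lop`).
* `lie_phi`: `lie` is bilinear and continuous, so by `ab_exp`
  `lie (Phi L f b) (Phi L g b') = ∫∫ 𝓕 f ξ 𝓕 g η • lie (ex (2π(ξ - η)) (iL) b) b' dη dξ`; now
  `∫ 𝓕 g η • ex (- 2 π η) (iL) dη = Phi L (fun t => g (-t))` (`Test.fourier_comp_neg`, substitution), so it is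
  `lie (Phi L (fun t => g (-t)) (Phi L f b)) b' = lie (Phi L (f t * g (-t)) b) b'` (`Phi_mul`).
  (Do it in two steps with the continuous linear maps `x ↦ lie x y` and `y ↦ lie x y`.)
* `triple_phi`: the same with `ab_exp` (second part): `lie (lie (Phi L f b) b') (Phi L k b) = 2 L (Phi L f (Phi L k b))`,
  `Phi_mul`, `Phi_id_mul`.
* `pr_phi_L`: `Phi L f` with `L = adL ((1/2) lie b b')`, `(1/2) lie b b' ∈ 𝔥`: `pr_phi`. (`Lop b b' = adL ((1/2 : ℂ) • lie b b')` by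
  `adL_smul`.)
* `phi_mem_ab`: `Phi_mem` for the closed subspace `𝔅` (`IsAb.Lop_mem`).
-/

set_option autoImplicit false

open Filter Topology MeasureTheory

namespace Pool.Agent.Helper61.HP

universe u

variable {E : Type u} [NormedAddCommGroup E] [NormedSpace ℂ E] [CompleteSpace E]
  {𝔥 : Set (E →L[ℂ] E)} {h b b' : E →L[ℂ] E} {ε : ℝ} {𝔅 : Submodule ℂ (E →L[ℂ] E)}
  {f g k : ℝ → ℂ}

private lemma phi_apply {F : Type u} [NormedAddCommGroup F] [NormedSpace ℂ F] [CompleteSpace F]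
    {A : F →L[ℂ] F} (hA : Herm A) {f : ℝ → ℂ} (hf : Test f) (y : F) :
    Phi A f y = ∫ ξ : ℝ, (FourierTransform.fourier f ξ) • ex (2 * Real.pi * ξ) (Complex.I • A) y := by
  unfold Phi
  rw [ContinuousLinearMap.integral_apply (Phi_integrable hA hf)]
  rfl

private lemma phi_apply_int {F : Type u} [NormedAddCommGroup F] [NormedSpace ℂ F] [CompleteSpace F]
    {A : F →L[ℂ] F} (hA : Herm A) {f : ℝ → ℂ} (hf : Test f) (y : F) :
    Integrable (fun ξ : ℝ => (FourierTransform.fourier f ξ) • ex (2 * Real.pi * ξ) (Complex.I • A) y) := by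
  have h := (ContinuousLinearMap.apply ℂ F y).integrable_comp (Phi_integrable hA hf)
  exact h

private lemma phi_gen {F G : Type u} [NormedAddCommGroup F] [NormedSpace ℂ F] [CompleteSpace F]
    [NormedAddCommGroup G] [NormedSpace ℂ G] [CompleteSpace G]
    {A₁ A₂ : F →L[ℂ] F} (hA₁ : Herm A₁) (hA₂ : Herm A₂) {f : ℝ → ℂ} (hf : Test f)
    (Ψ Θ : F →L[ℂ] G) (u v : F)
    (h : ∀ s : ℝ, Ψ (ex s (Complex.I • A₁) u) = Θ (ex s (Complex.I • A₂) v)) :
    Ψ (Phi A₁ f u) = Θ (Phi A₂ f v) := by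
  rw [phi_apply hA₁ hf, phi_apply hA₂ hf, ← ContinuousLinearMap.integral_comp_comm _ (phi_apply_int hA₁ hf u),
    ← ContinuousLinearMap.integral_comp_comm _ (phi_apply_int hA₂ hf v)]
  refine integral_congr_ae (Filter.Eventually.of_forall fun ξ => ?_)
  simp only [map_smul, h]

private lemma herm_neg' {F : Type u} [NormedAddCommGroup F] [NormedSpace ℂ F] {A : F →L[ℂ] F}
    (hA : Herm A) : Herm (-A) := by
  intro x φ hφ
  have := hA x φ hφ
  rw [smul_neg, _root_.neg_apply, map_neg, Complex.neg_re, this, neg_zero]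

/-- the operator `x ↦ lie x y` -/
private noncomputable def lieR (y : E →L[ℂ] E) : (E →L[ℂ] E) →L[ℂ] (E →L[ℂ] E) := - adL y

omit [CompleteSpace E] in
private lemma lieR_apply (x y : E →L[ℂ] E) : lieR y x = lie x y := by
  unfold lieR
  rw [_root_.neg_apply, adL_apply]
  unfold lie
  abel

theorem lie_phi (hh : HLie 𝔥) (hB : IsAb 𝔥 h ε 𝔅) (hb : b ∈ 𝔅) (hbb : Pr 𝔥 b b')
    (hf : Test f) (hg : Test g) :
    lie (Phi (Lop b b') f b) (Phi (Lop b b') g b') =
      lie (Phi (Lop b b') (fun t => f t * g (-t)) b) b' := by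
  have hL := herm_Lop hh hbb
  have h1 : ∀ s₂ : ℝ, lie (Phi (Lop b b') f b) (ex s₂ (Complex.I • Lop b b') b') =
      lie (Phi (Lop b b') f (ex (-s₂) (Complex.I • Lop b b') b)) b' := by
    intro s₂
    rw [← lieR_apply, ← lieR_apply]
    refine phi_gen hL hL hf _ _ _ _ (fun s => ?_)
    rw [lieR_apply, lieR_apply, (ab_exp hh hB hb hbb).1, sub_eq_add_neg, ex_add]
    rfl
  have h2 : lie (Phi (Lop b b') f b) (Phi (Lop b b') g b') =
      lie (Phi (Lop b b') f (Phi (-Lop b b') g b)) b' := by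
    have := phi_gen hL (herm_neg' hL) hg (adL (Phi (Lop b b') f b))
      ((lieR b').comp (Phi (Lop b b') f)) b' b (fun s => by
        rw [adL_apply, ContinuousLinearMap.comp_apply, lieR_apply, h1 s, smul_neg, ex_neg_op])
    rw [adL_apply, ContinuousLinearMap.comp_apply, lieR_apply] at this
    exact this
  rw [h2, Phi_neg, Phi_mul hL hf hg.comp_neg]
  rfl

theorem triple_phi (hh : HLie 𝔥) (hB : IsAb 𝔥 h ε 𝔅) (hb : b ∈ 𝔅) (hbb : Pr 𝔥 b b')
    (hf : Test f) (hk : Test k) :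
    lie (lie (Phi (Lop b b') f b) b') (Phi (Lop b b') k b) =
      (2 : ℂ) • Phi (Lop b b') (fun t => (t : ℂ) * (f t * k t)) b := by
  have hL := herm_Lop hh hbb
  have h1 : ∀ s₂ : ℝ, lie (lie (Phi (Lop b b') f b) b') (ex s₂ (Complex.I • Lop b b') b) =
      (2 : ℂ) • Lop b b' (Phi (Lop b b') f (ex s₂ (Complex.I • Lop b b') b)) := by
    intro s₂
    have := phi_gen hL hL hf ((lieR (ex s₂ (Complex.I • Lop b b') b)).comp (lieR b'))
      ((2 : ℂ) • Lop b b') b (ex s₂ (Complex.I • Lop b b') b) (fun s => by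
        rw [ContinuousLinearMap.comp_apply, lieR_apply, lieR_apply, (ab_exp hh hB hb hbb).2, ex_add]
        rfl)
    rw [ContinuousLinearMap.comp_apply, lieR_apply, lieR_apply] at this
    exact this
  have h2 : lie (lie (Phi (Lop b b') f b) b') (Phi (Lop b b') k b) =
      (2 : ℂ) • Lop b b' (Phi (Lop b b') f (Phi (Lop b b') k b)) := by
    have := phi_gen hL hL hk (adL (lie (Phi (Lop b b') f b) b'))
      (((2 : ℂ) • Lop b b').comp (Phi (Lop b b') f)) b b (fun s => by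
        rw [adL_apply, h1 s]
        rfl)
    rw [adL_apply] at this
    exact this
  rw [h2, Phi_id_mul hL (hf.mul hk), Phi_mul hL hf hk]
  rfl

theorem pr_phi_L (hh : HLie 𝔥) (hbb : Pr 𝔥 b b') (hf : Test f) :
    Pr 𝔥 (Phi (Lop b b') f b) (Phi (Lop b b') (fun x => (starRingEnd ℂ) (f (-x))) b') := by
  have h1 : (1 / 2 : ℂ) • lie b b' ∈ 𝔥 := by
    have := hh.smul (1 / 2) _ (lie_star_mem hh hbb)
    have e : (((1 / 2 : ℝ) : ℝ) : ℂ) = (1 / 2 : ℂ) := by push_cast; rfl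
    rwa [e] at this
  have h2 := pr_phi hh h1 hbb hf
  rwa [adL_smul] at h2

theorem phi_mem_ab (hh : HLie 𝔥) (hB : IsAb 𝔥 h ε 𝔅) (hb : b ∈ 𝔅) (hbb : Pr 𝔥 b b')
    (hf : Test f) {y : E →L[ℂ] E} (hy : y ∈ 𝔅) : Phi (Lop b b') f y ∈ 𝔅 := by
  exact Phi_mem (herm_Lop hh hbb) hf hB.closed (fun y hy => hB.Lop_mem hb hbb hy) hy

end Pool.Agent.Helper61.HP
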