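import Pool.Agent.Helper61.HO.CubApi

/-!
# HO-43  The subspace `X` of two orthogonal Cubs: algebra

`XX S T = {x | S (S x) = S x, T (T x) = T x}`, `qX S T 0 = (S S + S)/2`, `qX S T 1 = (T T + T)/2`, `qX S T 2 = 1 - S S - T T`.
All the proofs are direct computations from `S S S = S`, `T T T = T`, `S T = 0 = T S`.
`wt_pair`: with `p = pc S`, `p' = pc T`: `wt 1 p 1 (wt 1 p' (-1) K)` etc.: expand the sums over `Finset.Icc (-1) 1` (as `-1, 0, 1`)
and use `p j p' k = 0` unless `j = 0` or `k = 0`, `p j p' 0 = p j`, `p 0 p' k = p' k` for `j, k = ± 1`.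
-/

set_option autoImplicit false

open Filter Topology

namespace Pool.Agent.Helper61.HP

universe u

variable {E : Type u} [NormedAddCommGroup E] [NormedSpace ℂ E]

/-- the common part of the kernels of `S² - S` and `T² - T` -/
def XX (S T : E →L[ℂ] E) : Submodule ℂ E where
  carrier := {x | S (S x) = S x ∧ T (T x) = T x}
  add_mem' := by
    rintro x y ⟨hx, hx'⟩ ⟨hy, hy'⟩
    exact ⟨by simp only [map_add, hx, hy], by simp only [map_add, hx', hy']⟩
  zero_mem' := ⟨by simp, by simp⟩
  smul_mem' := by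
    rintro c x ⟨hx, hx'⟩
    exact ⟨by simp only [map_smul, hx], by simp only [map_smul, hx']⟩

/-- the three projections -/
noncomputable def qX (S T : E →L[ℂ] E) : Fin 3 → (E →L[ℂ] E) :=
  ![(1 / 2 : ℂ) • (S * S + S), (1 / 2 : ℂ) • (T * T + T), 1 - S * S - T * T]

variable {S T : E →L[ℂ] E}

theorem XX_closed (S T : E →L[ℂ] E) : IsClosed (XX S T : Set E) := by
  have h1 : IsClosed {x : E | S (S x) = S x} := isClosed_eq (by fun_prop) (by fun_prop)
  have h2 : IsClosed {x : E | T (T x) = T x} := isClosed_eq (by fun_prop) (by fun_prop)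
  exact h1.inter h2

theorem XX_symm (S T : E →L[ℂ] E) : XX S T = XX T S := by
  ext x
  exact and_comm

private theorem x3 (hS : Cub S) : S * (S * S) = S := by
  rw [← mul_assoc]
  exact hS.cube

private theorem x3x (hS : Cub S) (X : E →L[ℂ] E) : S * (S * (S * X)) = S * X := by
  rw [← mul_assoc S S (S * X), ← mul_assoc (S * S) S X, hS.cube]

private theorem q0 (S T : E →L[ℂ] E) : qX S T 0 = (1 / 2 : ℂ) • (S * S + S) := rfl

private theorem q1 (S T : E →L[ℂ] E) : qX S T 1 = (1 / 2 : ℂ) • (T * T + T) := rfl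

private theorem q2 (S T : E →L[ℂ] E) : qX S T 2 = 1 - S * S - T * T := rfl

theorem qX_idem (hS : Cub S) (hT : Cub T) (h : S * T = 0) (h' : T * S = 0) (i : Fin 3) :
    qX S T i * qX S T i = qX S T i := by
  have hx : ∀ X : E →L[ℂ] E, S * (T * X) = 0 := fun X => by rw [← mul_assoc, h, zero_mul]
  have hx' : ∀ X : E →L[ℂ] E, T * (S * X) = 0 := fun X => by rw [← mul_assoc, h', zero_mul]
  fin_cases i
  · change qX S T 0 * qX S T 0 = qX S T 0
    rw [q0]
    simp only [mul_add, add_mul, mul_assoc, smul_mul_assoc, mul_smul_comm, x3 hS]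
    module
  · change qX S T 1 * qX S T 1 = qX S T 1
    rw [q1]
    simp only [mul_add, add_mul, mul_assoc, smul_mul_assoc, mul_smul_comm, x3 hT]
    module
  · change qX S T 2 * qX S T 2 = qX S T 2
    rw [q2]
    simp only [mul_sub, sub_mul, mul_assoc, x3 hS, x3 hT, hx, hx', mul_zero, mul_one,
      one_mul]
    abel

theorem qX_orth (hS : Cub S) (hT : Cub T) (h : S * T = 0) (h' : T * S = 0) {i j : Fin 3}
    (hij : i ≠ j) : qX S T i * qX S T j = 0 := by
  have hx : ∀ X : E →L[ℂ] E, S * (T * X) = 0 := fun X => by rw [← mul_assoc, h, zero_mul]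
  have hx' : ∀ X : E →L[ℂ] E, T * (S * X) = 0 := fun X => by rw [← mul_assoc, h', zero_mul]
  fin_cases i <;> fin_cases j
  · exact absurd rfl hij
  · change qX S T 0 * qX S T 1 = 0
    rw [q0, q1]
    simp only [mul_add, add_mul, mul_assoc, smul_mul_assoc, mul_smul_comm, hx, h, mul_zero]
    module
  · change qX S T 0 * qX S T 2 = 0
    rw [q0, q2]
    simp only [mul_sub, add_mul, mul_assoc, smul_mul_assoc, hx, x3 hS, mul_zero, mul_one]
    module
  · change qX S T 1 * qX S T 0 = 0
    rw [q0, q1]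
    simp only [mul_add, add_mul, mul_assoc, smul_mul_assoc, mul_smul_comm, hx', h', mul_zero]
    module
  · exact absurd rfl hij
  · change qX S T 1 * qX S T 2 = 0
    rw [q1, q2]
    simp only [mul_sub, add_mul, mul_assoc, smul_mul_assoc, hx', x3 hT, mul_zero, mul_one]
    module
  · change qX S T 2 * qX S T 0 = 0
    rw [q0, q2]
    simp only [mul_add, sub_mul, mul_assoc, mul_smul_comm, hx', h', x3 hS, mul_zero, one_mul]
    module
  · change qX S T 2 * qX S T 1 = 0
    rw [q1, q2]
    simp only [mul_add, sub_mul, mul_assoc, mul_smul_comm, hx, h, x3 hT, mul_zero, one_mul]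
    module
  · exact absurd rfl hij

theorem qX_mem (hS : Cub S) (hT : Cub T) (h : S * T = 0) (h' : T * S = 0) (i : Fin 3) (x : E) :
    qX S T i x ∈ XX S T := by
  have hx : ∀ X : E →L[ℂ] E, S * (T * X) = 0 := fun X => by rw [← mul_assoc, h, zero_mul]
  have hx' : ∀ X : E →L[ℂ] E, T * (S * X) = 0 := fun X => by rw [← mul_assoc, h', zero_mul]
  have key : ∀ i, S * (S * qX S T i) = S * qX S T i ∧ T * (T * qX S T i) = T * qX S T i := by
    intro i
    fin_cases i
    · change S * (S * qX S T 0) = S * qX S T 0 ∧ T * (T * qX S T 0) = T * qX S T 0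
      rw [q0]
      simp only [mul_add, mul_smul_comm, x3 hS, h', hx', mul_zero, smul_zero, add_zero]
      exact ⟨by module, trivial⟩
    · change S * (S * qX S T 1) = S * qX S T 1 ∧ T * (T * qX S T 1) = T * qX S T 1
      rw [q1]
      simp only [mul_add, mul_smul_comm, x3 hT, h, hx, mul_zero, smul_zero, add_zero]
      exact ⟨trivial, by module⟩
    · change S * (S * qX S T 2) = S * qX S T 2 ∧ T * (T * qX S T 2) = T * qX S T 2
      rw [q2]
      simp only [mul_sub, x3 hS, x3 hT, hx, hx', mul_zero, mul_one, sub_zero, sub_self,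
        sub_self, and_self]
  obtain ⟨k1, k2⟩ := key i
  constructor
  · have e := congrArg (fun A : E →L[ℂ] E => A x) k1
    exact e
  · have e := congrArg (fun A : E →L[ℂ] E => A x) k2
    exact e

theorem qX_zero {x : E} (hx : x ∈ XX S T) : qX S T 0 x = S x := by
  change (1 / 2 : ℂ) • (S (S x) + S x) = S x
  rw [hx.1]
  module

theorem qX_one {x : E} (hx : x ∈ XX S T) : qX S T 1 x = T x := by
  change (1 / 2 : ℂ) • (T (T x) + T x) = T x
  rw [hx.2]
  module

private theorem qX_two {x : E} (hx : x ∈ XX S T) : qX S T 2 x = x - S x - T x := by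
  change x - S (S x) - T (T x) = x - S x - T x
  rw [hx.1, hx.2]

theorem qX_sum {x : E} (hx : x ∈ XX S T) : qX S T 0 x + qX S T 1 x + qX S T 2 x = x := by
  rw [qX_zero hx, qX_one hx, qX_two hx]
  abel

private theorem pc1 (S : E →L[ℂ] E) (x : E) : pc S 1 x = (1 / 2 : ℂ) • (S (S x) + S x) := by
  have e : pc S 1 = (1 / 2 : ℂ) • (S * S + S) := by simp [pc]
  rw [e]
  rfl

private theorem pcm (S : E →L[ℂ] E) (x : E) : pc S (-1) x = (1 / 2 : ℂ) • (S (S x) - S x) := by
  have e : pc S (-1) = (1 / 2 : ℂ) • (S * S - S) := by simp [pc]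
  rw [e]
  rfl

private theorem pc0 (S : E →L[ℂ] E) (x : E) : pc S 0 x = x - S (S x) := by
  have e : pc S 0 = 1 - S * S := by simp [pc]
  rw [e]
  rfl

private theorem icc3 : Finset.Icc (-((1 : ℕ) : ℤ)) ((1 : ℕ) : ℤ) = {-1, 0, 1} := by
  decide

private theorem wt_one (S M : E →L[ℂ] E) (x : E) :
    wt 1 (pc S) 1 M x = pc S 0 (M (pc S (-1) x)) + pc S 1 (M (pc S 0 x)) := by
  have e2 : pc S (1 + 1) = 0 := by simp [pc]
  unfold wt
  rw [icc3, Finset.sum_insert (by decide), Finset.sum_insert (by decide), Finset.sum_singleton,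
    e2, zero_mul, zero_mul, add_zero]
  rfl

private theorem wt_neg (S M : E →L[ℂ] E) (x : E) :
    wt 1 (pc S) (-1) M x = pc S (-1) (M (pc S 0 x)) + pc S 0 (M (pc S 1 x)) := by
  have e2 : pc S (-1 + -1) = 0 := by simp [pc]
  unfold wt
  rw [icc3, Finset.sum_insert (by decide), Finset.sum_insert (by decide), Finset.sum_singleton,
    e2, zero_mul, zero_mul, zero_add]
  rfl

private theorem wt_zero (S M : E →L[ℂ] E) (x : E) :
    wt 1 (pc S) 0 M x = pc S (-1) (M (pc S (-1) x)) + pc S 0 (M (pc S 0 x)) +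
      pc S 1 (M (pc S 1 x)) := by
  unfold wt
  rw [icc3, Finset.sum_insert (by decide), Finset.sum_insert (by decide), Finset.sum_singleton,
    ← add_assoc]
  rfl

/-- the double weight components -/
theorem wt_pair (hS : Cub S) (hT : Cub T) (h : S * T = 0) (h' : T * S = 0) (K : E →L[ℂ] E) :
    (∀ x ∈ XX S T, wt 1 (pc S) 1 (wt 1 (pc T) (-1) K) x = qX S T 0 (K (qX S T 1 x))) ∧
    (∀ x ∈ XX S T, wt 1 (pc S) (-1) (wt 1 (pc T) 1 K) x = qX S T 1 (K (qX S T 0 x))) ∧
    (∀ x ∈ XX S T, wt 1 (pc S) 1 (wt 1 (pc T) 0 K) x = qX S T 0 (K (qX S T 2 x))) ∧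
    (∀ x ∈ XX S T, wt 1 (pc S) (-1) (wt 1 (pc T) 0 K) x =
      qX S T 2 (K (qX S T 0 x)) + pc S (-1) (K (qX S T 2 x))) := by
  have a1 : ∀ y : E, S (T y) = 0 := fun y => congrArg (fun A : E →L[ℂ] E => A y) h
  have a2 : ∀ y : E, T (S y) = 0 := fun y => congrArg (fun A : E →L[ℂ] E => A y) h'
  have m0 : ∀ x ∈ XX S T, pc S (-1) x = 0 := fun x hx => by
    rw [pcm, hx.1, sub_self, smul_zero]
  have m1 : ∀ x ∈ XX S T, pc S 1 x = S x := fun x hx => by
    rw [pc1, hx.1]
    module
  have m2 : ∀ x ∈ XX S T, pc S 0 x = x - S x := fun x hx => by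
    rw [pc0, hx.1]
  -- products of the projections
  have b1 : ∀ y, pc S 1 (pc T (-1) y) = 0 := fun y => by
    rw [pcm, pc1]
    simp only [map_smul, map_sub, a1, map_zero, sub_self, smul_zero, add_zero]
  have b2 : ∀ y, pc S 1 (pc T 1 y) = 0 := fun y => by
    rw [pc1 T, pc1]
    simp only [map_smul, map_add, a1, map_zero, smul_zero, add_zero]
  have b3 : ∀ y, pc S 1 (pc T 0 y) = pc S 1 y := fun y => by
    rw [pc0, pc1, pc1]
    simp only [map_sub, a1, map_zero, sub_zero]
  have b4 : ∀ y, pc S (-1) (pc T (-1) y) = 0 := fun y => by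
    rw [pcm T, pcm]
    simp only [map_smul, map_sub, a1, map_zero, sub_self, smul_zero]
  have b5 : ∀ y, pc S (-1) (pc T 1 y) = 0 := fun y => by
    rw [pc1, pcm]
    simp only [map_smul, map_add, a1, map_zero, smul_zero, add_zero, sub_self]
  have b6 : ∀ y, pc S (-1) (pc T 0 y) = pc S (-1) y := fun y => by
    rw [pc0, pcm, pcm]
    simp only [map_sub, a1, map_zero, sub_zero]
  have b7 : ∀ y, pc S 0 (pc T 1 y) = pc T 1 y := fun y => by
    rw [pc1, pc0]
    simp only [map_smul, map_add, a1, map_zero, smul_zero, add_zero, sub_zero]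
  have b8 : ∀ y, pc S 0 (pc T (-1) y) = pc T (-1) y := fun y => by
    rw [pcm, pc0]
    simp only [map_smul, map_sub, a1, map_zero, smul_zero, sub_self, sub_zero]
  have b9 : ∀ y, pc S 0 (pc T 0 y) = qX S T 2 y := fun y => by
    rw [pc0, pc0]
    change y - T (T y) - S (S (y - T (T y))) = y - S (S y) - T (T y)
    simp only [map_sub, a1, map_zero, sub_zero]
    abel
  have c0 : ∀ y, qX S T 0 y = pc S 1 y := fun y => by
    rw [pc1]
    rfl
  have c1 : ∀ y, qX S T 1 y = pc T 1 y := fun y => by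
    rw [pc1]
    rfl
  -- values of the projections of T
  have d1 : ∀ x ∈ XX S T, pc T 1 (x - S x) = qX S T 1 x := fun x hx => by
    rw [c1, pc1, pc1]
    simp only [map_sub, a2, map_zero, sub_zero]
  have d2 : ∀ x ∈ XX S T, pc T (-1) (x - S x) = 0 := fun x hx => by
    rw [pcm]
    simp only [map_sub, a2, map_zero, sub_zero, hx.2, sub_self, smul_zero]
  have d3 : ∀ x ∈ XX S T, pc T 0 (x - S x) = qX S T 2 x := fun x hx => by
    rw [qX_two hx, pc0]
    simp only [map_sub, a2, map_zero, sub_zero, hx.2]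
  have d4 : ∀ x, pc T (-1) (S x) = 0 := fun x => by
    rw [pcm]
    simp only [a2, map_zero, sub_self, smul_zero]
  have d5 : ∀ x, pc T 1 (S x) = 0 := fun x => by
    rw [pc1]
    simp only [a2, map_zero, add_zero, smul_zero]
  have d6 : ∀ x, pc T 0 (S x) = S x := fun x => by
    rw [pc0]
    simp only [a2, map_zero, sub_zero]
  refine ⟨?_, ?_, ?_, ?_⟩
  · intro x hx
    rw [wt_one, m0 x hx, map_zero, map_zero, zero_add, m2 x hx, wt_neg, map_add, b1, b3, zero_add,
      d1 x hx, c0]
  · intro x hx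
    rw [wt_neg, m1 x hx, m2 x hx, wt_one, wt_one, map_add, map_add, b6, b5, b7, d2 x hx, d4, d6,
      map_zero, map_zero, zero_add, map_zero, map_zero, zero_add, zero_add, c1,
      qX_zero hx]
  · intro x hx
    rw [wt_one, m0 x hx, map_zero, map_zero, zero_add, m2 x hx, wt_zero, map_add, map_add, b1, b2,
      b3, zero_add, add_zero, d3 x hx, c0]
  · intro x hx
    rw [wt_neg, m1 x hx, m2 x hx, wt_zero, wt_zero, map_add, map_add, map_add, map_add, b4, b5, b6,
      b7, b8, b9, d4, d5, d6, d3 x hx]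
    simp only [map_zero, zero_add, add_zero]
    rw [qX_zero hx, add_comm]

end Pool.Agent.Helper61.HP
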