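import Pool.Agent.Helper61.HO.YFApi
import Pool.Agent.Helper61.HO.SineBound

/-!
# HO-23  The sine of an element of norm `≤ 4 ‖h‖` has norm `≤ 4 ‖h‖`

PROOF of `hasSum_YF_sin`. `F₀ = (π/4) F`. With `f t = F₀ t / √t`, `u t = F₀ t ^ 2` (test functions):
`F₀^(2n+1) / √t = f u^n`, `∑ (-4)^n / (2n+1)! f u^n = (1/2) sin(2 F₀) / √t` (pointwise, sine series), which is a test function
(`PT.comp`, `PT.test`); `Phi_hasSum` with `c n = (-4)^n / (2n+1)!` gives convergence of the operators, apply them to `b`. The same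
for `YF'` (compose with `t ↦ -t`). `2 F₀ = (π/2) F`.

PROOF of `norm_YF_sin`. `κ = YF F₀ = (π/4) YF F`, `κ' = YF' F₀`, `x n = YF (F₀^(2n+1))`, `x' n = YF' (F₀^(2n+1))`. Hypotheses of
`sine_bound`: `Skew (κ - κ')` (`Pr.skew`); `lie (x 0) (x n) = 0` (`IsAb.comm`, `YF_mem`), `lie (x' 0) (x' n) = 0` (stars);
`hτ`: `lie_YF_congr`; `h1`, `h2`: `triple_YF`, `triple_YF'` (`F₀^(2n+1) F₀ F₀ = F₀^(2(n+1)+1)`). So with
`G = (1/2) YF (sin((π/2) F))`, `G' = (1/2) YF' (...)`: `‖G + G'‖ ≤ ‖h‖ + ‖r + r'‖`, `r = lie h κ - κ`,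
`r' = lie κ' h - κ'`, `Pr 𝔥 r r'`, `‖r‖ ≤ ε ‖κ‖ ≤ ε π ‖h‖` (`IsAb.near`, `‖YF F‖ ≤ 4 ‖h‖`), `‖r'‖ ≤ 6 ‖r‖`; so
`‖r + r'‖ ≤ 7 ε π ‖h‖ ≤ ‖h‖` because `ε ≤ 1/30` and `7 π ≤ 22`. Hence `‖G + G'‖ ≤ 2 ‖h‖`. The same with `i κ`, i.e.
`x n = i YF (F₀^(2n+1))`, `x' n = - i YF' (F₀^(2n+1))` (all hypotheses of `sine_bound` are easily checked; `-i * i = 1`):
`‖i G - i G'‖ ≤ 2 ‖h‖`. So `‖2 G‖ ≤ 4 ‖h‖`.
-/

set_option autoImplicit false

open Filter Topology MeasureTheory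

namespace Pool.Agent.Helper61.HP

universe u

variable {E : Type u} [NormedAddCommGroup E] [NormedSpace ℂ E] [CompleteSpace E]
  {𝔥 : Set (E →L[ℂ] E)} {h b b' : E →L[ℂ] E} {ε : ℝ} {𝔅 : Submodule ℂ (E →L[ℂ] E)}
  {F : ℝ → ℝ}

private theorem sin_coeff_summable (R : ℝ) :
    Summable fun n : ℕ => ‖((-4 : ℂ) ^ n * ((2 * n + 1).factorial : ℂ)⁻¹)‖ * R ^ n := by
  have h0 := Real.summable_pow_div_factorial (4 * |R|)
  refine Summable.of_norm_bounded h0 fun n => ?_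
  have h1 : (0 : ℝ) < (n.factorial : ℝ) := by positivity
  have h2 : ((n.factorial : ℕ) : ℝ) ≤ (((2 * n + 1).factorial : ℕ) : ℝ) := by
    exact_mod_cast Nat.factorial_le (by omega)
  have h3 : ((((2 * n + 1).factorial : ℕ) : ℝ))⁻¹ ≤ ((n.factorial : ℕ) : ℝ)⁻¹ :=
    inv_anti₀ h1 h2
  have h4 : ‖((-4 : ℂ) ^ n * ((2 * n + 1).factorial : ℂ)⁻¹)‖ =
      4 ^ n * ((((2 * n + 1).factorial : ℕ) : ℝ))⁻¹ := by
    rw [norm_mul, norm_pow, norm_inv, norm_neg, Complex.norm_natCast]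
    norm_num
  rw [h4, norm_mul, norm_mul, norm_pow, norm_pow, norm_inv, Real.norm_eq_abs R, mul_pow,
    div_eq_mul_inv]
  have h5 : (0 : ℝ) ≤ 4 ^ n * |R| ^ n := by positivity
  have h6 : ‖(4 : ℝ)‖ = 4 := by norm_num
  have h7 : ‖((((2 * n + 1).factorial : ℕ) : ℝ))‖ = (((2 * n + 1).factorial : ℕ) : ℝ) :=
    Real.norm_of_nonneg (by positivity)
  rw [h6, h7]
  calc (4 : ℝ) ^ n * ((((2 * n + 1).factorial : ℕ) : ℝ))⁻¹ * |R| ^ n
      = 4 ^ n * |R| ^ n * ((((2 * n + 1).factorial : ℕ) : ℝ))⁻¹ := by ring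
    _ ≤ 4 ^ n * |R| ^ n * ((n.factorial : ℕ) : ℝ)⁻¹ := mul_le_mul_of_nonneg_left h3 h5

/-- the sine series divided by a number -/
private theorem sin_series (y s : ℝ) :
    HasSum (fun n : ℕ => ((-4 : ℂ) ^ n * ((2 * n + 1).factorial : ℂ)⁻¹) *
        (((y / s : ℝ) : ℂ) * (((y ^ 2 : ℝ) : ℂ)) ^ n))
      (((1 / 2 * Real.sin (2 * y) / s : ℝ) : ℂ)) := by
  have h := (Real.hasSum_sin (2 * y)).mul_left (1 / 2 / s)
  have h1 : HasSum (fun n : ℕ => (-4 : ℝ) ^ n * (((2 * n + 1).factorial : ℝ))⁻¹ *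
      (y / s * (y ^ 2) ^ n)) (1 / 2 * Real.sin (2 * y) / s) := by
    have e : 1 / 2 / s * Real.sin (2 * y) = 1 / 2 * Real.sin (2 * y) / s := by ring
    rw [← e]
    refine h.congr_fun ?_
    intro n
    have e2 : (2 * y) ^ (2 * n + 1) = 2 * 4 ^ n * (y * (y ^ 2) ^ n) := by
      rw [pow_succ, pow_mul, mul_pow 2 y 2, mul_pow]
      norm_num
      ring
    have e3 : (-4 : ℝ) ^ n = (-1) ^ n * 4 ^ n := by
      rw [← mul_pow]
      norm_num
    rw [e2, e3]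
    ring
  have h2 := (Complex.hasSum_ofReal.2 h1)
  refine h2.congr_fun ?_
  intro n
  push_cast
  ring

private theorem odd_split (y s : ℝ) (n : ℕ) : ((y ^ (2 * n + 1) / s : ℝ) : ℂ) =
    ((y / s : ℝ) : ℂ) * ((y ^ 2 : ℝ) : ℂ) ^ n := by
  push_cast
  ring

theorem hasSum_YF_sin (hh : HLie 𝔥) (hbb : Pr 𝔥 b b') (hF : PT F) :
    HasSum (fun n : ℕ => ((-4 : ℂ) ^ n * ((2 * n + 1).factorial : ℂ)⁻¹) •
        YF b b' (fun t => (Real.pi / 4 * F t) ^ (2 * n + 1)))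
      ((1 / 2 : ℂ) • YF b b' (fun t => Real.sin (Real.pi / 2 * F t))) ∧
    HasSum (fun n : ℕ => ((-4 : ℂ) ^ n * ((2 * n + 1).factorial : ℂ)⁻¹) •
        YF' b b' (fun t => (Real.pi / 4 * F t) ^ (2 * n + 1)))
      ((1 / 2 : ℂ) • YF' b b' (fun t => Real.sin (Real.pi / 2 * F t))) := by
  have hA : Herm (Lop b b') := herm_Lop hh hbb
  have hF0 : PT (fun t => Real.pi / 4 * F t) := hF.smul _
  have hsin : PT (fun t => Real.sin (Real.pi / 2 * F t)) :=
    hF.comp (φ := fun x => Real.sin (Real.pi / 2 * x))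
      (Real.contDiff_sin.comp (contDiff_const.mul contDiff_id)) (by simp)
  have hf := hF0.test
  have hf' := hF0.test'
  have hsq : PT (fun t => (Real.pi / 4 * F t) ^ 2) := hF0.pow (by norm_num)
  have hu : Test (fun t => (((Real.pi / 4 * F t) ^ 2 : ℝ) : ℂ)) := by
    obtain ⟨h1, h2, -⟩ := hsq
    refine ⟨Complex.ofRealCLM.contDiff.comp h1, h2.comp_left (g := fun x : ℝ => (x : ℂ)) ?_⟩
    simp
  have hu' : Test (fun t => (((Real.pi / 4 * F (-t)) ^ 2 : ℝ) : ℂ)) := hu.comp_neg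
  have hg : Test (fun t => ((1 / 2 * Real.sin (2 * (Real.pi / 4 * F t)) / Real.sqrt t : ℝ) : ℂ)) := by
    have h1 := hsin.test.smul (1 / 2)
    refine (congrArg Test ?_).mp h1
    funext t
    have e : Real.pi / 2 * F t = 2 * (Real.pi / 4 * F t) := by ring
    rw [e]
    push_cast
    ring
  have hg' : Test (fun t => ((1 / 2 * Real.sin (2 * (Real.pi / 4 * F (-t))) /
      Real.sqrt (-t) : ℝ) : ℂ)) := hg.comp_neg
  have key := Phi_hasSum hA hf hu hg (fun n : ℕ => ((-4 : ℂ) ^ n * ((2 * n + 1).factorial : ℂ)⁻¹))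
    sin_coeff_summable (fun t => sin_series _ _)
  have key' := Phi_hasSum hA hf' hu' hg'
    (fun n : ℕ => ((-4 : ℂ) ^ n * ((2 * n + 1).factorial : ℂ)⁻¹))
    sin_coeff_summable (fun t => sin_series _ _)
  constructor
  · have h1 := (ContinuousLinearMap.apply ℂ (E →L[ℂ] E) b).hasSum key
    have e1 : ∀ n : ℕ, (((-4 : ℂ) ^ n * ((2 * n + 1).factorial : ℂ)⁻¹) •
        YF b b' (fun t => (Real.pi / 4 * F t) ^ (2 * n + 1))) =
        (ContinuousLinearMap.apply ℂ (E →L[ℂ] E) b) (((-4 : ℂ) ^ n * ((2 * n + 1).factorial : ℂ)⁻¹) •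
          Phi (Lop b b') (fun t => ((Real.pi / 4 * F t / Real.sqrt t : ℝ) : ℂ) *
            (((Real.pi / 4 * F t) ^ 2 : ℝ) : ℂ) ^ n)) := by
      intro n
      rw [ContinuousLinearMap.apply_apply, _root_.smul_apply]
      unfold YF
      congr 3
      funext t
      exact odd_split _ _ _
    have e2 : ((1 / 2 : ℂ) • YF b b' (fun t => Real.sin (Real.pi / 2 * F t))) =
        (ContinuousLinearMap.apply ℂ (E →L[ℂ] E) b) (Phi (Lop b b')
          (fun t => ((1 / 2 * Real.sin (2 * (Real.pi / 4 * F t)) / Real.sqrt t : ℝ) : ℂ))) := by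
      rw [ContinuousLinearMap.apply_apply]
      unfold YF
      rw [← _root_.smul_apply, ← Phi_smul hA hsin.test]
      congr 2
      funext t
      have e : Real.pi / 2 * F t = 2 * (Real.pi / 4 * F t) := by ring
      rw [e]
      push_cast
      ring
    rw [e2]
    exact h1.congr_fun e1
  · have h1 := (ContinuousLinearMap.apply ℂ (E →L[ℂ] E) b').hasSum key'
    have e1 : ∀ n : ℕ, (((-4 : ℂ) ^ n * ((2 * n + 1).factorial : ℂ)⁻¹) •
        YF' b b' (fun t => (Real.pi / 4 * F t) ^ (2 * n + 1))) =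
        (ContinuousLinearMap.apply ℂ (E →L[ℂ] E) b') (((-4 : ℂ) ^ n * ((2 * n + 1).factorial : ℂ)⁻¹) •
          Phi (Lop b b') (fun t => ((Real.pi / 4 * F (-t) / Real.sqrt (-t) : ℝ) : ℂ) *
            (((Real.pi / 4 * F (-t)) ^ 2 : ℝ) : ℂ) ^ n)) := by
      intro n
      rw [ContinuousLinearMap.apply_apply, _root_.smul_apply]
      unfold YF'
      congr 3
      funext t
      exact odd_split _ _ _
    have e2 : ((1 / 2 : ℂ) • YF' b b' (fun t => Real.sin (Real.pi / 2 * F t))) =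
        (ContinuousLinearMap.apply ℂ (E →L[ℂ] E) b') (Phi (Lop b b')
          (fun t => ((1 / 2 * Real.sin (2 * (Real.pi / 4 * F (-t))) /
            Real.sqrt (-t) : ℝ) : ℂ))) := by
      rw [ContinuousLinearMap.apply_apply]
      unfold YF'
      rw [← _root_.smul_apply, ← Phi_smul hA hsin.test']
      congr 2
      funext t
      have e : Real.pi / 2 * F (-t) = 2 * (Real.pi / 4 * F (-t)) := by ring
      rw [e]
      push_cast
      ring
    rw [e2]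
    exact h1.congr_fun e1

omit [CompleteSpace E] in
private theorem lie_smul_smul (a c : ℂ) (A B : E →L[ℂ] E) :
    lie (a • A) (c • B) = (a * c) • lie A B := by
  unfold lie
  rw [smul_mul_smul_comm, smul_mul_smul_comm, mul_comm c a, smul_sub]

omit [CompleteSpace E] in
private theorem lie_anti (A B : E →L[ℂ] E) : lie A B = -lie B A := by
  unfold lie
  rw [neg_sub]

private theorem unimod_bound (hh : HLie 𝔥) (hB : IsAb 𝔥 h ε 𝔅) (hε : ε ≤ 1 / 30) (hb : b ∈ 𝔅)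
    (hbb : Pr 𝔥 b b') (hF : PT F) (hn : ‖YF b b' F‖ ≤ 4 * ‖h‖) (c : ℂ)
    (hc : c * (starRingEnd ℂ) c = 1) (hc1 : ‖c‖ = 1) :
    ‖c • ((1 / 2 : ℂ) • YF b b' (fun t => Real.sin (Real.pi / 2 * F t))) +
      (starRingEnd ℂ) c • ((1 / 2 : ℂ) • YF' b b' (fun t => Real.sin (Real.pi / 2 * F t)))‖ ≤
      2 * ‖h‖ := by
  have hF0 : PT (fun t => Real.pi / 4 * F t) := hF.smul _
  have hP : ∀ n : ℕ, PT (fun t => (Real.pi / 4 * F t) ^ (2 * n + 1)) := fun n =>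
    hF0.pow (by omega)
  obtain ⟨hs1, hs2⟩ := hasSum_YF_sin (𝔥 := 𝔥) hh hbb hF
  set X : ℕ → E →L[ℂ] E := fun n => YF b b' (fun t => (Real.pi / 4 * F t) ^ (2 * n + 1)) with hX
  set X' : ℕ → E →L[ℂ] E := fun n => YF' b b' (fun t => (Real.pi / 4 * F t) ^ (2 * n + 1))
    with hX'
  have hXm : ∀ n, X n ∈ 𝔅 := fun n => YF_mem hh hB hb hbb (hP n)
  have hXX : ∀ n, Pr 𝔥 (X n) (X' n) := fun n => pr_YF hh hbb (hP n)
  have hc0 : ∀ n, lie (X 0) (X n) = 0 := by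
    intro n
    unfold lie
    rw [hB.comm _ (hXm 0) _ (hXm n), sub_self]
  have hc0' : ∀ n, lie (X' n) (X' 0) = 0 := by
    intro n
    have h1 := (hXX 0).lie hh (hXX n)
    rw [hc0] at h1
    exact h1.unique hh (Pr.zero hh)
  have hτ : ∀ n, lie (X n) (X' 0) = lie (X 0) (X' n) := fun n =>
    lie_YF_congr hh hB hb hbb (hP n) (hP 0) (hP 0) (hP n) (fun t => by ring)
  have h1 : ∀ n, lie (lie (X n) (X' 0)) (X 0) = (2 : ℂ) • X (n + 1) := by
    intro n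
    have e := triple_YF hh hB hb hbb (hP n) (hP 0) (hP 0)
    rw [hX, hX']
    simp only at e ⊢
    rw [e]
    congr 2
    funext t
    ring
  have h2 : ∀ n, lie (lie (X n) (X' 0)) (X' 0) = -((2 : ℂ) • X' (n + 1)) := by
    intro n
    have e := triple_YF' hh hB hb hbb (hP n) (hP 0) (hP 0)
    rw [hX, hX']
    simp only at e ⊢
    rw [e]
    congr 3
    funext t
    ring
  have key := sine_bound (x := fun n => c • X n) (x' := fun n => (starRingEnd ℂ) c • X' n)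
    (((hXX 0).smul hh c).skew hh)
    (fun n => by rw [lie_smul_smul, hc0, smul_zero])
    (fun n => by rw [lie_smul_smul, lie_anti, hc0', neg_zero, smul_zero])
    (fun n => by rw [lie_smul_smul, lie_smul_smul, hτ])
    (fun n => by rw [lie_smul_smul, hc, one_smul, ← one_smul ℂ (lie (X n) (X' 0)),
      lie_smul_smul, one_mul, h1, smul_comm])
    (fun n => by rw [lie_smul_smul, hc, one_smul, ← one_smul ℂ (lie (X n) (X' 0)),
      lie_smul_smul, one_mul, h2, smul_neg, smul_comm])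
    h
    (G := c • ((1 / 2 : ℂ) • YF b b' (fun t => Real.sin (Real.pi / 2 * F t))))
    (G' := (starRingEnd ℂ) c • ((1 / 2 : ℂ) • YF' b b' (fun t => Real.sin (Real.pi / 2 * F t))))
    (by
      have := hs1.const_smul c
      refine this.congr_fun ?_
      intro n
      rw [smul_comm])
    (by
      have := hs2.const_smul ((starRingEnd ℂ) c)
      refine this.congr_fun ?_
      intro n
      rw [smul_comm])
  have hp : Pr 𝔥 (c • X 0) ((starRingEnd ℂ) c • X' 0) := (hXX 0).smul hh c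
  have hhh : Pr 𝔥 h h := Pr.of_mem hh hB.mem
  have hr : Pr 𝔥 (lie h (c • X 0) - c • X 0)
      (lie ((starRingEnd ℂ) c • X' 0) h - (starRingEnd ℂ) c • X' 0) :=
    (hhh.lie hh hp).sub hh hp
  have hr6 := hr.norm_le hh
  have hnear := hB.near (c • X 0) (𝔅.smul_mem c (hXm 0))
  have hX0 : ‖c • X 0‖ ≤ Real.pi * ‖h‖ := by
    have e : X 0 = ((Real.pi / 4 : ℝ) : ℂ) • YF b b' F := by
      rw [← YF_smul hh hbb hF]
      simp only [hX, Nat.mul_zero, zero_add, pow_one]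
    have hpi : (0 : ℝ) ≤ Real.pi / 4 := by positivity
    rw [norm_smul, hc1, one_mul, e, norm_smul, Complex.norm_real, Real.norm_of_nonneg hpi]
    calc Real.pi / 4 * ‖YF b b' F‖ ≤ Real.pi / 4 * (4 * ‖h‖) :=
          mul_le_mul_of_nonneg_left hn hpi
      _ = Real.pi * ‖h‖ := by ring
  have hh0 : 0 ≤ ‖h‖ := norm_nonneg _
  have hX00 : 0 ≤ ‖c • X 0‖ := norm_nonneg _
  have hb1 : ‖lie h (c • X 0) - c • X 0‖ ≤ 1 / 30 * (Real.pi * ‖h‖) :=
    hnear.trans ((mul_le_mul_of_nonneg_right hε hX00).trans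
      (mul_le_mul_of_nonneg_left hX0 (by norm_num)))
  have hpi4 : Real.pi ≤ 3.15 := Real.pi_lt_d2.le
  have hb2 : Real.pi * ‖h‖ ≤ 3.15 * ‖h‖ := mul_le_mul_of_nonneg_right hpi4 hh0
  have hb3 := norm_add_le (lie h (c • X 0) - c • X 0)
    (lie ((starRingEnd ℂ) c • X' 0) h - (starRingEnd ℂ) c • X' 0)
  refine key.trans ?_
  linarith

theorem norm_YF_sin (hh : HLie 𝔥) (hB : IsAb 𝔥 h ε 𝔅) (hε : ε ≤ 1 / 30) (hb : b ∈ 𝔅)
    (hbb : Pr 𝔥 b b') (hF : PT F) (hn : ‖YF b b' F‖ ≤ 4 * ‖h‖) :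
    ‖YF b b' (fun t => Real.sin (Real.pi / 2 * F t))‖ ≤ 4 * ‖h‖ := by
  have k1 := unimod_bound hh hB hε hb hbb hF hn 1 (by simp) (by simp)
  have k2 := unimod_bound hh hB hε hb hbb hF hn Complex.I (by simp) (by simp)
  set S := YF b b' (fun t => Real.sin (Real.pi / 2 * F t)) with hS
  set S' := YF' b b' (fun t => Real.sin (Real.pi / 2 * F t)) with hS'
  have e : S = ((1 : ℂ) • ((1 / 2 : ℂ) • S) + (starRingEnd ℂ) 1 • ((1 / 2 : ℂ) • S')) +
      (-Complex.I) • (Complex.I • ((1 / 2 : ℂ) • S) +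
        (starRingEnd ℂ) Complex.I • ((1 / 2 : ℂ) • S')) := by
    rw [map_one, Complex.conj_I, smul_add, smul_smul, smul_smul, smul_smul, smul_smul, smul_smul,
      smul_smul]
    have i1 : -Complex.I * Complex.I * (1 / 2) = (1 / 2 : ℂ) := by
      rw [neg_mul, Complex.I_mul_I]
      norm_num
    have i2 : -Complex.I * -Complex.I * (1 / 2) = -(1 / 2 : ℂ) := by
      rw [neg_mul_neg, Complex.I_mul_I]
      norm_num
    rw [i1, i2, one_mul, neg_smul]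
    have i3 : (1 / 2 : ℂ) • S + (1 / 2 : ℂ) • S = S := by
      rw [← add_smul]
      norm_num
    nth_rewrite 1 [← i3]
    abel
  have k3 : ‖(-Complex.I) • (Complex.I • ((1 / 2 : ℂ) • S) +
        (starRingEnd ℂ) Complex.I • ((1 / 2 : ℂ) • S'))‖ ≤ 2 * ‖h‖ := by
    rw [norm_smul, norm_neg, Complex.norm_I, one_mul]
    exact k2
  rw [e]
  refine (norm_add_le _ _).trans ?_
  linarith

end Pool.Agent.Helper61.HP
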